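import Pool.Agent.Y688.H2

/-!
# The theorem on twisted L-functions
-/

set_option autoImplicit false
set_option linter.unusedSectionVars false

open Complex NumberField IsDedekindDomain Filter Topology
open scoped PeriodPair

namespace Pool.Agent.Y688

open Pool.Agent.W192.HK Pool.Agent.TH936.CM H667R3

variable {F : Type*} [Field F] [NumberField F] {a b : F} {τ1 τ2 : F →+* ℂ}

lemma exists_Em (hF : Module.finrank ℚ F = 4) (ha : ∃ a : F, a ^ 2 = -3) (hb : ∃ b : F, b ^ 2 = -7) :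
    ∃ (a b : F) (τ1 τ2 : F →+* ℂ), Em a b τ1 τ2 := by
  obtain ⟨a, ha⟩ := ha
  obtain ⟨b, hb⟩ := hb
  obtain ⟨τ1, τ2, h1, h2, h3, h4⟩ := exists_emb hF ha hb
  exact ⟨a, b, τ1, τ2, ⟨hF, ha, hb, h1, h2, h3, h4⟩⟩

/-- the function on the ring attached to a ray class character -/
noncomputable def ofX (m : 𝓞 F) (X : Ideal (𝓞 F) →* ℂ) (α : 𝓞 F) : ℂ := by
  classical
  exact if α = 0 then (if IsUnit m then 1 else 0) else X (Ideal.span {α})

lemma ofX_ne {m : 𝓞 F} {X : Ideal (𝓞 F) →* ℂ} {α : 𝓞 F} (h : α ≠ 0) :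
    ofX m X α = X (Ideal.span {α}) := by
  unfold ofX
  rw [if_neg h]

lemma ofX_zero {m : 𝓞 F} {X : Ideal (𝓞 F) →* ℂ} (h : ¬ IsUnit m) : ofX m X 0 = 0 := by
  unfold ofX
  rw [if_pos rfl, if_neg h]

lemma ofX_unit {m : 𝓞 F} {X : Ideal (𝓞 F) →* ℂ} (h : IsUnit m)
    (hray : ∀ α : 𝓞 F, α ≠ 0 → α - 1 ∈ Ideal.span {m} → X (Ideal.span {α}) = 1) (α : 𝓞 F) :
    ofX m X α = 1 := by
  by_cases h0 : α = 0
  · unfold ofX
    rw [if_pos h0, if_pos h]
  · rw [ofX_ne h0]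
    refine hray α h0 ?_
    rw [Ideal.span_singleton_eq_top.2 h]
    trivial

lemma ofX_RC {m : 𝓞 F} {X : Ideal (𝓞 F) →* ℂ}
    (hzero : ∀ I : Ideal (𝓞 F), I ≠ ⊥ → ¬ IsCoprime I (Ideal.span {m}) → X I = 0)
    (hray : ∀ α : 𝓞 F, α ≠ 0 → α - 1 ∈ Ideal.span {m} → X (Ideal.span {α}) = 1)
    (hord : ∃ n : ℕ, ∀ I : Ideal (𝓞 F), I ≠ ⊥ → IsCoprime I (Ideal.span {m}) → X I ^ 2 ^ n = 1) :
    RC m (ofX m X) := by
  by_cases hm : IsUnit m
  · refine ⟨fun α β => ?_, fun u => ?_, fun α β _ => ?_, fun α h => ?_, fun α _ => ⟨0, ?_⟩⟩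
    · rw [ofX_unit hm hray, ofX_unit hm hray, ofX_unit hm hray, one_mul]
    · rw [ofX_unit hm hray]
    · rw [ofX_unit hm hray, ofX_unit hm hray]
    · exfalso
      apply h
      obtain ⟨u, hu⟩ := hm
      exact ⟨0, ((u⁻¹ : (𝓞 F)ˣ) : 𝓞 F), by rw [← hu, Units.inv_mul]; ring⟩
    · rw [ofX_unit hm hray, one_pow]
  · have hmul : ∀ α β : 𝓞 F, ofX m X (α * β) = ofX m X α * ofX m X β := by
      intro α β
      by_cases h1 : α = 0
      · rw [h1, zero_mul, ofX_zero hm, zero_mul]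
      · by_cases h2 : β = 0
        · rw [h2, mul_zero, ofX_zero hm, mul_zero]
        · rw [ofX_ne h1, ofX_ne h2, ofX_ne (mul_ne_zero h1 h2), ← map_mul,
            Ideal.span_singleton_mul_span_singleton]
    have hz : ∀ α : 𝓞 F, ¬ IsCoprime α m → ofX m X α = 0 := by
      intro α hα
      by_cases h1 : α = 0
      · rw [h1, ofX_zero hm]
      · rw [ofX_ne h1]
        refine hzero _ (by rwa [Ne, Ideal.span_singleton_eq_bot]) ?_
        rwa [Ideal.isCoprime_span_singleton_iff]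
    have hone : ∀ α : 𝓞 F, m ∣ α - 1 → ofX m X α = 1 := by
      intro α hα
      have h1 : α ≠ 0 := by
        rintro rfl
        apply hm
        rw [zero_sub, dvd_neg] at hα
        exact isUnit_of_dvd_one hα
      rw [ofX_ne h1]
      exact hray α h1 (Ideal.mem_span_singleton.2 hα)
    refine ⟨hmul, fun u => ?_, fun α β hαβ => ?_, hz, fun α hα => ?_⟩
    · rw [ofX_ne u.ne_zero, Ideal.span_singleton_eq_top.2 u.isUnit, ← Ideal.one_eq_top, map_one]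
    · by_cases hα : IsCoprime α m
      · obtain ⟨c, d, hcd⟩ := hα
        have h1 : ofX m X (α * c) = 1 := hone _ ⟨-d, by linear_combination hcd⟩
        have h2 : ofX m X (β * c) = 1 := by
          obtain ⟨e, he⟩ := hαβ
          exact hone _ ⟨-d - e * c, by linear_combination hcd - c * he⟩
        rw [hmul] at h1 h2
        have h3 : ofX m X c ≠ 0 := by
          intro h4
          rw [h4, mul_zero] at h1
          exact zero_ne_one h1
        exact mul_right_cancel₀ h3 (h1.trans h2.symm)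
      · rw [hz α hα, hz β]
        intro hβ
        apply hα
        obtain ⟨e, he⟩ := hαβ
        have : α = β + m * e := by linear_combination he
        rw [this]
        exact IsCoprime.add_mul_left_left_iff.2 hβ
    · obtain ⟨n, hn⟩ := hord
      refine ⟨n, ?_⟩
      have h1 : α ≠ 0 := by
        rintro rfl
        exact hm (isCoprime_zero_left.1 hα)
      rw [ofX_ne h1]
      refine hn _ (by rwa [Ne, Ideal.span_singleton_eq_bot]) ?_
      rwa [Ideal.isCoprime_span_singleton_iff]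

/-- **Theorem on twisted L-functions**, ring version. -/
theorem twist_ring (h : Em a b τ1 τ2) {m : 𝓞 F} (hm : Gd m) {χ : 𝓞 F → ℂ} (hχ : RC m χ) :
    ∃ Λ : ℂ → ℂ, Differentiable ℂ Λ ∧ Λ 1 ≠ 0 ∧ ∀ s : ℂ, 3 / 2 < s.re →
      ∀ π : HeightOneSpectrum (𝓞 F) → 𝓞 F, (∀ v, Ideal.span {π v} = v.asIdeal) →
      HasProd (fun v : HeightOneSpectrum (𝓞 F) => (open Classical in
        if (3 : 𝓞 F) ∈ v.asIdeal then (1 : ℂ) else
        (1 - (((nmv v : ℤ) - npv v : ℤ) : ℂ) * χ (π v) * (nmv v : ℂ) ^ (-s) +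
          χ (π v) ^ 2 * (nmv v : ℂ) ^ (1 - 2 * s))⁻¹)) (Λ s) := by
  have hpid : IsPrincipalIdealRing (𝓞 F) := h.D.pid
  obtain ⟨n, hn, hmn⟩ := hm.odd
  have hc := hχ.ch h hn hmn
  refine ⟨h.D.Lam χ, Lam_entire hc, Lam_one h.D χ (hχ.nonvan h hm hn hmn)
    (hχ.conj.nonvan h hm hn hmn), fun s hs π hπ => ?_⟩
  have h1 := Lam_prod hc hs
  refine h1.congr_fun fun v => ?_
  have h2 : χ (gen v.asIdeal) = χ (π v) := by
    obtain ⟨u, hu⟩ := gen_assoc (hπ v)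
    rw [hu, hχ.mul, hχ.unit, one_mul]
  by_cases h3 : (3 : 𝓞 F) ∈ v.asIdeal
  · rw [if_pos h3, lf_three h χ s (gen_span _) h3, inv_one]
  · rw [if_neg h3, lf_good h χ s (gen_span _) h3, h2]

/-- **Theorem on twisted L-functions**, ideal version. -/
theorem twist_ideal (h : Em a b τ1 τ2) {I : Ideal (𝓞 F)} (hI : I ≠ ⊥)
    (hg : ∀ v : HeightOneSpectrum (𝓞 F), I ≤ v.asIdeal →
      (3 : 𝓞 F) ∈ v.asIdeal ∨ ∀ α : 𝓞 F, α ^ 3 - 2 ∉ v.asIdeal)
    {X : Ideal (𝓞 F) →* ℂ} (hzero : ∀ J : Ideal (𝓞 F), J ≠ ⊥ → ¬ IsCoprime J I → X J = 0)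
    (hray : ∀ α : 𝓞 F, α ≠ 0 → α - 1 ∈ I → X (Ideal.span {α}) = 1)
    (hord : ∃ n : ℕ, ∀ J : Ideal (𝓞 F), J ≠ ⊥ → IsCoprime J I → X J ^ 2 ^ n = 1) :
    ∃ Λ : ℂ → ℂ, Differentiable ℂ Λ ∧ Λ 1 ≠ 0 ∧ ∀ s : ℂ, 3 / 2 < s.re →
      HasProd (fun v : HeightOneSpectrum (𝓞 F) => (open Classical in
        if (3 : 𝓞 F) ∈ v.asIdeal then (1 : ℂ) else
        (1 - (((nmv v : ℤ) - npv v : ℤ) : ℂ) * X v.asIdeal * (nmv v : ℂ) ^ (-s) +
          X v.asIdeal ^ 2 * (nmv v : ℂ) ^ (1 - 2 * s))⁻¹)) (Λ s) := by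
  have hpid : IsPrincipalIdealRing (𝓞 F) := h.D.pid
  have hI' : Ideal.span {gen I} = I := gen_span I
  have hm : Gd (gen I) := by
    refine ⟨gen_ne hI, fun v hv => hg v ?_⟩
    rw [← hI', Ideal.span_singleton_le_iff_mem]
    exact hv
  rw [← hI'] at hzero hray hord
  obtain ⟨Λ, h1, h2, h3⟩ := twist_ring h hm (ofX_RC hzero hray hord)
  refine ⟨Λ, h1, h2, fun s hs => ?_⟩
  have h4 := h3 s hs (fun v => gen v.asIdeal) (fun v => gen_span _)
  refine h4.congr_fun fun v => ?_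
  rw [ofX_ne (gen_ne v.ne_bot), gen_span]

end Pool.Agent.Y688
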