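import Pool.Agent.Y688.U1

/-!
# Coefficient functions attached to characters of the quartic ring
-/

set_option autoImplicit false

open Complex Filter Topology
open scoped PeriodPair

namespace Pool.Agent.Y688

open Pool.Agent.W192.HK Pool.Agent.TH936.CM H667R3

/-- `(√-3 + √-7)/2` -/
noncomputable def E1 : ℂ := ((lam : RR) + I * √7) / 2

/-- `(√-3 - √-7)/2` -/
noncomputable def E2 : ℂ := ((lam : RR) - I * √7) / 2

lemma lam_I : ((lam : RR) : ℂ) = I * √3 := by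
  rw [lam_coe]
  apply Complex.ext
  · simp [w_re]
    norm_num
  · simp [w_im]
    ring

lemma sqrt7 : ((√7 : ℝ) : ℂ) * (√7 : ℝ) = 7 := by
  rw [← Complex.ofReal_mul, Real.mul_self_sqrt (by norm_num)]
  norm_num

lemma E_add : E1 + E2 = lam := by
  unfold E1 E2
  ring

lemma lam_sqC : ((lam : RR) : ℂ) * (lam : RR) = -3 := by
  have := congrArg Subtype.val lam_sq
  exact this

lemma E_mul : E1 * E2 = 1 := by
  unfold E1 E2
  have h1 := lam_sqC
  have h2 := sqrt7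
  have h3 : (I : ℂ) * I = -1 := Complex.I_mul_I
  linear_combination (1 / 4 : ℂ) * h1 - (1 / 4 : ℂ) * (√7 : ℝ) * (√7 : ℝ) * h3 + (1 / 4 : ℂ) * h2

lemma E1_big : 1 < ‖E1‖ := by
  have h : E1 = I * (((√3 + √7) / 2 : ℝ) : ℂ) := by
    unfold E1
    rw [lam_I]
    push_cast
    ring
  rw [h, norm_mul, Complex.norm_I, one_mul, Complex.norm_real, Real.norm_eq_abs]
  have h3 : (1 : ℝ) < √3 := by
    rw [Real.lt_sqrt (by norm_num)]
    norm_num
  have h7 : (1 : ℝ) < √7 := by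
    rw [Real.lt_sqrt (by norm_num)]
    norm_num
  rw [abs_of_pos (by linarith)]
  linarith

lemma axE : Ax E1 E2 lam := ⟨E_add, E_mul, E1_big⟩

variable {A : Type*} [CommRing A]

/-- the relative norm -/
noncomputable def FD.nn (D : FD A E1 E2) (α : A) : RR :=
  (D.β.symm α).2 * (D.β.symm α).2 - lam * ((D.β.symm α).1 * (D.β.symm α).2) +
    (D.β.symm α).1 * (D.β.symm α).1

lemma FD.nn_coe (D : FD A E1 E2) (α : A) : ((D.nn α : RR) : ℂ) = D.σ2 α * D.σ1 α := by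
  obtain ⟨p, rfl⟩ := D.β.surjective α
  rw [D.s1, D.s2]
  unfold FD.nn
  rw [AddEquiv.symm_apply_apply]
  push_cast
  linear_combination ((p.1 : ℂ) * p.2) * E_add - ((p.1 : ℂ) * p.1) * E_mul

lemma FD.nn_mul (D : FD A E1 E2) (α β : A) : D.nn (α * β) = D.nn α * D.nn β := by
  apply Subtype.ext
  push_cast
  rw [D.nn_coe, D.nn_coe, D.nn_coe, map_mul, map_mul]
  ring

lemma FD.nn_one (D : FD A E1 E2) : D.nn 1 = 1 := by
  apply Subtype.ext
  rw [D.nn_coe, map_one, map_one, one_mul]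
  rfl

lemma FD.nn_zero (D : FD A E1 E2) : D.nn 0 = 0 := by
  apply Subtype.ext
  rw [D.nn_coe, map_zero, zero_mul]
  rfl

/-- the norm of a unit -/
noncomputable def FD.nu (D : FD A E1 E2) (u : Aˣ) : RRˣ :=
  ⟨D.nn u, D.nn (u⁻¹ : Aˣ), by rw [← D.nn_mul, Units.mul_inv, D.nn_one],
    by rw [← D.nn_mul, Units.inv_mul, D.nn_one]⟩

lemma FD.nu_coe (D : FD A E1 E2) (u : Aˣ) : ((D.nu u : RRˣ) : RR) = D.nn u := rfl

lemma FD.nn_add (D : FD A E1 E2) (M : ℕ) (α γ : A) : ∃ r : RR, D.nn (α + M * γ) = D.nn α + M * r := by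
  obtain ⟨p, rfl⟩ := D.β.surjective α
  obtain ⟨q, rfl⟩ := D.β.surjective γ
  have h : D.β p + M * D.β q = D.β (p + M • q) := by
    rw [map_add, map_nsmul, nsmul_eq_mul]
  rw [h]
  unfold FD.nn
  rw [AddEquiv.symm_apply_apply, AddEquiv.symm_apply_apply]
  have h1 : (M • q).1 = (M : RR) * q.1 := by rw [Prod.smul_fst, nsmul_eq_mul]
  have h2 : (M • q).2 = (M : RR) * q.2 := by rw [Prod.smul_snd, nsmul_eq_mul]
  rw [Prod.fst_add, Prod.snd_add, h1, h2]
  exact ⟨2 * (p.2 * q.2) + M * (q.2 * q.2) - lam * (p.1 * q.2 + q.1 * p.2 + M * (q.1 * q.2)) +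
    2 * (p.1 * q.1) + M * (q.1 * q.1), by ring⟩

/-- characters of the ring -/
structure Ch (D : FD A E1 E2) (M : ℕ) (χ : A → ℂ) : Prop where
  mul : ∀ α β, χ (α * β) = χ α * χ β
  unit : ∀ u : Aˣ, χ u = 1
  per : ∀ α γ, χ (α + M * γ) = χ α
  bd : ∀ α, ‖χ α‖ ≤ 1
  three : 3 ∣ M
  odd : Odd M

/-- the coefficient function -/
noncomputable def FD.co (D : FD A E1 E2) (χ : A → ℂ) (x y : RR) : ℂ :=
  χ (D.β (x, y)) * ups (D.nn (D.β (x, y)))

variable {D : FD A E1 E2} {M : ℕ} {χ : A → ℂ}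

lemma Ch.ne (h : Ch D M χ) : NeZero M := ⟨by
  obtain ⟨k, hk⟩ := h.odd
  omega⟩

lemma Ch.co_per (h : Ch D M χ) : (∀ x, Per M (D.co χ x)) ∧ (∀ y, Per M (fun x => D.co χ x y)) := by
  obtain ⟨k, hk⟩ := h.three
  have key : ∀ α γ : A, χ (α + M * γ) * ups (D.nn (α + M * γ)) = χ α * ups (D.nn α) := by
    intro α γ
    obtain ⟨r, hr⟩ := D.nn_add M α γ
    rw [h.per, hr]
    have : D.nn α + (M : RR) * r = D.nn α + 3 * (k * r) := by
      rw [hk]
      push_cast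
      ring
    rw [this, ups_per]
  constructor
  · intro x
    refine per_of fun y r => ?_
    unfold FD.co
    have : D.β (x, y + M * r) = D.β (x, y) + M * D.β (0, r) := by
      have h1 : ((x, y + M * r) : RR × RR) = (x, y) + M • ((0, r) : RR × RR) := by
        ext <;> simp
      rw [h1, map_add, map_nsmul, nsmul_eq_mul]
    rw [this, key]
  · intro y
    refine per_of fun x r => ?_
    unfold FD.co
    have : D.β (x + M * r, y) = D.β (x, y) + M * D.β (r, 0) := by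
      have h1 : ((x + M * r, y) : RR × RR) = (x, y) + M • ((r, 0) : RR × RR) := by
        ext <;> simp
      rw [h1, map_add, map_nsmul, nsmul_eq_mul]
    rw [this, key]

lemma Ch.co_bd (h : Ch D M χ) (x y : RR) : ‖D.co χ x y‖ ≤ 1 := by
  unfold FD.co
  rw [norm_mul]
  exact mul_le_one₀ (h.bd _) (norm_nonneg _) (ups_norm _)

lemma co_zero (D : FD A E1 E2) (χ : A → ℂ) : D.co χ 0 0 = 0 := by
  unfold FD.co
  have : D.β ((0 : RR), (0 : RR)) = 0 := map_zero D.β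
  rw [this, D.nn_zero, ups_lam (dvd_zero _), mul_zero]

/-- scalars -/
noncomputable def FD.sc (D : FD A E1 E2) (r : RR) : A := D.β (0, r)

lemma FD.sc1 (D : FD A E1 E2) (r : RR) : D.σ1 (D.sc r) = r := by
  unfold FD.sc
  rw [D.s1]
  simp

lemma FD.sc2 (D : FD A E1 E2) (r : RR) : D.σ2 (D.sc r) = r := by
  unfold FD.sc
  rw [D.s2]
  simp

lemma FD.sc_mul (D : FD A E1 E2) (r s : RR) : D.sc (r * s) = D.sc r * D.sc s := by
  apply D.i2
  rw [map_mul, D.sc2, D.sc2, D.sc2]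
  rfl

lemma FD.sc_one (D : FD A E1 E2) : D.sc 1 = 1 := by
  apply D.i2
  rw [map_one, D.sc2]
  rfl

lemma FD.sc_β (D : FD A E1 E2) (r x y : RR) : D.β (r * x, r * y) = D.sc r * D.β (x, y) := by
  apply D.i2
  rw [map_mul, D.sc2, D.s2, D.s2]
  push_cast
  ring

lemma FD.nn_sc (D : FD A E1 E2) (r : RR) : D.nn (D.sc r) = r * r := by
  apply Subtype.ext
  rw [D.nn_coe, D.sc1, D.sc2]
  rfl

/-- scalar units -/
noncomputable def FD.scU (D : FD A E1 E2) (u : RRˣ) : Aˣ :=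
  ⟨D.sc u, D.sc (u⁻¹ : RRˣ), by rw [← D.sc_mul, Units.mul_inv, D.sc_one],
    by rw [← D.sc_mul, Units.inv_mul, D.sc_one]⟩

lemma FD.scU_coe (D : FD A E1 E2) (u : RRˣ) : ((D.scU u : Aˣ) : A) = D.sc u := rfl

lemma Ch.co_unit (h : Ch D M χ) (u : RRˣ) (x y : RR) :
    D.co χ (u * x) (u * y) = ((u : RR) : ℂ) * (u : RR) * D.co χ x y := by
  unfold FD.co
  rw [D.sc_β, ← D.scU_coe, h.mul, h.unit, one_mul, D.nn_mul, D.scU_coe, D.nn_sc, ups_mul, ups_mul,
    ups_u]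
  ring

lemma Ch.co_neg (h : Ch D M χ) (x y : RR) : D.co χ (-x) (-y) = D.co χ x y := by
  have := h.co_unit (-1) x y
  rw [Units.val_neg, Units.val_one, neg_one_mul, neg_one_mul] at this
  rw [this]
  push_cast
  ring

lemma Ch.co_w (h : Ch D M χ) (x y : RR) : D.co χ (wR * x) (wR * y) = w * w * D.co χ x y := by
  have := h.co_unit wU x y
  rw [wU_coe] at this
  rw [this, wR_coe]

lemma FD.eta_β (D : FD A E1 E2) (x y : RR) : D.β (y, lam * y - x) = D.η * D.β (x, y) := by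
  apply D.i2
  rw [map_mul, D.η2, D.s2, D.s2]
  push_cast
  have h1 := E_add
  have h2 := E_mul
  linear_combination -(y : ℂ) * h1 + (x : ℂ) * h2

lemma FD.nn_eta (D : FD A E1 E2) : D.nn (D.η : A) = 1 := by
  apply Subtype.ext
  rw [D.nn_coe, D.η1, D.η2, E_mul]
  rfl

lemma Ch.co_inv (h : Ch D M χ) : Inv lam (D.co χ) := by
  intro x y
  unfold FD.co
  rw [D.eta_β, h.mul, h.unit, one_mul, D.nn_mul, D.nn_eta, one_mul]

lemma ind_w (x y : RR) : ind (wR * y) (wR * (wR * x)) = ind y (wR * x) := by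
  refine ind_congr ?_
  rw [mk_eq, mk_eq]
  constructor
  · rintro ⟨r, hr⟩
    refine ⟨wR * wR * r, ?_⟩
    linear_combination (wR * wR) * hr - (y - wR * x) * wR3
  · rintro ⟨r, hr⟩
    exact ⟨wR * r, by linear_combination wR * hr⟩

lemma ind_inv (x y : RR) : ind (lam * y - x) (wR * y) = ind y (wR * x) := by
  refine ind_congr ?_
  rw [mk_eq, mk_eq]
  have hl : lam = 1 + 2 * wR := rfl
  constructor
  · rintro ⟨r, hr⟩
    refine ⟨y + wR * r, ?_⟩
    push_cast at hr ⊢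
    linear_combination wR * hr - (wR * y) * hl - y * wR_sq
  · rintro ⟨r, hr⟩
    refine ⟨(1 + wR) * y + wR * wR * r, ?_⟩
    push_cast at hr ⊢
    linear_combination (wR * wR) * hr + y * hl - y * wR_sq + x * wR3

end Pool.Agent.Y688
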