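import Pool.Agent.Y688.A1

/-!
# Euler factors
-/

set_option autoImplicit false

open Complex Filter Topology MeasureTheory Set
open scoped PeriodPair

namespace Pool.Agent.Y688

open Pool.Agent.W192.HK Pool.Agent.TH936.CM H667R3

variable {A : Type*} [CommRing A]

/-- the prime over `2` -/
noncomputable def FD.p2 (D : FD A E1 E2) : A := D.β (1, wR)

lemma FD.mul_β (D : FD A E1 E2) (x y u v : RR) :
    D.β (x, y) * D.β (u, v) = D.β (x * v + u * y - lam * (x * u), y * v - x * u) := by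
  apply D.i2
  rw [map_mul, D.s2, D.s2, D.s2]
  push_cast
  have h1 := E_add
  have h2 := E_mul
  linear_combination ((x : ℂ) * u * E2) * h1 - ((x : ℂ) * u) * h2

lemma FD.p2_dvd (D : FD A E1 E2) (x y : RR) : D.p2 ∣ D.β (x, y) ↔ ∃ r : RR, y - wR * x = 2 * r := by
  have hl : lam = 1 + 2 * wR := rfl
  constructor
  · rintro ⟨γ, hγ⟩
    obtain ⟨⟨u, v⟩, rfl⟩ := D.β.surjective γ
    unfold FD.p2 at hγ
    rw [D.mul_β] at hγ
    have h1 := D.β.injective hγ
    rw [Prod.mk.injEq] at h1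
    obtain ⟨hx, hy⟩ := h1
    refine ⟨-u, ?_⟩
    rw [hx, hy]
    linear_combination (wR * u) * hl + u * wR_sq
  · rintro ⟨r, hr⟩
    refine ⟨D.β (-r, x + (wR - lam) * r), ?_⟩
    unfold FD.p2
    rw [D.mul_β]
    congr 1
    ext1
    · simp only
      ring
    · simp only
      linear_combination hr + (wR * r) * hl + r * wR_sq

/-- the indicator of divisibility -/
noncomputable def dv (π α : A) : ℂ := by
  classical
  exact if π ∣ α then 1 else 0

lemma ind_dv (D : FD A E1 E2) (x y : RR) : ind y (wR * x) = dv D.p2 (D.β (x, y)) := by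
  unfold ind dv
  by_cases h : D.p2 ∣ D.β (x, y)
  · rw [if_pos h, if_pos]
    rw [mk_eq]
    obtain ⟨r, hr⟩ := (D.p2_dvd x y).1 h
    exact ⟨r, by rw [hr]; push_cast; ring⟩
  · rw [if_neg h, if_neg]
    intro h1
    rw [mk_eq] at h1
    obtain ⟨r, hr⟩ := h1
    exact h ((D.p2_dvd x y).2 ⟨r, by rw [hr]; push_cast; ring⟩)

/-- coefficient functions with a modified Euler factor -/
noncomputable def FD.ck (D : FD A E1 E2) (χ : A → ℂ) (κ : ℂ) (π : A) (x y : RR) : ℂ :=
  D.co χ x y * (1 - κ * dv π (D.β (x, y)))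

lemma FD.sm_eq (D : FD A E1 E2) (χ : A → ℂ) : sm wR (D.co χ) = D.ck χ 4 D.p2 := by
  funext x y
  unfold sm FD.ck
  rw [ind_dv D]

lemma dv_unit (π : A) (u : Aˣ) (α : A) : dv π (u * α) = dv π α := by
  unfold dv
  have : π ∣ u * α ↔ π ∣ α := by
    rw [mul_comm]
    exact Units.dvd_mul_right
  by_cases h : π ∣ α
  · rw [if_pos h, if_pos (this.2 h)]
  · rw [if_neg h, if_neg (fun h1 => h (this.1 h1))]

lemma dv_norm (π α : A) : ‖dv π α‖ ≤ 1 := by
  unfold dv
  split_ifs <;> simp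

/-- the multiplicative function of the Euler product -/
noncomputable def FD.Fs (D : FD A E1 E2) (χ : A → ℂ) (s : ℂ) (α : A) : ℂ :=
  χ α * ups (D.nn α) * (starRingEnd ℂ) (D.nn α : ℂ) * (D.N α : ℂ) ^ (-s)

lemma FD.N_mul (D : FD A E1 E2) (α β : A) : D.N (α * β) = D.N α * D.N β := by
  unfold FD.N
  rw [map_mul D.σ1, map_mul D.σ2, Complex.normSq_mul, Complex.normSq_mul]
  ring

lemma FD.N_nonneg (D : FD A E1 E2) (α : A) : 0 ≤ D.N α :=
  mul_nonneg (Complex.normSq_nonneg _) (Complex.normSq_nonneg _)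

lemma FD.N_nn (D : FD A E1 E2) (α : A) : D.N α = Complex.normSq (D.nn α : ℂ) := by
  unfold FD.N
  rw [D.nn_coe, Complex.normSq_mul, mul_comm]

variable {D : FD A E1 E2} {M : ℕ} {χ : A → ℂ}

lemma Ch.Fs_mul (h : Ch D M χ) (s : ℂ) (α β : A) : D.Fs χ s (α * β) = D.Fs χ s α * D.Fs χ s β := by
  unfold FD.Fs
  rw [h.mul, D.nn_mul, ups_mul, D.N_mul, Complex.ofReal_mul,
    Complex.mul_cpow_ofReal_nonneg (D.N_nonneg α) (D.N_nonneg β)]
  push_cast
  rw [map_mul]
  ring

lemma Ch.Fs_unit (h : Ch D M χ) (s : ℂ) (u : Aˣ) : D.Fs χ s u = 1 := by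
  unfold FD.Fs
  have h1 : D.nn (u : A) = (D.nu u : RRˣ) := rfl
  rw [h.unit, h1, ups_u, D.N_nn, h1, one_mul, Complex.mul_conj, unit_norm]
  simp

lemma Ch.G_eq (_h : Ch D M χ) (κ : ℂ) (π : A) (α : A) : D.G (D.ck χ κ π) α =
    χ α * ups (D.nn α) * (starRingEnd ℂ) (D.nn α : ℂ) * (1 - κ * dv π α) := by
  unfold FD.G FD.ck FD.co
  have : D.β ((D.β.symm α).1, (D.β.symm α).2) = α := by
    rw [Prod.mk.eta, AddEquiv.apply_symm_apply]
  rw [this, D.nn_coe]
  ring

lemma Ch.G_eq' (_h : Ch D M χ) (α : A) : D.G (D.co χ) α =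
    χ α * ups (D.nn α) * (starRingEnd ℂ) (D.nn α : ℂ) := by
  unfold FD.G FD.co
  have : D.β ((D.β.symm α).1, (D.β.symm α).2) = α := by
    rw [Prod.mk.eta, AddEquiv.apply_symm_apply]
  rw [this, D.nn_coe]

lemma Ch.G0_unit (h : Ch D M χ) (u : Aˣ) (α : A) :
    χ (u * α) * ups (D.nn (u * α)) * (starRingEnd ℂ) (D.nn (u * α) : ℂ) =
    χ α * ups (D.nn α) * (starRingEnd ℂ) (D.nn α : ℂ) := by
  have h1 : D.nn (u : A) = (D.nu u : RRˣ) := rfl
  rw [h.mul, h.unit, D.nn_mul, ups_mul, h1, ups_u]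
  push_cast
  rw [map_mul]
  have h2 : ((D.nu u : RR) : ℂ) * (starRingEnd ℂ) ((D.nu u : RR) : ℂ) = 1 := by
    rw [Complex.mul_conj, unit_norm]
    simp
  linear_combination (χ α * ups (D.nn α) * (starRingEnd ℂ) (D.nn α : ℂ)) * h2

/-! ### vanishing sums -/

/-- multiplication by `ω` -/
noncomputable def mulwE (n : ℕ) [NeZero n] : RM n ≃ RM n :=
  Equiv.ofBijective (fun q => Ideal.Quotient.mk (sp (n : RR)) wR * q) (by
    have h3 : Ideal.Quotient.mk (sp (n : RR)) wR * (Ideal.Quotient.mk (sp (n : RR)) wR *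
        Ideal.Quotient.mk (sp (n : RR)) wR) = 1 := by
      rw [← map_mul, ← map_mul, wR3, map_one]
    constructor
    · intro a b h
      simp only at h
      linear_combination (Ideal.Quotient.mk (sp (n : RR)) wR * Ideal.Quotient.mk (sp (n : RR)) wR) * h
        - (a - b) * h3
    · intro q
      refine ⟨(Ideal.Quotient.mk (sp (n : RR)) wR * Ideal.Quotient.mk (sp (n : RR)) wR) * q, ?_⟩
      simp only
      linear_combination q * h3)

lemma sum_w {n : ℕ} [NeZero n] {f : RR → ℂ} (hf : Per n f) :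
    ∑ q : RM n, f (wR * q.out) = ∑ q : RM n, f q.out := by
  refine Fintype.sum_equiv (mulwE n) _ _ fun q => ?_
  refine hf _ _ ?_
  rw [← Ideal.Quotient.mk_eq_mk_iff_sub_mem, Ideal.Quotient.mk_out, map_mul, Ideal.Quotient.mk_out]
  rfl

lemma w2_ne : (1 : ℂ) - w * w ≠ 0 := by
  intro h
  have h1 : w * w = 1 := by linear_combination -h
  have h2 := w3
  rw [h1, mul_one] at h2
  have := congrArg Complex.re h2
  rw [w_re] at this
  norm_num at this

lemma tot_zero {n : ℕ} [NeZero n] {f : RR → RR → ℂ} (hy : ∀ x, Per n (f x))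
    (hx : ∀ y, Per n (fun x => f x y)) (hw : ∀ x y, f (wR * x) (wR * y) = w * w * f x y) :
    ∑ p : RM n, ∑ q : RM n, f p.out q.out = 0 := by
  have h1 : ∑ p : RM n, ∑ q : RM n, f p.out q.out =
      w * w * ∑ p : RM n, ∑ q : RM n, f p.out q.out := by
    calc ∑ p : RM n, ∑ q : RM n, f p.out q.out = ∑ p : RM n, ∑ q : RM n, f p.out (wR * q.out) :=
          Finset.sum_congr rfl fun p _ => (sum_w (hy p.out)).symm
      _ = ∑ q : RM n, ∑ p : RM n, f p.out (wR * q.out) := Finset.sum_comm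
      _ = ∑ q : RM n, ∑ p : RM n, f (wR * p.out) (wR * q.out) :=
          Finset.sum_congr rfl fun q _ => (sum_w (hx (wR * q.out))).symm
      _ = ∑ q : RM n, ∑ p : RM n, w * w * f p.out q.out :=
          Finset.sum_congr rfl fun q _ => Finset.sum_congr rfl fun p _ => hw _ _
      _ = _ := by
          rw [Finset.sum_comm]
          simp only [← Finset.mul_sum]
  have h2 : (1 - w * w) * ∑ p : RM n, ∑ q : RM n, f p.out q.out = 0 := by linear_combination h1
  exact (mul_eq_zero.1 h2).resolve_left w2_ne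

lemma row_zero {n : ℕ} [NeZero n] {f : RR → RR → ℂ} (hy : ∀ x, Per n (f x))
    (hw : ∀ x y, f (wR * x) (wR * y) = w * w * f x y) : ∑ q : RM n, f 0 q.out = 0 := by
  have h1 : ∑ q : RM n, f 0 q.out = w * w * ∑ q : RM n, f 0 q.out := by
    calc ∑ q : RM n, f 0 q.out = ∑ q : RM n, f 0 (wR * q.out) := (sum_w (hy 0)).symm
      _ = ∑ q : RM n, w * w * f 0 q.out := Finset.sum_congr rfl fun q _ => by
          have := hw 0 q.out
          rwa [mul_zero] at this
      _ = _ := by rw [Finset.mul_sum]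
  have h2 : (1 - w * w) * ∑ q : RM n, f 0 q.out = 0 := by linear_combination h1
  exact (mul_eq_zero.1 h2).resolve_left w2_ne

/-! ### the L-functions -/

/-- the transform -/
noncomputable def FD.LI (c : RR → RR → ℂ) (s : ℂ) : ℂ :=
  II c E1 E2 (1 * Complex.normSq E2 ^ 2) 1 s

lemma E_ne : E1 ≠ E2 := axE.ne

lemma LI_entire {n : ℕ} [NeZero n] {K : ℝ} {c : RR → RR → ℂ} (hb : ∀ x y, ‖c x y‖ ≤ K)
    (hy : ∀ x, Per n (c x)) (hx : ∀ y, Per n (fun x => c x y))
    (hw : ∀ x y, c (wR * x) (wR * y) = w * w * c x y) : Differentiable ℂ (FD.LI c) := by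
  have h0 := axE.n2
  have h1 := axE.lt2
  have hT1 : 0 < 1 * Complex.normSq E2 ^ 2 := by positivity
  have hT : 1 * Complex.normSq E2 ^ 2 ≤ 1 := by nlinarith
  exact II_entire ⟨hb, hy⟩ E_ne hT1 hT (dec_gen n ⟨hb, hy⟩ hx (tot_zero hy hx hw) E_ne E_mul hT1 hT)

end Pool.Agent.Y688
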