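import Pool.Agent.Y688.A2

/-!
# Removing Euler factors
-/

set_option autoImplicit false

open Complex Filter Topology MeasureTheory Set
open scoped PeriodPair

namespace Pool.Agent.Y688

open Pool.Agent.W192.HK Pool.Agent.TH936.CM H667R3

variable {A : Type*} [CommRing A] [IsDomain A] [IsPrincipalIdealRing A]
variable {D : FD A E1 E2} {M : ℕ} {χ : A → ℂ}

/-- the number of cosets of units -/
noncomputable def FD.J (D : FD A E1 E2) : ℕ := Nat.card D.Q

lemma FD.J_pos (D : FD A E1 E2) : 0 < D.J := by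
  have := D.finQ E_mul E1_big E_ne
  exact Nat.card_pos

lemma Ch.L_sum (h : Ch D M χ) {s : ℂ} (hs : 3 / 2 < s.re) :
    HasSum (fun I : {I : Ideal A // I ≠ ⊥} => (D.J : ℂ) * (Complex.Gamma s ^ 2 *
      D.Fs χ s (gen I.1))) (FD.LI (D.co χ) s) := by
  obtain ⟨py, px⟩ := h.co_per
  have h1 := D.unfold E_mul E1_big E_ne (cf := D.co χ) ⟨h.co_bd, py⟩ (fun u α => by
    rw [h.G_eq', h.G_eq', h.G0_unit]) one_pos hs
  refine h1.congr_fun fun I => ?_
  rw [h.G_eq']
  rfl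

lemma Ch.L_sum' (h : Ch D M χ) {n : ℕ} {K : ℝ} {κ : ℂ} {π : A}
    (hb : ∀ x y, ‖D.ck χ κ π x y‖ ≤ K) (hy : ∀ x, Per n (D.ck χ κ π x)) {s : ℂ} (hs : 3 / 2 < s.re) :
    HasSum (fun I : {I : Ideal A // I ≠ ⊥} => (D.J : ℂ) * (Complex.Gamma s ^ 2 *
      (D.Fs χ s (gen I.1) * (1 - κ * dv π (gen I.1))))) (FD.LI (D.ck χ κ π) s) := by
  have h1 := D.unfold E_mul E1_big E_ne (cf := D.ck χ κ π) ⟨hb, hy⟩ (fun u α => by
    rw [h.G_eq, h.G_eq, h.G0_unit, dv_unit]) one_pos hs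
  refine h1.congr_fun fun I => ?_
  rw [h.G_eq]
  unfold FD.Fs FD.J
  ring

/-- multiplication by a principal ideal -/
noncomputable def mulI (π : A) (hπ : π ≠ 0) (I : {I : Ideal A // I ≠ ⊥}) : {I : Ideal A // I ≠ ⊥} :=
  ⟨Ideal.span {π} * I.1, by
    intro h
    rw [Ideal.mul_eq_bot] at h
    rcases h with h | h
    · rw [Ideal.span_singleton_eq_bot] at h
      exact hπ h
    · exact I.2 h⟩

lemma gen_assoc {I : Ideal A} {α : A} (h : Ideal.span {α} = I) : ∃ u : Aˣ, gen I = u * α := by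
  have h1 : Ideal.span {gen I} = Ideal.span {α} := by rw [gen_span, h]
  rw [Ideal.span_singleton_eq_span_singleton] at h1
  obtain ⟨u, hu⟩ := h1.symm
  exact ⟨u, by rw [← hu]; ring⟩

lemma mulI_gen (π : A) (hπ : π ≠ 0) (I : {I : Ideal A // I ≠ ⊥}) :
    ∃ u : Aˣ, gen (mulI π hπ I).1 = u * (π * gen I.1) := by
  refine gen_assoc ?_
  show Ideal.span {π * gen I.1} = Ideal.span {π} * I.1
  rw [← Ideal.span_singleton_mul_span_singleton, gen_span]

lemma mulI_inj (π : A) (hπ : π ≠ 0) : Function.Injective (mulI π hπ) := by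
  intro I J h
  have h1 : Ideal.span {π} * I.1 = Ideal.span {π} * J.1 := congrArg Subtype.val h
  exact Subtype.ext (Ideal.span_singleton_mul_right_injective hπ h1)

lemma rem_sum {F : A → ℂ} (hmul : ∀ α β, F (α * β) = F α * F β) (hu : ∀ u : Aˣ, F u = 1)
    {π : A} (hπ : π ≠ 0) {S : ℂ} (hS : HasSum (fun I : {I : Ideal A // I ≠ ⊥} => F (gen I.1)) S) :
    HasSum (fun I : {I : Ideal A // I ≠ ⊥} => F (gen I.1) * dv π (gen I.1)) (F π * S) := by
  have h1 := hS.mul_left (F π)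
  refine ((mulI_inj π hπ).hasSum_iff ?_).1 ?_
  · intro I hI
    have : ¬ π ∣ gen I.1 := by
      rintro ⟨γ, hγ⟩
      apply hI
      have hγ0 : γ ≠ 0 := by
        rintro rfl
        rw [mul_zero] at hγ
        exact gen_ne I.2 hγ
      refine ⟨⟨Ideal.span {γ}, by rwa [Ne, Ideal.span_singleton_eq_bot]⟩, Subtype.ext ?_⟩
      show Ideal.span {π} * Ideal.span {γ} = I.1
      rw [Ideal.span_singleton_mul_span_singleton, ← hγ, gen_span]
    unfold dv
    rw [if_neg this, mul_zero]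
  · refine h1.congr_fun fun I => ?_
    obtain ⟨u, hu'⟩ := mulI_gen π hπ I
    have h2 : dv π (gen (mulI π hπ I).1) = 1 := by
      unfold dv
      rw [if_pos]
      rw [hu']
      exact ⟨u * gen I.1, by ring⟩
    simp only [Function.comp_apply]
    rw [h2, hu', hmul, hmul, hu]
    ring

lemma Fs_entire (D : FD A E1 E2) (χ : A → ℂ) {α : A} (hα : α ≠ 0) :
    Differentiable ℂ (fun s => D.Fs χ s α) := by
  unfold FD.Fs
  have hN : (D.N α : ℂ) ≠ 0 := by
    have h1 := D.pos hα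
    have : 0 < D.N α := mul_pos h1.1 h1.2
    exact_mod_cast this.ne'
  refine Differentiable.const_mul ?_ _
  exact (differentiable_id.neg).const_cpow (Or.inl hN)

lemma eq_everywhere {f g : ℂ → ℂ} (hf : Differentiable ℂ f) (hg : Differentiable ℂ g)
    (h : ∀ s : ℂ, 3 / 2 < s.re → f s = g s) (s : ℂ) : f s = g s := by
  have h1 : f = g := by
    refine AnalyticOnNhd.eq_of_eventuallyEq (z₀ := 2) (fun z _ => hf.analyticAt z)
      (fun z _ => hg.analyticAt z) ?_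
    have : {s : ℂ | 3 / 2 < s.re} ∈ 𝓝 (2 : ℂ) :=
      (isOpen_lt continuous_const Complex.continuous_re).mem_nhds (by norm_num)
    filter_upwards [this] with s hs
    exact h s hs
  rw [h1]

lemma ck_bd (h : Ch D M χ) (κ : ℂ) (π : A) (x y : RR) : ‖D.ck χ κ π x y‖ ≤ 1 + ‖κ‖ := by
  unfold FD.ck
  rw [norm_mul]
  have h1 := h.co_bd x y
  have h2 : ‖(1 : ℂ) - κ * dv π (D.β (x, y))‖ ≤ 1 + ‖κ‖ := by
    refine (norm_sub_le _ _).trans ?_
    rw [norm_one, norm_mul]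
    have := dv_norm π (D.β (x, y))
    have := norm_nonneg κ
    nlinarith
  calc _ ≤ 1 * (1 + ‖κ‖) := mul_le_mul h1 h2 (norm_nonneg _) zero_le_one
    _ = _ := one_mul _

lemma ck_w (h : Ch D M χ) (κ : ℂ) (π : A) (x y : RR) :
    D.ck χ κ π (wR * x) (wR * y) = w * w * D.ck χ κ π x y := by
  unfold FD.ck
  rw [h.co_w, D.sc_β, ← wU_coe, ← D.scU_coe, dv_unit]
  ring

/-- **Modification of an Euler factor.** -/
theorem Ch.L_ck (h : Ch D M χ) (κ : ℂ) {π : A} (hπ : π ≠ 0) {n : ℕ} [NeZero n]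
    (hy : ∀ x, Per n (D.ck χ κ π x)) (hx : ∀ y, Per n (fun x => D.ck χ κ π x y)) (s : ℂ) :
    FD.LI (D.ck χ κ π) s = (1 - κ * D.Fs χ s π) * FD.LI (D.co χ) s := by
  have := h.ne
  obtain ⟨py, px⟩ := h.co_per
  refine eq_everywhere (f := FD.LI (D.ck χ κ π))
    (g := fun s => (1 - κ * D.Fs χ s π) * FD.LI (D.co χ) s) ?_ ?_ ?_ s
  · exact LI_entire (ck_bd h κ π) hy hx (ck_w h κ π)
  · refine Differentiable.mul ?_ (LI_entire h.co_bd py px h.co_w)
    exact (differentiable_const _).sub ((Fs_entire D χ hπ).const_mul κ)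
  · intro s hs
    have h1 := h.L_sum hs
    have h2 := h.L_sum' (ck_bd h κ π) hy hs
    have hG : (D.J : ℂ) * Complex.Gamma s ^ 2 ≠ 0 := by
      refine mul_ne_zero (by exact_mod_cast D.J_pos.ne') (pow_ne_zero 2 ?_)
      exact Complex.Gamma_ne_zero_of_re_pos (by linarith)
    have h3 : HasSum (fun I : {I : Ideal A // I ≠ ⊥} => D.Fs χ s (gen I.1))
        (((D.J : ℂ) * Complex.Gamma s ^ 2)⁻¹ * FD.LI (D.co χ) s) := by
      refine (h1.mul_left ((D.J : ℂ) * Complex.Gamma s ^ 2)⁻¹).congr_fun fun I => ?_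
      have h0 := inv_mul_cancel₀ hG
      linear_combination -(D.Fs χ s (gen I.1)) * h0
    have h4 := rem_sum (h.Fs_mul s) (h.Fs_unit s) hπ h3
    have h5 := ((h3.sub (h4.mul_left κ)).mul_left ((D.J : ℂ) * Complex.Gamma s ^ 2))
    have h6 := h2.unique (h5.congr_fun fun I => by ring)
    rw [h6]
    have h0 := mul_inv_cancel₀ hG
    linear_combination (FD.LI (D.co χ) s - κ * (D.Fs χ s π * FD.LI (D.co χ) s)) * h0

end Pool.Agent.Y688
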