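import Pool.Agent.Y688.A3

/-!
# The nonvanishing theorem for the quartic ring
-/

set_option autoImplicit false

open Complex Filter Topology MeasureTheory Set
open scoped PeriodPair

namespace Pool.Agent.Y688

open Pool.Agent.W192.HK Pool.Agent.TH936.CM H667R3

variable {A : Type*} [CommRing A]

/-- the trivial character modulo `a` -/
noncomputable def cop (a α : A) : ℂ := by
  classical
  exact if IsCoprime α a then 1 else 0

lemma cop_one {a α : A} (h : IsCoprime α a) : cop a α = 1 := by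
  unfold cop
  rw [if_pos h]

lemma cop_zero {a α : A} (h : ¬ IsCoprime α a) : cop a α = 0 := by
  unfold cop
  rw [if_neg h]

lemma cop_congr {a b α β : A} (h : IsCoprime α a ↔ IsCoprime β b) : cop a α = cop b β := by
  by_cases h1 : IsCoprime α a
  · rw [cop_one h1, cop_one (h.1 h1)]
  · rw [cop_zero h1, cop_zero (fun h2 => h1 (h.2 h2))]

lemma ch_cop (D : FD A E1 E2) {M : ℕ} (h3 : 3 ∣ M) (hM : Odd M) {a : A} (ha : a ∣ (M : A)) :
    Ch D M (cop a) := by
  refine ⟨fun α β => ?_, fun u => ?_, fun α γ => ?_, fun α => ?_, h3, hM⟩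
  · by_cases h1 : IsCoprime α a <;> by_cases h2 : IsCoprime β a
    · rw [cop_one h1, cop_one h2, cop_one (h1.mul_left h2), one_mul]
    · rw [cop_zero h2, cop_zero (fun h => h2 (IsCoprime.mul_left_iff.1 h).2), mul_zero]
    · rw [cop_zero h1, cop_zero (fun h => h1 (IsCoprime.mul_left_iff.1 h).1), zero_mul]
    · rw [cop_zero h1, cop_zero (fun h => h1 (IsCoprime.mul_left_iff.1 h).1), zero_mul]
  · exact cop_one ⟨(u⁻¹ : Aˣ), 0, by rw [Units.inv_mul, zero_mul, add_zero]⟩
  · obtain ⟨m, hm⟩ := ha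
    refine cop_congr ?_
    rw [hm, mul_assoc]
    exact IsCoprime.add_mul_left_left_iff
  · unfold cop
    split_ifs <;> simp

variable {Γ : Type*} [LinearOrderedCommGroupWithZero Γ] {v : Valuation ℂ Γ}
variable [IsDomain A] [IsPrincipalIdealRing A]
variable {D : FD A E1 E2}

lemma Fs_one (D : FD A E1 E2) {χ : A → ℂ} {α : A} (hα : α ≠ 0) (h1 : χ α = 1) :
    D.Fs χ 1 α = ups (D.nn α) / (D.nn α : ℂ) := by
  unfold FD.Fs
  have hp := D.pos hα
  have hN : 0 < D.N α := mul_pos hp.1 hp.2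
  have hn : (D.nn α : ℂ) ≠ 0 := by
    intro h0
    rw [D.N_nn, h0, map_zero] at hN
    exact lt_irrefl _ hN
  rw [h1, one_mul, Complex.cpow_neg_one, D.N_nn, ← Complex.mul_conj, mul_inv]
  have hc : (starRingEnd ℂ) (D.nn α : ℂ) ≠ 0 := by
    rwa [Ne, map_eq_zero]
  field_simp

/-- the chain of Euler factors -/
theorem chain (a : A) : a ≠ 0 →
    (∀ q : A, Prime q → q ∣ a → v (1 - ups (D.nn q) / (D.nn q : ℂ)) = 1) →
    (∃ M : ℕ, Odd M ∧ a ∣ (M : A)) →
    ∃ κ : ℂ, v κ = 1 ∧ FD.LI (D.co (cop a)) 1 = κ * FD.LI (D.co (cop 1)) 1 := by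
  induction a using UniqueFactorizationMonoid.induction_on_prime with
  | h₁ => exact fun h => absurd rfl h
  | h₂ u hu =>
    intro _ _ _
    refine ⟨1, map_one v, ?_⟩
    rw [one_mul]
    have : (cop u : A → ℂ) = cop 1 := by
      funext α
      refine cop_congr ?_
      constructor
      · exact fun _ => isCoprime_one_right
      · intro _
        obtain ⟨w', hw'⟩ := hu
        exact ⟨0, (w'⁻¹ : Aˣ), by rw [← hw', Units.inv_mul, zero_mul, zero_add]⟩
    rw [this]
  | h₃ a p ha hp ih =>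
    rintro _ hgood ⟨M, hM, hdiv⟩
    obtain ⟨κ, hκ, hL⟩ := ih ha (fun q hq hqa => hgood q hq (hqa.mul_left p))
      ⟨M, hM, (Dvd.intro_left p rfl).trans hdiv⟩
    by_cases hpa : p ∣ a
    · refine ⟨κ, hκ, ?_⟩
      have : (cop (p * a) : A → ℂ) = cop a := by
        funext α
        refine cop_congr ?_
        rw [IsCoprime.mul_right_iff]
        constructor
        · exact fun h => h.2
        · intro h
          exact ⟨h.of_isCoprime_of_dvd_right hpa, h⟩
      rw [this, hL]
    · have h3M : Odd (3 * M) := by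
        rw [Nat.odd_mul]
        exact ⟨by decide, hM⟩
      have hdiv' : p * a ∣ ((3 * M : ℕ) : A) := by
        push_cast
        exact hdiv.mul_left 3
      have c1 : Ch D (3 * M) (cop a) := ch_cop D (dvd_mul_right 3 M) h3M
        ((Dvd.intro_left p rfl).trans hdiv')
      have c2 : Ch D (3 * M) (cop (p * a)) := ch_cop D (dvd_mul_right 3 M) h3M hdiv'
      have hne := c1.ne
      have hck : D.ck (cop a) 1 p = D.co (cop (p * a)) := by
        funext x y
        unfold FD.ck FD.co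
        set α := D.β (x, y)
        have h1 : cop (p * a) α = cop a α * (1 - 1 * dv p α) := by
          unfold dv
          by_cases h2 : p ∣ α
          · rw [if_pos h2, cop_zero]
            · ring
            · intro h4
              have h5 := (IsCoprime.mul_right_iff.1 h4).1
              exact hp.not_unit (h5.isUnit_of_dvd' h2 dvd_rfl)
          · rw [if_neg h2, mul_zero, sub_zero, mul_one]
            refine cop_congr ?_
            rw [IsCoprime.mul_right_iff]
            constructor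
            · exact fun h => h.2
            · intro h
              exact ⟨((hp.irreducible.coprime_iff_not_dvd).2 h2).symm, h⟩
        rw [h1]
        ring
      obtain ⟨py, px⟩ := c2.co_per
      have h6 := c1.L_ck 1 hp.ne_zero (n := 3 * M) (by rw [hck]; exact py) (by rw [hck]; exact px) 1
      rw [hck, hL, Fs_one D hp.ne_zero (cop_one ((hp.irreducible.coprime_iff_not_dvd).2 hpa))] at h6
      refine ⟨(1 - ups (D.nn p) / (D.nn p : ℂ)) * κ, ?_, ?_⟩
      · rw [map_mul, hκ, mul_one]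
        exact hgood p hp (dvd_mul_right p a)
      · rw [h6]
        ring

lemma sm_inv {M : ℕ} {χ : A → ℂ} (h : Ch D M χ) : Inv lam (sm wR (D.co χ)) := by
  intro x y
  unfold sm
  rw [h.co_inv x y, ind_inv]

/-- the value at `1` by the kernel sum -/
lemma ker_val {L : PeriodPair} {Ω : ℂ} (h : HL L Ω) {M : ℕ} [NeZero M] {χ : A → ℂ} (hc : Ch D M χ) :
    (E1 - E2) * ((1 - 4 * D.Fs χ 1 D.p2) * FD.LI (D.co χ) 1) =
      3 * (Ω / M) ^ 2 * Sm L Ω M wR (wR * wR) lam (D.co χ) := by
  obtain ⟨py, px⟩ := hc.co_per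
  have k := kernel h hc.odd (e := wR) (e' := wR * wR) (Or.inl ⟨rfl, rfl⟩) hc.co_bd py px
    (co_zero D χ) (row_zero py hc.co_w) (sm_inv hc) axE one_pos
  have hp2 : D.p2 ≠ 0 := by
    intro h0
    unfold FD.p2 at h0
    have h1 := congrArg D.β.symm h0
    rw [AddEquiv.symm_apply_apply, map_zero] at h1
    have h2 := congrArg Prod.fst h1
    exact one_ne_zero h2
  obtain ⟨qy, qx⟩ := sm_per wR py px
  rw [D.sm_eq] at qy qx
  have k2' := hc.L_ck 4 hp2 (n := 2 * M) qy qx 1
  rw [← k2', ← D.sm_eq]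
  exact k

/-- **Nonvanishing.** -/
theorem nonvan {L : PeriodPair} {Ω : ℂ} (h : HL L Ω) (h2 : v 2 < 1) (hv2 : v 2 ≠ 0)
    (hbase : v (Sm L Ω 3 wR (wR * wR) lam (D.co (cop 1))) = v 2) {M : ℕ} {χ : A → ℂ}
    (hc : Ch D M χ) {a : A} (ha : a ≠ 0) (haM : a ∣ (M : A))
    (hχ : ∀ α, IsCoprime α a → ∃ k : ℕ, χ α ^ 2 ^ k = 1) (hχ0 : ∀ α, ¬ IsCoprime α a → χ α = 0)
    (hgood : ∀ q : A, Prime q → q ∣ a → v (1 - ups (D.nn q) / (D.nn q : ℂ)) = 1) :
    FD.LI (D.co χ) 1 ≠ 0 := by
  have hM := hc.odd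
  have := hc.ne
  have hM0 : (M : ℂ) ≠ 0 := by exact_mod_cast NeZero.ne M
  have hΩ := h.ne
  obtain ⟨κ, hκ, hL⟩ := chain (v := v) (D := D) a ha hgood ⟨M, hM, haM⟩
  have ca : Ch D M (cop a) := ch_cop D hc.three hM haM
  have c1 : Ch D 3 (cop 1) := ch_cop D dvd_rfl (by decide) (one_dvd _)
  have k1 := ker_val h ca
  have k2 := ker_val h c1
  have k3 := ker_val h hc
  have hp2 : D.p2 ≠ 0 := by
    intro h0
    unfold FD.p2 at h0
    have h1 := congrArg D.β.symm h0
    rw [AddEquiv.symm_apply_apply, map_zero] at h1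
    have h2 := congrArg Prod.fst h1
    exact one_ne_zero h2
  -- `p2` is prime to `a`
  have hcop : IsCoprime D.p2 a := by
    have e1 : IsCoprime (2 : A) (M : A) := by
      obtain ⟨k, hk⟩ := hM
      refine ⟨-(k : A), 1, ?_⟩
      rw [hk]
      push_cast
      ring
    refine (e1.of_isCoprime_of_dvd_right haM).of_isCoprime_of_dvd_left ?_
    have e2 : D.β (0, 2) = (2 : A) := by
      apply D.i2
      rw [D.s2, map_ofNat]
      simp
      rfl
    rw [← e2, D.p2_dvd]
    exact ⟨1, by ring⟩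
  have f1 := Fs_one D hp2 (cop_one hcop)
  have f2 := Fs_one D hp2 (cop_one (isCoprime_one_right (x := D.p2)))
  rw [f1, hL] at k1
  rw [f2] at k2
  push_cast at k2
  have hval : v (Sm L Ω M wR (wR * wR) lam (D.co (cop a))) = v 2 := by
    have e1 : Sm L Ω M wR (wR * wR) lam (D.co (cop a)) =
        κ * (M / 3) ^ 2 * Sm L Ω 3 wR (wR * wR) lam (D.co (cop 1)) := by
      have e2 : 3 * (Ω / M) ^ 2 * Sm L Ω M wR (wR * wR) lam (D.co (cop a)) =
          κ * (3 * (Ω / 3) ^ 2 * Sm L Ω 3 wR (wR * wR) lam (D.co (cop 1))) := by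
        rw [← k1, ← k2]
        ring
      field_simp at e2 ⊢
      linear_combination e2
    rw [e1, map_mul, map_mul, hκ, hbase, map_pow, map_div₀]
    have v3 : v 3 = 1 := by
      have := v_odd h2 (n := 3) (by decide)
      exact_mod_cast this
    have vM : v (M : ℂ) = 1 := by
      have := v_odd h2 (n := (M : ℤ)) (by exact_mod_cast hM)
      exact_mod_cast this
    rw [v3, vM]
    simp
  obtain ⟨py, px⟩ := hc.co_per
  obtain ⟨qy, qx⟩ := ca.co_per
  have hne := Sm_cong h h2 hv2 hM wR (wR * wR) lam py px qy qx hc.co_neg ca.co_neg (fun x y => by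
    unfold FD.co
    rw [← sub_mul, map_mul]
    have hu : v (ups (D.nn (D.β (x, y)))) ≤ 1 := by
      rcases ups_cases (D.nn (D.β (x, y))) with h0 | ⟨u, hu, -⟩
      · rw [h0, map_zero]
        exact zero_le_one
      · rw [hu]
        exact v_RR _
    have hd : v (χ (D.β (x, y)) - cop a (D.β (x, y))) < 1 := by
      by_cases h1 : IsCoprime (D.β (x, y)) a
      · rw [cop_one h1]
        obtain ⟨k, hk⟩ := hχ _ h1
        exact v_sub_one h2 k hk
      · rw [cop_zero h1, hχ0 _ h1, sub_zero, map_zero]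
        exact zero_lt_one
    calc _ ≤ v (χ (D.β (x, y)) - cop a (D.β (x, y))) * 1 := by gcongr
      _ < 1 := by rwa [mul_one]) hval
  intro h0
  rw [h0, mul_zero, mul_zero] at k3
  have hΩM : 3 * (Ω / M) ^ 2 ≠ 0 := mul_ne_zero (by norm_num) (pow_ne_zero 2 (div_ne_zero hΩ hM0))
  exact (mul_ne_zero hΩM hne) k3.symm

end Pool.Agent.Y688
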