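import Pool.Agent.Y688.A4

/-!
# The base case
-/

set_option autoImplicit false

open Complex Filter Topology MeasureTheory Set
open scoped PeriodPair

namespace Pool.Agent.Y688

open Pool.Agent.W192.HK Pool.Agent.TH936.CM H667R3

variable {L : PeriodPair} {Ω : ℂ}

lemma not3_one {r : RR} (h : (1 : RR) = 3 * r) : False := by
  have h1 : ups (0 + 3 * r) = ups 0 := ups_per 0 r
  rw [zero_add, ← h, ups_one, ups_lam (dvd_zero _)] at h1
  exact one_ne_zero h1

lemma coe3 : ((3 : RR) : ℂ) = 3 := rfl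

/-- pairs of residues modulo `3` -/
noncomputable def e33 : Fin 3 × Fin 3 ≃ RM 3 :=
  Equiv.ofBijective (fun p => Ideal.Quotient.mk (sp ((3 : ℕ) : RR)) ((p.1 : ℕ) + (p.2 : ℕ) * wR)) (by
    constructor
    · rintro ⟨i, j⟩ ⟨i', j'⟩ h
      simp only at h
      rw [mk_eq] at h
      obtain ⟨r, hr⟩ := h
      obtain ⟨a, b, hab⟩ := (mem_RR r).1 r.2
      have h1 := congrArg Subtype.val hr
      push_cast at h1
      rw [hab, wR_coe, coe3] at h1
      have h3re : (3 : ℂ).re = 3 := rfl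
      have h3im : (3 : ℂ).im = 0 := rfl
      have him := congrArg Complex.im h1
      have hre := congrArg Complex.re h1
      simp only [Complex.add_re, Complex.add_im, Complex.sub_re, Complex.sub_im, Complex.mul_re,
        Complex.mul_im, Complex.natCast_re, Complex.natCast_im, Complex.intCast_re,
        Complex.intCast_im, w_re, w_im, zero_mul, sub_zero, add_zero, zero_add, h3re, h3im] at him hre
      have h3 : (0 : ℝ) < √3 := by positivity
      have hj : ((j : ℕ) : ℝ) - (j' : ℕ) = 3 * b := by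
        have : (((j : ℕ) : ℝ) - (j' : ℕ) - 3 * b) * √3 = 0 := by
          push_cast at him
          linarith
        have := (mul_eq_zero.1 this).resolve_right h3.ne'
        linarith
      have hi : ((i : ℕ) : ℝ) - (i' : ℕ) = 3 * a := by
        push_cast at hre
        linarith
      have hjz : ((j : ℕ) : ℤ) - (j' : ℕ) = 3 * b := by exact_mod_cast hj
      have hiz : ((i : ℕ) : ℤ) - (i' : ℕ) = 3 * a := by exact_mod_cast hi
      have := i.2
      have := i'.2
      have := j.2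
      have := j'.2
      refine Prod.ext (Fin.ext ?_) (Fin.ext ?_)
      · simp only
        omega
      · simp only
        omega
    · intro q
      obtain ⟨z, rfl⟩ := Ideal.Quotient.mk_surjective q
      obtain ⟨a, b, hab⟩ := (mem_RR z).1 z.2
      have hz : z = (a : RR) + (b : RR) * wR := Subtype.ext (by
        push_cast
        rw [wR_coe]
        exact hab)
      refine ⟨(⟨(a % 3).toNat, by omega⟩, ⟨(b % 3).toNat, by omega⟩), ?_⟩
      simp only
      rw [mk_eq, hz]
      refine ⟨-(((a / 3 : ℤ) : RR)) - ((b / 3 : ℤ) : RR) * wR, ?_⟩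
      have h1 : (((a % 3).toNat : ℕ) : RR) = ((a % 3 : ℤ) : RR) := by
        have : (((a % 3).toNat : ℕ) : ℤ) = a % 3 := Int.toNat_of_nonneg (by omega)
        calc (((a % 3).toNat : ℕ) : RR) = ((((a % 3).toNat : ℕ) : ℤ) : RR) := by push_cast; rfl
          _ = _ := by rw [this]
      have h2 : (((b % 3).toNat : ℕ) : RR) = ((b % 3 : ℤ) : RR) := by
        have : (((b % 3).toNat : ℕ) : ℤ) = b % 3 := Int.toNat_of_nonneg (by omega)
        calc (((b % 3).toNat : ℕ) : RR) = ((((b % 3).toNat : ℕ) : ℤ) : RR) := by push_cast; rfl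
          _ = _ := by rw [this]
      have h3 : ((a : ℤ) : RR) = 3 * ((a / 3 : ℤ) : RR) + ((a % 3 : ℤ) : RR) := by
        have : a = 3 * (a / 3) + a % 3 := by omega
        conv_lhs => rw [this]
        push_cast
        ring
      have h4 : ((b : ℤ) : RR) = 3 * ((b / 3 : ℤ) : RR) + ((b % 3 : ℤ) : RR) := by
        have : b = 3 * (b / 3) + b % 3 := by omega
        conv_lhs => rw [this]
        push_cast
        ring
      rw [h1, h2]
      push_cast
      linear_combination -h3 - wR * h4)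

lemma sum3 {f : RR → ℂ} (hf : Per 3 f) : ∑ q : RM 3, f q.out =
    f 0 + f lam + f (-lam) + f 1 + f (-1) + f wR + f (-wR) + f (wR * wR) + f (-(wR * wR)) := by
  have h1 : ∑ q : RM 3, f q.out = ∑ p : Fin 3 × Fin 3, f ((p.1 : ℕ) + (p.2 : ℕ) * wR) := by
    refine (Fintype.sum_equiv e33 _ _ fun p => ?_).symm
    exact (hf.out _).symm
  rw [h1, Fintype.sum_prod_type]
  simp only [Fin.sum_univ_three]
  have hl : lam = 1 + 2 * wR := rfl
  have k : ∀ (x y r : RR), x = y + 3 * r → f x = f y := by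
    intro x y r h
    rw [h]
    exact hf.add y r
  have t0 : ((0 : Fin 3) : ℕ) = 0 := rfl
  have t1 : ((1 : Fin 3) : ℕ) = 1 := rfl
  have t2 : ((2 : Fin 3) : ℕ) = 2 := rfl
  rw [t0, t1, t2]
  push_cast
  rw [k (0 + 0 * wR) 0 0 (by ring), k (0 + 1 * wR) wR 0 (by ring), k (0 + 2 * wR) (-wR) wR (by ring),
    k (1 + 0 * wR) 1 0 (by ring), k (1 + 1 * wR) (-(wR * wR)) 0 (by linear_combination wR_sq),
    k (1 + 2 * wR) lam 0 (by rw [hl]; ring), k (2 + 0 * wR) (-1) 1 (by ring),
    k (2 + 1 * wR) (-lam) (1 + wR) (by rw [hl]; ring),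
    k (2 + 2 * wR) (wR * wR) (1 + wR) (by linear_combination -wR_sq)]
  ring

lemma sum_neg {n : ℕ} [NeZero n] {f : RR → ℂ} (hf : Per n f) :
    ∑ q : RM n, f (-q.out) = ∑ q : RM n, f q.out := by
  refine Fintype.sum_equiv (Equiv.neg _) _ _ fun q => ?_
  exact (hf.neg_out q).symm

/-- the coefficient function of the base case -/
noncomputable def c0 (x y : RR) : ℂ := ups (y * y - lam * (x * y) + x * x)

lemma c0_per : (∀ x, Per 3 (c0 x)) ∧ (∀ y, Per 3 (fun x => c0 x y)) := by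
  constructor
  · intro x
    refine per_of fun y r => ?_
    unfold c0
    have : (y + ((3 : ℕ) : RR) * r) * (y + ((3 : ℕ) : RR) * r) - lam * (x * (y + ((3 : ℕ) : RR) * r)) +
        x * x = y * y - lam * (x * y) + x * x + 3 * (2 * y * r + 3 * r * r - lam * (x * r)) := by
      push_cast
      ring
    rw [this, ups_per]
  · intro y
    refine per_of fun x r => ?_
    unfold c0
    have : y * y - lam * ((x + ((3 : ℕ) : RR) * r) * y) + (x + ((3 : ℕ) : RR) * r) *
        (x + ((3 : ℕ) : RR) * r) =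
        y * y - lam * (x * y) + x * x + 3 * (2 * x * r + 3 * r * r - lam * (r * y)) := by
      push_cast
      ring
    rw [this, ups_per]

/-- the summand -/
noncomputable def F0 (L : PeriodPair) (Ω : ℂ) (a b : RR) : ℂ :=
  c0 (2 * a) (2 * b) * kk L Ω 3 wR (wR * wR) a b

lemma F0_per (hL : IsLat L RR Ω) :
    (∀ x, Per 3 (F0 L Ω x)) ∧ (∀ y, Per 3 (fun x => F0 L Ω x y)) := by
  obtain ⟨ky, kx⟩ := kk_per hL 3 wR (wR * wR)
  constructor
  · intro x
    refine per_of fun y r => ?_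
    unfold F0
    have e1 : 2 * (y + ((3 : ℕ) : RR) * r) = 2 * y + ((3 : ℕ) : RR) * (2 * r) := by ring
    rw [e1, (c0_per.1 _).add, (ky _).add]
  · intro y
    refine per_of fun x r => ?_
    unfold F0
    have e1 : 2 * (x + ((3 : ℕ) : RR) * r) = 2 * x + ((3 : ℕ) : RR) * (2 * r) := by ring
    rw [e1, (c0_per.2 _).add, (kx _).add]

lemma arg_w (M : ℕ) (a : RR) : Ω * ((wR * a : RR) : ℂ) / M = w * (Ω * a / M) := by
  push_cast
  rw [wR_coe]
  ring

lemma F0_w (hL : IsLat L RR Ω) (a b : RR) : F0 L Ω (wR * a) (wR * b) = F0 L Ω a b := by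
  unfold F0 kk
  rw [arg_w, arg_w, wp_w hL, wp_w hL, wp'_w hL, wp'_w hL]
  have h1 : c0 (2 * (wR * a)) (2 * (wR * b)) = w * w * c0 (2 * a) (2 * b) := by
    unfold c0
    have : 2 * (wR * b) * (2 * (wR * b)) - lam * (2 * (wR * a) * (2 * (wR * b))) +
        2 * (wR * a) * (2 * (wR * a)) = (wR * wR) * (2 * b * (2 * b) - lam * (2 * a * (2 * b)) +
        2 * a * (2 * a)) := by ring
    rw [this, ups_mul, ups_mul]
    have h2 : ups wR = w := ups_u wU
    rw [h2]
  rw [h1]
  have h3 := w3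
  generalize ℘[L] (Ω * a / ((3 : ℕ) : ℂ)) = x
  generalize ℘[L] (Ω * b / ((3 : ℕ) : ℂ)) = y
  generalize ℘'[L] (Ω * a / ((3 : ℕ) : ℂ)) = p
  generalize ℘'[L] (Ω * b / ((3 : ℕ) : ℂ)) = q
  generalize c0 (2 * a) (2 * b) = c
  push_cast
  rw [wR_coe]
  simp only [div_eq_mul_inv]
  linear_combination (c * (p * q)⁻¹ * ((w ^ 3 + 1) * (x ^ 2 * y ^ 2) - w * w * x - w * y)) * h3

lemma F0_neg (a b : RR) : F0 L Ω (-a) (-b) = F0 L Ω a b := by
  unfold F0
  rw [kk_neg]
  congr 1
  unfold c0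
  congr 1
  ring

/-- the inner sum -/
noncomputable def g0 (L : PeriodPair) (Ω : ℂ) (a : RR) : ℂ := ∑ b : RM 3, F0 L Ω a b.out

lemma g0_w (hL : IsLat L RR Ω) (a : RR) : g0 L Ω (wR * a) = g0 L Ω a := by
  unfold g0
  rw [← sum_w ((F0_per hL).1 (wR * a))]
  exact Finset.sum_congr rfl fun b _ => F0_w hL _ _

lemma g0_neg (hL : IsLat L RR Ω) (a : RR) : g0 L Ω (-a) = g0 L Ω a := by
  unfold g0
  rw [← sum_neg ((F0_per hL).1 (-a))]
  exact Finset.sum_congr rfl fun b _ => F0_neg _ _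

lemma g0_per (hL : IsLat L RR Ω) : Per 3 (g0 L Ω) := by
  refine per_of fun x r => ?_
  unfold g0
  exact Finset.sum_congr rfl fun b _ => ((F0_per hL).2 _).add _ _

lemma x_lam (hL : IsLat L RR Ω) : ℘[L] (Ω * (lam : RR) / ((3 : ℕ) : ℂ)) = 0 := by
  have h1 : ℘[L] (Ω * ((wR * lam : RR) : ℂ) / ((3 : ℕ) : ℂ)) = ℘[L] (Ω * (lam : RR) / ((3 : ℕ) : ℂ)) := by
    have h2 := (wp_per hL 3).add (wR * lam) (1 + wR)
    rw [← h2]
    have : wR * lam + ((3 : ℕ) : RR) * (1 + wR) = lam := by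
      have hl : lam = 1 + 2 * wR := rfl
      push_cast
      rw [hl]
      linear_combination 2 * wR_sq
    rw [this]
  rw [arg_w, wp_w hL] at h1
  have h3 : (1 - w) * ℘[L] (Ω * (lam : RR) / ((3 : ℕ) : ℂ)) = 0 := by linear_combination -h1
  refine (mul_eq_zero.1 h3).resolve_left ?_
  intro h4
  have := congrArg Complex.re h4
  simp only [Complex.sub_re, Complex.one_re, w_re, Complex.zero_re] at this
  norm_num at this

/-- the coordinate `X` of the `3`-torsion point -/
noncomputable def X0 (L : PeriodPair) (Ω : ℂ) : ℂ := ℘[L] (Ω * (1 : RR) / ((3 : ℕ) : ℂ))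

/-- the coordinate `P` of the `3`-torsion point -/
noncomputable def P0 (L : PeriodPair) (Ω : ℂ) : ℂ := ℘'[L] (Ω * (1 : RR) / ((3 : ℕ) : ℂ))

lemma third_notMem (hL : IsLat L RR Ω) {a : RR} (h : ∀ r : RR, a ≠ 3 * r) :
    Ω * a / ((3 : ℕ) : ℂ) ∉ L.lattice := by
  intro h1
  obtain ⟨r, hr⟩ := (hL.mem _).1 h1
  apply h r
  apply Subtype.ext
  push_cast at hr ⊢
  have h2 : Ω * (a : ℂ) = Ω * (3 * r) := by
    field_simp at hr
    linear_combination hr
  have := mul_left_cancel₀ hL.ne h2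
  rw [this]
  rfl

lemma X0_cube (h : HL L Ω) : X0 L Ω ^ 3 = -1 := by
  have hL := h.toIsLat
  have hz : Ω * (1 : RR) / ((3 : ℕ) : ℂ) ∉ L.lattice := third_notMem hL fun r hr => not3_one hr
  have hlz : Ω * (lam : RR) / ((3 : ℕ) : ℂ) ∉ L.lattice := by
    refine third_notMem hL fun r hr => ?_
    have h1 : lam * lam = lam * (3 * r) := by rw [← hr]
    rw [lam_sq] at h1
    have h2 : (1 : RR) = -(lam * r) := by
      have h3 : (3 : RR) ≠ 0 := by
        intro h
        have := congrArg Subtype.val h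
        rw [coe3] at this
        norm_num at this
      exact mul_left_cancel₀ h3 (by linear_combination -h1)
    exact not_unit_lam ⟨⟨lam, -r, by linear_combination -h2, by linear_combination -h2⟩, rfl⟩
  have hdup := dup_all h (M := 3) (by decide) 1
  have h1 : ℘[L] (Ω * ((2 * 1 : RR) : ℂ) / ((3 : ℕ) : ℂ)) = ℘[L] (Ω * (1 : RR) / ((3 : ℕ) : ℂ)) := by
    have h2 := (wp_per hL 3).add (2 * 1) (-1)
    rw [← h2]
    have : 2 * 1 + ((3 : ℕ) : RR) * (-1) = -1 := by push_cast; ring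
    rw [this, neg_arg, L.weierstrassP_neg]
  rw [h1, sub_self] at hdup
  have h2z : 2 * (Ω * (1 : RR) / ((3 : ℕ) : ℂ)) ∉ L.lattice := by
    intro h3
    have h4 := sub_mem (hL.mem_mul 1) h3
    apply hz
    have : Ω * ((1 : RR) : ℂ) - 2 * (Ω * (1 : RR) / ((3 : ℕ) : ℂ)) = Ω * (1 : RR) / ((3 : ℕ) : ℂ) := by
      push_cast
      ring
    rw [← this]
    exact h4
  have hp := wp'_ne_zero L h2z
  have h5 : X0 L Ω * (X0 L Ω ^ 3 + 1) = 0 := by
    unfold X0
    have h6 := (mul_eq_zero.1 hdup.symm).resolve_left (by norm_num)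
    exact (div_eq_zero_iff.1 h6).resolve_right (pow_ne_zero 2 hp)
  rcases mul_eq_zero.1 h5 with h6 | h6
  · exfalso
    unfold X0 at h6
    have h7 : ℘[L] (Ω * (1 : RR) / ((3 : ℕ) : ℂ)) = ℘[L] (Ω * (lam : RR) / ((3 : ℕ) : ℂ)) := by
      rw [h6, x_lam hL]
    rw [wp_eq_iff L hz hlz] at h7
    have hl : lam = 1 + 2 * wR := rfl
    rcases h7 with h8 | h8
    · have e1 : Ω * (1 : RR) / ((3 : ℕ) : ℂ) + Ω * (lam : RR) / ((3 : ℕ) : ℂ) =
          Ω * ((1 + lam : RR) : ℂ) / ((3 : ℕ) : ℂ) := by push_cast; ring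
      rw [e1] at h8
      refine third_notMem hL (fun r hr => ?_) h8
      -- `1 + lam = 2 + 2ω = -2ω²`
      refine not3_one (r := 1 + wR * r) ?_
      linear_combination wR * hr - wR * hl - 2 * wR_sq
    · have e1 : Ω * (1 : RR) / ((3 : ℕ) : ℂ) - Ω * (lam : RR) / ((3 : ℕ) : ℂ) =
          Ω * ((1 - lam : RR) : ℂ) / ((3 : ℕ) : ℂ) := by push_cast; ring
      rw [e1] at h8
      refine third_notMem hL (fun r hr => ?_) h8
      refine not3_one (r := 1 + wR * wR * r) ?_
      linear_combination (wR * wR) * hr + (wR * wR) * hl + 2 * wR3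
  · linear_combination h6

end Pool.Agent.Y688
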