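import Pool.Agent.Y688.B1

/-!
# The base case, II
-/

set_option autoImplicit false

open Complex Filter Topology MeasureTheory Set
open scoped PeriodPair

namespace Pool.Agent.Y688

open Pool.Agent.W192.HK Pool.Agent.TH936.CM H667R3

variable {L : PeriodPair} {Ω : ℂ}

lemma g0_lam (hL : IsLat L RR Ω) : g0 L Ω lam = 0 := by
  have hx := x_lam hL
  have h1 : ∀ b : RR, F0 L Ω lam (-b) = -F0 L Ω lam b := by
    intro b
    unfold F0 kk
    rw [hx, neg_arg, L.weierstrassP_neg, L.derivWeierstrassP_neg]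
    have h2 : c0 (2 * lam) (2 * -b) = c0 (2 * lam) (2 * b) := by
      unfold c0
      have : 2 * -b * (2 * -b) - lam * (2 * lam * (2 * -b)) + 2 * lam * (2 * lam) =
          2 * b * (2 * b) - lam * (2 * lam * (2 * b)) + 2 * lam * (2 * lam) + 3 * (-8 * b) := by
        linear_combination (8 * b) * lam_sq
      rw [this, ups_per]
    rw [h2]
    simp only [div_eq_mul_inv, mul_inv, inv_neg]
    ring
  have h2 : g0 L Ω lam = -g0 L Ω lam := by
    unfold g0
    conv_lhs => rw [← sum_neg ((F0_per hL).1 lam)]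
    rw [← Finset.sum_neg_distrib]
    exact Finset.sum_congr rfl fun b _ => h1 _
  have h3 : (2 : ℂ) * g0 L Ω lam = 0 := by linear_combination h2
  exact (mul_eq_zero.1 h3).resolve_left (by norm_num)

lemma g0_zero (hL : IsLat L RR Ω) : g0 L Ω 0 = 0 := by
  unfold g0 F0
  refine Finset.sum_eq_zero fun b _ => ?_
  rw [kk_zero hL 3, mul_zero]
  left
  have : Ω * ((0 : RR) : ℂ) / ((3 : ℕ) : ℂ) = Ω * ((0 : RR) : ℂ) := by
    push_cast
    simp
  rw [this]
  exact hL.mem_mul 0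

lemma P0_sq (h : HL L Ω) : P0 L Ω ^ 2 = -3 := by
  have hz : Ω * (1 : RR) / ((3 : ℕ) : ℂ) ∉ L.lattice :=
    third_notMem h.toIsLat fun r hr => not3_one hr
  have h1 := h.curve hz
  have h2 := X0_cube h
  unfold X0 at h2
  unfold P0
  rw [h1, h2]
  norm_num

lemma x_w (hL : IsLat L RR Ω) : ℘[L] (Ω * (wR : RR) / ((3 : ℕ) : ℂ)) = w * X0 L Ω := by
  have := arg_w (Ω := Ω) 3 1
  rw [mul_one] at this
  rw [this, wp_w hL]
  rfl

lemma x_w2 (hL : IsLat L RR Ω) :
    ℘[L] (Ω * ((wR * wR : RR) : ℂ) / ((3 : ℕ) : ℂ)) = w * (w * X0 L Ω) := by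
  rw [arg_w, wp_w hL, x_w hL]

lemma p_w (hL : IsLat L RR Ω) : ℘'[L] (Ω * (wR : RR) / ((3 : ℕ) : ℂ)) = P0 L Ω := by
  have := arg_w (Ω := Ω) 3 1
  rw [mul_one] at this
  rw [this, wp'_w hL]
  rfl

lemma p_w2 (hL : IsLat L RR Ω) :
    ℘'[L] (Ω * ((wR * wR : RR) : ℂ) / ((3 : ℕ) : ℂ)) = P0 L Ω := by
  rw [arg_w, wp'_w hL, p_w hL]

lemma ups_neg1 : ups (-1) = -1 := by
  have := ups_u (-1)
  rw [Units.val_neg, Units.val_one] at this
  rw [this]
  rfl

lemma g0_one (h : HL L Ω) : g0 L Ω 1 = (1 + 2 * w) * X0 L Ω := by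
  have hL := h.toIsLat
  have hX := X0_cube h
  have hP := P0_sq h
  have hPne : P0 L Ω ≠ 0 := by
    intro h0
    rw [h0] at hP
    norm_num at hP
  have hl : lam = 1 + 2 * wR := rfl
  have hx1 : ℘[L] (Ω * ((1 : RR) : ℂ) / ((3 : ℕ) : ℂ)) = X0 L Ω := rfl
  have hp1 : ℘'[L] (Ω * ((1 : RR) : ℂ) / ((3 : ℕ) : ℂ)) = P0 L Ω := rfl
  unfold g0
  rw [sum3 ((F0_per hL).1 1)]
  have t0 : F0 L Ω 1 0 = 0 := by
    unfold F0
    rw [kk_zero hL 3, mul_zero]
    right
    have : Ω * ((0 : RR) : ℂ) / ((3 : ℕ) : ℂ) = Ω * ((0 : RR) : ℂ) := by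
      push_cast
      simp
    rw [this]
    exact hL.mem_mul 0
  have tl : F0 L Ω 1 (-lam) = -F0 L Ω 1 lam := by
    unfold F0 kk
    rw [x_lam hL, neg_arg, L.weierstrassP_neg, L.derivWeierstrassP_neg, x_lam hL]
    have h2 : c0 (2 * 1) (2 * -lam) = c0 (2 * 1) (2 * lam) := by
      unfold c0
      have : 2 * -lam * (2 * -lam) - lam * (2 * 1 * (2 * -lam)) + 2 * 1 * (2 * 1) =
          2 * lam * (2 * lam) - lam * (2 * 1 * (2 * lam)) + 2 * 1 * (2 * 1) + 3 * (-8) := by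
        linear_combination 8 * lam_sq
      rw [this, ups_per]
    rw [h2]
    simp only [div_eq_mul_inv, mul_inv, inv_neg]
    ring
  -- the terms at the units
  have P2 : (P0 L Ω * P0 L Ω)⁻¹ = -1 / 3 := by
    have : P0 L Ω * P0 L Ω = -3 := by linear_combination hP
    rw [this]
    norm_num
  have k1 : kk L Ω 3 wR (wR * wR) 1 1 = 0 := by
    unfold kk
    rw [hx1, hp1, div_eq_mul_inv, P2]
    push_cast
    rw [wR_coe]
    linear_combination (-1 / 3 * X0 L Ω) * hX + (1 / 3 * X0 L Ω) * w_sq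
  have km1 : kk L Ω 3 wR (wR * wR) 1 (-1) = 0 := by
    have e1 : kk L Ω 3 wR (wR * wR) 1 (-1) = -kk L Ω 3 wR (wR * wR) 1 1 := by
      unfold kk
      rw [neg_arg, L.weierstrassP_neg, L.derivWeierstrassP_neg, mul_neg, div_neg]
    rw [e1, k1, neg_zero]
  have kw : kk L Ω 3 wR (wR * wR) 1 wR = w * w * X0 L Ω := by
    unfold kk
    rw [hx1, hp1, x_w hL, p_w hL, div_eq_mul_inv, P2]
    push_cast
    rw [wR_coe]
    linear_combination (-1 / 3 * X0 L Ω * w ^ 2) * hX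
  have kmw : kk L Ω 3 wR (wR * wR) 1 (-wR) = -(w * w * X0 L Ω) := by
    have e1 : kk L Ω 3 wR (wR * wR) 1 (-wR) = -kk L Ω 3 wR (wR * wR) 1 wR := by
      unfold kk
      rw [neg_arg, L.weierstrassP_neg, L.derivWeierstrassP_neg, mul_neg, div_neg]
    rw [e1, kw]
  have kv : kk L Ω 3 wR (wR * wR) 1 (wR * wR) = 0 := by
    unfold kk
    rw [hx1, hp1, x_w2 hL, p_w2 hL, div_eq_mul_inv, P2]
    push_cast
    rw [wR_coe]
    linear_combination (-1 / 3 * X0 L Ω * w ^ 4) * hX + (1 / 3 * X0 L Ω) * w_sq +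
      (1 / 3 * X0 L Ω * w + 1 / 3 * X0 L Ω) * w3
  have kmv : kk L Ω 3 wR (wR * wR) 1 (-(wR * wR)) = 0 := by
    have e1 : kk L Ω 3 wR (wR * wR) 1 (-(wR * wR)) = -kk L Ω 3 wR (wR * wR) 1 (wR * wR) := by
      unfold kk
      rw [neg_arg, L.weierstrassP_neg, L.derivWeierstrassP_neg, mul_neg, div_neg]
    rw [e1, kv, neg_zero]
  have cw : c0 (2 * 1) (2 * wR) = -1 := by
    unfold c0
    have : 2 * wR * (2 * wR) - lam * (2 * 1 * (2 * wR)) + 2 * 1 * (2 * 1) = -1 + 3 * 3 := by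
      rw [hl]
      linear_combination (-4) * wR_sq
    rw [this, ups_per, ups_neg1]
  have cmw : c0 (2 * 1) (2 * -wR) = -(w * w) := by
    unfold c0
    have e : ((-(wU * wU) : RRˣ) : RR) = -(wR * wR) := by
      rw [Units.val_neg, Units.val_mul, wU_coe]
    have : 2 * -wR * (2 * -wR) - lam * (2 * 1 * (2 * -wR)) + 2 * 1 * (2 * 1) =
        ((-(wU * wU) : RRˣ) : RR) + 3 * (3 * (wR * wR)) := by
      rw [hl, e]
      linear_combination 4 * wR_sq
    rw [this, ups_unit, e]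
    push_cast
    rw [wR_coe]
  rw [t0, tl]
  unfold F0
  rw [k1, km1, kw, kmw, kv, kmv, cw, cmw]
  linear_combination (X0 L Ω * w) * w3 - (X0 L Ω) * w_sq

theorem Sm_base (h : HL L Ω) {A : Type*} [CommRing A] (D : FD A E1 E2) :
    Sm L Ω 3 wR (wR * wR) lam (D.co (cop 1)) = 6 * (1 + 2 * w) * X0 L Ω := by
  have hL := h.toIsLat
  have hc : ∀ x y, D.co (cop 1) x y = c0 x y := by
    intro x y
    unfold FD.co c0
    rw [cop_one isCoprime_one_right, one_mul]
    unfold FD.nn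
    rw [AddEquiv.symm_apply_apply]
  unfold Sm
  simp only [hc]
  have h1 : ∑ a : RM 3, ∑ b : RM 3, c0 (2 * a.out) (2 * b.out) * kk L Ω 3 wR (wR * wR) a.out b.out =
      ∑ a : RM 3, g0 L Ω a.out := rfl
  have h2 : ∑ q : RM 3, c0 0 (2 * q.out) * k2 L Ω 3 q.out = 0 := by
    have hper : Per 3 (fun q => c0 0 (2 * q) * k2 L Ω 3 q) := by
      refine per_of fun y r => ?_
      have e1 : 2 * (y + ((3 : ℕ) : RR) * r) = 2 * y + ((3 : ℕ) : RR) * (2 * r) := by ring
      rw [e1, (c0_per.1 _).add, (k2_per hL 3).add]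
    have h3 := sum3 hper
    have hX := X0_cube h
    have z1 : k2 L Ω 3 1 = 0 := by
      unfold k2
      have hx1 : ℘[L] (Ω * ((1 : RR) : ℂ) / ((3 : ℕ) : ℂ)) = X0 L Ω := rfl
      rw [hx1, hX]
      simp
    have z2 : k2 L Ω 3 wR = 0 := by
      unfold k2
      rw [x_w hL, mul_pow, hX, w_cube]
      simp
    have z3 : k2 L Ω 3 (wR * wR) = 0 := by
      unfold k2
      rw [x_w2 hL, mul_pow, mul_pow, hX, w_cube]
      simp
    have z4 : k2 L Ω 3 lam = 0 := by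
      unfold k2
      rw [x_lam hL]
      simp
    have z0 : k2 L Ω 3 0 = 0 := by
      refine k2_zero 3 ?_
      have : Ω * ((0 : RR) : ℂ) / ((3 : ℕ) : ℂ) = Ω * ((0 : RR) : ℂ) := by
        push_cast
        simp
      rw [this]
      exact hL.mem_mul 0
    rw [h3]
    rw [k2_neg, k2_neg, k2_neg, k2_neg, z0, z1, z2, z3, z4]
    simp
  rw [h1, h2, mul_zero, sub_zero, sum3 (g0_per hL)]
  have e1 : g0 L Ω wR = g0 L Ω 1 := by
    have := g0_w hL 1
    rwa [mul_one] at this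
  rw [g0_neg hL, g0_neg hL, g0_neg hL, g0_neg hL, g0_w hL, e1, g0_lam hL, g0_zero hL, g0_one h]
  ring

variable {Γ : Type*} [LinearOrderedCommGroupWithZero Γ] {v : Valuation ℂ Γ}

theorem v_base (h : HL L Ω) (h2 : v 2 < 1) {A : Type*} [CommRing A] (D : FD A E1 E2) :
    v (Sm L Ω 3 wR (wR * wR) lam (D.co (cop 1))) = v 2 := by
  rw [Sm_base h D]
  have v3 : v 3 = 1 := by
    have := v_odd h2 (n := 3) (by decide)
    exact_mod_cast this
  have hX : v (X0 L Ω) = 1 := by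
    refine v_root (n := 6) (by norm_num) ?_
    have := X0_cube h
    calc X0 L Ω ^ 6 = (X0 L Ω ^ 3) ^ 2 := by ring
      _ = 1 := by rw [this]; norm_num
  have hlam : v (1 + 2 * w) = 1 := by
    refine v.map_one_add_of_lt ?_
    rw [map_mul, v_root (n := 3) (by norm_num) w_cube, mul_one]
    exact h2
  have h6 : v 6 = v 2 := by
    have : (6 : ℂ) = 2 * 3 := by norm_num
    rw [this, map_mul, v3, mul_one]
  rw [map_mul, map_mul, hX, hlam, h6, mul_one, mul_one]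

end Pool.Agent.Y688
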