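import Mathlib

/-!
# Euler products over the primes of a Dedekind domain
-/

set_option autoImplicit false

open IsDedekindDomain Filter Topology

namespace Pool.Agent.Y688

variable {A : Type*} [CommRing A] [IsDedekindDomain A]

/-- nonzero ideals -/
abbrev NI (A : Type*) [CommRing A] : Type _ := {I : Ideal A // I ≠ ⊥}

/-- `I` is composed of primes in `S` -/
def supp (S : Finset (HeightOneSpectrum A)) (I : Ideal A) : Prop :=
  ∀ v : HeightOneSpectrum A, v.asIdeal ∣ I → v ∈ S

/-- the part of the sum supported on `S` -/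
noncomputable def part (g : Ideal A → ℂ) (S : Finset (HeightOneSpectrum A)) (I : NI A) : ℂ := by
  classical
  exact if supp S I.1 then g I.1 else 0

omit [IsDedekindDomain A] in
lemma part_pos {g : Ideal A → ℂ} {S : Finset (HeightOneSpectrum A)} {I : NI A} (h : supp S I.1) :
    part g S I = g I.1 := by
  unfold part
  rw [if_pos h]

omit [IsDedekindDomain A] in
lemma part_neg {g : Ideal A → ℂ} {S : Finset (HeightOneSpectrum A)} {I : NI A} (h : ¬ supp S I.1) :
    part g S I = 0 := by
  unfold part
  rw [if_neg h]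

lemma part_le (g : Ideal A → ℂ) (S : Finset (HeightOneSpectrum A)) (I : NI A) :
    ‖part g S I‖ ≤ ‖g I.1‖ := by
  by_cases h : supp S I.1
  · rw [part_pos h]
  · rw [part_neg h, norm_zero]
    exact norm_nonneg _

lemma eq_of_dvd {v w : HeightOneSpectrum A} (h : w.asIdeal ∣ v.asIdeal) : w = v := by
  have h1 := Ideal.dvd_iff_le.1 h
  exact HeightOneSpectrum.ext (v.isMaximal.eq_of_le w.isPrime.ne_top h1).symm

/-- multiplication by a prime -/
def mulv (v : HeightOneSpectrum A) (J : NI A) : NI A :=
  ⟨v.asIdeal * J.1, mul_ne_zero v.ne_bot J.2⟩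

lemma mulv_inj (v : HeightOneSpectrum A) : Function.Injective (mulv v) := by
  intro I J h
  have h1 : v.asIdeal * I.1 = v.asIdeal * J.1 := congrArg Subtype.val h
  exact Subtype.ext (mul_left_cancel₀ v.ne_bot h1)

lemma supp_mulv {v : HeightOneSpectrum A} [DecidableEq (HeightOneSpectrum A)]
    {S : Finset (HeightOneSpectrum A)} {J : Ideal A} :
    supp (insert v S) (v.asIdeal * J) ↔ supp (insert v S) J := by
  constructor
  · intro h w hw
    exact h w (hw.mul_left _)
  · intro h w hw
    rcases w.prime.dvd_or_dvd hw with h1 | h1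
    · rw [eq_of_dvd h1]
      exact Finset.mem_insert_self _ _
    · exact h w h1

omit [IsDedekindDomain A] in
lemma supp_insert {v : HeightOneSpectrum A} [DecidableEq (HeightOneSpectrum A)]
    {S : Finset (HeightOneSpectrum A)} {J : Ideal A} (h : ¬ v.asIdeal ∣ J) :
    supp (insert v S) J ↔ supp S J := by
  constructor
  · intro h1 w hw
    rcases Finset.mem_insert.1 (h1 w hw) with h2 | h2
    · rw [h2] at hw
      exact absurd hw h
    · exact h2
  · intro h1 w hw
    exact Finset.mem_insert_of_mem (h1 w hw)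

variable {g : Ideal A → ℂ}

lemma part_summable (hs : Summable fun I : NI A => ‖g I.1‖) (S : Finset (HeightOneSpectrum A)) :
    Summable (part g S) :=
  Summable.of_norm_bounded hs (part_le g S)

lemma part_step [DecidableEq (HeightOneSpectrum A)] (hmul : ∀ I J : Ideal A, g (I * J) = g I * g J)
    (hs : Summable fun I : NI A => ‖g I.1‖) {S : Finset (HeightOneSpectrum A)}
    {v : HeightOneSpectrum A} (hv : v ∉ S) :
    ∑' I, part g (insert v S) I = ∑' I, part g S I + g v.asIdeal * ∑' I, part g (insert v S) I := by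
  have h1 : ∑' I, part g (insert v S) I - ∑' I, part g S I =
      ∑' I, (part g (insert v S) I - part g S I) :=
    ((part_summable hs (insert v S)).tsum_sub (part_summable hs S)).symm
  have h2 : Function.support (fun I => part g (insert v S) I - part g S I) ⊆
      Set.range (mulv v) := by
    intro I hI
    by_contra hn
    apply hI
    have hnd : ¬ v.asIdeal ∣ I.1 := by
      rintro ⟨J, hJ⟩
      apply hn
      refine ⟨⟨J, ?_⟩, Subtype.ext hJ.symm⟩
      rintro rfl
      apply I.2
      rw [hJ, ← Ideal.zero_eq_bot, mul_zero]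
    by_cases h3 : supp S I.1
    · simp only
      rw [part_pos h3, part_pos ((supp_insert hnd).2 h3), sub_self]
    · simp only
      rw [part_neg h3, part_neg (fun h => h3 ((supp_insert hnd).1 h)), sub_self]
  have h3 := (mulv_inj v).tsum_eq h2
  have h4 : ∀ J : NI A, part g (insert v S) (mulv v J) - part g S (mulv v J) =
      g v.asIdeal * part g (insert v S) J := by
    intro J
    have h5 : ¬ supp S (mulv v J).1 := fun h => hv (h v (dvd_mul_right _ _))
    rw [part_neg h5, sub_zero]
    by_cases h6 : supp (insert v S) J.1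
    · rw [part_pos h6, part_pos (supp_mulv.2 h6)]
      exact hmul _ _
    · rw [part_neg h6, part_neg (fun h => h6 (supp_mulv.1 h)), mul_zero]
  simp only [h4] at h3
  rw [tsum_mul_left] at h3
  rw [← h1] at h3
  linear_combination -h3

lemma exists_prime_dvd {I : NI A} (h : I.1 ≠ ⊤) : ∃ v : HeightOneSpectrum A, v.asIdeal ∣ I.1 := by
  obtain ⟨M, hM, hIM⟩ := Ideal.exists_le_maximal I.1 h
  refine ⟨⟨M, hM.isPrime, ?_⟩, Ideal.dvd_iff_le.2 hIM⟩
  rintro rfl
  exact I.2 (le_bot_iff.1 hIM)

lemma part_empty (hone : g ⊤ = 1) : ∑' I, part g ∅ I = 1 := by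
  rw [tsum_eq_single (⟨⊤, top_ne_bot⟩ : NI A)]
  · rw [part_pos]
    · exact hone
    · intro v hv
      exfalso
      exact v.isPrime.ne_top (top_le_iff.1 (Ideal.dvd_iff_le.1 hv))
  · intro I hI
    rw [part_neg]
    intro h
    obtain ⟨v, hv⟩ := exists_prime_dvd (I := I) (fun h => hI (Subtype.ext h))
    exact absurd (h v hv) (Finset.notMem_empty v)

lemma pow_ne (v : HeightOneSpectrum A) (n : ℕ) : v.asIdeal ^ n ≠ ⊥ :=
  pow_ne_zero n v.ne_bot

lemma g_lt (hmul : ∀ I J : Ideal A, g (I * J) = g I * g J) (hone : g ⊤ = 1)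
    (hs : Summable fun I : NI A => ‖g I.1‖) (v : HeightOneSpectrum A) : ‖g v.asIdeal‖ < 1 := by
  have hinj : Function.Injective (fun n : ℕ => (⟨v.asIdeal ^ n, pow_ne v n⟩ : NI A)) := by
    intro m n h
    have h1 : v.asIdeal ^ m = v.asIdeal ^ n := congrArg Subtype.val h
    exact (pow_injective_of_not_isUnit v.prime.not_isUnit v.ne_bot) h1
  have h1 := hs.comp_injective hinj
  have h2 : ∀ n : ℕ, g (v.asIdeal ^ n) = g v.asIdeal ^ n := by
    intro n
    induction n with
    | zero => rw [pow_zero, pow_zero, Ideal.one_eq_top, hone]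
    | succ n ih => rw [pow_succ, pow_succ, hmul, ih]
  have h3 : Summable (fun n : ℕ => ‖g v.asIdeal‖ ^ n) := by
    refine h1.congr fun n => ?_
    simp only [Function.comp_apply]
    rw [h2, norm_pow]
  rw [summable_geometric_iff_norm_lt_one, norm_norm] at h3
  exact h3

lemma part_prod (hmul : ∀ I J : Ideal A, g (I * J) = g I * g J) (hone : g ⊤ = 1)
    (hs : Summable fun I : NI A => ‖g I.1‖) (S : Finset (HeightOneSpectrum A)) :
    ∑' I, part g S I = ∏ v ∈ S, (1 - g v.asIdeal)⁻¹ := by
  classical
  induction S using Finset.induction_on with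
  | empty =>
    rw [Finset.prod_empty]
    exact part_empty hone
  | insert v S hv ih =>
    have h1 := part_step hmul hs hv
    have h2 := g_lt hmul hone hs v
    have h3 : 1 - g v.asIdeal ≠ 0 := by
      intro h
      have : g v.asIdeal = 1 := by linear_combination -h
      rw [this, norm_one] at h2
      exact lt_irrefl _ h2
    rw [Finset.prod_insert hv, ← ih]
    field_simp
    linear_combination h1

/-- **Euler product.** -/
theorem euler (hmul : ∀ I J : Ideal A, g (I * J) = g I * g J) (hone : g ⊤ = 1)
    (hs : Summable fun I : NI A => ‖g I.1‖) :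
    HasProd (fun v : HeightOneSpectrum A => (1 - g v.asIdeal)⁻¹) (∑' I : NI A, g I.1) := by
  classical
  have h1 : (fun S : Finset (HeightOneSpectrum A) => ∏ v ∈ S, (1 - g v.asIdeal)⁻¹) =
      fun S => ∑' I, part g S I := by
    funext S
    exact (part_prod hmul hone hs S).symm
  show Tendsto (fun S : Finset (HeightOneSpectrum A) => ∏ v ∈ S, (1 - g v.asIdeal)⁻¹) _ _
  rw [h1]
  refine tendsto_tsum_of_dominated_convergence hs (fun I => ?_) (Eventually.of_forall fun S I => part_le g S I)
  have hfin : {v : HeightOneSpectrum A | v.asIdeal ∣ I.1}.Finite :=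
    Ideal.finite_factors I.2
  refine tendsto_const_nhds.congr' ?_
  have : ∀ᶠ S : Finset (HeightOneSpectrum A) in (SummationFilter.unconditional _).filter, hfin.toFinset ≤ S := by
    exact eventually_ge_atTop _
  filter_upwards [this] with S hS
  rw [part_pos]
  intro v hv
  exact hS (by rw [Set.Finite.mem_toFinset]; exact hv)

end Pool.Agent.Y688
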