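import Mathlib
import Pool.Agent.W192.HK.Defs

/-!
# The ring of Eisenstein integers as a subring of the complex numbers
-/

set_option autoImplicit false

open Complex

namespace Pool.Agent.Y688

open Pool.Agent.W192.HK

/-- a primitive third root of unity -/
noncomputable def w : ℂ := ⟨-1 / 2, √3 / 2⟩

lemma w_re : w.re = -1 / 2 := rfl
lemma w_im : w.im = √3 / 2 := rfl

lemma w_sq : w * w = -1 - w := by
  have h3 : √3 * √3 = 3 := Real.mul_self_sqrt (by norm_num)
  apply Complex.ext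
  · simp only [Complex.mul_re, w_re, w_im, Complex.sub_re, Complex.neg_re, Complex.one_re]
    nlinarith
  · simp only [Complex.mul_im, w_re, w_im, Complex.sub_im, Complex.neg_im, Complex.one_im]
    ring

lemma w_im_pos : 0 < w.im := by rw [w_im]; positivity

lemma conj_w : (starRingEnd ℂ) w = -1 - w := by
  apply Complex.ext
  · simp only [Complex.conj_re, w_re, Complex.sub_re, Complex.neg_re, Complex.one_re]
    norm_num
  · simp only [Complex.conj_im, Complex.sub_im, Complex.neg_im, Complex.one_im]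
    ring

/-- Eisenstein integers -/
noncomputable def RR : Subring ℂ where
  carrier := {z | ∃ a b : ℤ, z = a + b * w}
  mul_mem' := by
    rintro _ _ ⟨a, b, rfl⟩ ⟨c, d, rfl⟩
    refine ⟨a * c - b * d, a * d + b * c - b * d, ?_⟩
    push_cast
    linear_combination (b * d : ℂ) * w_sq
  one_mem' := ⟨1, 0, by simp⟩
  add_mem' := by
    rintro _ _ ⟨a, b, rfl⟩ ⟨c, d, rfl⟩
    exact ⟨a + c, b + d, by push_cast; ring⟩
  zero_mem' := ⟨0, 0, by simp⟩
  neg_mem' := by
    rintro _ ⟨a, b, rfl⟩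
    exact ⟨-a, -b, by push_cast; ring⟩

lemma mem_RR (z : ℂ) : z ∈ RR ↔ ∃ a b : ℤ, z = a + b * w := Iff.rfl

lemma normSq_lin (a b : ℝ) : Complex.normSq (a + b * w) = a ^ 2 - a * b + b ^ 2 := by
  have h3 : √3 * √3 = 3 := Real.mul_self_sqrt (by norm_num)
  rw [Complex.normSq_apply]
  simp only [Complex.add_re, Complex.mul_re, Complex.ofReal_re, Complex.ofReal_im, w_re, w_im,
    Complex.add_im, Complex.mul_im]
  nlinarith

lemma normSq_RR (r : RR) : ∃ n : ℕ, Complex.normSq (r : ℂ) = n := by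
  obtain ⟨a, b, h⟩ := r.2
  have h1 : 0 ≤ a ^ 2 - a * b + b ^ 2 := by nlinarith [sq_nonneg (a - b), sq_nonneg a, sq_nonneg b]
  refine ⟨(a ^ 2 - a * b + b ^ 2).toNat, ?_⟩
  have h2 := normSq_lin a b
  push_cast at h2
  rw [h, h2]
  have h3 : (((a ^ 2 - a * b + b ^ 2).toNat : ℤ) : ℝ) = ((a ^ 2 - a * b + b ^ 2 : ℤ) : ℝ) := by
    rw [Int.toNat_of_nonneg h1]
  have h4 : (((a ^ 2 - a * b + b ^ 2).toNat : ℕ) : ℝ) =
      (((a ^ 2 - a * b + b ^ 2).toNat : ℤ) : ℝ) := by push_cast; rfl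
  rw [h4, h3]
  push_cast
  ring

lemma one_le_normSq {r : RR} (hr : r ≠ 0) : 1 ≤ Complex.normSq (r : ℂ) := by
  obtain ⟨n, hn⟩ := normSq_RR r
  have h1 : Complex.normSq (r : ℂ) ≠ 0 := by
    rw [Ne, Complex.normSq_eq_zero]
    exact fun h => hr (Subtype.ext h)
  rw [hn] at h1 ⊢
  have h2 : n ≠ 0 := fun h => h1 (by rw [h]; simp)
  exact_mod_cast Nat.one_le_iff_ne_zero.2 h2

lemma one_le_norm {r : RR} (hr : r ≠ 0) : 1 ≤ ‖(r : ℂ)‖ := by
  have h := one_le_normSq hr
  rw [Complex.normSq_eq_norm_sq] at h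
  nlinarith [norm_nonneg (r : ℂ)]

/-- coordinates -/
lemma exists_coord (z : ℂ) : ∃ a b : ℝ, z = a + b * w := by
  have hw := w_im_pos
  refine ⟨z.re + z.im / w.im / 2, z.im / w.im, ?_⟩
  apply Complex.ext
  · simp only [Complex.add_re, Complex.mul_re, Complex.ofReal_re, Complex.ofReal_im, w_re]
    ring
  · simp only [Complex.add_im, Complex.mul_im, Complex.ofReal_re, Complex.ofReal_im]
    field_simp
    ring

/-- the covering radius of the hexagonal lattice -/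
lemma exists_near (z : ℂ) : ∃ r : RR, Complex.normSq (z - r) ≤ 7 / 20 := by
  obtain ⟨a, b, rfl⟩ := exists_coord z
  have ha0 := Int.floor_le a
  have ha1 := Int.lt_floor_add_one a
  have hb0 := Int.floor_le b
  have hb1 := Int.lt_floor_add_one b
  set m : ℤ := ⌊a⌋ with hm
  set n : ℤ := ⌊b⌋ with hn
  have key : ∀ (i j : ℤ), Complex.normSq ((a : ℂ) + b * w - ((i : ℂ) + j * w)) =
      (a - i) ^ 2 - (a - i) * (b - j) + (b - j) ^ 2 := by
    intro i j
    have := normSq_lin (a - i) (b - j)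
    rw [← this]
    congr 1
    push_cast
    ring
  have hmem : ∀ (i j : ℤ), ((i : ℂ) + j * w) ∈ RR := fun i j => ⟨i, j, rfl⟩
  obtain ⟨x, hx⟩ : ∃ x : ℝ, x = a - m := ⟨_, rfl⟩
  obtain ⟨y, hy⟩ : ∃ y : ℝ, y = b - n := ⟨_, rfl⟩
  have hx0 : 0 ≤ x := by linarith
  have hx1 : x ≤ 1 := by linarith
  have hy0 : 0 ≤ y := by linarith
  have hy1 : y ≤ 1 := by linarith
  -- four candidates
  have h4 : x ^ 2 - x * y + y ^ 2 ≤ 7 / 20 ∨ (x - 1) ^ 2 - (x - 1) * (y - 1) + (y - 1) ^ 2 ≤ 7 / 20 ∨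
      (x - 1) ^ 2 - (x - 1) * y + y ^ 2 ≤ 7 / 20 ∨ x ^ 2 - x * (y - 1) + (y - 1) ^ 2 ≤ 7 / 20 := by
    by_contra hcon
    push Not at hcon
    obtain ⟨c1, c2, c3, c4⟩ := hcon
    rcases le_total y x with hyx | hyx
    · -- triangle 0, 1, 1 + w
      have k0 := mul_nonneg (sub_nonneg.2 hx1) (sub_nonneg.2 c1.le)
      have k1 := mul_nonneg (sub_nonneg.2 hyx) (sub_nonneg.2 c3.le)
      have k2 := mul_nonneg hy0 (sub_nonneg.2 c2.le)
      have k3 : (1 - x) * (x - y) + (x - y) * y + (1 - x) * y ≤ 1 / 3 := by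
        nlinarith [sq_nonneg ((1 - x) - (x - y)), sq_nonneg ((x - y) - y), sq_nonneg ((1 - x) - y)]
      have k4 : (1 - x) * (x ^ 2 - x * y + y ^ 2 - 7 / 20) +
          (x - y) * ((x - 1) ^ 2 - (x - 1) * y + y ^ 2 - 7 / 20) +
          y * ((x - 1) ^ 2 - (x - 1) * (y - 1) + (y - 1) ^ 2 - 7 / 20) =
          (1 - x) * (x - y) + (x - y) * y + (1 - x) * y - 7 / 20 := by ring
      linarith
    · have k0 := mul_nonneg (sub_nonneg.2 hy1) (sub_nonneg.2 c1.le)
      have k1 := mul_nonneg (sub_nonneg.2 hyx) (sub_nonneg.2 c4.le)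
      have k2 := mul_nonneg hx0 (sub_nonneg.2 c2.le)
      have k3 : (1 - y) * (y - x) + (y - x) * x + (1 - y) * x ≤ 1 / 3 := by
        nlinarith [sq_nonneg ((1 - y) - (y - x)), sq_nonneg ((y - x) - x), sq_nonneg ((1 - y) - x)]
      have k4 : (1 - y) * (x ^ 2 - x * y + y ^ 2 - 7 / 20) +
          (y - x) * (x ^ 2 - x * (y - 1) + (y - 1) ^ 2 - 7 / 20) +
          x * ((x - 1) ^ 2 - (x - 1) * (y - 1) + (y - 1) ^ 2 - 7 / 20) =
          (1 - y) * (y - x) + (y - x) * x + (1 - y) * x - 7 / 20 := by ring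
      linarith
  rcases h4 with h | h | h | h
  · refine ⟨⟨_, hmem m n⟩, ?_⟩
    rw [key, ← hx, ← hy]; exact h
  · refine ⟨⟨_, hmem (m + 1) (n + 1)⟩, ?_⟩
    rw [key]
    push_cast
    have e1 : a - (m + 1) = x - 1 := by rw [hx]; ring
    have e2 : b - (n + 1) = y - 1 := by rw [hy]; ring
    rw [e1, e2]; exact h
  · refine ⟨⟨_, hmem (m + 1) n⟩, ?_⟩
    rw [key]
    push_cast
    have e1 : a - (m + 1) = x - 1 := by rw [hx]; ring
    rw [e1, ← hy]; exact h
  · refine ⟨⟨_, hmem m (n + 1)⟩, ?_⟩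
    rw [key]
    push_cast
    have e2 : b - (n + 1) = y - 1 := by rw [hy]; ring
    rw [e2, ← hx]; exact h

instance : IsPrincipalIdealRing RR := by
  constructor
  intro I
  by_cases hI : I = ⊥
  · subst hI
    exact ⟨0, by simp⟩
  obtain ⟨a, ha, ha0⟩ := Submodule.exists_mem_ne_zero_of_ne_bot hI
  choose N hN using normSq_RR
  -- minimal norm
  have hex : ∃ n, ∃ b ∈ I, b ≠ 0 ∧ N b = n := ⟨N a, a, ha, ha0, rfl⟩
  classical
  obtain ⟨b, hb, hb0, hbn⟩ := Nat.find_spec hex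
  have hmin : ∀ c ∈ I, c ≠ 0 → N b ≤ N c := by
    intro c hc hc0
    rw [hbn]
    exact Nat.find_min' hex ⟨c, hc, hc0, rfl⟩
  refine ⟨b, ?_⟩
  apply le_antisymm
  · intro c hc
    have hbC : (b : ℂ) ≠ 0 := fun h => hb0 (Subtype.ext h)
    obtain ⟨q, hq⟩ := exists_near ((c : ℂ) / b)
    have h1 : c - q * b ∈ I := I.sub_mem hc (I.mul_mem_left _ hb)
    by_cases h0 : c - q * b = 0
    · rw [Submodule.mem_span_singleton]
      exact ⟨q, by rw [smul_eq_mul]; exact (sub_eq_zero.1 h0).symm⟩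
    · exfalso
      have h2 := hmin _ h1 h0
      have h3 : (N (c - q * b) : ℝ) < N b := by
        rw [← hN, ← hN]
        have e : ((c - q * b : RR) : ℂ) = ((c : ℂ) / b - q) * b := by
          push_cast
          field_simp
        rw [e, Complex.normSq_mul]
        have h4 : 0 < Complex.normSq (b : ℂ) := Complex.normSq_pos.2 hbC
        nlinarith
      have h5 : N (c - q * b) < N b := by exact_mod_cast h3
      omega
  · rw [Submodule.span_le, Set.singleton_subset_iff]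
    exact hb

lemma qr : QR RR w := ⟨w_im_pos, fun _ => Iff.rfl, inferInstance⟩

end Pool.Agent.Y688
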