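import Pool.Agent.Y688.B2

/-!
# The quartic field: integral elements
-/

set_option autoImplicit false

open Complex NumberField

namespace Pool.Agent.Y688

open Pool.Agent.W192.HK Pool.Agent.TH936.CM

lemma rat_int {q : ℚ} (h : IsIntegral ℤ (q : ℂ)) : ∃ n : ℤ, q = n := by
  have h1 : IsIntegral ℤ ((algebraMap ℚ ℂ) q) := h
  have h2 : IsIntegral ℤ q := (isIntegral_algebraMap_iff (algebraMap ℚ ℂ).injective).1 h1
  obtain ⟨n, hn⟩ := IsIntegrallyClosed.isIntegral_iff.1 h2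
  exact ⟨n, hn.symm⟩

lemma conj_int {z : ℂ} (h : IsIntegral ℤ z) : IsIntegral ℤ ((starRingEnd ℂ) z) := by
  have := h.map ((starRingEnd ℂ).toIntAlgHom)
  exact this

/-- integral elements of `ℚ(√-3)` -/
theorem int_RR {r s : ℚ} (h : IsIntegral ℤ ((r : ℂ) + s * (lam : RR))) :
    ((r : ℂ) + s * (lam : RR)) ∈ RR := by
  set z : ℂ := (r : ℂ) + s * (lam : RR) with hz
  have hl := lam_sqC
  have hcl : (starRingEnd ℂ) ((lam : RR) : ℂ) = -((lam : RR) : ℂ) := by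
    rw [lam_I]
    simp
  have hcz : (starRingEnd ℂ) z = (r : ℂ) - s * (lam : RR) := by
    rw [hz, map_add, map_mul, hcl]
    simp
    ring
  have h1 := h.add (conj_int h)
  have h2 := h.mul (conj_int h)
  rw [hcz] at h1 h2
  have e1 : z + ((r : ℂ) - s * (lam : RR)) = ((2 * r : ℚ) : ℂ) := by
    rw [hz]
    push_cast
    ring
  have e2 : z * ((r : ℂ) - s * (lam : RR)) = ((r ^ 2 + 3 * s ^ 2 : ℚ) : ℂ) := by
    rw [hz]
    push_cast
    linear_combination (-(s : ℂ) ^ 2) * hl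
  rw [e1] at h1
  rw [e2] at h2
  obtain ⟨m, hm⟩ := rat_int h1
  obtain ⟨N, hN⟩ := rat_int h2
  -- `2 s` is an integer
  have h3 : IsIntegral ℤ (((3 * (2 * s) : ℚ)) : ℂ) := by
    refine IsIntegral.of_pow two_pos ?_
    have e3 : (((3 * (2 * s) : ℚ) : ℂ)) ^ 2 = ((3 * (4 * N - m ^ 2) : ℤ) : ℂ) := by
      have : (3 * (2 * s)) ^ 2 = 3 * (4 * (N : ℚ) - m ^ 2) := by
        rw [← hN, ← hm]
        ring
      exact_mod_cast congrArg (fun q : ℚ => (q : ℂ)) this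
    rw [e3]
    exact isIntegral_algebraMap
  obtain ⟨j, hj⟩ := rat_int h3
  have hj2 : j ^ 2 = 3 * (4 * N - m ^ 2) := by
    have : ((j : ℚ)) ^ 2 = 3 * (4 * N - m ^ 2) := by
      rw [← hj, ← hN, ← hm]
      ring
    exact_mod_cast this
  have hj3 : (3 : ℤ) ∣ j := by
    have : (3 : ℤ) ∣ j ^ 2 := ⟨_, hj2⟩
    exact Int.Prime.dvd_pow' Nat.prime_three this
  obtain ⟨n, hn⟩ := hj3
  have hs : 2 * s = n := by
    have : 3 * (2 * s) = 3 * n := by rw [hj, hn]; push_cast; ring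
    linarith
  have hpar : m ^ 2 + 3 * n ^ 2 = 4 * N := by
    rw [hn] at hj2
    nlinarith
  have heven : ∃ k : ℤ, m + n = 2 * k := by
    have h4 : (m + n) % 2 = 0 := by
      rcases Int.even_or_odd' m with ⟨a, ha | ha⟩ <;> rcases Int.even_or_odd' n with ⟨b, hb | hb⟩
      · omega
      · exfalso
        rw [ha, hb] at hpar
        have : (2 * a) ^ 2 + 3 * (2 * b + 1) ^ 2 = 4 * (a ^ 2 + 3 * b ^ 2 + 3 * b) + 3 := by ring
        omega
      · exfalso
        rw [ha, hb] at hpar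
        have : (2 * a + 1) ^ 2 + 3 * (2 * b) ^ 2 = 4 * (a ^ 2 + a + 3 * b ^ 2) + 1 := by ring
        omega
      · omega
    exact ⟨(m + n) / 2, by omega⟩
  obtain ⟨k, hk⟩ := heven
  refine (mem_RR _).2 ⟨k, n, ?_⟩
  rw [hz, lam_coe]
  have hr' : (r : ℂ) = m / 2 := by
    have : (2 : ℂ) * r = m := by exact_mod_cast congrArg (fun q : ℚ => (q : ℂ)) hm
    rw [← this]
    ring
  have hs' : (s : ℂ) = n / 2 := by
    have : (2 : ℂ) * s = n := by exact_mod_cast congrArg (fun q : ℚ => (q : ℂ)) hs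
    rw [← this]
    ring
  have hk' : (m : ℂ) + n = 2 * k := by exact_mod_cast hk
  rw [hr', hs']
  linear_combination (1 / 2 : ℂ) * hk'

lemma RR_rat {z : ℂ} (h : z ∈ RR) : ∃ r s : ℚ, z = (r : ℂ) + s * (lam : RR) := by
  obtain ⟨a, b, hab⟩ := (mem_RR z).1 h
  refine ⟨a - b / 2, b / 2, ?_⟩
  rw [hab, lam_coe]
  push_cast
  ring

lemma RR_int {z : ℂ} (h : z ∈ RR) : IsIntegral ℤ z := by
  obtain ⟨a, b, hab⟩ := (mem_RR z).1 h
  rw [hab]
  have hw : IsIntegral ℤ w := by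
    refine IsIntegral.of_pow (n := 3) (by norm_num) ?_
    rw [w_cube]
    exact isIntegral_one
  exact (isIntegral_algebraMap (R := ℤ) (x := a)).add ((isIntegral_algebraMap (R := ℤ) (x := b)).mul hw)

/-- the prime `7` is squarefree in `ℤ[ω]` -/
lemma seven_dvd {z : RR} (h : ∃ r : RR, z * z = 7 * r) : ∃ r : RR, z = 7 * r := by
  obtain ⟨r, hr⟩ := h
  obtain ⟨m, n, hmn⟩ := (mem_RR z).1 z.2
  obtain ⟨c, d, hcd⟩ := (mem_RR r).1 r.2
  have h1 := congrArg Subtype.val hr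
  have h7 : ((7 : RR) : ℂ) = 7 := rfl
  push_cast at h1
  rw [hmn, hcd, h7] at h1
  -- compare coordinates
  have h2 : (((m ^ 2 - n ^ 2 - 7 * c : ℤ)) : ℂ) + (((2 * m * n - n ^ 2 - 7 * d : ℤ)) : ℂ) * w = 0 := by
    push_cast
    linear_combination h1 - ((n : ℂ) ^ 2) * w_sq
  have hre := congrArg Complex.re h2
  have him := congrArg Complex.im h2
  simp only [Complex.add_re, Complex.add_im, Complex.mul_re, Complex.mul_im, Complex.intCast_re,
    Complex.intCast_im, w_re, w_im, zero_mul, sub_zero, add_zero, zero_add, Complex.zero_re,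
    Complex.zero_im] at hre him
  have h3 : (0 : ℝ) < √3 := by positivity
  have hd : ((2 * m * n - n ^ 2 - 7 * d : ℤ) : ℝ) = 0 := by
    rcases mul_eq_zero.1 him with h | h
    · exact h
    · exfalso
      linarith
  have hc : ((m ^ 2 - n ^ 2 - 7 * c : ℤ) : ℝ) = 0 := by
    rw [hd] at hre
    linarith
  have hd' : 2 * m * n - n ^ 2 - 7 * d = 0 := by exact_mod_cast hd
  have hc' : m ^ 2 - n ^ 2 - 7 * c = 0 := by exact_mod_cast hc
  have h7m : (7 : ℤ) ∣ m ∧ (7 : ℤ) ∣ n := by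
    have e1 : ((m : ZMod 7)) ^ 2 - (n : ZMod 7) ^ 2 = 0 := by
      have : ((m ^ 2 - n ^ 2 - 7 * c : ℤ) : ZMod 7) = 0 := by rw [hc']; simp
      push_cast at this
      have h70 : (7 : ZMod 7) = 0 := by decide
      rw [h70] at this
      linear_combination this
    have e2 : 2 * (m : ZMod 7) * (n : ZMod 7) - (n : ZMod 7) ^ 2 = 0 := by
      have : ((2 * m * n - n ^ 2 - 7 * d : ℤ) : ZMod 7) = 0 := by rw [hd']; simp
      push_cast at this
      have h70 : (7 : ZMod 7) = 0 := by decide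
      rw [h70] at this
      linear_combination this
    have key : ∀ x y : ZMod 7, x ^ 2 - y ^ 2 = 0 → 2 * x * y - y ^ 2 = 0 → x = 0 ∧ y = 0 := by decide
    obtain ⟨k1, k2⟩ := key _ _ e1 e2
    exact ⟨(ZMod.intCast_zmod_eq_zero_iff_dvd m 7).1 k1, (ZMod.intCast_zmod_eq_zero_iff_dvd n 7).1 k2⟩
  obtain ⟨⟨m', hm'⟩, ⟨n', hn'⟩⟩ := h7m
  refine ⟨⟨m' + n' * w, (mem_RR _).2 ⟨m', n', rfl⟩⟩, Subtype.ext ?_⟩
  push_cast
  rw [hmn, h7, hm', hn']
  push_cast
  ring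

/-- elements of `ℚ(√-3)` with `7x²` integral -/
lemma seven_int {r s : ℚ} (h : 7 * (((r : ℂ) + s * (lam : RR)) ^ 2) ∈ RR) :
    ((r : ℂ) + s * (lam : RR)) ∈ RR := by
  set x : ℂ := (r : ℂ) + s * (lam : RR) with hx
  have h1 : IsIntegral ℤ ((((7 * r : ℚ)) : ℂ) + ((7 * s : ℚ) : ℂ) * (lam : RR)) := by
    have e : (((7 * r : ℚ)) : ℂ) + ((7 * s : ℚ) : ℂ) * (lam : RR) = 7 * x := by
      rw [hx]
      push_cast
      ring
    rw [e]
    refine IsIntegral.of_pow two_pos ?_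
    have e2 : (7 * x) ^ 2 = 7 * (7 * x ^ 2) := by ring
    rw [e2]
    exact (isIntegral_algebraMap (R := ℤ) (x := (7 : ℤ))).mul (RR_int h)
  have h2 := int_RR h1
  have e : (((7 * r : ℚ)) : ℂ) + ((7 * s : ℚ) : ℂ) * (lam : RR) = 7 * x := by
    rw [hx]
    push_cast
    ring
  rw [e] at h2
  obtain ⟨t, ht⟩ := seven_dvd (z := ⟨7 * x, h2⟩) ⟨⟨7 * x ^ 2, h⟩, Subtype.ext (by
    have h7 : ((7 : RR) : ℂ) = 7 := rfl
    push_cast
    rw [h7]
    ring)⟩
  have h3 := congrArg Subtype.val ht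
  have h7 : ((7 : RR) : ℂ) = 7 := rfl
  push_cast at h3
  rw [h7] at h3
  have : x = t := by
    have h70 : (7 : ℂ) ≠ 0 := by norm_num
    exact mul_left_cancel₀ h70 h3
  rw [this]
  exact t.2

end Pool.Agent.Y688
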