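import Pool.Agent.Y688.F1

/-!
# The quartic field: the ring of integers
-/

set_option autoImplicit false

open Complex NumberField Polynomial

namespace Pool.Agent.Y688

open Pool.Agent.W192.HK Pool.Agent.TH936.CM

/-- `√-7` -/
noncomputable def s7 : ℂ := I * √7

lemma s7_sq : s7 * s7 = -7 := by
  unfold s7
  have h2 := sqrt7
  have h3 : (I : ℂ) * I = -1 := Complex.I_mul_I
  linear_combination ((√7 : ℝ) : ℂ) * (√7 : ℝ) * h3 - h2

lemma E_sub : E1 - E2 = s7 := by
  unfold E1 E2 s7
  ring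

lemma E1_eq : E1 = ((lam : RR) + s7) / 2 := rfl
lemma E2_eq : E2 = ((lam : RR) - s7) / 2 := rfl

lemma s7_ne : s7 ≠ 0 := by
  intro h
  have := s7_sq
  rw [h] at this
  norm_num at this

lemma lam_ne : ((lam : RR) : ℂ) ≠ 0 := by
  intro h
  have := lam_sqC
  rw [h] at this
  norm_num at this

variable {F : Type*} [Field F] [NumberField F] {a b : F}

lemma emb_a (ha : a ^ 2 = -3) (τ : F →+* ℂ) : τ a = lam ∨ τ a = -lam := by
  have h1 : τ a ^ 2 = -3 := by rw [← map_pow, ha, map_neg, map_ofNat]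
  have h2 : (τ a - lam) * (τ a + lam) = 0 := by linear_combination h1 - lam_sqC
  rcases mul_eq_zero.1 h2 with h | h
  · left
    linear_combination h
  · right
    linear_combination h

lemma emb_b (hb : b ^ 2 = -7) (τ : F →+* ℂ) : τ b = s7 ∨ τ b = -s7 := by
  have h1 : τ b ^ 2 = -7 := by rw [← map_pow, hb, map_neg, map_ofNat]
  have h2 : (τ b - s7) * (τ b + s7) = 0 := by linear_combination h1 - s7_sq
  rcases mul_eq_zero.1 h2 with h | h
  · left
    linear_combination h
  · right
    linear_combination h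

lemma irr21 : Irrational (√3 * √7) := by
  rw [← Real.sqrt_mul (by norm_num)]
  have : (3 : ℝ) * 7 = ((21 : ℕ) : ℝ) := by norm_num
  rw [this, irrational_sqrt_natCast_iff]
  rintro ⟨r, hr⟩
  have : r ≤ 4 ∨ 5 ≤ r := by omega
  rcases this with h | h
  · interval_cases r <;> omega
  · nlinarith

lemma indep {g0 g1 g2 g3 : ℚ} {e e' : ℝ} (he : e = 1 ∨ e = -1) (he' : e' = 1 ∨ e' = -1)
    (h : (g0 : ℂ) + g1 * (e * (lam : RR)) + g2 * (e' * s7) + g3 * ((e * (lam : RR)) * (e' * s7)) = 0) :
    g0 = 0 ∧ g1 = 0 ∧ g2 = 0 ∧ g3 = 0 := by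
  have hirr := irr21
  rw [lam_I] at h
  unfold s7 at h
  have hre := congrArg Complex.re h
  have him := congrArg Complex.im h
  simp only [Complex.add_re, Complex.add_im, Complex.mul_re, Complex.mul_im, Complex.ratCast_re,
    Complex.ratCast_im, Complex.ofReal_re, Complex.ofReal_im, Complex.I_re, Complex.I_im,
    Complex.zero_re, Complex.zero_im] at hre him
  ring_nf at hre him
  have h3 : √3 * √3 = 3 := Real.mul_self_sqrt (by norm_num)
  have key : ∀ p q : ℚ, (p : ℝ) + q * (√3 * √7) = 0 → p = 0 ∧ q = 0 := by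
    intro p q hpq
    by_cases hq : q = 0
    · subst hq
      simp only [Rat.cast_zero, zero_mul, add_zero] at hpq
      exact ⟨by exact_mod_cast hpq, rfl⟩
    · exfalso
      apply hirr
      refine ⟨-p / q, ?_⟩
      push_cast
      have hq' : (q : ℝ) ≠ 0 := by exact_mod_cast hq
      rw [div_eq_iff hq']
      linarith
  rcases he with rfl | rfl <;> rcases he' with rfl | rfl
  · obtain ⟨k1, k2⟩ := key g0 (-g3) (by push_cast; linarith)
    obtain ⟨k3, k4⟩ := key (3 * g1) g2 (by
      push_cast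
      have : √3 * (g1 * √3 + g2 * √7) = 0 := by
        have : (g1 : ℝ) * √3 + g2 * √7 = 0 := by linarith
        rw [this, mul_zero]
      linear_combination this - (g1 : ℝ) * h3)
    exact ⟨k1, by linarith, k4, by linarith⟩
  · obtain ⟨k1, k2⟩ := key g0 g3 (by push_cast; linarith)
    obtain ⟨k3, k4⟩ := key (3 * g1) (-g2) (by
      push_cast
      have : √3 * (g1 * √3 - g2 * √7) = 0 := by
        have : (g1 : ℝ) * √3 - g2 * √7 = 0 := by linarith
        rw [this, mul_zero]
      linear_combination this - (g1 : ℝ) * h3)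
    exact ⟨k1, by linarith, by linarith, by linarith⟩
  · obtain ⟨k1, k2⟩ := key g0 g3 (by push_cast; linarith)
    obtain ⟨k3, k4⟩ := key (-(3 * g1)) g2 (by
      push_cast
      have : √3 * (-(g1 * √3) + g2 * √7) = 0 := by
        have : -((g1 : ℝ) * √3) + g2 * √7 = 0 := by linarith
        rw [this, mul_zero]
      linear_combination this + (g1 : ℝ) * h3)
    exact ⟨k1, by linarith, by linarith, by linarith⟩
  · obtain ⟨k1, k2⟩ := key g0 (-g3) (by push_cast; linarith)
    obtain ⟨k3, k4⟩ := key (3 * g1) g2 (by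
      push_cast
      have : √3 * (g1 * √3 + g2 * √7) = 0 := by
        have : (g1 : ℝ) * √3 + g2 * √7 = 0 := by linarith
        rw [this, mul_zero]
      linear_combination this - (g1 : ℝ) * h3)
    exact ⟨k1, by linarith, by linarith, by linarith⟩

/-- the basis -/
theorem exists_rep (hF : Module.finrank ℚ F = 4) (ha : a ^ 2 = -3) (hb : b ^ 2 = -7) (α : F) :
    ∃ r0 r1 r2 r3 : ℚ, α = r0 + r1 * a + r2 * b + r3 * (a * b) := by
  obtain ⟨τ⟩ : Nonempty (F →+* ℂ) := inferInstance
  have hli : LinearIndependent ℚ ![1, a, b, a * b] := by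
    rw [Fintype.linearIndependent_iff]
    intro g hg
    have h1 : (g 0 : F) + g 1 * a + g 2 * b + g 3 * (a * b) = 0 := by
      rw [Fin.sum_univ_four] at hg
      simp only [Matrix.cons_val_zero, Matrix.cons_val_one, Matrix.cons_val, Rat.smul_def,
        mul_one] at hg
      exact hg
    have h2 := congrArg τ h1
    simp only [map_add, map_mul, map_ratCast, map_zero] at h2
    obtain ⟨e, he, hta⟩ : ∃ e : ℝ, (e = 1 ∨ e = -1) ∧ τ a = e * (lam : RR) := by
      rcases emb_a ha τ with h | h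
      · exact ⟨1, Or.inl rfl, by rw [h]; push_cast; ring⟩
      · exact ⟨-1, Or.inr rfl, by rw [h]; push_cast; ring⟩
    obtain ⟨e', he', htb⟩ : ∃ e' : ℝ, (e' = 1 ∨ e' = -1) ∧ τ b = e' * s7 := by
      rcases emb_b hb τ with h | h
      · exact ⟨1, Or.inl rfl, by rw [h]; push_cast; ring⟩
      · exact ⟨-1, Or.inr rfl, by rw [h]; push_cast; ring⟩
    rw [hta, htb] at h2
    obtain ⟨k0, k1, k2, k3⟩ := indep he he' h2
    intro i
    fin_cases i
    · exact k0
    · exact k1
    · exact k2
    · exact k3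
  have hspan : Submodule.span ℚ (Set.range ![1, a, b, a * b]) = ⊤ :=
    hli.span_eq_top_of_card_eq_finrank (by rw [hF]; rfl)
  have hmem : α ∈ Submodule.span ℚ (Set.range ![1, a, b, a * b]) := by rw [hspan]; trivial
  rw [Submodule.mem_span_range_iff_exists_fun] at hmem
  obtain ⟨c, hc⟩ := hmem
  refine ⟨c 0, c 1, c 2, c 3, ?_⟩
  rw [← hc, Fin.sum_univ_four]
  simp only [Matrix.cons_val_zero, Matrix.cons_val_one, Matrix.cons_val, Rat.smul_def, mul_one]

lemma emb_ext (hF : Module.finrank ℚ F = 4) (ha : a ^ 2 = -3) (hb : b ^ 2 = -7) {τ τ' : F →+* ℂ}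
    (h1 : τ a = τ' a) (h2 : τ b = τ' b) : τ = τ' := by
  ext α
  obtain ⟨r0, r1, r2, r3, rfl⟩ := exists_rep hF ha hb α
  simp only [map_add, map_mul, map_ratCast, h1, h2]

/-- the signs of an embedding -/
noncomputable def sgn (a b : F) (τ : F →+* ℂ) : Bool × Bool := by
  classical
  exact (decide (τ a = lam), decide (τ b = s7))

lemma sgn_inj (hF : Module.finrank ℚ F = 4) (ha : a ^ 2 = -3) (hb : b ^ 2 = -7) :
    Function.Injective (sgn a b) := by
  classical
  intro τ τ' h
  unfold sgn at h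
  rw [Prod.mk.injEq] at h
  obtain ⟨h1, h2⟩ := h
  have h1' : τ a = lam ↔ τ' a = lam := by
    constructor
    · intro h
      rw [decide_eq_true h] at h1
      exact of_decide_eq_true h1.symm
    · intro h
      rw [decide_eq_true h] at h1
      exact of_decide_eq_true h1
  have h2' : τ b = s7 ↔ τ' b = s7 := by
    constructor
    · intro h
      rw [decide_eq_true h] at h2
      exact of_decide_eq_true h2.symm
    · intro h
      rw [decide_eq_true h] at h2
      exact of_decide_eq_true h2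
  refine emb_ext hF ha hb ?_ ?_
  · rcases emb_a ha τ with h | h <;> rcases emb_a ha τ' with h' | h'
    · rw [h, h']
    · rw [h, h1'.1 h]
    · rw [h', h1'.2 h']
    · rw [h, h']
  · rcases emb_b hb τ with h | h <;> rcases emb_b hb τ' with h' | h'
    · rw [h, h']
    · rw [h, h2'.1 h]
    · rw [h', h2'.2 h']
    · rw [h, h']

lemma sgn_bij (hF : Module.finrank ℚ F = 4) (ha : a ^ 2 = -3) (hb : b ^ 2 = -7) :
    Function.Bijective (sgn a b) := by
  rw [Fintype.bijective_iff_injective_and_card]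
  refine ⟨sgn_inj hF ha hb, ?_⟩
  rw [NumberField.Embeddings.card, hF]
  rfl

lemma exists_emb (hF : Module.finrank ℚ F = 4) (ha : a ^ 2 = -3) (hb : b ^ 2 = -7) :
    ∃ τ1 τ2 : F →+* ℂ, τ1 a = lam ∧ τ1 b = -s7 ∧ τ2 a = lam ∧ τ2 b = s7 := by
  classical
  obtain ⟨τ1, h1⟩ := (sgn_bij hF ha hb).2 (true, false)
  obtain ⟨τ2, h2⟩ := (sgn_bij hF ha hb).2 (true, true)
  unfold sgn at h1 h2
  rw [Prod.mk.injEq] at h1 h2
  refine ⟨τ1, τ2, of_decide_eq_true h1.1, ?_, of_decide_eq_true h2.1, of_decide_eq_true h2.2⟩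
  exact (emb_b hb τ1).resolve_left (of_decide_eq_false h1.2)

end Pool.Agent.Y688
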