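import Pool.Agent.Y688.F2

/-!
# The quartic field: the lattice structure
-/

set_option autoImplicit false

open Complex NumberField Polynomial

namespace Pool.Agent.Y688

open Pool.Agent.W192.HK Pool.Agent.TH936.CM

variable {F : Type*} [Field F] [NumberField F] {a b : F}

/-- the two embeddings -/
structure Em (a b : F) (τ1 τ2 : F →+* ℂ) : Prop where
  hF : Module.finrank ℚ F = 4
  ha : a ^ 2 = -3
  hb : b ^ 2 = -7
  a1 : τ1 a = lam
  b1 : τ1 b = -s7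
  a2 : τ2 a = lam
  b2 : τ2 b = s7

variable {τ1 τ2 : F →+* ℂ}

lemma Em.vals (h : Em a b τ1 τ2) (α : F) : ∃ u0 u1 v0 v1 : ℚ,
    τ2 α = ((u0 : ℂ) + u1 * (lam : RR)) + ((v0 : ℂ) + v1 * (lam : RR)) * s7 ∧
    τ1 α = ((u0 : ℂ) + u1 * (lam : RR)) - ((v0 : ℂ) + v1 * (lam : RR)) * s7 := by
  obtain ⟨r0, r1, r2, r3, rfl⟩ := exists_rep h.hF h.ha h.hb α
  refine ⟨r0, r1, r2, r3, ?_, ?_⟩
  · simp only [map_add, map_mul, map_ratCast, h.a2, h.b2]
    ring
  · simp only [map_add, map_mul, map_ratCast, h.a1, h.b1]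
    ring

lemma tau_int (τ : F →+* ℂ) (α : 𝓞 F) : IsIntegral ℤ (τ α) := by
  have h1 : IsIntegral ℤ (α : F) := α.isIntegral_coe
  exact h1.map τ.toIntAlgHom

lemma quartic {S : Type*} [CommRing S] {x c : S} (hx : x ^ 2 = c * x - 1) (hc : c ^ 2 = -3) :
    x ^ 4 + 5 * x ^ 2 + 1 = 0 := by
  have h4 : x ^ 4 = (c * x - 1) ^ 2 := by rw [← hx]; ring
  rw [h4]
  linear_combination (x ^ 2) * hc + 2 * hx

lemma quartic_int {S : Type*} [CommRing S] {x c : S} (hx : x ^ 2 = c * x - 1) (hc : c ^ 2 = -3) :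
    IsIntegral ℤ x := by
  refine ⟨X ^ 4 + 5 * X ^ 2 + 1, by monicity!, ?_⟩
  simp only [eval₂_add, eval₂_mul, eval₂_pow, eval₂_X, eval₂_one, eval₂_ofNat]
  exact quartic hx hc

lemma E2_int : IsIntegral ℤ E2 := by
  refine quartic_int (c := lam) ?_ ?_
  · linear_combination E2 * E_add - E_mul
  · linear_combination lam_sqC

/-- the coordinates of an integer -/
theorem Em.coords (h : Em a b τ1 τ2) (α : 𝓞 F) :
    ∃ x y : RR, τ2 α = y - E2 * x ∧ τ1 α = y - E1 * x := by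
  obtain ⟨u0, u1, v0, v1, h2, h1⟩ := h.vals α
  have i2 := tau_int τ2 α
  have i1 := tau_int τ1 α
  have hl := lam_sqC
  have hs := s7_sq
  -- the trace
  have hT : IsIntegral ℤ ((((2 * u0 : ℚ)) : ℂ) + ((2 * u1 : ℚ) : ℂ) * (lam : RR)) := by
    have e : (((2 * u0 : ℚ)) : ℂ) + ((2 * u1 : ℚ) : ℂ) * (lam : RR) = τ2 α + τ1 α := by
      rw [h1, h2]
      push_cast
      ring
    rw [e]
    exact i2.add i1
  have hTR := int_RR hT
  -- the norm
  have hP : IsIntegral ℤ ((((u0 ^ 2 - 3 * u1 ^ 2 + 7 * v0 ^ 2 - 21 * v1 ^ 2 : ℚ)) : ℂ) +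
      ((2 * u0 * u1 + 14 * v0 * v1 : ℚ) : ℂ) * (lam : RR)) := by
    have e : (((u0 ^ 2 - 3 * u1 ^ 2 + 7 * v0 ^ 2 - 21 * v1 ^ 2 : ℚ)) : ℂ) +
      ((2 * u0 * u1 + 14 * v0 * v1 : ℚ) : ℂ) * (lam : RR) = τ2 α * τ1 α := by
      rw [h1, h2]
      push_cast
      linear_combination (-(u1 : ℂ) ^ 2 - 7 * (v1 : ℂ) ^ 2) * hl +
        (((v0 : ℂ) + v1 * (lam : RR)) ^ 2) * hs
    rw [e]
    exact i2.mul i1
  have hPR := int_RR hP
  -- `x = 2v`
  have hx : (((2 * v0 : ℚ)) : ℂ) + ((2 * v1 : ℚ) : ℂ) * (lam : RR) ∈ RR := by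
    refine seven_int ?_
    have e : 7 * ((((2 * v0 : ℚ)) : ℂ) + ((2 * v1 : ℚ) : ℂ) * (lam : RR)) ^ 2 =
        4 * ((((u0 ^ 2 - 3 * u1 ^ 2 + 7 * v0 ^ 2 - 21 * v1 ^ 2 : ℚ)) : ℂ) +
          ((2 * u0 * u1 + 14 * v0 * v1 : ℚ) : ℂ) * (lam : RR)) -
        ((((2 * u0 : ℚ)) : ℂ) + ((2 * u1 : ℚ) : ℂ) * (lam : RR)) *
          ((((2 * u0 : ℚ)) : ℂ) + ((2 * u1 : ℚ) : ℂ) * (lam : RR)) := by
      push_cast
      linear_combination (28 * (v1 : ℂ) ^ 2 + 4 * (u1 : ℂ) ^ 2) * hl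
    rw [e]
    have h4 : (4 : ℂ) ∈ RR := by
      have : (4 : ℂ) = ((4 : RR) : ℂ) := rfl
      rw [this]
      exact (4 : RR).2
    exact sub_mem (mul_mem h4 hPR) (mul_mem hTR hTR)
  set x : RR := ⟨_, hx⟩ with hxdef
  have hxc : (x : ℂ) = (((2 * v0 : ℚ)) : ℂ) + ((2 * v1 : ℚ) : ℂ) * (lam : RR) := rfl
  -- `y`
  have hy : (((u0 - 3 * v1 : ℚ)) : ℂ) + ((u1 + v0 : ℚ) : ℂ) * (lam : RR) ∈ RR := by
    refine int_RR ?_
    have e : (((u0 - 3 * v1 : ℚ)) : ℂ) + ((u1 + v0 : ℚ) : ℂ) * (lam : RR) = τ2 α + E2 * x := by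
      rw [h2, hxc, E2_eq]
      push_cast
      linear_combination (-(v1 : ℂ)) * hl
    rw [e]
    exact i2.add (E2_int.mul (RR_int x.2))
  refine ⟨x, ⟨_, hy⟩, ?_, ?_⟩
  · rw [h2, hxc, E2_eq]
    push_cast
    linear_combination (v1 : ℂ) * hl
  · rw [h1, hxc, E1_eq]
    push_cast
    linear_combination (v1 : ℂ) * hl

lemma Em.uniq (_h : Em a b τ1 τ2) {x y x' y' : RR} {z1 z2 : ℂ} (h2 : z2 = y - E2 * x)
    (h1 : z1 = y - E1 * x) (h2' : z2 = y' - E2 * x') (h1' : z1 = y' - E1 * x') : x = x' ∧ y = y' := by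
  have e1 : s7 * (x : ℂ) = s7 * x' := by
    rw [← E_sub]
    linear_combination -h2 + h1 + h2' - h1'
  have e2 := mul_left_cancel₀ s7_ne e1
  have e3 : x = x' := Subtype.ext e2
  subst e3
  exact ⟨rfl, Subtype.ext (by linear_combination h2' - h2)⟩

/-- the coordinate map -/
noncomputable def Em.φ (h : Em a b τ1 τ2) : 𝓞 F →+ RR × RR where
  toFun α := ((h.coords α).choose, (h.coords α).choose_spec.choose)
  map_zero' := by
    obtain ⟨h2, h1⟩ := (h.coords (0 : 𝓞 F)).choose_spec.choose_spec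
    have k := h.uniq h2 h1 (x' := 0) (y' := 0) (by simp) (by simp)
    exact Prod.ext k.1 k.2
  map_add' α β := by
    obtain ⟨h2, h1⟩ := (h.coords (α + β)).choose_spec.choose_spec
    obtain ⟨k2, k1⟩ := (h.coords α).choose_spec.choose_spec
    obtain ⟨l2, l1⟩ := (h.coords β).choose_spec.choose_spec
    have k := h.uniq h2 h1 (x' := (h.coords α).choose + (h.coords β).choose)
      (y' := (h.coords α).choose_spec.choose + (h.coords β).choose_spec.choose) (by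
        have : τ2 ((α + β : 𝓞 F) : F) = τ2 α + τ2 β := by rw [← map_add]; rfl
        rw [this]
        push_cast
        linear_combination k2 + l2) (by
        have : τ1 ((α + β : 𝓞 F) : F) = τ1 α + τ1 β := by rw [← map_add]; rfl
        rw [this]
        push_cast
        linear_combination k1 + l1)
    exact Prod.ext k.1 k.2

lemma Em.φ_spec (h : Em a b τ1 τ2) (α : 𝓞 F) :
    τ2 α = (h.φ α).2 - E2 * (h.φ α).1 ∧ τ1 α = (h.φ α).2 - E1 * (h.φ α).1 :=
  (h.coords α).choose_spec.choose_spec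

lemma Em.φ_inj (h : Em a b τ1 τ2) : Function.Injective h.φ := by
  intro α β hab
  have h1 := (h.φ_spec α).1
  have h2 := (h.φ_spec β).1
  rw [hab, ← h2] at h1
  exact RingOfIntegers.ext (τ2.injective h1)

lemma Em.φ_surj (h : Em a b τ1 τ2) : Function.Surjective h.φ := by
  have ha := h.ha
  have hb := h.hb
  have hwint : IsIntegral ℤ ((a - 1) / 2) := by
    refine ⟨X ^ 2 + X + 1, by monicity!, ?_⟩
    simp only [eval₂_add, eval₂_pow, eval₂_X, eval₂_one]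
    field_simp
    linear_combination ha
  have heint : IsIntegral ℤ ((a - b) / 2) := by
    refine quartic_int (c := a) ?_ ha
    field_simp
    linear_combination hb - ha
  set wF : 𝓞 F := ⟨(a - 1) / 2, hwint⟩ with hwF
  set eF : 𝓞 F := ⟨(a - b) / 2, heint⟩ with heF
  have w2 : τ2 wF = w := by
    show τ2 ((a - 1) / 2) = w
    rw [map_div₀, map_sub, map_one, map_ofNat, h.a2, lam_coe]
    ring
  have w1 : τ1 wF = w := by
    show τ1 ((a - 1) / 2) = w
    rw [map_div₀, map_sub, map_one, map_ofNat, h.a1, lam_coe]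
    ring
  have e2 : τ2 eF = E2 := by
    show τ2 ((a - b) / 2) = E2
    rw [map_div₀, map_sub, map_ofNat, h.a2, h.b2]
    rfl
  have e1 : τ1 eF = E1 := by
    show τ1 ((a - b) / 2) = E1
    rw [map_div₀, map_sub, map_ofNat, h.a1, h.b1, sub_neg_eq_add]
    rfl
  rintro ⟨x, y⟩
  obtain ⟨m, n, hx⟩ := (mem_RR x).1 x.2
  obtain ⟨m', n', hy⟩ := (mem_RR y).1 y.2
  set α : 𝓞 F := ((m' : 𝓞 F) + n' * wF) - eF * ((m : 𝓞 F) + n * wF) with hα
  have hαF : (α : F) = ((m' : F) + n' * (wF : F)) - (eF : F) * ((m : F) + n * (wF : F)) := by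
    rw [hα]
    push_cast
    rfl
  refine ⟨α, ?_⟩
  obtain ⟨k2, k1⟩ := h.φ_spec α
  have t2 : τ2 α = y - E2 * x := by
    rw [hαF, hx, hy]
    simp only [map_add, map_sub, map_mul, map_intCast, w2, e2]
  have t1 : τ1 α = y - E1 * x := by
    rw [hαF, hx, hy]
    simp only [map_add, map_sub, map_mul, map_intCast, w1, e1]
  have k := h.uniq k2 k1 t2 t1
  exact Prod.ext k.1 k.2

/-- a unit has product of embeddings of absolute value `1` -/
lemma Em.un (h : Em a b τ1 τ2) (u : (𝓞 F)ˣ) : ‖τ1 ((u : 𝓞 F) : F)‖ * ‖τ2 ((u : 𝓞 F) : F)‖ = 1 := by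
  have key : ∀ α : 𝓞 F, ∃ r : RR, (r : ℂ) = τ1 α * τ2 α := by
    intro α
    obtain ⟨x, y, h2, h1⟩ := h.coords α
    refine ⟨y * y - lam * (x * y) + x * x, ?_⟩
    rw [h1, h2]
    push_cast
    linear_combination ((x : ℂ) * y) * E_add - ((x : ℂ) * x) * E_mul
  obtain ⟨r, hr⟩ := key (u : 𝓞 F)
  obtain ⟨r', hr'⟩ := key ((u⁻¹ : (𝓞 F)ˣ) : 𝓞 F)
  have hone : ∀ τ : F →+* ℂ, τ ((u : 𝓞 F) : F) * τ (((u⁻¹ : (𝓞 F)ˣ) : 𝓞 F) : F) = 1 := by
    intro τ
    rw [← map_mul]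
    have : ((u : 𝓞 F) : F) * (((u⁻¹ : (𝓞 F)ˣ) : 𝓞 F) : F) = 1 := by
      have h3 : (u : 𝓞 F) * ((u⁻¹ : (𝓞 F)ˣ) : 𝓞 F) = 1 := u.mul_inv
      have h4 := congrArg (fun z : 𝓞 F => (z : F)) h3
      simpa using h4
    rw [this, map_one]
  have hprod : r * r' = 1 := by
    apply Subtype.ext
    push_cast
    rw [hr, hr']
    linear_combination (τ2 ((u : 𝓞 F) : F) * τ2 (((u⁻¹ : (𝓞 F)ˣ) : 𝓞 F) : F)) * hone τ1 + hone τ2
  have := unit_norm' ⟨r, r', hprod, by rw [mul_comm]; exact hprod⟩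
  simp only at this
  rw [hr, norm_mul] at this
  exact this

/-- the structure -/
noncomputable def Em.D (h : Em a b τ1 τ2) : FD (𝓞 F) E1 E2 where
  β := (AddEquiv.ofBijective h.φ ⟨h.φ_inj, h.φ_surj⟩).symm
  σ1 := τ1.comp (algebraMap (𝓞 F) F)
  σ2 := τ2.comp (algebraMap (𝓞 F) F)
  s1 := by
    intro p
    obtain ⟨α, hα⟩ := (AddEquiv.ofBijective h.φ ⟨h.φ_inj, h.φ_surj⟩).surjective p
    rw [← hα, AddEquiv.symm_apply_apply]
    exact (h.φ_spec α).2
  s2 := by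
    intro p
    obtain ⟨α, hα⟩ := (AddEquiv.ofBijective h.φ ⟨h.φ_inj, h.φ_surj⟩).surjective p
    rw [← hα, AddEquiv.symm_apply_apply]
    exact (h.φ_spec α).1
  i1 := τ1.injective.comp RingOfIntegers.coe_injective
  i2 := τ2.injective.comp RingOfIntegers.coe_injective
  η := ⟨⟨(a + b) / 2, by
      refine quartic_int (c := a) ?_ h.ha
      have ha := h.ha
      have hb := h.hb
      field_simp
      linear_combination hb - ha⟩, ⟨(a - b) / 2, by
      refine quartic_int (c := a) ?_ h.ha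
      have ha := h.ha
      have hb := h.hb
      field_simp
      linear_combination hb - ha⟩, by
      apply RingOfIntegers.ext
      show (a + b) / 2 * ((a - b) / 2) = 1
      have ha := h.ha
      have hb := h.hb
      field_simp
      linear_combination ha - hb, by
      apply RingOfIntegers.ext
      show (a - b) / 2 * ((a + b) / 2) = 1
      have ha := h.ha
      have hb := h.hb
      field_simp
      linear_combination ha - hb⟩
  η1 := by
    show τ1 ((a + b) / 2) = E2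
    rw [map_div₀, map_add, map_ofNat, h.a1, h.b1]
    unfold E2 s7
    ring
  η2 := by
    show τ2 ((a + b) / 2) = E1
    rw [map_div₀, map_add, map_ofNat, h.a2, h.b2]
    rfl
  un := h.un

end Pool.Agent.Y688
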