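import Pool.Agent.Y688.F3

/-!
# The quartic ring is principal, and its norm
-/

set_option autoImplicit false

open Complex NumberField Polynomial

namespace Pool.Agent.Y688

open Pool.Agent.W192.HK Pool.Agent.TH936.CM

variable {A : Type*} [CommRing A]

lemma FD.near (D : FD A E1 E2) (z1 z2 : ℂ) :
    ∃ q : A, ‖(z1 - D.σ1 q) * (z2 - D.σ2 q)‖ < 1 := by
  obtain ⟨x, hx⟩ := exists_near ((z2 - z1) / s7)
  obtain ⟨y, hy⟩ := exists_near (z1 + E1 * ((z2 - z1) / s7) - ((lam : RR) / 2) * ((z2 - z1) / s7 - x))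
  refine ⟨D.β (x, y), ?_⟩
  rw [D.s1, D.s2]
  simp only
  set X : ℂ := (z2 - z1) / s7 with hX
  have hz : z2 = z1 + s7 * X := by
    rw [hX]
    have := s7_ne
    field_simp
    ring
  set U : ℂ := z1 + E1 * X - ((lam : RR) / 2) * (X - x) - y with hU
  have e : (z1 - (y - E1 * x)) * (z2 - (y - E2 * x)) = U ^ 2 + 7 / 4 * (X - x) ^ 2 := by
    rw [hz]
    have e1 : z1 - (y - E1 * x) = U - s7 / 2 * (X - x) := by
      rw [hU, E1_eq]
      ring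
    have e2 : z1 + s7 * X - (y - E2 * x) = U + s7 / 2 * (X - x) := by
      rw [hU, E1_eq, E2_eq]
      ring
    rw [e1, e2]
    have h7 := s7_sq
    linear_combination (-1 / 4 : ℂ) * (X - x) ^ 2 * h7
  rw [e]
  have h1 : ‖U‖ ^ 2 ≤ 7 / 20 := by
    rw [← Complex.normSq_eq_norm_sq]
    exact hy
  have h2 : ‖X - x‖ ^ 2 ≤ 7 / 20 := by
    rw [← Complex.normSq_eq_norm_sq]
    exact hx
  calc ‖U ^ 2 + 7 / 4 * (X - x) ^ 2‖ ≤ ‖U ^ 2‖ + ‖7 / 4 * (X - x) ^ 2‖ := norm_add_le _ _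
    _ = ‖U‖ ^ 2 + 7 / 4 * ‖X - x‖ ^ 2 := by
        rw [norm_pow, norm_mul, norm_pow]
        norm_num
    _ < 1 := by linarith

lemma FD.N_nat (D : FD A E1 E2) (α : A) : ∃ n : ℕ, D.N α = n := by
  rw [D.N_nn]
  exact normSq_RR _

lemma FD.N_sq (D : FD A E1 E2) (α : A) : D.N α = ‖D.σ1 α * D.σ2 α‖ ^ 2 := by
  unfold FD.N
  rw [Complex.normSq_eq_norm_sq, Complex.normSq_eq_norm_sq, norm_mul, mul_pow]

lemma FD.N_pos (D : FD A E1 E2) {α : A} (h : α ≠ 0) : 0 < D.N α := by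
  obtain ⟨h1, h2⟩ := D.pos h
  exact mul_pos h1 h2

lemma FD.divide (D : FD A E1 E2) {α : A} (hα : α ≠ 0) (β : A) : ∃ q : A, D.N (β - q * α) < D.N α := by
  obtain ⟨q, hq⟩ := D.near (D.σ1 β / D.σ1 α) (D.σ2 β / D.σ2 α)
  refine ⟨q, ?_⟩
  have h1 : D.σ1 α ≠ 0 := Complex.normSq_pos.1 (D.pos hα).1
  have h2 : D.σ2 α ≠ 0 := Complex.normSq_pos.1 (D.pos hα).2
  have hN := D.N_pos hα
  rw [D.N_sq] at hN ⊢
  rw [D.N_sq α]
  have e : D.σ1 (β - q * α) * D.σ2 (β - q * α) = ((D.σ1 β / D.σ1 α - D.σ1 q) *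
      (D.σ2 β / D.σ2 α - D.σ2 q)) * (D.σ1 α * D.σ2 α) := by
    rw [map_sub, map_sub, map_mul, map_mul]
    field_simp
  rw [e, norm_mul, mul_pow]
  have h3 := norm_nonneg ((D.σ1 β / D.σ1 α - D.σ1 q) * (D.σ2 β / D.σ2 α - D.σ2 q))
  have h4 : ‖(D.σ1 β / D.σ1 α - D.σ1 q) * (D.σ2 β / D.σ2 α - D.σ2 q)‖ ^ 2 < 1 := by nlinarith
  nlinarith

theorem FD.pid (D : FD A E1 E2) : IsPrincipalIdealRing A := by
  refine ⟨fun I => ?_⟩
  by_cases hI : I = ⊥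
  · rw [hI]
    exact bot_isPrincipal
  · have hex : ∃ n : ℕ, ∃ α ∈ I, α ≠ 0 ∧ D.N α = n := by
      obtain ⟨α, hα, h0⟩ := Submodule.exists_mem_ne_zero_of_ne_bot hI
      obtain ⟨n, hn⟩ := D.N_nat α
      exact ⟨n, α, hα, h0, hn⟩
    classical
    obtain ⟨α, hα, h0, hn⟩ := Nat.find_spec hex
    refine ⟨α, le_antisymm (fun β hβ => ?_) ?_⟩
    · obtain ⟨q, hq⟩ := D.divide h0 β
      rw [Ideal.submodule_span_eq, Ideal.mem_span_singleton]
      by_cases hz : β - q * α = 0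
      · exact ⟨q, by linear_combination hz⟩
      · exfalso
        obtain ⟨m, hm⟩ := D.N_nat (β - q * α)
        have hmem : β - q * α ∈ I := I.sub_mem hβ (I.mul_mem_left q hα)
        have h1 := Nat.find_min' hex ⟨β - q * α, hmem, hz, hm⟩
        rw [hm, hn] at hq
        have h2 : m < Nat.find hex := by exact_mod_cast hq
        omega
    · rw [Ideal.submodule_span_eq, Ideal.span_singleton_le_iff_mem]
      exact hα

end Pool.Agent.Y688
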