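import Pool.Agent.Y688.F4

/-!
# The absolute norm
-/

set_option autoImplicit false

open Complex NumberField Polynomial

namespace Pool.Agent.Y688

open Pool.Agent.W192.HK Pool.Agent.TH936.CM

variable {F : Type*} [Field F] [NumberField F] {a b : F} {τ1 τ2 : F →+* ℂ}

lemma conj_lam : (starRingEnd ℂ) ((lam : RR) : ℂ) = -(lam : RR) := by
  rw [lam_I, map_mul, Complex.conj_I, Complex.conj_ofReal]
  ring

lemma conj_s7 : (starRingEnd ℂ) s7 = -s7 := by
  unfold s7
  rw [map_mul, Complex.conj_I, Complex.conj_ofReal]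
  ring

omit [NumberField F] in
lemma sgn_of {τ : F →+* ℂ} {p : Bool × Bool} (h1 : τ a = if p.1 then ((lam : RR) : ℂ) else -(lam : RR))
    (h2 : τ b = if p.2 then s7 else -s7) : sgn a b τ = p := by
  classical
  have l1 : (-((lam : RR) : ℂ)) ≠ (lam : RR) := by
    intro h
    apply lam_ne
    linear_combination (-1 / 2 : ℂ) * h
  have l2 : -s7 ≠ s7 := by
    intro h
    apply s7_ne
    linear_combination (-1 / 2 : ℂ) * h
  obtain ⟨p, q⟩ := p
  unfold sgn
  rw [Prod.mk.injEq]
  constructor
  · cases p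
    · simp only [Bool.false_eq_true, if_false] at h1
      rw [h1]
      exact decide_eq_false l1
    · simp only [if_true] at h1
      rw [h1]
      exact decide_eq_true rfl
  · cases q
    · simp only [Bool.false_eq_true, if_false] at h2
      rw [h2]
      exact decide_eq_false l2
    · simp only [if_true] at h2
      rw [h2]
      exact decide_eq_true rfl

lemma Em.prod (h : Em a b τ1 τ2) (α : F) : ∏ τ : F →+* ℂ, τ α =
    (τ1 α * (starRingEnd ℂ) (τ1 α)) * (τ2 α * (starRingEnd ℂ) (τ2 α)) := by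
  classical
  set e : (F →+* ℂ) ≃ Bool × Bool := Equiv.ofBijective (sgn a b) (sgn_bij h.hF h.ha h.hb) with he
  have key : ∀ {τ : F →+* ℂ} {p : Bool × Bool}, sgn a b τ = p → e.symm p = τ := by
    intro τ p hp
    rw [Equiv.symm_apply_eq]
    exact hp.symm
  have t2 : e.symm (true, true) = τ2 := key (sgn_of (by simpa using h.a2) (by simpa using h.b2))
  have t1 : e.symm (true, false) = τ1 := key (sgn_of (by simpa using h.a1) (by simpa using h.b1))
  have c2 : e.symm (false, false) = (starRingEnd ℂ).comp τ2 := by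
    refine key (sgn_of ?_ ?_)
    · simp only [RingHom.comp_apply, h.a2, conj_lam]
      simp
    · simp only [RingHom.comp_apply, h.b2, conj_s7]
      simp
  have c1 : e.symm (false, true) = (starRingEnd ℂ).comp τ1 := by
    refine key (sgn_of ?_ ?_)
    · simp only [RingHom.comp_apply, h.a1, conj_lam]
      simp
    · simp only [RingHom.comp_apply, h.b1, map_neg, conj_s7]
      simp
  have h1 : ∏ τ : F →+* ℂ, τ α = ∏ p : Bool × Bool, (e.symm p) α := by
    refine Fintype.prod_equiv e _ _ fun τ => ?_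
    rw [Equiv.symm_apply_apply]
  rw [h1, Fintype.prod_prod_type]
  simp only [Fintype.prod_bool, t1, t2, c1, c2, RingHom.comp_apply]
  ring

theorem Em.absNorm (h : Em a b τ1 τ2) (α : 𝓞 F) :
    ((Ideal.absNorm (Ideal.span {α}) : ℕ) : ℝ) = h.D.N α := by
  have h1 : ((Algebra.norm ℤ α : ℤ) : ℂ) = (h.D.N α : ℂ) := by
    have e1 : ((Algebra.norm ℤ α : ℤ) : ℂ) = algebraMap ℚ ℂ (Algebra.norm ℚ (α : F)) := by
      rw [← Algebra.coe_norm_int]
      simp
    rw [e1, Algebra.norm_eq_prod_embeddings ℚ ℂ (α : F)]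
    have e2 : ∏ σ : F →ₐ[ℚ] ℂ, σ (α : F) = ∏ τ : F →+* ℂ, τ (α : F) := by
      refine Fintype.prod_equiv (RingHom.equivRatAlgHom (R := F) (S := ℂ)).symm _ _ fun τ => ?_
      rfl
    rw [e2, h.prod]
    unfold FD.N
    rw [Complex.mul_conj, Complex.mul_conj]
    push_cast
    rfl
  have h2 : ((Algebra.norm ℤ α : ℤ) : ℝ) = h.D.N α := by exact_mod_cast h1
  rw [Ideal.absNorm_span_singleton]
  have h3 : 0 ≤ (Algebra.norm ℤ α : ℤ) := by
    have := h.D.N_nonneg α
    rw [← h2] at this
    exact_mod_cast this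
  rw [← h2]
  have h4 := Int.natAbs_of_nonneg h3
  have h5 := congrArg (fun z : ℤ => (z : ℝ)) h4
  simp only [Int.cast_natCast] at h5
  exact h5

end Pool.Agent.Y688
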