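import Pool.Agent.Y688.Eis
import Pool.Agent.W348.HK.PoisA

/-!
# Gaussian sums over the Eisenstein integers
-/

set_option autoImplicit false

open Complex Filter Topology

namespace Pool.Agent.Y688

open Pool.Agent.W192.HK Pool.Agent.W348.HK
open Pool.Agent.W192.CM (ez)

/-- the summand -/
noncomputable def gt (n : ℕ) (δ : ℝ) (z : ℂ) : ℂ :=
  (starRingEnd ℂ) z ^ n * (Real.exp (-(δ * Complex.normSq z)) : ℂ)

/-- Gaussian sums -/
noncomputable def gsum (n : ℕ) (δ : ℝ) (z : ℂ) : ℂ := ∑' α : RR, gt n δ ((α : ℂ) + z)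

lemma pow_exp_le (k : ℕ) {a x : ℝ} (ha : 0 < a) (hx : 0 ≤ x) :
    x ^ k ≤ k.factorial * (1 / a) ^ k * Real.exp (a * x) := by
  have h := Real.pow_div_factorial_le_exp (x := a * x) (by positivity) k
  have hk : (0 : ℝ) < k.factorial := by exact_mod_cast k.factorial_pos
  rw [div_le_iff₀ hk, mul_pow] at h
  calc x ^ k = (1 / a) ^ k * (a ^ k * x ^ k) := by
        rw [← mul_assoc, ← mul_pow, one_div, inv_mul_cancel₀ ha.ne', one_pow, one_mul]
    _ ≤ (1 / a) ^ k * (Real.exp (a * x) * k.factorial) := by gcongr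
    _ = _ := by ring

lemma norm_gt (n : ℕ) (δ : ℝ) (z : ℂ) :
    ‖gt n δ z‖ = ‖z‖ ^ n * Real.exp (-(δ * Complex.normSq z)) := by
  unfold gt
  rw [norm_mul, norm_pow, RCLike.norm_conj, Complex.norm_real, Real.norm_eq_abs, Real.abs_exp]

lemma qp (n : ℕ) (z0 : ℂ) {δ : ℝ} (hδ : 0 < δ) :
    Summable (fun α : RR => gt n δ ((α : ℂ) + z0)) ∧
    Summable (fun β : RR => (β : ℂ) ^ n * (starRingEnd ℂ) (ez w (z0 * (β : ℂ))) *
      (Real.exp (-(Real.pi ^ 2 / w.im ^ 2 / δ * Complex.normSq (β : ℂ))) : ℂ)) ∧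
    gsum n δ z0 = ((Real.pi / (w.im * δ)) ^ (n + 1) : ℝ) *
      ∑' β : RR, (β : ℂ) ^ n * (starRingEnd ℂ) (ez w (z0 * (β : ℂ))) *
      (Real.exp (-(Real.pi ^ 2 / w.im ^ 2 / δ * Complex.normSq (β : ℂ))) : ℂ) := by
  have hw := w_im_pos
  have hpi := Real.pi_pos
  set t : ℝ := δ * w.im / Real.pi with ht
  have ht0 : 0 < t := by positivity
  obtain ⟨h1, h2, h3⟩ := qpois qr n z0 t ht0
  have e1 : ∀ α : RR, (starRingEnd ℂ) (((α : ℂ) + z0) ^ n *
      (Real.exp (-(2 * Real.pi * t * Complex.normSq ((α : ℂ) + z0) / (2 * w.im))) : ℂ)) =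
      gt n δ ((α : ℂ) + z0) := by
    intro α
    unfold gt
    rw [map_mul, map_pow, Complex.conj_ofReal]
    congr 4
    rw [ht]
    field_simp
  have e2 : ∀ β : RR, (starRingEnd ℂ) ((starRingEnd ℂ) (β : ℂ) ^ n * ez w (z0 * (β : ℂ)) *
      (Real.exp (-(2 * Real.pi * Complex.normSq (β : ℂ) / (2 * w.im * t))) : ℂ)) =
      (β : ℂ) ^ n * (starRingEnd ℂ) (ez w (z0 * (β : ℂ))) *
      (Real.exp (-(Real.pi ^ 2 / w.im ^ 2 / δ * Complex.normSq (β : ℂ))) : ℂ) := by
    intro β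
    rw [map_mul, map_mul, map_pow, Complex.conj_conj, Complex.conj_ofReal]
    congr 4
    rw [ht]
    field_simp
  refine ⟨?_, ?_, ?_⟩
  · have := (Complex.summable_conj).2 h1
    exact this.congr e1
  · have := (Complex.summable_conj).2 h2
    exact this.congr e2
  · have h4 := congrArg (starRingEnd ℂ) h3
    rw [Complex.conj_tsum, map_mul, Complex.conj_tsum, tsum_congr e1, tsum_congr e2] at h4
    unfold gsum
    rw [h4]
    congr 1
    rw [map_div₀, map_one, map_pow, Complex.conj_ofReal, ht]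
    push_cast
    rw [one_div, ← inv_pow]
    congr 1
    field_simp

lemma summable_gauss (n : ℕ) {ε : ℝ} (hε : 0 < ε) :
    Summable (fun β : RR => ‖(β : ℂ)‖ ^ n * Real.exp (-(ε * Complex.normSq (β : ℂ)))) := by
  have h := (qp n 0 hε).1.norm
  refine h.congr fun β => ?_
  rw [norm_gt, add_zero]

theorem gsum_bound (n : ℕ) {δm : ℝ} (hδm : 0 < δm) : ∃ C c : ℝ, 0 < C ∧ 0 < c ∧ ∀ δ : ℝ, 0 < δ →
    δ ≤ δm → ∀ z : ℂ, ‖gsum n δ z - (if n = 0 then ((Real.pi / (w.im * δ) : ℝ) : ℂ) else 0)‖ ≤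
      C * Real.exp (-(c / δ)) := by
  have hw := w_im_pos
  have hpi := Real.pi_pos
  set a : ℝ := Real.pi ^ 2 / w.im ^ 2 with ha
  have ha0 : 0 < a := by positivity
  have hS := summable_gauss n (ε := a / (2 * δm)) (by positivity)
  set S : ℝ := ∑' β : RR, ‖(β : ℂ)‖ ^ n * Real.exp (-(a / (2 * δm) * Complex.normSq (β : ℂ))) with hSd
  have hS0 : 0 ≤ S := tsum_nonneg fun β => by positivity
  refine ⟨(Real.pi / w.im) ^ (n + 1) * ((n + 1).factorial * (1 / (a / 4)) ^ (n + 1)) * (S + 1),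
    a / 4, by positivity, by positivity, ?_⟩
  intro δ hδ hδm' z
  obtain ⟨h1, h2, h3⟩ := qp n z hδ
  classical
  have h4 := h2.tsum_eq_add_tsum_ite (0 : RR)
  have hz : ((0 : RR) : ℂ) = 0 := rfl
  rw [hz, mul_zero, Complex.normSq_zero, mul_zero, neg_zero, Real.exp_zero] at h4
  have hez : ez w 0 = 1 := by
    unfold Pool.Agent.W192.CM.ez
    simp
  rw [hez, map_one, Complex.ofReal_one, mul_one, mul_one] at h4
  have hmain : gsum n δ z - (if n = 0 then ((Real.pi / (w.im * δ) : ℝ) : ℂ) else 0) =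
      ((Real.pi / (w.im * δ)) ^ (n + 1) : ℝ) * ∑' β : RR, ite (β = 0) 0
        ((β : ℂ) ^ n * (starRingEnd ℂ) (ez w (z * (β : ℂ))) *
        (Real.exp (-(a / δ * Complex.normSq (β : ℂ))) : ℂ)) := by
    rw [h3, h4, mul_add]
    split_ifs with hn
    · subst hn
      simp [ha]
    · rw [zero_pow hn]
      simp [ha]
  rw [hmain, norm_mul, Complex.norm_real, Real.norm_eq_abs, abs_of_pos (by positivity)]
  have hnez : ∀ u : ℂ, ‖ez w u‖ = 1 := by
    intro u
    unfold Pool.Agent.W192.CM.ez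
    rw [show (2 * Real.pi * Complex.I * ((u.im / w.im : ℝ) : ℂ)) =
      (((2 * Real.pi * (u.im / w.im) : ℝ)) : ℂ) * Complex.I by push_cast; ring]
    exact Complex.norm_exp_ofReal_mul_I _
  have h5 : ‖∑' β : RR, ite (β = 0) 0
        ((β : ℂ) ^ n * (starRingEnd ℂ) (ez w (z * (β : ℂ))) *
        (Real.exp (-(a / δ * Complex.normSq (β : ℂ))) : ℂ))‖ ≤
      Real.exp (-(a / (2 * δ))) * S := by
    rw [hSd, ← tsum_mul_left]
    refine tsum_of_norm_bounded (hS.mul_left _).hasSum fun β => ?_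
    split_ifs with hβ
    · rw [norm_zero]
      positivity
    · rw [norm_mul, norm_mul, norm_pow, RCLike.norm_conj, hnez, mul_one, Complex.norm_real,
        Real.norm_eq_abs, Real.abs_exp, mul_left_comm, ← Real.exp_add]
      gcongr
      have h6 := one_le_normSq hβ
      have h7 : a / (2 * δm) ≤ a / (2 * δ) := by gcongr
      have h8 : a / δ = a / (2 * δ) + a / (2 * δ) := by field_simp; ring
      rw [h8]
      have h9 : 0 < a / (2 * δ) := by positivity
      nlinarith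
  have h6 : (1 / δ) ^ (n + 1) ≤ (n + 1).factorial * (1 / (a / 4)) ^ (n + 1) *
      Real.exp (a / 4 * (1 / δ)) := pow_exp_le (n + 1) (by positivity) (by positivity)
  have h7 : (Real.pi / (w.im * δ)) ^ (n + 1) = (Real.pi / w.im) ^ (n + 1) * (1 / δ) ^ (n + 1) := by
    rw [← mul_pow]
    congr 1
    field_simp
  have h8 : Real.exp (a / 4 * (1 / δ)) * Real.exp (-(a / (2 * δ))) = Real.exp (-(a / 4 / δ)) := by
    rw [← Real.exp_add]
    congr 1
    field_simp
    ring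
  calc (Real.pi / (w.im * δ)) ^ (n + 1) * ‖∑' β : RR, ite (β = 0) 0
        ((β : ℂ) ^ n * (starRingEnd ℂ) (ez w (z * (β : ℂ))) *
        (Real.exp (-(a / δ * Complex.normSq (β : ℂ))) : ℂ))‖
      ≤ (Real.pi / (w.im * δ)) ^ (n + 1) * (Real.exp (-(a / (2 * δ))) * (S + 1)) := by
        refine mul_le_mul_of_nonneg_left (h5.trans ?_) (by positivity)
        gcongr
        linarith
    _ = (Real.pi / w.im) ^ (n + 1) * (1 / δ) ^ (n + 1) * (Real.exp (-(a / (2 * δ))) * (S + 1)) := by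
        rw [h7]
    _ ≤ (Real.pi / w.im) ^ (n + 1) * ((n + 1).factorial * (1 / (a / 4)) ^ (n + 1) *
        Real.exp (a / 4 * (1 / δ))) * (Real.exp (-(a / (2 * δ))) * (S + 1)) := by
        gcongr
    _ = (Real.pi / w.im) ^ (n + 1) * ((n + 1).factorial * (1 / (a / 4)) ^ (n + 1)) * (S + 1) *
        (Real.exp (a / 4 * (1 / δ)) * Real.exp (-(a / (2 * δ)))) := by ring
    _ = _ := by rw [h8]

end Pool.Agent.Y688
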