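import Pool.Agent.Y688.G9

/-!
# The main relation, first form
-/

set_option autoImplicit false

open Complex Filter Topology MeasureTheory

namespace Pool.Agent.Y688

open Pool.Agent.W192.HK Pool.Agent.TH936.CM HF

lemma exists_ok2 {H1 H2 : HF} (h1 : ∃ κ Λ : ℝ, 0 < κ ∧ H1.Ok κ Λ)
    (h2 : ∃ κ Λ : ℝ, 0 < κ ∧ H2.Ok κ Λ) : ∃ κ Λ : ℝ, 0 < κ ∧ H1.Ok κ Λ ∧ H2.Ok κ Λ := by
  obtain ⟨κ1, Λ1, hκ1, o1⟩ := h1
  obtain ⟨κ2, Λ2, hκ2, o2⟩ := h2
  exact ⟨min κ1 κ2, max Λ1 Λ2, lt_min hκ1 hκ2, o1.mono (min_le_left _ _) (le_max_left _ _),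
    o2.mono (min_le_right _ _) (le_max_right _ _)⟩

theorem MF0 {K : ℝ} {M : ℕ} [NeZero M] {cf : RR → RR → ℂ} (hcf : Cf M K cf)
    (hmz : Mz M cf) {t : RR} (hi : Inv t cf) {e1 e2 : ℂ} (hax : Ax e1 e2 t) {T0 : ℝ} (hT0 : 0 < T0)
    {S2 : ℂ} (hS2 : Tendsto (fun ε : ℝ => ∑' y : RR, cf 0 y * ff ε y) (𝓝[>] 0) (𝓝 S2)) :
    Tendsto (fun δ : ℝ => ∑' p : RR × RR, pterm cf δ p.1 p.2 +
      ∫ τ in (0 : ℝ)..1, ∑' p : RR × RR, vterm cf δ
        (line (axT e1 e2 T0) (axT e1 e2 (T0 * Complex.normSq e2 ^ 2)) τ)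
        (sub (axT e1 e2 (T0 * Complex.normSq e2 ^ 2)) (axT e1 e2 T0)) p.1 p.2)
      (𝓝[>] 0) (𝓝 (t * S2)) := by
  have hn : Complex.normSq e1 * Complex.normSq e2 = 1 := by
    rw [← Complex.normSq_mul, hax.mul, Complex.normSq_one]
  have hn1 : 0 < Complex.normSq e1 := by
    rw [Complex.normSq_eq_norm_sq]
    have := hax.big
    positivity
  have hn2 : 0 < Complex.normSq e2 := by
    by_contra hc
    have := Complex.normSq_nonneg e2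
    have h0 : Complex.normSq e2 = 0 := by linarith
    rw [h0, mul_zero] at hn
    norm_num at hn
  have hne : e1 ≠ e2 := by
    intro h
    have hm := hax.mul
    rw [← h] at hm
    have h1 := congrArg norm hm
    rw [norm_mul, norm_one] at h1
    have := hax.big
    nlinarith
  set T1 : ℝ := T0 * Complex.normSq e2 ^ 2 with hT1
  have hT1p : 0 < T1 := by positivity
  have p0 := axT_pos hne hT0
  have p1 := axT_pos hne hT1p
  -- common constants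
  obtain ⟨κ, Λ, hκ, ⟨o1, o2, o3, o4, o5⟩⟩ : ∃ κ Λ : ℝ, 0 < κ ∧ (stF.Ok κ Λ ∧ (gF t stF).Ok κ Λ ∧
      (axT e1 e2 T0).Ok κ Λ ∧ (gF t (axT e1 e2 T0)).Ok κ Λ ∧ (axT e1 e2 T1).Ok κ Λ) := by
    obtain ⟨κ1, Λ1, h1, a1⟩ := stF_pos.ok
    obtain ⟨κ2, Λ2, h2, a2⟩ := (gF_pos (t := (t : ℂ)) stF_pos).ok
    obtain ⟨κ3, Λ3, h3, a3⟩ := p0.ok
    obtain ⟨κ4, Λ4, h4, a4⟩ := (gF_pos (t := (t : ℂ)) p0).ok
    obtain ⟨κ5, Λ5, h5, a5⟩ := p1.ok
    refine ⟨min (min (min κ1 κ2) (min κ3 κ4)) κ5, max (max (max Λ1 Λ2) (max Λ3 Λ4)) Λ5,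
      lt_min (lt_min (lt_min h1 h2) (lt_min h3 h4)) h5, a1.mono ?_ ?_, a2.mono ?_ ?_, a3.mono ?_ ?_,
      a4.mono ?_ ?_, a5.mono ?_ ?_⟩ <;> simp
  -- the four limits
  have La := P1lim hκ hcf hmz o3 o1 hS2
  have Lb := P1lim hκ hcf hmz o4 o2 hS2
  have Lc := P1lim hκ hcf hmz o3 o5 hS2
  have Ld := P1lim hκ hcf hmz o5 o4 hS2
  have hgax : gF t (axT e1 e2 T0) = sc (Complex.normSq e1) (axT e1 e2 T1) := axT_g hax T0
  -- the integral over the second line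
  have eb : ∀ δ : ℝ, ∫ τ in (0 : ℝ)..1, ∑' p : RR × RR, vterm cf δ
      (line (gF t (axT e1 e2 T0)) (gF t stF) τ) (sub (gF t stF) (gF t (axT e1 e2 T0))) p.1 p.2 =
      ∫ τ in (0 : ℝ)..1, ∑' p : RR × RR, vterm cf δ (line (axT e1 e2 T0) stF τ)
        (sub stF (axT e1 e2 T0)) p.1 p.2 := by
    intro δ
    simp only [gF_sub, gF_line]
    congr 1
    funext τ
    exact vsum_inv hi δ _ _
  have ed : ∀ δ : ℝ, ∫ τ in (0 : ℝ)..1, ∑' p : RR × RR, vterm cf δ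
      (line (axT e1 e2 T1) (gF t (axT e1 e2 T0)) τ)
      (sub (gF t (axT e1 e2 T0)) (axT e1 e2 T1)) p.1 p.2 = 0 := by
    intro δ
    rw [hgax]
    have : ∀ τ : ℝ, ∑' p : RR × RR, vterm cf δ
      (line (axT e1 e2 T1) (sc (Complex.normSq e1) (axT e1 e2 T1)) τ)
      (sub (sc (Complex.normSq e1) (axT e1 e2 T1)) (axT e1 e2 T1)) p.1 p.2 = 0 := by
      intro τ
      have h2 : ∀ p : RR × RR, vterm cf δ
        (line (axT e1 e2 T1) (sc (Complex.normSq e1) (axT e1 e2 T1)) τ)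
        (sub (sc (Complex.normSq e1) (axT e1 e2 T1)) (axT e1 e2 T1)) p.1 p.2 = 0 := by
        intro p
        unfold vterm
        rw [J_line_sc]
        ring
      rw [tsum_congr h2, tsum_zero]
    simp only [this]
    simp
  have hsum := ((Lb.sub La).add Lc).add Ld
  have hz : -((gF t stF).B / ((gF t stF).A : ℂ) - (gF t (axT e1 e2 T0)).B /
        ((gF t (axT e1 e2 T0)).A : ℂ)) * S2 -
      -(stF.B / (stF.A : ℂ) - (axT e1 e2 T0).B / ((axT e1 e2 T0).A : ℂ)) * S2 +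
      -((axT e1 e2 T1).B / ((axT e1 e2 T1).A : ℂ) - (axT e1 e2 T0).B /
        ((axT e1 e2 T0).A : ℂ)) * S2 +
      -((gF t (axT e1 e2 T0)).B / ((gF t (axT e1 e2 T0)).A : ℂ) - (axT e1 e2 T1).B /
        ((axT e1 e2 T1).A : ℂ)) * S2 = -(t * S2) := by
    have h1 : (gF t stF).B / ((gF t stF).A : ℂ) = t := by
      unfold gF stF
      simp
    have h2 : stF.B / (stF.A : ℂ) = 0 := by
      unfold stF
      simp
    rw [h1, h2]
    ring
  rw [hz] at hsum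
  have hfin := hsum.neg
  rw [neg_neg] at hfin
  refine hfin.congr' ?_
  filter_upwards [self_mem_nhdsWithin] with δ (hδ : 0 < δ)
  rw [eb, ed]
  have hg := gdiff hκ hcf hi o1 o2 hδ
  linear_combination -hg

end Pool.Agent.Y688
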