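import Pool.Agent.Y688.G10

/-!
# The theta function on the axis and its double Mellin transform
-/

set_option autoImplicit false

open Complex Filter Topology MeasureTheory Set

namespace Pool.Agent.Y688

open Pool.Agent.W192.HK Pool.Agent.TH936.CM HF

/-! ### entire functions defined by integrals -/

lemma log_rpow_le {x : ℝ} (hx : 0 < x) {s0 s : ℂ} (hs : s ∈ Metric.ball s0 1) :
    |Real.log x| * x ^ s.re ≤ x ^ (s0.re + 2) + 2 * x ^ s0.re + x ^ (s0.re - 2) := by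
  have hre : |s.re - s0.re| ≤ 1 := by
    rw [Metric.mem_ball, dist_eq_norm] at hs
    have := Complex.abs_re_le_norm (s - s0)
    rw [Complex.sub_re] at this
    linarith
  rw [abs_le] at hre
  have h1 : x ^ s.re ≤ x ^ (s0.re + 1) + x ^ (s0.re - 1) := by
    rcases le_total 1 x with h | h
    · have : x ^ s.re ≤ x ^ (s0.re + 1) := Real.rpow_le_rpow_of_exponent_le h (by linarith)
      have h2 : 0 ≤ x ^ (s0.re - 1) := Real.rpow_nonneg hx.le _
      linarith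
    · have : x ^ s.re ≤ x ^ (s0.re - 1) := Real.rpow_le_rpow_of_exponent_ge hx h (by linarith)
      have h2 : 0 ≤ x ^ (s0.re + 1) := Real.rpow_nonneg hx.le _
      linarith
  have h2 : |Real.log x| ≤ x + x⁻¹ := by
    rw [abs_le]
    constructor
    · have := Real.one_sub_inv_le_log_of_pos hx
      linarith
    · have := Real.log_le_sub_one_of_pos hx
      have : 0 < x⁻¹ := by positivity
      linarith
  have e1 : x * x ^ (s0.re + 1) = x ^ (s0.re + 2) := by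
    rw [show s0.re + 2 = 1 + (s0.re + 1) by ring, Real.rpow_add hx 1 (s0.re + 1), Real.rpow_one]
  have e2 : x * x ^ (s0.re - 1) = x ^ s0.re := by
    conv_rhs => rw [show s0.re = 1 + (s0.re - 1) by ring, Real.rpow_add hx 1 (s0.re - 1), Real.rpow_one]
  have e3 : x⁻¹ * x ^ (s0.re + 1) = x ^ s0.re := by
    rw [← Real.rpow_neg_one, ← Real.rpow_add hx]
    congr 1
    ring
  have e4 : x⁻¹ * x ^ (s0.re - 1) = x ^ (s0.re - 2) := by
    rw [← Real.rpow_neg_one, ← Real.rpow_add hx]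
    congr 1
    ring
  calc |Real.log x| * x ^ s.re ≤ (x + x⁻¹) * (x ^ (s0.re + 1) + x ^ (s0.re - 1)) := by
        gcongr
    _ = x * x ^ (s0.re + 1) + x * x ^ (s0.re - 1) + (x⁻¹ * x ^ (s0.re + 1) +
        x⁻¹ * x ^ (s0.re - 1)) := by ring
    _ = _ := by rw [e1, e2, e3, e4]; ring

theorem entire_of_power {X : Type*} [MeasurableSpace X] {μ : Measure X} {g : X → ℝ} {F : X → ℂ}
    (hg : AEStronglyMeasurable g μ) (hg0 : ∀ᵐ x ∂μ, 0 < g x) (hF : AEStronglyMeasurable F μ)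
    (hi : ∀ σ : ℝ, Integrable (fun x => g x ^ σ * ‖F x‖) μ) :
    Differentiable ℂ (fun s : ℂ => ∫ x, (g x : ℂ) ^ s * F x ∂μ) := by
  intro s0
  have hmeas : ∀ s : ℂ, AEStronglyMeasurable (fun x => (g x : ℂ) ^ s * F x) μ := by
    intro s
    refine AEStronglyMeasurable.mul ?_ hF
    have h1 : AEMeasurable (fun x => (g x : ℂ) ^ s) μ :=
      (Complex.measurable_ofReal.comp_aemeasurable hg.aemeasurable).pow_const s
    exact h1.aestronglyMeasurable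
  have h := hasDerivAt_integral_of_dominated_loc_of_deriv_le (μ := μ) (𝕜 := ℂ)
    (F := fun s x => (g x : ℂ) ^ s * F x)
    (F' := fun s x => (g x : ℂ) ^ s * Complex.log (g x) * F x)
    (bound := fun x => g x ^ (s0.re + 2) * ‖F x‖ + 2 * (g x ^ s0.re * ‖F x‖) +
      g x ^ (s0.re - 2) * ‖F x‖) (x₀ := s0) (s := Metric.ball s0 1)
    (Metric.ball_mem_nhds _ one_pos) (Eventually.of_forall hmeas) ?_ ?_ ?_ ?_ ?_
  · exact h.2.differentiableAt
  · refine (integrable_norm_iff (hmeas s0)).1 ((hi s0.re).congr ?_)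
    filter_upwards [hg0] with x hx
    rw [norm_mul, Complex.norm_cpow_eq_rpow_re_of_pos hx]
  · refine AEStronglyMeasurable.mul (AEStronglyMeasurable.mul ?_ ?_) hF
    · exact ((Complex.measurable_ofReal.comp_aemeasurable
        hg.aemeasurable).pow_const s0).aestronglyMeasurable
    · exact (Complex.measurable_log.comp_aemeasurable
        (Complex.measurable_ofReal.comp_aemeasurable hg.aemeasurable)).aestronglyMeasurable
  · filter_upwards [hg0] with x hx s hs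
    rw [norm_mul, norm_mul, Complex.norm_cpow_eq_rpow_re_of_pos hx, ← Complex.ofReal_log hx.le,
      Complex.norm_real, Real.norm_eq_abs]
    have h1 := log_rpow_le hx hs
    calc g x ^ s.re * |Real.log (g x)| * ‖F x‖ = |Real.log (g x)| * g x ^ s.re * ‖F x‖ := by ring
      _ ≤ (g x ^ (s0.re + 2) + 2 * g x ^ s0.re + g x ^ (s0.re - 2)) * ‖F x‖ := by gcongr
      _ = _ := by ring
  · exact ((hi _).add ((hi _).const_mul 2)).add (hi _)
  · filter_upwards [hg0] with x hx s _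
    have hx' : (g x : ℂ) ≠ 0 := by exact_mod_cast hx.ne'
    have h1 := ((hasDerivAt_id s).const_cpow (c := (g x : ℂ)) (Or.inl hx')).mul_const (F x)
    refine h1.congr_deriv ?_
    simp

/-! ### the theta function -/

/-- the summand of the theta function -/
noncomputable def th (cf : RR → RR → ℂ) (e1 e2 : ℂ) (r T : ℝ) (x y : RR) : ℂ :=
  cf x y * ((starRingEnd ℂ) ((y - e2 * x) * (y - e1 * x)) *
    (Real.exp (-(r * (axT e1 e2 T).q x y)) : ℂ))

/-- the theta function -/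
noncomputable def Th (cf : RR → RR → ℂ) (e1 e2 : ℂ) (r T : ℝ) : ℂ :=
  ∑' p : RR × RR, th cf e1 e2 r T p.1 p.2

/-- decay of the theta function -/
def Dec (cf : RR → RR → ℂ) (e1 e2 : ℂ) (T1 T0 : ℝ) : Prop :=
  ∃ C c : ℝ, 0 < C ∧ 0 < c ∧ ∀ r : ℝ, 0 < r → ∀ T ∈ Icc T1 T0,
    ‖Th cf e1 e2 r T‖ ≤ C * Real.exp (-(c * (r + 1 / r)))

lemma axT_ok {e1 e2 : ℂ} (h : e1 ≠ e2) {T1 T0 : ℝ} (hT1 : 0 < T1) (hT : T1 ≤ T0) :
    ∃ κ Λ : ℝ, 0 < κ ∧ ∀ T ∈ Icc T1 T0, (axT e1 e2 T).Ok κ Λ := by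
  have hT0 : 0 < T0 := by linarith
  obtain ⟨κ, Λ, hκ, o1, o2⟩ := exists_ok2 (axT_pos h hT1).ok (axT_pos h hT0).ok
  refine ⟨κ, Λ, hκ, fun T hT' => ?_⟩
  rcases eq_or_lt_of_le hT with h' | h'
  · have : T = T1 := le_antisymm (h' ▸ hT'.2) hT'.1
    rw [this]
    exact o1
  · have e : axT e1 e2 T = line (axT e1 e2 T1) (axT e1 e2 T0) ((T - T1) / (T0 - T1)) := by
      rw [axT_line]
      congr 1
      have : T0 - T1 ≠ 0 := by linarith
      field_simp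
      ring
    rw [e]
    refine o1.line o2 ⟨?_, ?_⟩
    · exact div_nonneg (by linarith [hT'.1]) (by linarith)
    · rw [div_le_one (by linarith)]
      linarith [hT'.2]

lemma th_eq (cf : RR → RR → ℂ) (e1 e2 : ℂ) (r T : ℝ) (x y : RR) :
    th cf e1 e2 r T x y = tt cf (fun _ => 1) 2 r (axT e1 e2 T) x y -
      (starRingEnd ℂ) (e1 + e2) * tt cf (fun x => (starRingEnd ℂ) (x : ℂ)) 1 r (axT e1 e2 T) x y +
      (starRingEnd ℂ) (e1 * e2) * tt cf (fun x => (starRingEnd ℂ) (x : ℂ) ^ 2) 0 r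
        (axT e1 e2 T) x y := by
  unfold th tt
  simp only [map_mul, map_sub, map_add]
  ring

lemma conj_bound (x : RR) (a : ℕ) : ‖(starRingEnd ℂ) (x : ℂ) ^ a‖ ≤ (1 + ‖(x : ℂ)‖) ^ a := by
  rw [norm_pow, RCLike.norm_conj]
  gcongr
  linarith

lemma th_parts {κ Λ K : ℝ} (hκ : 0 < κ) {M : ℕ} {cf : RR → RR → ℂ} (hcf : Cb M K cf) {e1 e2 : ℂ}
    {r T : ℝ} (hr : 0 < r) (hH : (axT e1 e2 T).Ok κ Λ) :
    Summable (fun p : RR × RR => th cf e1 e2 r T p.1 p.2) ∧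
    Th cf e1 e2 r T = ∑' p : RR × RR, tt cf (fun _ => 1) 2 r (axT e1 e2 T) p.1 p.2 -
      (starRingEnd ℂ) (e1 + e2) *
        ∑' p : RR × RR, tt cf (fun x => (starRingEnd ℂ) (x : ℂ)) 1 r (axT e1 e2 T) p.1 p.2 +
      (starRingEnd ℂ) (e1 * e2) *
        ∑' p : RR × RR, tt cf (fun x => (starRingEnd ℂ) (x : ℂ) ^ 2) 0 r (axT e1 e2 T) p.1 p.2 := by
  have s1 := tt_summable hκ hcf hH (ξ := fun _ => 1) (a := 0) (fun x => by simp) 2 hr
  have s2 := tt_summable hκ hcf hH (ξ := fun x => (starRingEnd ℂ) (x : ℂ)) (a := 1)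
    (fun x => by have := conj_bound x 1; rwa [pow_one] at this) 1 hr
  have s3 := tt_summable hκ hcf hH (ξ := fun x => (starRingEnd ℂ) (x : ℂ) ^ 2) (a := 2)
    (fun x => conj_bound x 2) 0 hr
  constructor
  · refine ((s1.sub (s2.mul_left ((starRingEnd ℂ) (e1 + e2)))).add
      (s3.mul_left ((starRingEnd ℂ) (e1 * e2)))).congr fun p => ?_
    rw [th_eq]
  · unfold Th
    rw [tsum_congr fun p : RR × RR => th_eq cf e1 e2 r T p.1 p.2,
      (s1.sub (s2.mul_left _)).tsum_add (s3.mul_left _), s1.tsum_sub (s2.mul_left _),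
      tsum_mul_left, tsum_mul_left]

theorem dec_nice (M : ℕ) [NeZero M] {K : ℝ} {cf : RR → RR → ℂ} (hcf : Cb M K cf)
    (hmz : Mz M cf) {e1 e2 : ℂ} (h : e1 ≠ e2) {T1 T0 : ℝ} (hT1 : 0 < T1) (hT : T1 ≤ T0) :
    Dec cf e1 e2 T1 T0 := by
  have hK : 0 ≤ K := (norm_nonneg _).trans (hcf.bd 0 0)
  obtain ⟨κ, Λ, hκ, hok⟩ := axT_ok h hT1 hT
  obtain ⟨C1, c1, hC1, hc1, d1⟩ := dbl' M (Λ := Λ) hκ hK 0 2
  obtain ⟨C2, c2, hC2, hc2, d2⟩ := dbl' M (Λ := Λ) hκ hK 1 1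
  obtain ⟨C3, c3, hC3, hc3, d3⟩ := dbl' M (Λ := Λ) hκ hK 2 0
  set a := ‖(starRingEnd ℂ) (e1 + e2)‖ with ha
  set b := ‖(starRingEnd ℂ) (e1 * e2)‖ with hb
  have ha0 : 0 ≤ a := norm_nonneg _
  have hb0 : 0 ≤ b := norm_nonneg _
  refine ⟨C1 + a * C2 + b * C3, min c1 (min c2 c3), by positivity,
    lt_min hc1 (lt_min hc2 hc3), ?_⟩
  intro r hr T hT'
  have hH := hok T hT'
  rw [(th_parts hκ hcf hr hH).2]
  have k1 := d1 cf hcf hmz _ hH (fun _ => 1) (fun x => by simp) (Or.inr (Or.inr (by norm_num))) r hr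
  have k2 := d2 cf hcf hmz _ hH (fun x => (starRingEnd ℂ) (x : ℂ))
    (fun x => by have := conj_bound x 1; rwa [pow_one] at this) (Or.inr (Or.inr (by norm_num))) r hr
  have k3 := d3 cf hcf hmz _ hH (fun x => (starRingEnd ℂ) (x : ℂ) ^ 2)
    (fun x => conj_bound x 2) (Or.inr (Or.inl (by simp))) r hr
  set c := min c1 (min c2 c3) with hc
  have hrr : 0 < r + 1 / r := by positivity
  have m1 : Real.exp (-(c1 * (r + 1 / r))) ≤ Real.exp (-(c * (r + 1 / r))) := by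
    rw [Real.exp_le_exp, neg_le_neg_iff]
    gcongr
    exact min_le_left _ _
  have m2 : Real.exp (-(c2 * (r + 1 / r))) ≤ Real.exp (-(c * (r + 1 / r))) := by
    rw [Real.exp_le_exp, neg_le_neg_iff]
    gcongr
    exact (min_le_right _ _).trans (min_le_left _ _)
  have m3 : Real.exp (-(c3 * (r + 1 / r))) ≤ Real.exp (-(c * (r + 1 / r))) := by
    rw [Real.exp_le_exp, neg_le_neg_iff]
    gcongr
    exact (min_le_right _ _).trans (min_le_right _ _)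
  refine (norm_add_le _ _).trans ?_
  refine (add_le_add (norm_sub_le _ _) le_rfl).trans ?_
  rw [norm_mul, norm_mul, ← ha, ← hb]
  calc _ ≤ C1 * Real.exp (-(c * (r + 1 / r))) + a * (C2 * Real.exp (-(c * (r + 1 / r)))) +
        b * (C3 * Real.exp (-(c * (r + 1 / r)))) := by
        gcongr
        · exact k1.trans (by gcongr)
        · exact k2.trans (by gcongr)
        · exact k3.trans (by gcongr)
    _ = _ := by ring

lemma th_cont (cf : RR → RR → ℂ) (e1 e2 : ℂ) (x y : RR) :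
    Continuous (fun z : ℝ × ℝ => th cf e1 e2 z.1 z.2 x y) := by
  unfold th
  simp only [axT_q]
  refine continuous_const.mul (continuous_const.mul (Complex.continuous_ofReal.comp ?_))
  fun_prop

lemma th_le {κ Λ K : ℝ} {M : ℕ} {cf : RR → RR → ℂ} (hcf : Cb M K cf) {e1 e2 : ℂ}
    {r δ T : ℝ} (hδ : 0 < δ) (hr : δ ≤ r) (hκ : 0 < κ) (hH : (axT e1 e2 T).Ok κ Λ) (x y : RR) :
    ‖th cf e1 e2 r T x y‖ ≤ K * ((1 + ‖e2‖) * (1 + ‖e1‖)) * dom (δ * κ) (x, y) := by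
  unfold th
  have hK : 0 ≤ K := (norm_nonneg _).trans (hcf.bd 0 0)
  rw [norm_mul, norm_mul, RCLike.norm_conj, norm_mul, Complex.norm_real, Real.norm_eq_abs,
    Real.abs_exp]
  have h3 := exp_dom hH hδ x y 2 le_rfl
  have hq : 0 ≤ (axT e1 e2 T).q x y := by
    have := hH.low x y
    have := Complex.normSq_nonneg (x : ℂ)
    have := Complex.normSq_nonneg (y : ℂ)
    nlinarith
  have h4 : Real.exp (-(r * (axT e1 e2 T).q x y)) ≤ Real.exp (-(δ * (axT e1 e2 T).q x y)) := by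
    rw [Real.exp_le_exp, neg_le_neg_iff]
    gcongr
  have hb : ∀ e : ℂ, ‖(y : ℂ) - e * x‖ ≤ (1 + ‖e‖) * (‖(x : ℂ)‖ + ‖(y : ℂ)‖) := by
    intro e
    refine (norm_sub_le _ _).trans ?_
    rw [norm_mul]
    have := norm_nonneg (x : ℂ)
    have := norm_nonneg (y : ℂ)
    have := norm_nonneg e
    nlinarith
  calc ‖cf x y‖ * (‖(y : ℂ) - e2 * x‖ * ‖(y : ℂ) - e1 * x‖ *
        Real.exp (-(r * (axT e1 e2 T).q x y)))
      ≤ K * (((1 + ‖e2‖) * (‖(x : ℂ)‖ + ‖(y : ℂ)‖)) * ((1 + ‖e1‖) * (‖(x : ℂ)‖ + ‖(y : ℂ)‖)) *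
        Real.exp (-(δ * (axT e1 e2 T).q x y))) := by
        gcongr
        · exact hcf.bd x y
        · exact hb e2
        · exact hb e1
    _ = K * ((1 + ‖e2‖) * (1 + ‖e1‖)) * ((‖(x : ℂ)‖ + ‖(y : ℂ)‖) ^ 2 *
        Real.exp (-(δ * (axT e1 e2 T).q x y))) := by ring
    _ ≤ _ := by gcongr

lemma Th_cont {M : ℕ} {K : ℝ} {cf : RR → RR → ℂ} (hcf : Cb M K cf) {e1 e2 : ℂ} (h : e1 ≠ e2)
    {T1 T0 : ℝ} (hT1 : 0 < T1) (hT : T1 ≤ T0) :
    ContinuousOn (fun z : ℝ × ℝ => Th cf e1 e2 z.1 z.2) (Ioi 0 ×ˢ Icc T1 T0) := by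
  obtain ⟨κ, Λ, hκ, hok⟩ := axT_ok h hT1 hT
  rintro ⟨r0, T'⟩ ⟨hr0, hT'⟩
  have hr0' : 0 < r0 := hr0
  have h1 : ContinuousOn (fun z : ℝ × ℝ => Th cf e1 e2 z.1 z.2) (Ioi (r0 / 2) ×ˢ Icc T1 T0) := by
    refine continuousOn_tsum (fun p => (th_cont cf e1 e2 p.1 p.2).continuousOn)
      ((summ_dom2 (ε := r0 / 2 * κ) (by positivity)).mul_left (K * ((1 + ‖e2‖) * (1 + ‖e1‖))))
      fun p z hz => ?_
    have hz1 : r0 / 2 < z.1 := hz.1
    exact th_le hcf (by positivity) hz1.le hκ (hok z.2 hz.2) p.1 p.2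
  have h2 : ContinuousWithinAt (fun z : ℝ × ℝ => Th cf e1 e2 z.1 z.2)
      (Ioi (r0 / 2) ×ˢ Icc T1 T0) (r0, T') := h1 (r0, T') ⟨by
        show r0 / 2 < r0
        linarith, hT'⟩
  refine h2.mono_of_mem_nhdsWithin ?_
  have hU : (Ioi (r0 / 2) ×ˢ (univ : Set ℝ)) ∈ 𝓝 ((r0, T') : ℝ × ℝ) :=
    prod_mem_nhds (Ioi_mem_nhds (by linarith)) univ_mem
  have h3 : (Ioi (r0 / 2) ×ˢ (univ : Set ℝ)) ∈ 𝓝[Ioi (0 : ℝ) ×ˢ Icc T1 T0] ((r0, T') : ℝ × ℝ) :=
    mem_nhdsWithin_of_mem_nhds hU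
  filter_upwards [h3, self_mem_nhdsWithin] with z hz1 hz2
  exact ⟨hz1.1, hz2.2⟩

end Pool.Agent.Y688
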