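import Pool.Agent.Y688.G11

/-!
# The double Mellin transform
-/

set_option autoImplicit false

open Complex Filter Topology MeasureTheory Set

namespace Pool.Agent.Y688

open Pool.Agent.W192.HK Pool.Agent.TH936.CM HF

lemma int_rexp (a : ℝ) {c : ℝ} (hc : 0 < c) :
    IntegrableOn (fun r : ℝ => r ^ a * Real.exp (-(c * (r + 1 / r)))) (Ioi 0) := by
  obtain ⟨m, hm⟩ := exists_nat_gt (-a - 1)
  have h1 : IntegrableOn (fun r : ℝ => r ^ (a + m) * Real.exp (-c * r ^ (1 : ℝ))) (Ioi 0) :=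
    integrableOn_rpow_mul_exp_neg_mul_rpow (by linarith) one_pos hc
  have h2 := h1.const_mul (m.factorial * (1 / c) ^ m : ℝ)
  refine Integrable.mono' h2 ?_ ?_
  · refine ContinuousOn.aestronglyMeasurable ?_ measurableSet_Ioi
    intro r hr
    have hr' : (0 : ℝ) < r := hr
    refine ContinuousAt.continuousWithinAt ?_
    refine ContinuousAt.mul (Real.continuousAt_rpow_const _ _ (Or.inl hr'.ne')) ?_
    refine Real.continuous_exp.continuousAt.comp ?_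
    have : ContinuousAt (fun r : ℝ => r + 1 / r) r :=
      continuousAt_id.add (continuousAt_const.div continuousAt_id hr'.ne')
    exact (this.const_mul c).neg
  · refine (ae_restrict_iff' measurableSet_Ioi).2 (Eventually.of_forall fun r hr => ?_)
    have hr' : (0 : ℝ) < r := hr
    rw [Real.norm_eq_abs, abs_of_nonneg (by positivity)]
    have h3 := pow_exp_le m (a := c) (x := 1 / r) hc (by positivity)
    have h4 : Real.exp (-(c * (1 / r))) ≤ m.factorial * (1 / c) ^ m * r ^ m := by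
      rw [Real.exp_neg, inv_le_comm₀ (Real.exp_pos _) (by
        have : (0 : ℝ) < m.factorial := by exact_mod_cast m.factorial_pos
        positivity)]
      have h5 : (0 : ℝ) < m.factorial * (1 / c) ^ m := by
        have : (0 : ℝ) < m.factorial := by exact_mod_cast m.factorial_pos
        positivity
      rw [mul_inv, inv_mul_le_iff₀ h5]
      have h6 : (r ^ m)⁻¹ = (1 / r) ^ m := by rw [one_div, inv_pow]
      rw [h6]
      exact h3
    have h7 : Real.exp (-(c * (r + 1 / r))) = Real.exp (-(c * r)) * Real.exp (-(c * (1 / r))) := by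
      rw [← Real.exp_add]
      congr 1
      ring
    rw [h7, Real.rpow_one, Real.rpow_add hr', Real.rpow_natCast]
    have e : -c * r = -(c * r) := by ring
    rw [e]
    calc r ^ a * (Real.exp (-(c * r)) * Real.exp (-(c * (1 / r))))
        ≤ r ^ a * (Real.exp (-(c * r)) * (m.factorial * (1 / c) ^ m * r ^ m)) := by gcongr
      _ = _ := by ring

/-- the double Mellin transform -/
noncomputable def II (cf : RR → RR → ℂ) (e1 e2 : ℂ) (T1 T0 : ℝ) (s : ℂ) : ℂ :=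
  ∫ z in (Ioi (0 : ℝ) ×ˢ Ioc T1 T0), ((z.1 ^ 2 * z.2 : ℝ) : ℂ) ^ s *
    (Th cf e1 e2 z.1 z.2 / ((z.1 * z.2 : ℝ) : ℂ))

lemma meas_dom (T1 T0 : ℝ) : MeasurableSet (Ioi (0 : ℝ) ×ˢ Ioc T1 T0) :=
  measurableSet_Ioi.prod measurableSet_Ioc

lemma F_meas {M : ℕ} {K : ℝ} {cf : RR → RR → ℂ} (hcf : Cb M K cf) {e1 e2 : ℂ} (h : e1 ≠ e2)
    {T1 T0 : ℝ} (hT1 : 0 < T1) (hT : T1 ≤ T0) :
    AEStronglyMeasurable (fun z : ℝ × ℝ => Th cf e1 e2 z.1 z.2 / ((z.1 * z.2 : ℝ) : ℂ))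
      (volume.restrict (Ioi (0 : ℝ) ×ˢ Ioc T1 T0)) := by
  have h1 := (Th_cont hcf h hT1 hT).mono
    (Set.prod_mono_right (s := Ioi (0 : ℝ)) (Ioc_subset_Icc_self (a := T1) (b := T0)))
  refine ContinuousOn.aestronglyMeasurable ?_ (meas_dom T1 T0)
  refine h1.div (by fun_prop) fun z hz => ?_
  have a1 : (0 : ℝ) < z.1 := hz.1
  have a2 : T1 < z.2 := hz.2.1
  have a3 : 0 < z.1 * z.2 := by
    have : 0 < z.2 := by linarith
    positivity
  exact_mod_cast a3.ne'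

lemma F_int {M : ℕ} {K : ℝ} {cf : RR → RR → ℂ} (hcf : Cb M K cf) {e1 e2 : ℂ} (h : e1 ≠ e2)
    {T1 T0 : ℝ} (hT1 : 0 < T1) (hT : T1 ≤ T0) (hd : Dec cf e1 e2 T1 T0) (σ : ℝ) :
    Integrable (fun z : ℝ × ℝ => (z.1 ^ 2 * z.2) ^ σ *
      ‖Th cf e1 e2 z.1 z.2 / ((z.1 * z.2 : ℝ) : ℂ)‖)
      (volume.restrict (Ioi (0 : ℝ) ×ˢ Ioc T1 T0)) := by
  obtain ⟨C, c, hC, hc, hdc⟩ := hd
  have i1 := (int_rexp (2 * σ - 1) hc).const_mul C
  have i2 : IntegrableOn (fun T : ℝ => T ^ (σ - 1)) (Ioc T1 T0) := by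
    refine ContinuousOn.integrableOn_Icc ?_ |>.mono_set Ioc_subset_Icc_self
    intro T hT'
    exact (Real.continuousAt_rpow_const _ _ (Or.inl (by linarith [hT'.1]))).continuousWithinAt
  have i3 := i1.mul_prod i2
  rw [Measure.prod_restrict, ← Measure.volume_eq_prod] at i3
  refine Integrable.mono' i3 ?_ ?_
  · refine AEStronglyMeasurable.mul ?_ (F_meas hcf h hT1 hT).norm
    have : Measurable (fun z : ℝ × ℝ => (z.1 ^ 2 * z.2) ^ σ) := by fun_prop
    exact this.aestronglyMeasurable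
  · refine (ae_restrict_iff' (meas_dom T1 T0)).2 (Eventually.of_forall fun z hz => ?_)
    obtain ⟨r, T⟩ := z
    have hr : (0 : ℝ) < r := hz.1
    have hT1' : T1 < T := hz.2.1
    have hT0 : 0 < T := by linarith
    have hT' : T ∈ Icc T1 T0 := ⟨hT1'.le, hz.2.2⟩
    simp only
    rw [Real.norm_eq_abs, abs_of_nonneg (by positivity), norm_div, Complex.norm_real,
      Real.norm_eq_abs, abs_of_pos (by positivity : 0 < r * T)]
    have h1 := hdc r hr T hT'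
    have k1 : (r ^ 2 * T) ^ σ = r ^ (2 * σ) * T ^ σ := by
      rw [Real.mul_rpow (by positivity) hT0.le, ← Real.rpow_natCast r 2, ← Real.rpow_mul hr.le]
      norm_num
    have k2 : r ^ (2 * σ) = r ^ (2 * σ - 1) * r := by
      rw [Real.rpow_sub_one hr.ne']
      field_simp
    have k3 : T ^ σ = T ^ (σ - 1) * T := by
      rw [Real.rpow_sub_one hT0.ne']
      field_simp
    rw [k1, k2, k3]
    calc r ^ (2 * σ - 1) * r * (T ^ (σ - 1) * T) * (‖Th cf e1 e2 r T‖ / (r * T))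
        = r ^ (2 * σ - 1) * T ^ (σ - 1) * ‖Th cf e1 e2 r T‖ := by
          field_simp
      _ ≤ r ^ (2 * σ - 1) * T ^ (σ - 1) * (C * Real.exp (-(c * (r + 1 / r)))) := by gcongr
      _ = _ := by ring

theorem II_entire {M : ℕ} {K : ℝ} {cf : RR → RR → ℂ} (hcf : Cb M K cf) {e1 e2 : ℂ} (h : e1 ≠ e2)
    {T1 T0 : ℝ} (hT1 : 0 < T1) (hT : T1 ≤ T0) (hd : Dec cf e1 e2 T1 T0) :
    Differentiable ℂ (II cf e1 e2 T1 T0) := by
  refine entire_of_power (g := fun z : ℝ × ℝ => z.1 ^ 2 * z.2) ?_ ?_ (F_meas hcf h hT1 hT)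
    (F_int hcf h hT1 hT hd)
  · have : Measurable (fun z : ℝ × ℝ => z.1 ^ 2 * z.2) := by fun_prop
    exact this.aestronglyMeasurable
  · refine (ae_restrict_iff' (meas_dom T1 T0)).2 (Eventually.of_forall fun z hz => ?_)
    have hr : (0 : ℝ) < z.1 := hz.1
    have hT1' : T1 < z.2 := hz.2.1
    have : 0 < z.2 := by linarith
    positivity

theorem rTh_int {M : ℕ} {K : ℝ} {cf : RR → RR → ℂ} (hcf : Cb M K cf) {e1 e2 : ℂ} (h : e1 ≠ e2)
    {T1 T0 : ℝ} (hT1 : 0 < T1) (hT : T1 ≤ T0) (hd : Dec cf e1 e2 T1 T0) :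
    IntegrableOn (fun z : ℝ × ℝ => (z.1 : ℂ) * Th cf e1 e2 z.1 z.2)
      (Ioi (0 : ℝ) ×ˢ Ioc T1 T0) := by
  have h1 := F_int hcf h hT1 hT hd 1
  have h2 : AEStronglyMeasurable (fun z : ℝ × ℝ => (z.1 : ℂ) * Th cf e1 e2 z.1 z.2)
      (volume.restrict (Ioi (0 : ℝ) ×ˢ Ioc T1 T0)) := by
    have h3 := (Th_cont hcf h hT1 hT).mono
      (Set.prod_mono_right (s := Ioi (0 : ℝ)) (Ioc_subset_Icc_self (a := T1) (b := T0)))
    refine ContinuousOn.aestronglyMeasurable ?_ (meas_dom T1 T0)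
    exact ContinuousOn.mul (by fun_prop) h3
  refine (integrable_norm_iff h2).1 (h1.congr ?_)
  refine (ae_restrict_iff' (meas_dom T1 T0)).2 (Eventually.of_forall fun z hz => ?_)
  have hr : (0 : ℝ) < z.1 := hz.1
  have hT1' : T1 < z.2 := hz.2.1
  have hT2 : 0 < z.2 := by linarith
  simp only
  rw [Real.rpow_one, norm_div, norm_mul, Complex.norm_real, Complex.norm_real, Real.norm_eq_abs,
    Real.norm_eq_abs, abs_of_pos (by positivity : 0 < z.1 * z.2), abs_of_pos hr]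
  field_simp

theorem II_one (cf : RR → RR → ℂ) (e1 e2 : ℂ) {T1 T0 : ℝ} (hT1 : 0 < T1) :
    II cf e1 e2 T1 T0 1 = ∫ z in (Ioi (0 : ℝ) ×ˢ Ioc T1 T0), (z.1 : ℂ) * Th cf e1 e2 z.1 z.2 := by
  unfold II
  refine setIntegral_congr_fun (meas_dom T1 T0) fun z hz => ?_
  have hr : (0 : ℝ) < z.1 := hz.1
  have hT1' : T1 < z.2 := hz.2.1
  have hT2 : 0 < z.2 := by linarith
  show (((z.1 ^ 2 * z.2 : ℝ)) : ℂ) ^ (1 : ℂ) * (Th cf e1 e2 z.1 z.2 / ((z.1 * z.2 : ℝ) : ℂ)) = _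
  rw [Complex.cpow_one]
  push_cast
  have : (z.1 : ℂ) ≠ 0 := by exact_mod_cast hr.ne'
  have : (z.2 : ℂ) ≠ 0 := by exact_mod_cast hT2.ne'
  field_simp

/-- Fubini on a part of the domain -/
theorem fub {M : ℕ} {K : ℝ} {cf : RR → RR → ℂ} (hcf : Cb M K cf) {e1 e2 : ℂ} (h : e1 ≠ e2)
    {T1 T0 : ℝ} (hT1 : 0 < T1) (hT : T1 ≤ T0) (hd : Dec cf e1 e2 T1 T0) {S : Set ℝ}
    (hS : S ⊆ Ioi 0) :
    ∫ z in (S ×ˢ Ioc T1 T0), (z.1 : ℂ) * Th cf e1 e2 z.1 z.2 =
      ∫ T in Ioc T1 T0, ∫ r in S, (r : ℂ) * Th cf e1 e2 r T := by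
  have hint := (rTh_int hcf h hT1 hT hd).mono_set (Set.prod_mono_left (t := Ioc T1 T0) hS)
  rw [Measure.volume_eq_prod] at hint ⊢
  rw [setIntegral_prod _ hint]
  exact MeasureTheory.integral_integral_swap
    (μ := volume.restrict S) (ν := volume.restrict (Ioc T1 T0))
    (f := fun r T => (r : ℂ) * Th cf e1 e2 r T) (by
      rw [Measure.prod_restrict]
      exact hint)

end Pool.Agent.Y688
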