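import Pool.Agent.Y688.G12

/-!
# The limit of the integral on the axis
-/

set_option autoImplicit false

open Complex Filter Topology MeasureTheory Set

namespace Pool.Agent.Y688

open Pool.Agent.W192.HK Pool.Agent.TH936.CM HF

lemma e2_deriv {q : ℝ} (hq : 0 < q) (r : ℝ) :
    HasDerivAt (fun r : ℝ => -e2 r q) (r * Real.exp (-(r * q))) r := by
  unfold e2
  have h1 : HasDerivAt (fun r : ℝ => (1 + r * q) / q ^ 2) (q / q ^ 2) r := by
    have := (((hasDerivAt_id r).mul_const q).const_add 1).div_const (q ^ 2)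
    simpa using this
  have h2 : HasDerivAt (fun r : ℝ => Real.exp (-(r * q))) (Real.exp (-(r * q)) * -q) r := by
    have := (((hasDerivAt_id r).mul_const q).neg).exp
    simpa using this
  refine ((h1.mul h2).neg).congr_deriv ?_
  field_simp
  ring

lemma e2_tendsto {q : ℝ} (hq : 0 < q) : Tendsto (fun r : ℝ => -e2 r q) atTop (𝓝 0) := by
  have h1 : Tendsto (fun s : ℝ => s ^ 1 * Real.exp (-s)) atTop (𝓝 0) :=
    Real.tendsto_pow_mul_exp_neg_atTop_nhds_zero 1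
  have h0 : Tendsto (fun s : ℝ => Real.exp (-s)) atTop (𝓝 0) := Real.tendsto_exp_neg_atTop_nhds_zero
  have h2 : Tendsto (fun r : ℝ => r * q) atTop atTop := tendsto_id.atTop_mul_const hq
  have h3 := ((h0.comp h2).add (h1.comp h2)).const_mul (-(1 / q ^ 2))
  rw [add_zero, mul_zero] at h3
  refine h3.congr fun r => ?_
  unfold e2
  simp only [Function.comp_apply, pow_one]
  field_simp

lemma e2_int {q : ℝ} (hq : 0 < q) {δ : ℝ} (hδ : 0 < δ) :
    IntegrableOn (fun r : ℝ => r * Real.exp (-(r * q))) (Ioi δ) ∧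
    ∫ r in Ioi δ, r * Real.exp (-(r * q)) = e2 δ q := by
  have h1 : IntegrableOn (fun r : ℝ => r * Real.exp (-(r * q))) (Ioi δ) :=
    integrableOn_Ioi_deriv_of_nonneg (g := fun r : ℝ => -e2 r q)
      (e2_deriv hq δ).continuousAt.continuousWithinAt (fun r _ => e2_deriv hq r)
      (fun r hr => by
        have : δ < r := hr
        have : 0 < r := by linarith
        positivity) (e2_tendsto hq)
  refine ⟨h1, ?_⟩
  rw [integral_Ioi_of_hasDerivAt_of_tendsto (f := fun r : ℝ => -e2 r q)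
    (e2_deriv hq δ).continuousAt.continuousWithinAt (fun r _ => e2_deriv hq r) h1 (e2_tendsto hq)]
  ring

/-- the summand of `W` -/
noncomputable def wt (cf : RR → RR → ℂ) (e1 e2' : ℂ) (δ T : ℝ) (x y : RR) : ℂ :=
  cf x y * ((starRingEnd ℂ) ((y - e2' * x) * (y - e1 * x)) * (e2 δ ((axT e1 e2' T).q x y) : ℂ))

theorem W_eq {M : ℕ} {K : ℝ} {cf : RR → RR → ℂ} (hcf : Cf M K cf) {e1 e2' : ℂ}
    {κ Λ : ℝ} (hκ : 0 < κ) {T : ℝ} (hH : (axT e1 e2' T).Ok κ Λ) {δ : ℝ} (hδ : 0 < δ) :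
    ∑' p : RR × RR, wt cf e1 e2' δ T p.1 p.2 = ∫ r in Ioi δ, (r : ℂ) * Th cf e1 e2' r T := by
  have hK : 0 ≤ K := (norm_nonneg _).trans (hcf.bd 0 0)
  set F : RR × RR → ℝ → ℂ := fun p r => (r : ℂ) * th cf e1 e2' r T p.1 p.2 with hF
  have hFeq : ∀ p r, F p r = (cf p.1 p.2 * (starRingEnd ℂ) ((p.2 - e2' * p.1) * (p.2 - e1 * p.1))) *
      ((r * Real.exp (-(r * (axT e1 e2' T).q p.1 p.2)) : ℝ) : ℂ) := by
    intro p r
    simp only [hF]
    unfold th
    push_cast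
    ring
  have hz : ∀ p : RR × RR, ¬ (p.1 ≠ 0 ∨ p.2 ≠ 0) → cf p.1 p.2 = 0 := fun p hp => hcf.eq_zero hp
  have hint : ∀ p, Integrable (F p) (volume.restrict (Ioi δ)) := by
    intro p
    by_cases hp : p.1 ≠ 0 ∨ p.2 ≠ 0
    · have hq : 0 < (axT e1 e2' T).q p.1 p.2 := lt_of_lt_of_le hκ (q_low hκ hH hp)
      have h1 := (e2_int hq hδ).1
      have h2 : Integrable (fun r : ℝ => ((r * Real.exp (-(r * (axT e1 e2' T).q p.1 p.2)) : ℝ) : ℂ))
        (volume.restrict (Ioi δ)) := h1.ofReal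
      have h3 := h2.const_mul (cf p.1 p.2 * (starRingEnd ℂ) ((p.2 - e2' * p.1) * (p.2 - e1 * p.1)))
      exact h3.congr (Eventually.of_forall fun r => (hFeq p r).symm)
    · have : F p = fun _ => 0 := by
        funext r
        rw [hFeq, hz p hp]
        ring
      rw [this]
      exact integrable_zero _ _ _
  have hval : ∀ p, ∫ r in Ioi δ, F p r = wt cf e1 e2' δ T p.1 p.2 := by
    intro p
    by_cases hp : p.1 ≠ 0 ∨ p.2 ≠ 0
    · have hq : 0 < (axT e1 e2' T).q p.1 p.2 := lt_of_lt_of_le hκ (q_low hκ hH hp)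
      have h5 : ∫ r in Ioi δ, ((r * Real.exp (-(r * (axT e1 e2' T).q p.1 p.2)) : ℝ) : ℂ) =
          ((e2 δ ((axT e1 e2' T).q p.1 p.2) : ℝ) : ℂ) := by
        rw [← (e2_int hq hδ).2]
        exact integral_ofReal
      rw [integral_congr_ae (Eventually.of_forall (hFeq p)), integral_const_mul, h5]
      unfold wt
      ring
    · have : F p = fun _ => 0 := by
        funext r
        rw [hFeq, hz p hp]
        ring
      rw [this]
      unfold wt
      rw [hz p hp]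
      simp
  have hnorm : ∀ p, ∫ r in Ioi δ, ‖F p r‖ = ‖wt cf e1 e2' δ T p.1 p.2‖ := by
    intro p
    by_cases hp : p.1 ≠ 0 ∨ p.2 ≠ 0
    · have hq : 0 < (axT e1 e2' T).q p.1 p.2 := lt_of_lt_of_le hκ (q_low hκ hH hp)
      have h1 : ∀ r ∈ Ioi δ, ‖F p r‖ = ‖cf p.1 p.2 * (starRingEnd ℂ) ((p.2 - e2' * p.1) *
          (p.2 - e1 * p.1))‖ * (r * Real.exp (-(r * (axT e1 e2' T).q p.1 p.2))) := by
        intro r hr
        have hr' : δ < r := hr
        have hr0 : 0 < r := by linarith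
        rw [hFeq, norm_mul, Complex.norm_real, Real.norm_eq_abs, abs_of_pos (by positivity)]
      rw [setIntegral_congr_fun measurableSet_Ioi h1, integral_const_mul, (e2_int hq hδ).2]
      unfold wt
      have h6 : (0 : ℝ) ≤ e2 δ ((axT e1 e2' T).q p.1 p.2) := by
        unfold e2
        positivity
      have h7 : ‖((e2 δ ((axT e1 e2' T).q p.1 p.2) : ℝ) : ℂ)‖ = e2 δ ((axT e1 e2' T).q p.1 p.2) := by
        rw [Complex.norm_real, Real.norm_eq_abs, abs_of_nonneg h6]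
      rw [← mul_assoc, norm_mul _ ((e2 δ ((axT e1 e2' T).q p.1 p.2) : ℝ) : ℂ), h7]
    · have : F p = fun _ => 0 := by
        funext r
        rw [hFeq, hz p hp]
        ring
      rw [this]
      unfold wt
      rw [hz p hp]
      simp
  have hsum : Summable (fun p : RR × RR => ‖wt cf e1 e2' δ T p.1 p.2‖) := by
    refine Summable.of_nonneg_of_le (fun p => norm_nonneg _) (fun p => ?_)
      ((summ_dom2 (ε := δ * κ) (by positivity)).mul_left
        (K * ((1 + ‖e2'‖) * (1 + ‖e1‖)) * (1 / κ ^ 2 + δ / κ)))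
    by_cases hp : p.1 ≠ 0 ∨ p.2 ≠ 0
    · have hq' := q_low hκ hH hp
      have hq : 0 < (axT e1 e2' T).q p.1 p.2 := lt_of_lt_of_le hκ hq'
      have h1 : wt cf e1 e2' δ T p.1 p.2 = th cf e1 e2' δ T p.1 p.2 *
          (((1 + δ * (axT e1 e2' T).q p.1 p.2) / (axT e1 e2' T).q p.1 p.2 ^ 2 : ℝ) : ℂ) := by
        unfold wt th e2
        push_cast
        ring
      rw [h1, norm_mul, Complex.norm_real, Real.norm_eq_abs, abs_of_nonneg (by positivity)]
      have h2 := th_le hcf.toCb hδ le_rfl hκ hH p.1 p.2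
      have h3 : (1 + δ * (axT e1 e2' T).q p.1 p.2) / (axT e1 e2' T).q p.1 p.2 ^ 2 ≤
          1 / κ ^ 2 + δ / κ := by
        have e : (1 + δ * (axT e1 e2' T).q p.1 p.2) / (axT e1 e2' T).q p.1 p.2 ^ 2 =
            1 / (axT e1 e2' T).q p.1 p.2 ^ 2 + δ / (axT e1 e2' T).q p.1 p.2 := by
          field_simp
        rw [e]
        gcongr
      have h9 : 0 ≤ K * ((1 + ‖e2'‖) * (1 + ‖e1‖)) * dom (δ * κ) (p.1, p.2) :=
        (norm_nonneg _).trans h2
      calc _ ≤ K * ((1 + ‖e2'‖) * (1 + ‖e1‖)) * dom (δ * κ) (p.1, p.2) * (1 / κ ^ 2 + δ / κ) := by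
            gcongr
        _ = _ := by ring
    · unfold wt
      rw [hz p hp, zero_mul, norm_zero]
      have := dom_nonneg (δ * κ) p
      positivity
  have h4 := (hasSum_integral_of_summable_integral_norm hint (by
    simp only [hnorm]
    exact hsum)).tsum_eq
  rw [tsum_congr hval] at h4
  rw [h4]
  refine integral_congr_ae (Eventually.of_forall fun r => ?_)
  simp only [hF]
  unfold Th
  rw [tsum_mul_left]

lemma vterm_axis (cf : RR → RR → ℂ) (e1 e2' : ℂ) (δ T0 T1 τ : ℝ) (x y : RR) :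
    vterm cf δ (line (axT e1 e2' T0) (axT e1 e2' T1) τ) (sub (axT e1 e2' T1) (axT e1 e2' T0)) x y =
      -((T1 - T0 : ℝ) : ℂ) * (e1 - e2') * wt cf e1 e2' δ (T0 + τ * (T1 - T0)) x y := by
  rw [axT_line]
  unfold vterm wt
  have h1 : J (axT e1 e2' (T0 + τ * (T1 - T0))) (sub (axT e1 e2' T1) (axT e1 e2' T0)) x y =
      -((T1 - T0 : ℝ) : ℂ) * (e1 - e2') * (starRingEnd ℂ) ((y - e2' * x) * (y - e1 * x)) := by
    unfold J sub axT nx ny
    simp only [map_mul, map_sub, map_add, Complex.conj_ofReal]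
    push_cast
    rw [Complex.normSq_eq_conj_mul_self, Complex.normSq_eq_conj_mul_self]
    ring
  rw [h1]
  ring

theorem Vlim {M : ℕ} {K : ℝ} {cf : RR → RR → ℂ} (hcf : Cf M K cf) {e1 e2' : ℂ} (h : e1 ≠ e2')
    {T1 T0 : ℝ} (hT1 : 0 < T1) (hT : T1 < T0) (hd : Dec cf e1 e2' T1 T0) :
    Tendsto (fun δ : ℝ => ∫ τ in (0 : ℝ)..1, ∑' p : RR × RR, vterm cf δ
        (line (axT e1 e2' T0) (axT e1 e2' T1) τ) (sub (axT e1 e2' T1) (axT e1 e2' T0)) p.1 p.2)
      (𝓝[>] 0) (𝓝 ((e1 - e2') * II cf e1 e2' T1 T0 1)) := by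
  obtain ⟨κ, Λ, hκ, hok⟩ := axT_ok h hT1 hT.le
  -- the value for `δ > 0`
  have h1 : ∀ δ : ℝ, 0 < δ → ∫ τ in (0 : ℝ)..1, ∑' p : RR × RR, vterm cf δ
        (line (axT e1 e2' T0) (axT e1 e2' T1) τ) (sub (axT e1 e2' T1) (axT e1 e2' T0)) p.1 p.2 =
      (e1 - e2') * ∫ z in (Ioi δ ×ˢ Ioc T1 T0), (z.1 : ℂ) * Th cf e1 e2' z.1 z.2 := by
    intro δ hδ
    rw [fub hcf.toCb h hT1 hT.le hd (Ioi_subset_Ioi hδ.le)]
    have h2 : ∀ τ : ℝ, ∑' p : RR × RR, vterm cf δ
        (line (axT e1 e2' T0) (axT e1 e2' T1) τ) (sub (axT e1 e2' T1) (axT e1 e2' T0)) p.1 p.2 =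
        -((T1 - T0 : ℝ) : ℂ) * (e1 - e2') *
          (fun T : ℝ => ∑' p : RR × RR, wt cf e1 e2' δ T p.1 p.2) (T0 + (T1 - T0) * τ) := by
      intro τ
      simp only
      rw [← tsum_mul_left]
      refine tsum_congr fun p => ?_
      rw [vterm_axis, mul_comm τ]
    simp only [h2]
    rw [intervalIntegral.integral_const_mul,
      intervalIntegral.integral_comp_add_mul
        (fun T : ℝ => ∑' p : RR × RR, wt cf e1 e2' δ T p.1 p.2) (by linarith : T1 - T0 ≠ 0) T0]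
    have e1' : T0 + (T1 - T0) * 0 = T0 := by ring
    have e2'' : T0 + (T1 - T0) * 1 = T1 := by ring
    rw [e1', e2'', intervalIntegral.integral_symm, intervalIntegral.integral_of_le hT.le]
    have h3 : ∫ T in Ioc T1 T0, ∑' p : RR × RR, wt cf e1 e2' δ T p.1 p.2 =
        ∫ T in Ioc T1 T0, ∫ r in Ioi δ, (r : ℂ) * Th cf e1 e2' r T :=
      setIntegral_congr_fun measurableSet_Ioc fun T hT' =>
        W_eq hcf hκ (hok T ⟨hT'.1.le, hT'.2⟩) hδ
    rw [h3, Complex.real_smul]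
    have hne : ((T1 - T0 : ℝ) : ℂ) ≠ 0 := by
      have : T1 - T0 ≠ 0 := by linarith
      exact_mod_cast this
    push_cast at hne ⊢
    field_simp
  rw [II_one cf e1 e2' hT1]
  obtain ⟨C, c, hC, hc, hdc⟩ := id hd
  have h4 : Tendsto (fun δ : ℝ => ∫ z in (Ioi δ ×ˢ Ioc T1 T0), (z.1 : ℂ) * Th cf e1 e2' z.1 z.2)
      (𝓝[>] 0) (𝓝 (∫ z in (Ioi (0 : ℝ) ×ˢ Ioc T1 T0), (z.1 : ℂ) * Th cf e1 e2' z.1 z.2)) := by
    rw [tendsto_iff_norm_sub_tendsto_zero]
    have h5 : Tendsto (fun δ : ℝ => (δ * C) * (δ * (T0 - T1))) (𝓝[>] 0) (𝓝 0) := by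
      have h6 : Continuous (fun δ : ℝ => (δ * C) * (δ * (T0 - T1))) := by fun_prop
      have h7 := (h6.tendsto 0).mono_left (nhdsWithin_le_nhds (s := Ioi 0))
      simpa using h7
    refine squeeze_zero' (Eventually.of_forall fun _ => norm_nonneg _) ?_ h5
    filter_upwards [self_mem_nhdsWithin] with δ (hδ : 0 < δ)
    have hu : (Ioi (0 : ℝ) ×ˢ Ioc T1 T0) = (Ioc (0 : ℝ) δ ×ˢ Ioc T1 T0) ∪ (Ioi δ ×ˢ Ioc T1 T0) := by
      rw [← Set.union_prod, Ioc_union_Ioi_eq_Ioi hδ.le]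
    have hdisj : Disjoint (Ioc (0 : ℝ) δ ×ˢ Ioc T1 T0) (Ioi δ ×ˢ Ioc T1 T0) := by
      rw [Set.disjoint_left]
      rintro z ⟨hz1, _⟩ ⟨hz2, _⟩
      have a1 : z.1 ≤ δ := hz1.2
      have a2 : δ < z.1 := hz2
      linarith
    have hI := rTh_int hcf.toCb h hT1 hT.le hd
    have hI1 := hI.mono_set (Set.prod_mono_left (t := Ioc T1 T0) (Ioc_subset_Ioi_self (a := δ)
      (b := (0 : ℝ))))
    have hI2 := hI.mono_set (Set.prod_mono_left (t := Ioc T1 T0) (Ioi_subset_Ioi hδ.le))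
    rw [hu, setIntegral_union hdisj (measurableSet_Ioi.prod measurableSet_Ioc) hI1 hI2,
      sub_add_cancel_right, norm_neg]
    have hvol : (volume (Ioc (0 : ℝ) δ ×ˢ Ioc T1 T0) : ENNReal) < ⊤ := by
      rw [Measure.volume_eq_prod, Measure.prod_prod, Real.volume_Ioc, Real.volume_Ioc]
      exact ENNReal.mul_lt_top ENNReal.ofReal_lt_top ENNReal.ofReal_lt_top
    have h8 := norm_setIntegral_le_of_norm_le_const (μ := volume)
      (s := Ioc (0 : ℝ) δ ×ˢ Ioc T1 T0) (f := fun z : ℝ × ℝ => (z.1 : ℂ) * Th cf e1 e2' z.1 z.2)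
      (C := δ * C) hvol (fun z hz => by
        have a1 : 0 < z.1 := hz.1.1
        have a2 : z.1 ≤ δ := hz.1.2
        rw [norm_mul, Complex.norm_real, Real.norm_eq_abs, abs_of_pos a1]
        have a3 := hdc z.1 a1 z.2 ⟨hz.2.1.le, hz.2.2⟩
        have a4 : Real.exp (-(c * (z.1 + 1 / z.1))) ≤ 1 := by
          rw [Real.exp_le_one_iff]
          have : 0 < c * (z.1 + 1 / z.1) := by positivity
          linarith
        have a5 : ‖Th cf e1 e2' z.1 z.2‖ ≤ C := a3.trans (mul_le_of_le_one_right hC.le a4)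
        gcongr)
    have h9 : (volume.real (Ioc (0 : ℝ) δ ×ˢ Ioc T1 T0)) = δ * (T0 - T1) := by
      rw [Measure.real, Measure.volume_eq_prod, Measure.prod_prod, Real.volume_Ioc, Real.volume_Ioc,
        ENNReal.toReal_mul, ENNReal.toReal_ofReal (by linarith), ENNReal.toReal_ofReal (by linarith)]
      ring
    rw [h9] at h8
    exact h8
  refine (h4.const_mul (e1 - e2')).congr' ?_
  filter_upwards [self_mem_nhdsWithin] with δ (hδ : 0 < δ)
  rw [h1 δ hδ]

end Pool.Agent.Y688
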