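import Pool.Agent.Y688.G13

/-!
# The main relation and the decay for general coefficients
-/

set_option autoImplicit false

open Complex Filter Topology MeasureTheory Set

namespace Pool.Agent.Y688

open Pool.Agent.W192.HK Pool.Agent.TH936.CM HF

lemma Ax.n2 {e1 e2 : ℂ} {t : RR} (hax : Ax e1 e2 t) : 0 < Complex.normSq e2 := by
  have hn : Complex.normSq e1 * Complex.normSq e2 = 1 := by
    rw [← Complex.normSq_mul, hax.mul, Complex.normSq_one]
  by_contra hc
  have := Complex.normSq_nonneg e2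
  have h0 : Complex.normSq e2 = 0 := by linarith
  rw [h0, mul_zero] at hn
  norm_num at hn

lemma Ax.lt2 {e1 e2 : ℂ} {t : RR} (hax : Ax e1 e2 t) : Complex.normSq e2 < 1 := by
  have hn : Complex.normSq e1 * Complex.normSq e2 = 1 := by
    rw [← Complex.normSq_mul, hax.mul, Complex.normSq_one]
  have h1 : 1 < Complex.normSq e1 := by
    rw [Complex.normSq_eq_norm_sq]
    have := hax.big
    nlinarith
  have := hax.n2
  nlinarith

lemma Ax.ne {e1 e2 : ℂ} {t : RR} (hax : Ax e1 e2 t) : e1 ≠ e2 := by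
  intro h
  have hm := hax.mul
  rw [← h] at hm
  have h1 := congrArg norm hm
  rw [norm_mul, norm_one] at h1
  have := hax.big
  nlinarith

theorem key1 {K : ℝ} {M : ℕ} [NeZero M] {cf : RR → RR → ℂ} (hcf : Cf M K cf)
    (hmz : Mz M cf) {t : RR} (hi : Inv t cf) {e1 e2 : ℂ} (hax : Ax e1 e2 t) {T0 : ℝ} (hT0 : 0 < T0)
    {S2 : ℂ} (hS2 : Tendsto (fun ε : ℝ => ∑' y : RR, cf 0 y * ff ε y) (𝓝[>] 0) (𝓝 S2)) :
    Tendsto (fun δ : ℝ => ∑' p : RR × RR, pterm cf δ p.1 p.2) (𝓝[>] 0)
      (𝓝 (t * S2 - (e1 - e2) * II cf e1 e2 (T0 * Complex.normSq e2 ^ 2) T0 1)) := by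
  have h0 := hax.n2
  have h1 := hax.lt2
  have hT1 : 0 < T0 * Complex.normSq e2 ^ 2 := by positivity
  have hT : T0 * Complex.normSq e2 ^ 2 < T0 := by
    have : Complex.normSq e2 ^ 2 < 1 := by nlinarith
    nlinarith
  have a := MF0 hcf hmz hi hax hT0 hS2
  have b := Vlim hcf hax.ne hT1 hT (dec_nice M hcf.toCb hmz hax.ne hT1 hT.le)
  refine (a.sub b).congr fun δ => ?_
  ring

/-- swapping the variables -/
def swp (cf : RR → RR → ℂ) : RR → RR → ℂ := fun x y => cf y x

lemma th_swp {cf : RR → RR → ℂ} {e1 e2 : ℂ} (h : e1 * e2 = 1) (r T : ℝ) (x y : RR) :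
    th cf e1 e2 r T x y =
      th (swp cf) e2 e1 (r * Complex.normSq e1) (T * Complex.normSq e2 ^ 2) y x := by
  unfold th swp
  have hn : Complex.normSq e1 * Complex.normSq e2 = 1 := by
    rw [← Complex.normSq_mul, h, Complex.normSq_one]
  have k1 : (y : ℂ) - e2 * x = -e2 * (x - e1 * y) := by linear_combination -(y : ℂ) * h
  have k2 : (y : ℂ) - e1 * x = -e1 * (x - e2 * y) := by linear_combination -(y : ℂ) * h
  have e1' : ((y : ℂ) - e2 * x) * (y - e1 * x) = (x - e1 * y) * (x - e2 * y) := by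
    rw [k1, k2]
    linear_combination ((x : ℂ) - e1 * y) * (x - e2 * y) * h
  have e3 : r * (axT e1 e2 T).q x y =
      r * Complex.normSq e1 * (axT e2 e1 (T * Complex.normSq e2 ^ 2)).q y x := by
    rw [axT_q, axT_q, k1, k2]
    simp only [Complex.normSq_mul, Complex.normSq_neg]
    linear_combination (-(r * T * Complex.normSq e2) * Complex.normSq ((x : ℂ) - e1 * y)) * hn
  rw [e1', e3]

lemma Th_swp {cf : RR → RR → ℂ} {e1 e2 : ℂ} (h : e1 * e2 = 1) (r T : ℝ) :
    Th cf e1 e2 r T = Th (swp cf) e2 e1 (r * Complex.normSq e1) (T * Complex.normSq e2 ^ 2) := by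
  unfold Th
  rw [← (Equiv.prodComm RR RR).tsum_eq
    (fun p : RR × RR => th cf e1 e2 r T p.1 p.2)]
  refine tsum_congr fun p => ?_
  simp only [Equiv.prodComm_apply, Prod.fst_swap, Prod.snd_swap]
  exact th_swp h r T p.2 p.1

lemma Th_add {K1 K2 : ℝ} {M : ℕ} {a b : RR → RR → ℂ} (ha : Cb M K1 a) (hb : Cb M K2 b)
    {e1 e2 : ℂ} (h : e1 ≠ e2) {r T : ℝ} (hr : 0 < r) (hT : 0 < T) :
    Th (fun x y => a x y + b x y) e1 e2 r T = Th a e1 e2 r T + Th b e1 e2 r T := by
  obtain ⟨κ, Λ, hκ, hok⟩ := axT_ok h hT le_rfl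
  have h1 := (th_parts hκ ha hr (hok T ⟨le_rfl, le_rfl⟩)).1
  have h2 := (th_parts hκ hb hr (hok T ⟨le_rfl, le_rfl⟩)).1
  unfold Th
  rw [← h1.tsum_add h2]
  refine tsum_congr fun p => ?_
  unfold th
  ring

lemma Dec.swp {cf : RR → RR → ℂ} {e1 e2 : ℂ} (h : e1 * e2 = 1) {T1 T0 : ℝ}
    (hd : Dec (swp cf) e2 e1 (T1 * Complex.normSq e2 ^ 2) (T0 * Complex.normSq e2 ^ 2)) :
    Dec cf e1 e2 T1 T0 := by
  have hn : Complex.normSq e1 * Complex.normSq e2 = 1 := by
    rw [← Complex.normSq_mul, h, Complex.normSq_one]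
  have p1 : 0 < Complex.normSq e1 := by
    refine (Complex.normSq_nonneg _).lt_of_ne fun h0 => ?_
    rw [← h0] at hn
    norm_num at hn
  have p2 : 0 < Complex.normSq e2 := by
    refine (Complex.normSq_nonneg _).lt_of_ne fun h0 => ?_
    rw [← h0] at hn
    norm_num at hn
  obtain ⟨C, c, hC, hc, hdc⟩ := hd
  refine ⟨C, c * min (Complex.normSq e1) (1 / Complex.normSq e1), hC, by positivity, ?_⟩
  intro r hr T hT
  rw [Th_swp h]
  refine (hdc (r * Complex.normSq e1) (by positivity) _ ⟨?_, ?_⟩).trans ?_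
  · have := hT.1
    gcongr
  · have := hT.2
    gcongr
  · refine mul_le_mul_of_nonneg_left ?_ hC.le
    rw [Real.exp_le_exp, neg_le_neg_iff, mul_assoc]
    refine mul_le_mul_of_nonneg_left ?_ hc.le
    rw [mul_add]
    have a1 : min (Complex.normSq e1) (1 / Complex.normSq e1) * r ≤ r * Complex.normSq e1 := by
      rw [mul_comm]
      gcongr
      exact min_le_left _ _
    have a2 : min (Complex.normSq e1) (1 / Complex.normSq e1) * (1 / r) ≤
        1 / (r * Complex.normSq e1) := by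
      calc _ ≤ (1 / Complex.normSq e1) * (1 / r) := by
            gcongr
            exact min_le_right _ _
        _ = _ := by field_simp
    linarith

lemma Dec.add {K1 K2 : ℝ} {M : ℕ} {a b : RR → RR → ℂ} (ha : Cb M K1 a) (hb : Cb M K2 b)
    {e1 e2 : ℂ} (h : e1 ≠ e2) {T1 T0 : ℝ} (hT1 : 0 < T1) (h1 : Dec a e1 e2 T1 T0)
    (h2 : Dec b e1 e2 T1 T0) : Dec (fun x y => a x y + b x y) e1 e2 T1 T0 := by
  obtain ⟨C1, c1, hC1, hc1, d1⟩ := h1
  obtain ⟨C2, c2, hC2, hc2, d2⟩ := h2
  refine ⟨C1 + C2, min c1 c2, by positivity, lt_min hc1 hc2, ?_⟩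
  intro r hr T hT
  rw [Th_add ha hb h hr (by linarith [hT.1])]
  refine (norm_add_le _ _).trans ((add_le_add (d1 r hr T hT) (d2 r hr T hT)).trans ?_)
  rw [add_mul]
  have hrr : 0 < r + 1 / r := by positivity
  gcongr
  · exact min_le_left _ _
  · exact min_le_right _ _

/-- the average over the second variable -/
noncomputable def avg (M : ℕ) [NeZero M] (c : RR → RR → ℂ) (x : RR) : ℂ :=
  (∑ q : RM M, c x q.out) / (Fintype.card (RM M) : ℂ)

theorem dec_gen (M : ℕ) [NeZero M] {K : ℝ} {c : RR → RR → ℂ} (hc : Cb M K c)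
    (hx : ∀ y, Per M (fun x => c x y)) (hz : ∑ p : RM M, ∑ q : RM M, c p.out q.out = 0)
    {e1 e2 : ℂ} (h : e1 ≠ e2) (h1 : e1 * e2 = 1) {T1 T0 : ℝ} (hT1 : 0 < T1) (hT : T1 ≤ T0) :
    Dec c e1 e2 T1 T0 := by
  have hcard : (Fintype.card (RM M) : ℂ) ≠ 0 := by
    have : Fintype.card (RM M) ≠ 0 := Fintype.card_ne_zero
    exact_mod_cast this
  have hb : ∀ x, ‖avg M c x‖ ≤ K := by
    intro x
    unfold avg
    rw [norm_div, Complex.norm_natCast, div_le_iff₀ (by
      have : 0 < Fintype.card (RM M) := Fintype.card_pos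
      exact_mod_cast this)]
    refine (norm_sum_le _ _).trans ((Finset.sum_le_sum fun q _ => hc.bd x q.out).trans ?_)
    rw [Finset.sum_const, Finset.card_univ, nsmul_eq_mul, mul_comm]
  have hbper : Per M (avg M c) := by
    intro x z hxz
    unfold avg
    congr 1
    exact Finset.sum_congr rfl fun q _ => hx (Quotient.out q) x z hxz
  set B : RR → RR → ℂ := fun x _ => avg M c x with hB
  set A : RR → RR → ℂ := fun x y => c x y - avg M c x with hA
  have cA : Cb M (K + K) A := by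
    refine ⟨fun x y => (norm_sub_le _ _).trans (add_le_add (hc.bd x y) (hb x)), fun x y z hyz => ?_⟩
    simp only [hA]
    rw [hc.per x y z hyz]
  have cB : Cb M K B := ⟨fun x y => hb x, fun x y z _ => rfl⟩
  have cB' : Cb M K (Y688.swp B) := ⟨fun x y => hb y, fun x y z hyz => hbper y z hyz⟩
  have zA : Mz M A := by
    intro x
    simp only [hA, avg]
    rw [Finset.sum_sub_distrib, Finset.sum_const, Finset.card_univ, nsmul_eq_mul]
    field_simp
    ring
  have zB : Mz M (Y688.swp B) := by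
    intro x
    simp only [hB, Y688.swp, avg]
    rw [← Finset.sum_div, hz, zero_div]
  have p2 : 0 < Complex.normSq e2 := by
    refine (Complex.normSq_nonneg _).lt_of_ne fun h0 => ?_
    have hn : Complex.normSq e1 * Complex.normSq e2 = 1 := by
      rw [← Complex.normSq_mul, h1, Complex.normSq_one]
    rw [← h0] at hn
    norm_num at hn
  have dA : Dec A e1 e2 T1 T0 := dec_nice M cA zA h hT1 hT
  have dB : Dec B e1 e2 T1 T0 := by
    refine Dec.swp h1 (dec_nice M cB' zB (Ne.symm h) (by positivity) (by gcongr))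
  have e : c = fun x y => A x y + B x y := by
    funext x y
    simp only [hA, hB]
    ring
  rw [e]
  exact dA.add cA cB h hT1 dB

end Pool.Agent.Y688
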