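import Pool.Agent.Y688.G14

/-!
# The weights
-/

set_option autoImplicit false

open Complex Filter Topology MeasureTheory Set

namespace Pool.Agent.Y688

open Pool.Agent.W192.HK Pool.Agent.TH936.CM HF

lemma g_int {σ : ℝ} (hσ : 0 < σ) {m : ℝ} (hm : 0 < m) :
    IntegrableOn (fun r : ℝ => r ^ (σ - 1) * Real.exp (-(m * r))) (Ioi 0) := by
  have h1 := integrableOn_rpow_mul_exp_neg_mul_rpow (s := σ - 1) (p := 1) (b := m) (by linarith)
    one_pos hm
  refine h1.congr_fun (fun r _ => ?_) measurableSet_Ioi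
  simp only [Real.rpow_one]
  rw [neg_mul]

lemma g_int' {s : ℂ} (hs : 0 < s.re) {m : ℝ} (hm : 0 < m) :
    IntegrableOn (fun r : ℝ => (r : ℂ) ^ (s - 1) * (Real.exp (-(m * r)) : ℂ)) (Ioi 0) := by
  refine Integrable.mono' (g_int hs hm) ?_ ?_
  · refine AEStronglyMeasurable.mul ?_ ?_
    · exact ((Complex.measurable_ofReal).pow_const _).aestronglyMeasurable
    · refine Continuous.aestronglyMeasurable ?_
      exact Complex.continuous_ofReal.comp (Real.continuous_exp.comp (by fun_prop))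
  · refine (ae_restrict_iff' measurableSet_Ioi).2 (Eventually.of_forall fun r hr => ?_)
    have hr' : (0 : ℝ) < r := hr
    rw [norm_mul, Complex.norm_cpow_eq_rpow_re_of_pos hr', Complex.norm_real, Real.norm_eq_abs,
      Real.abs_exp]
    simp

lemma g_val {s : ℂ} (hs : 0 < s.re) {m : ℝ} (hm : 0 < m) :
    ∫ r in Ioi (0 : ℝ), (r : ℂ) ^ (s - 1) * (Real.exp (-(m * r)) : ℂ) =
      (m : ℂ) ^ (-s) * Complex.Gamma s := by
  have h := Complex.integral_cpow_mul_exp_neg_mul_Ioi (a := s) (r := m) hs hm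
  have e : (1 / (m : ℂ)) ^ s = (m : ℂ) ^ (-s) := by
    rw [one_div, Complex.inv_cpow, Complex.cpow_neg]
    rw [Complex.arg_ofReal_of_nonneg hm.le]
    exact Real.pi_pos.ne
  rw [e] at h
  rw [← h]
  refine setIntegral_congr_fun measurableSet_Ioi fun r _ => ?_
  push_cast
  rfl

/-- the function under the integral -/
noncomputable def bt (s : ℂ) (A B T : ℝ) : ℂ := (T : ℂ) ^ (s - 1) * ((A + T * B : ℝ) : ℂ) ^ (-(2 * s))

/-- the weight -/
noncomputable def ws (s : ℂ) (T1 T0 A B : ℝ) : ℂ :=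
  Complex.Gamma (2 * s) * ∫ T in Ioc T1 T0, bt s A B T

lemma cpow_split {a b : ℝ} (ha : 0 < a) (hb : 0 < b) (s : ℂ) :
    ((a * b : ℝ) : ℂ) ^ s = (a : ℂ) ^ s * (b : ℂ) ^ s := by
  rw [Complex.ofReal_mul, Complex.mul_cpow_ofReal_nonneg ha.le hb.le]

lemma rT_eq {r T : ℝ} (hr : 0 < r) (hT : 0 < T) (s : ℂ) :
    ((r ^ 2 * T : ℝ) : ℂ) ^ s / ((r * T : ℝ) : ℂ) = (r : ℂ) ^ (2 * s - 1) * (T : ℂ) ^ (s - 1) := by
  have hr' : (r : ℂ) ≠ 0 := by exact_mod_cast hr.ne'
  have hT' : (T : ℂ) ≠ 0 := by exact_mod_cast hT.ne'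
  rw [cpow_split (by positivity) hT, Complex.cpow_sub _ _ hr', Complex.cpow_sub _ _ hT',
    Complex.cpow_one, Complex.cpow_one]
  have e : ((r ^ 2 : ℝ) : ℂ) ^ s = (r : ℂ) ^ (2 * s) := by
    rw [pow_two, cpow_split hr hr, ← Complex.cpow_add _ _ hr']
    congr 1
    ring
  rw [e]
  push_cast
  field_simp

/-- the total integral -/
lemma bt_total {s : ℂ} (hs : 0 < s.re) {A B : ℝ} (hA : 0 < A) (hB : 0 < B) :
    IntegrableOn (bt s A B) (Ioi 0) ∧
    Complex.Gamma (2 * s) * ∫ T in Ioi (0 : ℝ), bt s A B T =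
      Complex.Gamma s ^ 2 * (A : ℂ) ^ (-s) * (B : ℂ) ^ (-s) := by
  set G : ℝ × ℝ → ℂ := fun z => (z.1 : ℂ) ^ (2 * s - 1) * (z.2 : ℂ) ^ (s - 1) *
    (Real.exp (-(z.1 * (A + z.2 * B))) : ℂ) with hG
  have hs2 : 0 < (2 * s).re := by simpa using hs
  have hmeas : AEStronglyMeasurable G ((volume.restrict (Ioi (0 : ℝ))).prod
      (volume.restrict (Ioi (0 : ℝ)))) := by
    refine AEStronglyMeasurable.mul (AEStronglyMeasurable.mul ?_ ?_) ?_
    · exact ((Complex.measurable_ofReal.comp measurable_fst).pow_const _).aestronglyMeasurable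
    · exact ((Complex.measurable_ofReal.comp measurable_snd).pow_const _).aestronglyMeasurable
    · refine Continuous.aestronglyMeasurable ?_
      exact Complex.continuous_ofReal.comp (Real.continuous_exp.comp (by fun_prop))
  have e1 : ∀ r T : ℝ, G (r, T) = ((r : ℂ) ^ (2 * s - 1) * (Real.exp (-(A * r)) : ℂ)) *
      ((T : ℂ) ^ (s - 1) * (Real.exp (-((r * B) * T)) : ℂ)) := by
    intro r T
    simp only [hG]
    have : Real.exp (-(r * (A + T * B))) = Real.exp (-(A * r)) * Real.exp (-((r * B) * T)) := by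
      rw [← Real.exp_add]
      congr 1
      ring
    rw [this]
    push_cast
    ring
  have e2 : ∀ r T : ℝ, G (r, T) = (T : ℂ) ^ (s - 1) *
      ((r : ℂ) ^ (2 * s - 1) * (Real.exp (-((A + T * B) * r)) : ℂ)) := by
    intro r T
    simp only [hG]
    rw [mul_comm r]
    ring
  have hint : Integrable G ((volume.restrict (Ioi (0 : ℝ))).prod
      (volume.restrict (Ioi (0 : ℝ)))) := by
    rw [integrable_prod_iff hmeas]
    constructor
    · refine (ae_restrict_iff' measurableSet_Ioi).2 (Eventually.of_forall fun r hr => ?_)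
      have hr' : (0 : ℝ) < r := hr
      have := (g_int' hs (m := r * B) (by positivity)).const_mul
        ((r : ℂ) ^ (2 * s - 1) * (Real.exp (-(A * r)) : ℂ))
      refine Integrable.congr this (Eventually.of_forall fun T => ?_)
      exact (e1 r T).symm
    · have h1 := ((g_int hs hA).const_mul (B ^ (-s.re) * Real.Gamma s.re))
      refine Integrable.congr h1 ?_
      refine (ae_restrict_iff' measurableSet_Ioi).2 (Eventually.of_forall fun r hr => ?_)
      have hr' : (0 : ℝ) < r := hr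
      have h2 : ∫ T in Ioi (0 : ℝ), ‖G (r, T)‖ = ∫ T in Ioi (0 : ℝ),
          (r ^ (2 * s.re - 1) * Real.exp (-(A * r))) * (T ^ (s.re - 1) * Real.exp (-((r * B) * T))) := by
        refine setIntegral_congr_fun measurableSet_Ioi fun T hT => ?_
        have hT' : (0 : ℝ) < T := hT
        rw [e1, norm_mul, norm_mul, norm_mul, Complex.norm_cpow_eq_rpow_re_of_pos hr',
          Complex.norm_cpow_eq_rpow_re_of_pos hT', Complex.norm_real, Complex.norm_real,
          Real.norm_eq_abs, Real.norm_eq_abs, Real.abs_exp, Real.abs_exp]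
        simp
      simp only
      rw [h2, integral_const_mul]
      have h3 := Real.integral_rpow_mul_exp_neg_mul_Ioi (a := s.re) (r := r * B) hs (by positivity)
      rw [h3]
      have h4 : (1 / (r * B)) ^ s.re = r ^ (-s.re) * B ^ (-s.re) := by
        rw [one_div, Real.inv_rpow (by positivity), ← Real.rpow_neg (by positivity),
          Real.mul_rpow hr'.le hB.le]
      rw [h4]
      have h5 : r ^ (2 * s.re - 1) * r ^ (-s.re) = r ^ (s.re - 1) := by
        rw [← Real.rpow_add hr']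
        congr 1
        ring
      rw [← h5]
      ring
  have hswap := integral_integral_swap (μ := volume.restrict (Ioi (0 : ℝ)))
    (ν := volume.restrict (Ioi (0 : ℝ))) (f := fun r T => G (r, T)) hint
  have hL : ∫ r in Ioi (0 : ℝ), ∫ T in Ioi (0 : ℝ), G (r, T) =
      Complex.Gamma s ^ 2 * (A : ℂ) ^ (-s) * (B : ℂ) ^ (-s) := by
    have h1 : ∀ r ∈ Ioi (0 : ℝ), ∫ T in Ioi (0 : ℝ), G (r, T) =
        ((B : ℂ) ^ (-s) * Complex.Gamma s) * ((r : ℂ) ^ (s - 1) * (Real.exp (-(A * r)) : ℂ)) := by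
      intro r hr
      have hr' : (0 : ℝ) < r := hr
      simp only [e1]
      rw [integral_const_mul, g_val hs (by positivity : 0 < r * B), cpow_split hr' hB]
      have hrc : (r : ℂ) ≠ 0 := by exact_mod_cast hr'.ne'
      have h5 : (r : ℂ) ^ (2 * s - 1) * (r : ℂ) ^ (-s) = (r : ℂ) ^ (s - 1) := by
        rw [← Complex.cpow_add _ _ hrc]
        congr 1
        ring
      rw [← h5]
      ring
    rw [setIntegral_congr_fun measurableSet_Ioi h1, integral_const_mul, g_val hs hA]
    ring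
  have hR1 : ∀ T ∈ Ioi (0 : ℝ), ∫ r in Ioi (0 : ℝ), G (r, T) = Complex.Gamma (2 * s) * bt s A B T := by
    intro T hT
    have hT' : (0 : ℝ) < T := hT
    simp only [e2]
    rw [integral_const_mul, g_val hs2 (by positivity : 0 < A + T * B)]
    unfold bt
    ring
  have hR : ∫ T in Ioi (0 : ℝ), ∫ r in Ioi (0 : ℝ), G (r, T) =
      Complex.Gamma (2 * s) * ∫ T in Ioi (0 : ℝ), bt s A B T := by
    rw [setIntegral_congr_fun measurableSet_Ioi hR1, integral_const_mul]
  have hG2 : Complex.Gamma (2 * s) ≠ 0 := Complex.Gamma_ne_zero_of_re_pos hs2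
  constructor
  · have h6 := hint.integral_prod_right
    have h7 : IntegrableOn (fun T => Complex.Gamma (2 * s) * bt s A B T) (Ioi 0) := by
      refine Integrable.congr h6 ?_
      exact (ae_restrict_iff' measurableSet_Ioi).2 (Eventually.of_forall fun T hT => hR1 T hT)
    have h8 := h7.const_mul (Complex.Gamma (2 * s))⁻¹
    refine h8.congr (Eventually.of_forall fun T => ?_)
    simp only
    rw [← mul_assoc, inv_mul_cancel₀ hG2, one_mul]
  · rw [← hR, ← hswap, hL]

/-- scaling of the weights -/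
lemma ws_scale (s : ℂ) {T1 T0 A B c : ℝ} (hT1 : 0 < T1) (hT : T1 ≤ T0) (hA : 0 < A) (hB : 0 < B)
    (hc : 0 < c) : ws s T1 T0 (c⁻¹ * A) (c * B) = ws s (c ^ 2 * T1) (c ^ 2 * T0) A B := by
  unfold ws
  congr 1
  have hc2 : 0 < c ^ 2 := by positivity
  have h1 := intervalIntegral.integral_comp_mul_left (a := T1) (b := T0) (fun T => bt s A B T)
    (c := c ^ 2) hc2.ne'
  rw [intervalIntegral.integral_of_le hT, intervalIntegral.integral_of_le
    (mul_le_mul_of_nonneg_left hT hc2.le)] at h1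
  have h2 : ∫ T in Ioc T1 T0, bt s (c⁻¹ * A) (c * B) T =
      ∫ T in Ioc T1 T0, ((c ^ 2 : ℝ) : ℂ) * bt s A B (c ^ 2 * T) := by
    refine setIntegral_congr_fun measurableSet_Ioc fun T hT' => ?_
    have hT'' : 0 < T := by linarith [hT'.1]
    unfold bt
    have e1 : c⁻¹ * A + T * (c * B) = c⁻¹ * (A + c ^ 2 * T * B) := by
      field_simp
    have hc1 : 0 < c⁻¹ := by positivity
    rw [e1, cpow_split hc1 (by positivity), cpow_split hc2 hT'']
    have hcc : (c : ℂ) ≠ 0 := by exact_mod_cast hc.ne'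
    have e2 : ((c⁻¹ : ℝ) : ℂ) ^ (-(2 * s)) = (c : ℂ) ^ (2 * s) := by
      rw [Complex.ofReal_inv, Complex.inv_cpow, Complex.cpow_neg, inv_inv]
      rw [Complex.arg_ofReal_of_nonneg hc.le]
      exact Real.pi_pos.ne
    have e3 : ((c ^ 2 : ℝ) : ℂ) * ((c ^ 2 : ℝ) : ℂ) ^ (s - 1) = (c : ℂ) ^ (2 * s) := by
      have hcc2 : ((c ^ 2 : ℝ) : ℂ) ≠ 0 := by exact_mod_cast hc2.ne'
      rw [Complex.cpow_sub _ _ hcc2, Complex.cpow_one, mul_div_cancel₀ _ hcc2, pow_two,
        cpow_split hc hc, ← Complex.cpow_add _ _ hcc]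
      congr 1
      ring
    rw [e2, ← e3]
    ring
  rw [h2, integral_const_mul, h1, Complex.real_smul]
  push_cast
  have hcc : (c : ℂ) ≠ 0 := by exact_mod_cast hc.ne'
  field_simp

/-- the sum of the weights -/
lemma ws_sum {s : ℂ} (hs : 0 < s.re) {T1 A B c : ℝ} (hT1 : 0 < T1) (hA : 0 < A) (hB : 0 < B)
    (hc : 1 < c) :
    HasSum (fun n : ℤ => ws s T1 (T1 * c ^ 2) ((c ^ n)⁻¹ * A) (c ^ n * B))
      (Complex.Gamma s ^ 2 * (A : ℂ) ^ (-s) * (B : ℂ) ^ (-s)) := by
  obtain ⟨h1, h2⟩ := bt_total hs hA hB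
  have hc0 : 0 < c := by linarith
  have hc2 : 1 < c ^ 2 := by nlinarith
  set a : ℤ → ℝ := fun n => T1 * (c ^ 2) ^ n with ha
  have hmono : Monotone a := by
    intro m n hmn
    simp only [ha]
    gcongr
    exact hc2.le
  have hU : ⋃ n : ℤ, Ioc (a n) (a (n + 1)) = Ioi 0 := by
    ext x
    simp only [mem_iUnion, mem_Ioi]
    constructor
    · rintro ⟨n, hn⟩
      have : 0 < a n := by
        simp only [ha]
        positivity
      linarith [hn.1]
    · intro hx
      obtain ⟨n, hn⟩ := exists_mem_Ioc_zpow (x := x / T1) (y := c ^ 2) (by positivity) hc2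
      refine ⟨n, ?_, ?_⟩
      · have := hn.1
        rw [lt_div_iff₀ hT1] at this
        simp only [ha]
        linarith
      · have := hn.2
        rw [div_le_iff₀ hT1] at this
        simp only [ha]
        linarith
  have hdisj : Pairwise (Function.onFun Disjoint fun n : ℤ => Ioc (a n) (a (n + 1))) := by
    have := hmono.pairwise_disjoint_on_Ioc_succ
    simpa [Int.succ_eq_succ] using this
  have h3 := hasSum_integral_iUnion (μ := volume) (f := bt s A B)
    (fun n : ℤ => (measurableSet_Ioc : MeasurableSet (Ioc (a n) (a (n + 1))))) hdisj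
    (by rw [hU]; exact h1)
  rw [hU] at h3
  have h4 := h3.mul_left (Complex.Gamma (2 * s))
  rw [h2] at h4
  refine h4.congr_fun fun n => ?_
  have hcn : 0 < c ^ n := by positivity
  rw [ws_scale s hT1 (by nlinarith) hA hB hcn]
  unfold ws
  have e1 : (c ^ n) ^ 2 * T1 = a n := by
    simp only [ha]
    rw [mul_comm, ← zpow_natCast, ← zpow_mul, ← zpow_natCast, ← zpow_mul, mul_comm n]
  have e2 : (c ^ n) ^ 2 * (T1 * c ^ 2) = a (n + 1) := by
    simp only [ha]
    rw [zpow_add₀ (by positivity), zpow_one, ← mul_assoc, ← mul_assoc, e1]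
  rw [e1, e2]

end Pool.Agent.Y688
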