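import Pool.Agent.Y688.G15

/-!
# The double Mellin transform as a sum
-/

set_option autoImplicit false

open Complex Filter Topology MeasureTheory Set

namespace Pool.Agent.Y688

open Pool.Agent.W192.HK Pool.Agent.TH936.CM HF

lemma summ_rpow {a : ℝ} (ha : 2 < a) : Summable (fun x : RR => ‖(x : ℂ)‖ ^ (-a)) := by
  have hL := mkL_isLat qr one_ne_zero
  have h1 := ZLattice.summable_norm_rpow (mkL w 1 qr.im one_ne_zero).lattice (-a) (by
    simp
    exact ha)
  have h2 := ((latE hL).summable_iff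
    (f := fun l : (mkL w 1 qr.im one_ne_zero).lattice => ‖l‖ ^ (-a))).2 h1
  refine h2.congr fun β => ?_
  have h3 : ‖latE hL β‖ = ‖(β : ℂ)‖ := by
    have h4 := latE_coe hL β
    rw [one_mul] at h4
    rw [← h4]
    rfl
  simp only [Function.comp_apply]
  rw [h3]

lemma summ_Q {a : ℝ} (ha : 2 < a) : Summable (fun p : RR × RR =>
    (Complex.normSq (p.1 : ℂ) + Complex.normSq (p.2 : ℂ)) ^ (-a)) := by
  classical
  set f : RR → ℝ := fun x => ‖(x : ℂ)‖ ^ (-a) + if x = 0 then (1 : ℝ) else 0 with hf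
  have hsf : Summable f := (summ_rpow ha).add (summable_of_finite_support
      ((Set.finite_singleton (0 : RR)).subset fun x hx => by
        simp only [Function.mem_support, ne_eq, ite_eq_right_iff, one_ne_zero, imp_false,
          not_not] at hx
        exact hx))
  have hf0 : ∀ x, 0 ≤ f x := by
    intro x
    have : (0 : ℝ) ≤ if x = 0 then (1 : ℝ) else 0 := by split_ifs <;> norm_num
    positivity
  have h1 := hsf.mul_of_nonneg hsf hf0 hf0
  refine Summable.of_nonneg_of_le (fun p => Real.rpow_nonneg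
    (add_nonneg (Complex.normSq_nonneg _) (Complex.normSq_nonneg _)) _) (fun p => ?_) h1
  obtain ⟨x, y⟩ := p
  simp only [hf]
  have hz : ((0 : RR) : ℂ) = 0 := rfl
  have hza : (0 : ℝ) ^ (-a) = 0 := Real.zero_rpow (by linarith)
  have key : ∀ y : RR, y ≠ 0 → (Complex.normSq (y : ℂ)) ^ (-a) ≤ ‖(y : ℂ)‖ ^ (-a) := by
    intro y hy
    have := one_le_norm hy
    have h2 : ‖(y : ℂ)‖ ≤ Complex.normSq (y : ℂ) := by
      rw [Complex.normSq_eq_norm_sq]
      nlinarith
    exact Real.rpow_le_rpow_of_nonpos (by linarith) h2 (by linarith)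
  by_cases hx : x = 0 <;> by_cases hy : y = 0
  · subst hx hy
    simp [hza]
  · subst hx
    rw [hz]
    simp only [if_neg hy, if_true, norm_zero, hza, map_zero, zero_add, add_zero, one_mul]
    exact key y hy
  · subst hy
    rw [hz]
    simp only [if_neg hx, if_true, norm_zero, hza, map_zero, zero_add, add_zero, mul_one]
    exact key x hx
  · simp only [if_neg hx, if_neg hy, add_zero]
    have h3 := one_le_norm hx
    have h4 := one_le_norm hy
    rw [← Real.mul_rpow (by positivity) (by positivity)]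
    refine Real.rpow_le_rpow_of_nonpos (by positivity) ?_ (by linarith)
    rw [Complex.normSq_eq_norm_sq, Complex.normSq_eq_norm_sq]
    nlinarith [sq_nonneg (‖(x : ℂ)‖ - ‖(y : ℂ)‖)]

/-- the kernel -/
noncomputable def kr (s : ℂ) (A B : ℝ) (z : ℝ × ℝ) : ℂ :=
  ((z.1 ^ 2 * z.2 : ℝ) : ℂ) ^ s * ((Real.exp (-(z.1 * (A + z.2 * B))) : ℂ) / ((z.1 * z.2 : ℝ) : ℂ))

lemma kr_meas (s : ℂ) (A B : ℝ) {μ : Measure (ℝ × ℝ)} : AEStronglyMeasurable (kr s A B) μ := by
  unfold kr
  refine Measurable.aestronglyMeasurable ?_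
  refine Measurable.mul ?_ (Measurable.div ?_ ?_)
  · exact (Complex.measurable_ofReal.comp (by fun_prop)).pow_const _
  · exact Complex.measurable_ofReal.comp (by fun_prop)
  · exact Complex.measurable_ofReal.comp (by fun_prop)

lemma kr_eq (s : ℂ) (A B : ℝ) {r T : ℝ} (hr : 0 < r) (hT : 0 < T) :
    kr s A B (r, T) = (T : ℂ) ^ (s - 1) *
      ((r : ℂ) ^ (2 * s - 1) * (Real.exp (-((A + T * B) * r)) : ℂ)) := by
  unfold kr
  simp only
  have h1 := rT_eq hr hT s
  have hne : ((r * T : ℝ) : ℂ) ≠ 0 := by exact_mod_cast (by positivity : 0 < r * T).ne'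
  rw [div_eq_iff hne] at h1
  rw [h1, mul_comm (A + T * B) r]
  field_simp

lemma kr_norm (s : ℂ) (A B : ℝ) {r T : ℝ} (hr : 0 < r) (hT : 0 < T) :
    ‖kr s A B (r, T)‖ = r ^ (2 * s.re - 1) * Real.exp (-((A + T * B) * r)) * T ^ (s.re - 1) := by
  rw [kr_eq s A B hr hT, norm_mul, norm_mul, Complex.norm_cpow_eq_rpow_re_of_pos hr,
    Complex.norm_cpow_eq_rpow_re_of_pos hT, Complex.norm_real, Real.norm_eq_abs, Real.abs_exp]
  simp
  ring

lemma kr_int {s : ℂ} (hs : 0 < s.re) {T1 T0 : ℝ} (hT1 : 0 < T1) {A B m : ℝ}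
    (hm : 0 < m) (hAB : ∀ T ∈ Icc T1 T0, m ≤ A + T * B) :
    IntegrableOn (kr s A B) (Ioi (0 : ℝ) ×ˢ Ioc T1 T0) ∧
    ∫ z in (Ioi (0 : ℝ) ×ˢ Ioc T1 T0), kr s A B z = ws s T1 T0 A B ∧
    ∫ z in (Ioi (0 : ℝ) ×ˢ Ioc T1 T0), ‖kr s A B z‖ ≤
      (1 / m) ^ (2 * s.re) * Real.Gamma (2 * s.re) * ∫ T in Ioc T1 T0, T ^ (s.re - 1) := by
  have hs2 : 0 < (2 * s).re := by simpa using hs
  have hsr2 : 0 < 2 * s.re := by linarith
  have i1 := g_int hsr2 hm
  have i2 : IntegrableOn (fun T : ℝ => T ^ (s.re - 1)) (Ioc T1 T0) := by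
    refine ContinuousOn.integrableOn_Icc ?_ |>.mono_set Ioc_subset_Icc_self
    intro T hT'
    exact (Real.continuousAt_rpow_const _ _ (Or.inl (by linarith [hT'.1]))).continuousWithinAt
  have i3 := i1.mul_prod i2
  rw [Measure.prod_restrict, ← Measure.volume_eq_prod] at i3
  have hle : ∀ᵐ z ∂(volume.restrict (Ioi (0 : ℝ) ×ˢ Ioc T1 T0)), ‖kr s A B z‖ ≤
      z.1 ^ (2 * s.re - 1) * Real.exp (-(m * z.1)) * z.2 ^ (s.re - 1) := by
    refine (ae_restrict_iff' (meas_dom T1 T0)).2 (Eventually.of_forall fun z hz => ?_)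
    obtain ⟨r, T⟩ := z
    have hr : (0 : ℝ) < r := hz.1
    have hT1' : T1 < T := hz.2.1
    have hT0 : 0 < T := by linarith
    rw [kr_norm s A B hr hT0]
    have := hAB T ⟨hT1'.le, hz.2.2⟩
    simp only
    gcongr
  have hint : IntegrableOn (kr s A B) (Ioi (0 : ℝ) ×ˢ Ioc T1 T0) :=
    Integrable.mono' i3 (kr_meas s A B) hle
  refine ⟨hint, ?_, ?_⟩
  · have hint' := hint
    rw [Measure.volume_eq_prod] at hint' ⊢
    rw [setIntegral_prod _ hint']
    have hsw := MeasureTheory.integral_integral_swap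
      (μ := volume.restrict (Ioi (0 : ℝ))) (ν := volume.restrict (Ioc T1 T0))
      (f := fun r T => kr s A B (r, T)) (by
        rw [Measure.prod_restrict]
        exact hint')
    rw [hsw]
    unfold ws
    rw [← integral_const_mul]
    refine setIntegral_congr_fun measurableSet_Ioc fun T hT => ?_
    have hT0 : 0 < T := by linarith [hT.1]
    have hpos : 0 < A + T * B := lt_of_lt_of_le hm (hAB T ⟨hT.1.le, hT.2⟩)
    have h1 : ∫ r in Ioi (0 : ℝ), kr s A B (r, T) = ∫ r in Ioi (0 : ℝ), (T : ℂ) ^ (s - 1) *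
      ((r : ℂ) ^ (2 * s - 1) * (Real.exp (-((A + T * B) * r)) : ℂ)) :=
      setIntegral_congr_fun measurableSet_Ioi fun r hr => kr_eq s A B hr hT0
    rw [h1, integral_const_mul, g_val hs2 hpos]
    unfold bt
    ring
  · refine (integral_mono_ae hint.norm i3 hle).trans (le_of_eq ?_)
    rw [Measure.volume_eq_prod, setIntegral_prod_mul
      (fun r : ℝ => r ^ (2 * s.re - 1) * Real.exp (-(m * r))) (fun T : ℝ => T ^ (s.re - 1))]
    congr 1
    exact Real.integral_rpow_mul_exp_neg_mul_Ioi hsr2 hm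

/-- the double Mellin transform as a sum -/
theorem II_sum {M : ℕ} {K : ℝ} {cf : RR → RR → ℂ} (hcf : Cb M K cf) {e1 e2 : ℂ} (h : e1 ≠ e2)
    {T1 T0 : ℝ} (hT1 : 0 < T1) (hT : T1 ≤ T0) {s : ℂ} (hs : 3 / 2 < s.re) :
    HasSum (fun p : RR × RR => cf p.1 p.2 *
      (starRingEnd ℂ) ((p.2 - e2 * p.1) * (p.2 - e1 * p.1)) *
      ws s T1 T0 (Complex.normSq (p.2 - e1 * p.1)) (Complex.normSq (p.2 - e2 * p.1)))
      (II cf e1 e2 T1 T0 s) ∧
    Summable (fun p : RR × RR => ‖cf p.1 p.2 *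
      (starRingEnd ℂ) ((p.2 - e2 * p.1) * (p.2 - e1 * p.1)) *
      ws s T1 T0 (Complex.normSq (p.2 - e1 * p.1)) (Complex.normSq (p.2 - e2 * p.1))‖) := by
  have hK : 0 ≤ K := (norm_nonneg _).trans (hcf.bd 0 0)
  obtain ⟨κ, Λ, hκ, hok⟩ := axT_ok h hT1 hT
  set n : RR × RR → ℂ := fun p => (starRingEnd ℂ) ((p.2 - e2 * p.1) * (p.2 - e1 * p.1)) with hn
  set A : RR × RR → ℝ := fun p => Complex.normSq (p.2 - e1 * p.1) with hA
  set B : RR × RR → ℝ := fun p => Complex.normSq (p.2 - e2 * p.1) with hB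
  set Q : RR × RR → ℝ := fun p => Complex.normSq (p.1 : ℂ) + Complex.normSq (p.2 : ℂ) with hQ
  set F : RR × RR → ℝ × ℝ → ℂ := fun p z => cf p.1 p.2 * n p * kr s (A p) (B p) z with hF
  have hs0 : 0 < s.re := by linarith
  have hQ1 : ∀ p : RR × RR, p ≠ 0 → 1 ≤ Q p := by
    intro p hp
    simp only [hQ]
    have : p.1 ≠ 0 ∨ p.2 ≠ 0 := by
      by_contra hc
      push Not at hc
      exact hp (Prod.ext hc.1 hc.2)
    rcases this with h | h
    · have := one_le_normSq h
      have := Complex.normSq_nonneg (p.2 : ℂ)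
      linarith
    · have := one_le_normSq h
      have := Complex.normSq_nonneg (p.1 : ℂ)
      linarith
  have hlow : ∀ p : RR × RR, ∀ T ∈ Icc T1 T0, κ * Q p ≤ A p + T * B p := by
    intro p T hT'
    have := (hok T hT').low p.1 p.2
    rw [axT_q] at this
    exact this
  have hn0 : n 0 = 0 := by
    simp only [hn]
    simp
  have hnb : ∀ p, ‖n p‖ ≤ 2 * ((1 + ‖e2‖) * (1 + ‖e1‖)) * Q p := by
    intro p
    simp only [hn]
    rw [RCLike.norm_conj, norm_mul]
    have hb : ∀ e : ℂ, ‖(p.2 : ℂ) - e * p.1‖ ≤ (1 + ‖e‖) * (‖(p.1 : ℂ)‖ + ‖(p.2 : ℂ)‖) := by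
      intro e
      refine (norm_sub_le _ _).trans ?_
      rw [norm_mul]
      have := norm_nonneg (p.1 : ℂ)
      have := norm_nonneg (p.2 : ℂ)
      have := norm_nonneg e
      nlinarith
    calc _ ≤ ((1 + ‖e2‖) * (‖(p.1 : ℂ)‖ + ‖(p.2 : ℂ)‖)) *
          ((1 + ‖e1‖) * (‖(p.1 : ℂ)‖ + ‖(p.2 : ℂ)‖)) := by
          gcongr
          · exact hb e2
          · exact hb e1
      _ = (1 + ‖e2‖) * (1 + ‖e1‖) * (‖(p.1 : ℂ)‖ + ‖(p.2 : ℂ)‖) ^ 2 := by ring
      _ ≤ (1 + ‖e2‖) * (1 + ‖e1‖) * (2 * Q p) := by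
          gcongr
          simp only [hQ]
          rw [Complex.normSq_eq_norm_sq, Complex.normSq_eq_norm_sq]
          nlinarith [sq_nonneg (‖(p.1 : ℂ)‖ - ‖(p.2 : ℂ)‖)]
      _ = _ := by ring
  have hF0 : ∀ z, F 0 z = 0 := by
    intro z
    simp only [hF]
    rw [hn0]
    ring
  have hint : ∀ p, Integrable (F p) (volume.restrict (Ioi (0 : ℝ) ×ˢ Ioc T1 T0)) := by
    intro p
    by_cases hp : p = 0
    · rw [hp]
      have : F 0 = fun _ => 0 := funext hF0
      rw [this]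
      exact integrable_zero _ _ _
    · have hm : 0 < κ * Q p := by
        have := hQ1 p hp
        positivity
      exact (kr_int hs0 hT1 hm (hlow p)).1.const_mul _
  set CT : ℝ := ∫ T in Ioc T1 T0, T ^ (s.re - 1) with hCT
  have hCT0 : 0 ≤ CT := setIntegral_nonneg measurableSet_Ioc fun T hT' =>
    Real.rpow_nonneg (by linarith [hT'.1]) _
  have hG0 : 0 < Real.Gamma (2 * s.re) := Real.Gamma_pos_of_pos (by linarith)
  have hnorm : ∀ p, ∫ z in (Ioi (0 : ℝ) ×ˢ Ioc T1 T0), ‖F p z‖ ≤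
      (K * (2 * ((1 + ‖e2‖) * (1 + ‖e1‖))) * ((1 / κ) ^ (2 * s.re) * Real.Gamma (2 * s.re) * CT)) *
        Q p ^ (-(2 * s.re - 1)) := by
    intro p
    by_cases hp : p = 0
    · rw [hp]
      simp only [hF0, norm_zero, integral_zero]
      have : 0 ≤ Q 0 := by
        simp [hQ]
      positivity
    · have hq := hQ1 p hp
      have hq0 : 0 < Q p := by linarith
      have hm : 0 < κ * Q p := by positivity
      obtain ⟨-, -, k3⟩ := kr_int hs0 hT1 hm (hlow p)
      have h1 : ∫ z in (Ioi (0 : ℝ) ×ˢ Ioc T1 T0), ‖F p z‖ =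
          ‖cf p.1 p.2‖ * ‖n p‖ * ∫ z in (Ioi (0 : ℝ) ×ˢ Ioc T1 T0), ‖kr s (A p) (B p) z‖ := by
        rw [← integral_const_mul]
        refine integral_congr_ae (Eventually.of_forall fun z => ?_)
        simp only [hF]
        rw [norm_mul, norm_mul]
      rw [h1]
      have e1' : (1 / (κ * Q p)) ^ (2 * s.re) = (1 / κ) ^ (2 * s.re) * Q p ^ (-(2 * s.re)) := by
        rw [one_div, mul_inv, Real.mul_rpow (by positivity) (by positivity),
          Real.inv_rpow hq0.le, Real.rpow_neg hq0.le, one_div]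
      have e2' : Q p ^ (-(2 * s.re - 1)) = Q p * Q p ^ (-(2 * s.re)) := by
        rw [show -(2 * s.re - 1) = 1 + -(2 * s.re) by ring, Real.rpow_add hq0, Real.rpow_one]
      calc _ ≤ K * (2 * ((1 + ‖e2‖) * (1 + ‖e1‖)) * Q p) *
            ((1 / (κ * Q p)) ^ (2 * s.re) * Real.Gamma (2 * s.re) * CT) := by
            gcongr
            · exact hcf.bd _ _
            · exact hnb p
        _ = _ := by
            rw [e1', e2']
            ring
  have hsumm : Summable (fun p => ∫ z in (Ioi (0 : ℝ) ×ˢ Ioc T1 T0), ‖F p z‖) :=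
    Summable.of_nonneg_of_le (fun p => integral_nonneg fun _ => norm_nonneg _) hnorm
      ((summ_Q (a := 2 * s.re - 1) (by linarith)).mul_left _)
  have hval : ∀ p, ∫ z in (Ioi (0 : ℝ) ×ˢ Ioc T1 T0), F p z =
      cf p.1 p.2 * n p * ws s T1 T0 (A p) (B p) := by
    intro p
    by_cases hp : p = 0
    · rw [hp]
      simp only [hF0, integral_zero]
      rw [hn0]
      ring
    · have hq := hQ1 p hp
      have hm : 0 < κ * Q p := by positivity
      obtain ⟨-, k2, -⟩ := kr_int hs0 hT1 hm (hlow p)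
      simp only [hF]
      rw [integral_const_mul, k2]
  have hmain := hasSum_integral_of_summable_integral_norm hint hsumm
  constructor
  · have h2 : ∫ z in (Ioi (0 : ℝ) ×ˢ Ioc T1 T0), ∑' p, F p z = II cf e1 e2 T1 T0 s := by
      unfold II
      refine setIntegral_congr_fun (meas_dom T1 T0) fun z hz => ?_
      simp only [hF]
      unfold Th
      rw [← tsum_div_const, ← tsum_mul_left]
      refine tsum_congr fun p => ?_
      unfold th kr
      rw [axT_q]
      simp only [hn, hA, hB]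
      ring
    rw [h2] at hmain
    refine hmain.congr_fun fun p => ?_
    rw [hval]
  · refine Summable.of_nonneg_of_le (fun p => norm_nonneg _) (fun p => ?_) hsumm
    rw [← hval p]
    exact norm_integral_le_integral_norm _

end Pool.Agent.Y688
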