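import Pool.Agent.Y688.G16

/-!
# Unfolding over the units
-/

set_option autoImplicit false

open Complex Filter Topology MeasureTheory Set

namespace Pool.Agent.Y688

open Pool.Agent.W192.HK Pool.Agent.TH936.CM HF

/-- the ring of integers of the quartic field, as a lattice -/
structure FD (A : Type*) [CommRing A] (e1 e2 : ℂ) where
  β : RR × RR ≃+ A
  σ1 : A →+* ℂ
  σ2 : A →+* ℂ
  s1 : ∀ p, σ1 (β p) = p.2 - e1 * p.1
  s2 : ∀ p, σ2 (β p) = p.2 - e2 * p.1
  i1 : Function.Injective σ1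
  i2 : Function.Injective σ2
  η : Aˣ
  η1 : σ1 η = e2
  η2 : σ2 η = e1
  un : ∀ u : Aˣ, ‖σ1 (u : A)‖ * ‖σ2 (u : A)‖ = 1

variable {A : Type*} [CommRing A] {e1 e2 : ℂ}

lemma FD.un_ne (D : FD A e1 e2) (u : Aˣ) : D.σ1 (u : A) ≠ 0 ∧ D.σ2 (u : A) ≠ 0 := by
  have h := D.un u
  constructor
  · intro h0
    rw [h0, norm_zero, zero_mul] at h
    norm_num at h
  · intro h0
    rw [h0, norm_zero, mul_zero] at h
    norm_num at h

/-- the index set of the cosets -/
abbrev FD.Q (D : FD A e1 e2) : Type _ := Aˣ ⧸ Subgroup.zpowers D.η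

/-- the decomposition of the units -/
noncomputable def FD.ue (D : FD A e1 e2) (he : 1 < ‖e1‖) : D.Q × ℤ ≃ Aˣ :=
  Equiv.ofBijective (fun x => x.1.out * D.η ^ x.2) (by
    constructor
    · rintro ⟨q, n⟩ ⟨q', m⟩ h
      simp only at h
      have h1 : ∀ (q : D.Q) (n : ℤ), ((q.out * D.η ^ n : Aˣ) : D.Q) = q := by
        intro q n
        have : ((q.out * D.η ^ n : Aˣ) : D.Q) = (q.out : D.Q) := by
          rw [QuotientGroup.eq]
          refine ⟨-n, ?_⟩
          simp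
        rw [this]
        exact q.out_eq'
      have hq : q = q' := by
        rw [← h1 q n, h, h1]
      subst hq
      have h2 : D.η ^ n = D.η ^ m := mul_left_cancel h
      have h3 : e1 ^ n = e1 ^ m := by
        have := congrArg (fun u : Aˣ => Units.map (D.σ2 : A →* ℂ) u) h2
        simp only [map_zpow] at this
        have := congrArg (fun u : ℂˣ => (u : ℂ)) this
        simpa [D.η2] using this
      have h4 : ‖e1‖ ^ n = ‖e1‖ ^ m := by rw [← norm_zpow, ← norm_zpow, h3]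
      have h5 : n = m := (zpow_right_injective₀ (by linarith) he.ne') h4
      rw [h5]
    · intro u
      have h1 : ((u : D.Q).out : D.Q) = (u : D.Q) := Quotient.out_eq' _
      rw [QuotientGroup.eq] at h1
      obtain ⟨n, hn⟩ := h1
      refine ⟨(u, n), ?_⟩
      simp only at hn ⊢
      rw [hn]
      group)

lemma FD.ue_val (D : FD A e1 e2) (he : 1 < ‖e1‖) (q : D.Q) (n : ℤ) :
    D.ue he (q, n) = q.out * D.η ^ n := rfl

variable [IsDomain A] [IsPrincipalIdealRing A]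

/-- the generator of an ideal -/
noncomputable def gen (I : Ideal A) : A := Submodule.IsPrincipal.generator I

lemma gen_span (I : Ideal A) : Ideal.span {gen I} = I := Ideal.span_singleton_generator I

lemma gen_ne {I : Ideal A} (h : I ≠ ⊥) : gen I ≠ 0 := by
  intro h0
  have := gen_span I
  rw [h0] at this
  simp at this
  exact h this.symm

/-- the nonzero elements -/
noncomputable def nze : {I : Ideal A // I ≠ ⊥} × Aˣ ≃ {α : A // α ≠ 0} :=
  Equiv.ofBijective (fun x => ⟨x.2 * gen x.1.1, mul_ne_zero x.2.ne_zero (gen_ne x.1.2)⟩) (by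
    constructor
    · rintro ⟨⟨I, hI⟩, u⟩ ⟨⟨I', hI'⟩, u'⟩ h
      have h1 : (u : A) * gen I = u' * gen I' := congrArg Subtype.val h
      have h2 : I = I' := by
        rw [← gen_span I, ← gen_span I', Ideal.span_singleton_eq_span_singleton]
        exact ⟨u * u'⁻¹, by
          rw [Units.val_mul]
          have h3 : (u' : A) * ((u'⁻¹ : Aˣ) : A) = 1 := u'.mul_inv
          linear_combination ((u'⁻¹ : Aˣ) : A) * h1 + gen I' * h3⟩
      subst h2
      have h3 : (u : A) = u' := mul_right_cancel₀ (gen_ne hI) h1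
      have h4 : u = u' := Units.ext h3
      rw [h4]
    · rintro ⟨α, hα⟩
      have h1 : Ideal.span {gen (Ideal.span {α})} = Ideal.span {α} := gen_span _
      rw [Ideal.span_singleton_eq_span_singleton] at h1
      obtain ⟨u, hu⟩ := h1
      refine ⟨(⟨Ideal.span {α}, by simpa using hα⟩, u), Subtype.ext ?_⟩
      simp only
      rw [mul_comm]
      exact hu)

lemma nze_val (I : {I : Ideal A // I ≠ ⊥}) (u : Aˣ) : ((nze (I, u) : {α : A // α ≠ 0}) : A) =
    u * gen I.1 := rfl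

/-- all together -/
noncomputable def FD.tot (D : FD A e1 e2) (he : 1 < ‖e1‖) :
    ({I : Ideal A // I ≠ ⊥} × D.Q) × ℤ ≃ {α : A // α ≠ 0} :=
  (Equiv.prodAssoc _ _ _).trans (((Equiv.refl _).prodCongr (D.ue he)).trans nze)

lemma FD.tot_val (D : FD A e1 e2) (he : 1 < ‖e1‖) (I : {I : Ideal A // I ≠ ⊥}) (q : D.Q) (n : ℤ) :
    ((D.tot he ((I, q), n) : {α : A // α ≠ 0}) : A) = (q.out * D.η ^ n : Aˣ) * gen I.1 := rfl

/-- the function on the ring -/
noncomputable def FD.G (D : FD A e1 e2) (cf : RR → RR → ℂ) (α : A) : ℂ :=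
  cf (D.β.symm α).1 (D.β.symm α).2 * (starRingEnd ℂ) (D.σ2 α * D.σ1 α)

/-- the summand -/
noncomputable def FD.tm (D : FD A e1 e2) (cf : RR → RR → ℂ) (s : ℂ) (T1 T0 : ℝ) (α : A) : ℂ :=
  D.G cf α * ws s T1 T0 (Complex.normSq (D.σ1 α)) (Complex.normSq (D.σ2 α))

omit [IsDomain A] [IsPrincipalIdealRing A] in
lemma FD.tm_eq (D : FD A e1 e2) (cf : RR → RR → ℂ) (s : ℂ) (T1 T0 : ℝ) (p : RR × RR) :
    D.tm cf s T1 T0 (D.β p) = cf p.1 p.2 *
      (starRingEnd ℂ) ((p.2 - e2 * p.1) * (p.2 - e1 * p.1)) *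
      ws s T1 T0 (Complex.normSq (p.2 - e1 * p.1)) (Complex.normSq (p.2 - e2 * p.1)) := by
  unfold FD.tm FD.G
  rw [D.s1, D.s2, AddEquiv.symm_apply_apply]

omit [IsPrincipalIdealRing A] in
lemma FD.tm_zero (D : FD A e1 e2) (cf : RR → RR → ℂ) (s : ℂ) (T1 T0 : ℝ) :
    D.tm cf s T1 T0 0 = 0 := by
  unfold FD.tm FD.G
  simp

lemma FD.sum_tot (D : FD A e1 e2) (he : 1 < ‖e1‖) {cf : RR → RR → ℂ} {s : ℂ} {T1 T0 : ℝ}
    {M : ℕ} {K : ℝ} (hcf : Cb M K cf) (hne : e1 ≠ e2)
    (hT1 : 0 < T1) (hT : T1 ≤ T0) (hs : 3 / 2 < s.re) :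
    HasSum (fun x => D.tm cf s T1 T0 (D.tot he x : A)) (II cf e1 e2 T1 T0 s) ∧
    Summable (fun x => ‖D.tm cf s T1 T0 (D.tot he x : A)‖) := by
  obtain ⟨h1, h2⟩ := II_sum hcf hne hT1 hT hs
  constructor
  · have h3 : HasSum (D.tm cf s T1 T0) (II cf e1 e2 T1 T0 s) := by
      rw [← D.β.toEquiv.hasSum_iff]
      refine h1.congr_fun fun p => ?_
      exact D.tm_eq cf s T1 T0 p
    have h4 : HasSum (D.tm cf s T1 T0 ∘ (Subtype.val : {α : A // α ≠ 0} → A))
        (II cf e1 e2 T1 T0 s) := by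
      refine (Subtype.val_injective.hasSum_iff fun α hα => ?_).2 h3
      have h0 : α = 0 := by
        by_contra hne0
        exact hα ⟨⟨α, hne0⟩, rfl⟩
      rw [h0]
      exact D.tm_zero cf s T1 T0
    have h5 := (D.tot he).hasSum_iff (f := D.tm cf s T1 T0 ∘ (Subtype.val : {α : A // α ≠ 0} → A))
      (a := II cf e1 e2 T1 T0 s)
    exact h5.2 h4
  · have h3 : Summable (fun α => ‖D.tm cf s T1 T0 α‖) := by
      rw [← D.β.toEquiv.summable_iff]
      refine h2.congr fun p => ?_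
      exact congrArg norm (D.tm_eq cf s T1 T0 p).symm
    have h4 : Summable ((fun α => ‖D.tm cf s T1 T0 α‖) ∘ (Subtype.val : {α : A // α ≠ 0} → A)) :=
      h3.comp_injective Subtype.val_injective
    have h5 := (D.tot he).summable_iff
      (f := (fun α => ‖D.tm cf s T1 T0 α‖) ∘ (Subtype.val : {α : A // α ≠ 0} → A))
    exact h5.2 h4

lemma FD.ws_eta (D : FD A e1 e2) (hmul : e1 * e2 = 1) (s : ℂ) (T1 T0 : ℝ) (α : A) (n : ℤ) :
    ws s T1 T0 (Complex.normSq (D.σ1 ((D.η ^ n : Aˣ) * α))) (Complex.normSq (D.σ2 ((D.η ^ n : Aˣ) * α)))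
      = ws s T1 T0 ((Complex.normSq e1 ^ n)⁻¹ * Complex.normSq (D.σ1 α))
        (Complex.normSq e1 ^ n * Complex.normSq (D.σ2 α)) := by
  have hn : Complex.normSq e1 * Complex.normSq e2 = 1 := by
    rw [← Complex.normSq_mul, hmul, Complex.normSq_one]
  have h1 : D.σ1 ((D.η ^ n : Aˣ) : A) = e2 ^ n := by
    have : ((Units.map (D.σ1 : A →* ℂ) (D.η ^ n) : ℂˣ) : ℂ) = e2 ^ n := by
      rw [map_zpow, Units.val_zpow_eq_zpow_val, Units.coe_map]
      exact congrArg (fun z : ℂ => z ^ n) D.η1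
    exact this
  have h2 : D.σ2 ((D.η ^ n : Aˣ) : A) = e1 ^ n := by
    have : ((Units.map (D.σ2 : A →* ℂ) (D.η ^ n) : ℂˣ) : ℂ) = e1 ^ n := by
      rw [map_zpow, Units.val_zpow_eq_zpow_val, Units.coe_map]
      exact congrArg (fun z : ℂ => z ^ n) D.η2
    exact this
  have h3 : Complex.normSq e2 = (Complex.normSq e1)⁻¹ := by
    refine eq_inv_of_mul_eq_one_right hn
  rw [map_mul D.σ1, map_mul D.σ2, h1, h2, Complex.normSq_mul, Complex.normSq_mul, map_zpow₀,
    map_zpow₀, h3, inv_zpow]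


/-- the square of the norm of the embeddings -/
noncomputable def FD.N (D : FD A e1 e2) (α : A) : ℝ := Complex.normSq (D.σ1 α) * Complex.normSq (D.σ2 α)

omit [IsDomain A] [IsPrincipalIdealRing A] in
lemma FD.N_unit (D : FD A e1 e2) (u : Aˣ) (α : A) : D.N (u * α) = D.N α := by
  unfold FD.N
  have h := D.un u
  rw [map_mul D.σ1, map_mul D.σ2, Complex.normSq_mul, Complex.normSq_mul]
  have h1 : Complex.normSq (D.σ1 (u : A)) * Complex.normSq (D.σ2 (u : A)) = 1 := by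
    rw [Complex.normSq_eq_norm_sq, Complex.normSq_eq_norm_sq, ← mul_pow, h, one_pow]
  linear_combination Complex.normSq (D.σ1 α) * Complex.normSq (D.σ2 α) * h1

omit [IsPrincipalIdealRing A] [IsDomain A] in
lemma FD.pos (D : FD A e1 e2) {α : A} (h : α ≠ 0) :
    0 < Complex.normSq (D.σ1 α) ∧ 0 < Complex.normSq (D.σ2 α) := by
  constructor
  · exact Complex.normSq_pos.2 fun h0 => h (D.i1 (by rw [h0, map_zero]))
  · exact Complex.normSq_pos.2 fun h0 => h (D.i2 (by rw [h0, map_zero]))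

/-- the sum over the powers of the fundamental unit -/
lemma FD.sum_n (D : FD A e1 e2) (hmul : e1 * e2 = 1) (he : 1 < ‖e1‖) {s : ℂ} (hs : 0 < s.re)
    {T0 : ℝ} (hT0 : 0 < T0) {α : A} (hα : α ≠ 0) :
    HasSum (fun n : ℤ => ws s (T0 * Complex.normSq e2 ^ 2) T0
      (Complex.normSq (D.σ1 ((D.η ^ n : Aˣ) * α))) (Complex.normSq (D.σ2 ((D.η ^ n : Aˣ) * α))))
      (Complex.Gamma s ^ 2 * (D.N α : ℂ) ^ (-s)) := by
  obtain ⟨hA, hB⟩ := D.pos hα
  have hn : Complex.normSq e1 * Complex.normSq e2 = 1 := by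
    rw [← Complex.normSq_mul, hmul, Complex.normSq_one]
  have h1 : 1 < Complex.normSq e1 := by
    rw [Complex.normSq_eq_norm_sq]
    nlinarith
  have h3 : 0 < Complex.normSq e2 := by nlinarith [Complex.normSq_nonneg e2]
  have h2 := ws_sum hs (T1 := T0 * Complex.normSq e2 ^ 2) (by positivity) hA hB h1
  have e0 : T0 * Complex.normSq e2 ^ 2 * Complex.normSq e1 ^ 2 = T0 := by
    have : Complex.normSq e2 ^ 2 * Complex.normSq e1 ^ 2 = 1 := by
      rw [← mul_pow, mul_comm, hn, one_pow]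
    linear_combination T0 * this
  rw [e0] at h2
  unfold FD.N
  rw [cpow_split hA hB, ← mul_assoc]
  refine h2.congr_fun fun n => ?_
  rw [D.ws_eta hmul]

theorem FD.finQ (D : FD A e1 e2) (hmul : e1 * e2 = 1) (he : 1 < ‖e1‖) (hne : e1 ≠ e2) :
    Finite D.Q := by
  by_contra hinf
  rw [not_finite_iff_infinite] at hinf
  have hcf : Cb 1 1 (fun _ _ : RR => (1 : ℂ)) := ⟨fun x y => by simp, fun x y z _ => rfl⟩
  have hn : Complex.normSq e1 * Complex.normSq e2 = 1 := by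
    rw [← Complex.normSq_mul, hmul, Complex.normSq_one]
  have h1 : 1 < Complex.normSq e1 := by
    rw [Complex.normSq_eq_norm_sq]
    nlinarith
  have h3 : 0 < Complex.normSq e2 := by nlinarith [Complex.normSq_nonneg e2]
  have h4 : Complex.normSq e2 < 1 := by nlinarith
  obtain ⟨-, hs⟩ := D.sum_tot he (s := 2) (T1 := 1 * Complex.normSq e2 ^ 2) (T0 := 1) hcf hne
    (by positivity) (by nlinarith) (by norm_num)
  have htop : (⊤ : Ideal A) ≠ ⊥ := top_ne_bot
  have hinj : Function.Injective (fun x : D.Q × ℤ => (((⟨⊤, htop⟩ : {I : Ideal A // I ≠ ⊥}), x.1), x.2)) := by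
    rintro ⟨a, b⟩ ⟨c, d⟩ h
    simp only [Prod.mk.injEq, true_and] at h
    exact Prod.ext h.1 h.2
  have hs2 := hs.comp_injective hinj
  have hs3 := hs2.prod
  have hs4 : Summable (fun _ : D.Q => (1 : ℝ)) := by
    refine Summable.of_nonneg_of_le (fun _ => zero_le_one) (fun q => ?_) hs3
    have hg : (q.out : A) * gen (⊤ : Ideal A) ≠ 0 := mul_ne_zero q.out.ne_zero (gen_ne htop)
    have hsum := D.sum_n hmul he (s := 2) (by norm_num) (T0 := 1) one_pos hg
    obtain ⟨u, hu⟩ : IsUnit (gen (⊤ : Ideal A)) := by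
      have := gen_span (⊤ : Ideal A)
      rwa [Ideal.span_singleton_eq_top] at this
    have hN : D.N ((q.out : A) * gen (⊤ : Ideal A)) = 1 := by
      rw [D.N_unit, ← hu]
      have := D.N_unit u 1
      rw [mul_one] at this
      rw [this]
      unfold FD.N
      simp
    rw [hN] at hsum
    have h5 : ∀ n : ℤ, ‖D.tm (fun _ _ => 1) 2 (1 * Complex.normSq e2 ^ 2) 1
        (D.tot he ((⟨⊤, htop⟩, q), n) : A)‖ = ‖ws 2 (1 * Complex.normSq e2 ^ 2) 1
      (Complex.normSq (D.σ1 ((D.η ^ n : Aˣ) * ((q.out : A) * gen (⊤ : Ideal A)))))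
      (Complex.normSq (D.σ2 ((D.η ^ n : Aˣ) * ((q.out : A) * gen (⊤ : Ideal A)))))‖ := by
      intro n
      have e : (D.tot he ((⟨⊤, htop⟩, q), n) : A) =
          (D.η ^ n : Aˣ) * ((q.out : A) * gen (⊤ : Ideal A)) := by
        rw [D.tot_val]
        push_cast
        ring
      rw [e]
      unfold FD.tm FD.G
      rw [norm_mul, one_mul, RCLike.norm_conj, norm_mul]
      have e2' : (D.η ^ n : Aˣ) * ((q.out : A) * gen (⊤ : Ideal A)) = ((D.η ^ n * (q.out * u) : Aˣ) : A) := by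
        push_cast
        rw [hu]
      rw [e2', mul_comm ‖D.σ2 _‖, D.un, one_mul]
    have h6 : ∑' n : ℤ, ‖D.tm (fun _ _ => 1) 2 (1 * Complex.normSq e2 ^ 2) 1
        (D.tot he ((⟨⊤, htop⟩, q), n) : A)‖ = ∑' n : ℤ, ‖ws 2 (1 * Complex.normSq e2 ^ 2) 1
      (Complex.normSq (D.σ1 ((D.η ^ n : Aˣ) * ((q.out : A) * gen (⊤ : Ideal A)))))
      (Complex.normSq (D.σ2 ((D.η ^ n : Aˣ) * ((q.out : A) * gen (⊤ : Ideal A)))))‖ := tsum_congr h5
    simp only [Function.comp_apply]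
    rw [h6]
    have h7 : Summable (fun n : ℤ => ‖ws 2 (1 * Complex.normSq e2 ^ 2) 1
      (Complex.normSq (D.σ1 ((D.η ^ n : Aˣ) * ((q.out : A) * gen (⊤ : Ideal A)))))
      (Complex.normSq (D.σ2 ((D.η ^ n : Aˣ) * ((q.out : A) * gen (⊤ : Ideal A)))))‖) := by
      have := (hs2.prod_factor q)
      refine this.congr fun n => ?_
      exact (h5 n)
    have h8 := norm_tsum_le_tsum_norm h7
    rw [hsum.tsum_eq] at h8
    refine le_trans (le_of_eq ?_) h8
    have hG : Complex.Gamma 2 = 1 := by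
      have := Complex.Gamma_nat_eq_factorial 1
      rw [Nat.factorial_one] at this
      rw [show (2 : ℂ) = ((1 : ℕ) : ℂ) + 1 by norm_num]
      exact_mod_cast this
    rw [hG]
    simp
  rw [summable_const_iff] at hs4
  norm_num at hs4

theorem FD.unfold (D : FD A e1 e2) (hmul : e1 * e2 = 1) (he : 1 < ‖e1‖) (hne : e1 ≠ e2)
    {M : ℕ} {K : ℝ} {cf : RR → RR → ℂ} (hcf : Cb M K cf)
    (hinv : ∀ (u : Aˣ) (α : A), D.G cf (u * α) = D.G cf α) {T0 : ℝ} (hT0 : 0 < T0)
    {s : ℂ} (hs : 3 / 2 < s.re) :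
    HasSum (fun I : {I : Ideal A // I ≠ ⊥} => (Nat.card D.Q : ℂ) * (Complex.Gamma s ^ 2 *
      (D.G cf (gen I.1) * (D.N (gen I.1) : ℂ) ^ (-s))))
      (II cf e1 e2 (T0 * Complex.normSq e2 ^ 2) T0 s) := by
  have := D.finQ hmul he hne
  have hfin : Fintype D.Q := Fintype.ofFinite _
  have hn : Complex.normSq e1 * Complex.normSq e2 = 1 := by
    rw [← Complex.normSq_mul, hmul, Complex.normSq_one]
  have h1 : 1 < Complex.normSq e1 := by
    rw [Complex.normSq_eq_norm_sq]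
    nlinarith
  have h3 : 0 < Complex.normSq e2 := by nlinarith [Complex.normSq_nonneg e2]
  have h4 : Complex.normSq e2 < 1 := by nlinarith
  have h5 : T0 * Complex.normSq e2 ^ 2 ≤ T0 := by
    have : Complex.normSq e2 ^ 2 ≤ 1 := by nlinarith
    nlinarith
  obtain ⟨hsum, -⟩ := D.sum_tot he (s := s) (T1 := T0 * Complex.normSq e2 ^ 2) (T0 := T0) hcf hne
    (by positivity) h5 hs
  have hs0 : 0 < s.re := by linarith
  have key : ∀ x : {I : Ideal A // I ≠ ⊥} × D.Q, HasSum (fun n : ℤ =>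
      D.tm cf s (T0 * Complex.normSq e2 ^ 2) T0 (D.tot he (x, n) : A))
      (Complex.Gamma s ^ 2 * (D.G cf (gen x.1.1) * (D.N (gen x.1.1) : ℂ) ^ (-s))) := by
    rintro ⟨I, q⟩
    have hg : (q.out : A) * gen I.1 ≠ 0 := mul_ne_zero q.out.ne_zero (gen_ne I.2)
    have h5 := (D.sum_n hmul he hs0 hT0 hg).mul_left (D.G cf (gen I.1))
    rw [D.N_unit] at h5
    have e : Complex.Gamma s ^ 2 * (D.G cf (gen I.1) * (D.N (gen I.1) : ℂ) ^ (-s)) =
        D.G cf (gen I.1) * (Complex.Gamma s ^ 2 * (D.N (gen I.1) : ℂ) ^ (-s)) := by ring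
    simp only
    rw [e]
    refine h5.congr_fun fun n => ?_
    have e' : (D.tot he ((I, q), n) : A) = (D.η ^ n : Aˣ) * ((q.out : A) * gen I.1) := by
      rw [D.tot_val]
      push_cast
      ring
    rw [e']
    unfold FD.tm
    rw [hinv, hinv]
  have h6 := hsum.prod_fiberwise key
  have h7 := h6.prod_fiberwise (fun I => hasSum_fintype _)
  refine h7.congr_fun fun I => ?_
  simp only [Finset.sum_const, Finset.card_univ, nsmul_eq_mul, Nat.card_eq_fintype_card]

end Pool.Agent.Y688
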