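import Pool.Agent.Y688.G17

/-!
# The lattice of the curve
-/

set_option autoImplicit false

open Complex Filter Topology MeasureTheory Set
open scoped PeriodPair

namespace Pool.Agent.Y688

open Pool.Agent.W192.HK Pool.Agent.TH936.CM HF H667R3

/-- the lattice of `y² = 4x³ + 1` -/
structure HL (L : PeriodPair) (Ω : ℂ) : Prop extends IsLat L RR Ω where
  g2 : L.g₂ = 0
  g3 : L.g₃ = -1

variable {L : PeriodPair} {Ω : ℂ}

lemma w_ne : w ≠ 0 := QR.om_ne qr

lemma w3 : w * (w * w) = 1 := by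
  have := w_sq
  linear_combination (w - 1) * this

/-- `ω` in the ring -/
noncomputable def wR : RR := ⟨w, QR.om_mem qr⟩

lemma wR_coe : ((wR : RR) : ℂ) = w := rfl

lemma wR3 : wR * (wR * wR) = 1 := Subtype.ext w3

lemma wR_sq : wR * wR = -1 - wR := Subtype.ext (by
  push_cast
  rw [wR_coe]
  exact w_sq)

/-- multiplication by `ω` -/
noncomputable def mulw (hL : IsLat L RR Ω) : L.lattice ≃ L.lattice :=
  Equiv.ofBijective (fun l => ⟨w * l, hL.mul wR _ l.2⟩) ⟨fun a b h => by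
    have h1 : w * (a : ℂ) = w * b := congrArg Subtype.val h
    exact Subtype.ext (mul_left_cancel₀ (QR.om_ne qr) h1), fun l => by
    refine ⟨⟨(w * w) * l, ?_⟩, Subtype.ext ?_⟩
    · have h3 := hL.mul wR _ (hL.mul wR _ l.2)
      have e : (w * w) * (l : ℂ) = w * (w * l) := by ring
      rw [e]
      exact h3
    · show w * ((w * w) * (l : ℂ)) = l
      linear_combination (l : ℂ) * w3⟩

lemma mulw_coe (hL : IsLat L RR Ω) (l : L.lattice) : ((mulw hL l : L.lattice) : ℂ) = w * l := rfl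

lemma inv_w_sq : (w ^ 2)⁻¹ = w := by
  refine inv_eq_of_mul_eq_one_right ?_
  linear_combination w3

lemma w_cube : w ^ 3 = 1 := by linear_combination w3

lemma wp_w (hL : IsLat L RR Ω) (z : ℂ) : ℘[L] (w * z) = w * ℘[L] z := by
  simp only [PeriodPair.weierstrassP]
  rw [← (mulw hL).tsum_eq, ← tsum_mul_left]
  congr with l
  simp only [mulw_coe]
  rw [← mul_sub, mul_pow, mul_pow, one_div, one_div, mul_inv, mul_inv, inv_w_sq]
  ring

lemma wp'_w (hL : IsLat L RR Ω) (z : ℂ) : ℘'[L] (w * z) = ℘'[L] z := by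
  simp only [PeriodPair.derivWeierstrassP]
  rw [← (mulw hL).tsum_eq]
  congr with l
  simp only [mulw_coe]
  rw [← mul_sub, mul_pow, w_cube, one_mul]

lemma G_lat (hL : IsLat L RR Ω) (n : ℕ) : L.G n = (Ω ^ n)⁻¹ * ∑' r : RR, ((r : ℂ) ^ n)⁻¹ := by
  rw [PeriodPair.G, ← (latE hL).tsum_eq, ← tsum_mul_left]
  refine tsum_congr fun r => ?_
  rw [latE_coe, mul_pow, mul_inv]

lemma g2_zero (hL : IsLat L RR Ω) : L.g₂ = 0 := by
  have h : L.G 4 = (w ^ 4)⁻¹ * L.G 4 := by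
    conv_lhs => rw [PeriodPair.G, ← (mulw hL).tsum_eq]
    rw [PeriodPair.G, ← tsum_mul_left]
    congr with l
    simp only [mulw_coe]
    rw [mul_pow, mul_inv]
  have h2 : (w ^ 4)⁻¹ ≠ 1 := by
    intro h3
    have h4 : w ^ 4 = w := by linear_combination w * w_cube
    rw [h4] at h3
    have h5 : w = 1 := by
      rw [inv_eq_one] at h3
      exact h3
    have := congrArg Complex.re h5
    rw [w_re] at this
    norm_num at this
  have h3 : (1 - (w ^ 4)⁻¹) * L.G 4 = 0 := by linear_combination h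
  rw [PeriodPair.g₂, (mul_eq_zero.1 h3).resolve_left (sub_ne_zero.2 (Ne.symm h2)), mul_zero]

lemma half_notMem (hL : IsLat L RR Ω) : Ω * 1 / 2 ∉ L.lattice := by
  intro h
  obtain ⟨r, hr⟩ := (hL.mem _).1 h
  have h1 : (1 : ℂ) / 2 = r := by
    have h3 : Ω * (1 / 2) = Ω * r := by rw [← hr]; ring
    exact mul_left_cancel₀ hL.ne h3
  have hr0 : r ≠ 0 := by
    rintro rfl
    norm_num at h1
  have h2 := one_le_normSq hr0
  rw [← h1] at h2
  rw [Complex.normSq_eq_norm_sq] at h2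
  norm_num at h2

lemma half_w_notMem (hL : IsLat L RR Ω) : Ω * w / 2 ∉ L.lattice := by
  intro h
  have h1 := hL.mul (wR * wR) _ h
  apply half_notMem hL
  have e : ((wR * wR : RR) : ℂ) * (Ω * w / 2) = Ω * 1 / 2 := by
    push_cast
    rw [wR_coe]
    linear_combination (Ω / 2) * w3
  rw [← e]
  exact h1

lemma half_w2_notMem (hL : IsLat L RR Ω) : Ω * (w * w) / 2 ∉ L.lattice := by
  intro h
  have h1 := hL.mul wR _ h
  apply half_notMem hL
  have e : ((wR : RR) : ℂ) * (Ω * (w * w) / 2) = Ω * 1 / 2 := by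
    rw [wR_coe]
    linear_combination (Ω / 2) * w3
  rw [← e]
  exact h1

/-- `℘` at a half period -/
noncomputable def tau (L : PeriodPair) (Ω : ℂ) : ℂ := ℘[L] (Ω * 1 / 2)

lemma wp_half_w (hL : IsLat L RR Ω) : ℘[L] (Ω * w / 2) = w * tau L Ω := by
  have e : Ω * w / 2 = w * (Ω * 1 / 2) := by ring
  rw [e, wp_w hL]
  rfl

lemma wp_half_w2 (hL : IsLat L RR Ω) : ℘[L] (Ω * (w * w) / 2) = (w * w) * tau L Ω := by
  have e : Ω * (w * w) / 2 = w * (w * (Ω * 1 / 2)) := by ring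
  rw [e, wp_w hL, wp_w hL, mul_assoc]
  rfl

lemma tau_ne (hL : IsLat L RR Ω) : tau L Ω ≠ 0 := by
  intro h0
  have h1 : ℘[L] (Ω * w / 2) = ℘[L] (Ω * 1 / 2) := by
    rw [wp_half_w hL, h0, mul_zero]
    exact h0.symm
  rw [wp_eq_iff L (half_w_notMem hL) (half_notMem hL)] at h1
  have h2 : Ω * (w * w) / 2 ∈ L.lattice := by
    rcases h1 with h | h
    · have e : Ω * (w * w) / 2 = -(Ω * w / 2 + Ω * 1 / 2) := by
        have := w_sq
        linear_combination (Ω / 2) * this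
      rw [e]
      exact neg_mem h
    · have h3 := add_mem h (hL.mem_mul 1)
      have e : Ω * (w * w) / 2 = -(Ω * w / 2 - Ω * 1 / 2 + Ω * ((1 : RR) : ℂ)) := by
        have := w_sq
        push_cast
        linear_combination (Ω / 2) * this
      rw [e]
      exact neg_mem h3
  exact half_w2_notMem hL h2

lemma g3_ne (hL : IsLat L RR Ω) : L.g₃ ≠ 0 := by
  intro h0
  have h1 := L.derivWeierstrassP_sq _ (half_notMem hL)
  have h2 := wp'_half_eq_zero L (hL.mem_mul 1)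
  push_cast at h2
  rw [h2, g2_zero hL, h0] at h1
  have h3 : ℘[L] (Ω * 1 / 2) ^ 3 = 0 := by linear_combination (-1 / 4) * h1
  exact tau_ne hL (pow_eq_zero_iff (by norm_num) |>.mp h3)

theorem exists_HL : ∃ (L : PeriodPair) (Ω : ℂ), HL L Ω := by
  have h1 := mkL_isLat qr (one_ne_zero (α := ℂ))
  have hg : (∑' r : RR, ((r : ℂ) ^ 6)⁻¹) ≠ 0 := by
    intro h0
    have h2 := G_lat h1 6
    rw [h0, mul_zero] at h2
    apply g3_ne h1
    rw [PeriodPair.g₃, h2, mul_zero]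
  obtain ⟨Ω, hΩ⟩ := IsAlgClosed.exists_pow_nat_eq (-(140 * ∑' r : RR, ((r : ℂ) ^ 6)⁻¹))
      (n := 6) (by norm_num)
  have hne : -(140 * ∑' r : RR, ((r : ℂ) ^ 6)⁻¹) ≠ 0 := by
    rw [neg_ne_zero]
    exact mul_ne_zero (by norm_num) hg
  have hΩ0 : Ω ≠ 0 := by
    rintro rfl
    rw [zero_pow (by norm_num)] at hΩ
    exact hne hΩ.symm
  have h3 := mkL_isLat qr hΩ0
  refine ⟨mkL w Ω qr.im hΩ0, Ω, h3, g2_zero h3, ?_⟩
  rw [PeriodPair.g₃, G_lat h3, hΩ, inv_neg, mul_inv]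
  have e : (140 : ℂ) * (-(140⁻¹ * (∑' r : RR, ((r : ℂ) ^ 6)⁻¹)⁻¹) * ∑' r : RR, ((r : ℂ) ^ 6)⁻¹) =
      -((∑' r : RR, ((r : ℂ) ^ 6)⁻¹)⁻¹ * ∑' r : RR, ((r : ℂ) ^ 6)⁻¹) := by ring
  rw [e, inv_mul_cancel₀ hg]

/-! ### the curve equation -/

lemma HL.curve (h : HL L Ω) {z : ℂ} (hz : z ∉ L.lattice) : ℘'[L] z ^ 2 = 4 * ℘[L] z ^ 3 + 1 := by
  rw [L.derivWeierstrassP_sq z hz, h.g2, h.g3]
  ring

lemma HL.tau3 (h : HL L Ω) : 4 * tau L Ω ^ 3 = -1 := by
  have h1 := h.curve (half_notMem h.toIsLat)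
  have h2 := wp'_half_eq_zero L (h.mem_mul 1)
  push_cast at h2
  rw [h2] at h1
  unfold tau
  linear_combination -h1

lemma HL.dup (h : HL L Ω) {z : ℂ} (hz : 2 * z ∉ L.lattice) :
    ℘[L] (2 * z) - ℘[L] z = -3 * (℘[L] z * (℘[L] z ^ 3 + 1) / ℘'[L] z ^ 2) := by
  have h0 := two_mul_notMem_of L hz
  have h1 := wp_two L hz
  have h2 := wp'_ne_zero L hz
  have h3 := h.curve h0
  rw [h.g2] at h1
  rw [h1]
  field_simp
  rw [h3]
  ring

end Pool.Agent.Y688
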