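import Pool.Agent.Y688.G18

/-!
# Residue classes modulo `2M`
-/

set_option autoImplicit false

open Complex Filter Topology MeasureTheory Set
open scoped PeriodPair

namespace Pool.Agent.Y688

open Pool.Agent.W192.HK Pool.Agent.TH936.CM HF H667R3

lemma mk_eq (n : ℕ) (x y : RR) : (Ideal.Quotient.mk (sp (n : RR)) x = Ideal.Quotient.mk (sp (n : RR)) y)
    ↔ ∃ r : RR, x - y = n * r := by
  rw [Ideal.Quotient.mk_eq_mk_iff_sub_mem, Ideal.mem_span_singleton']
  constructor
  · rintro ⟨r, hr⟩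
    exact ⟨r, by rw [← hr]; ring⟩
  · rintro ⟨r, hr⟩
    exact ⟨r, by rw [hr]; ring⟩

lemma out_eq (n : ℕ) (x : RR) : ∃ r : RR, (Ideal.Quotient.mk (sp (n : RR)) x).out = x + n * r := by
  have h := Ideal.Quotient.mk_out (Ideal.Quotient.mk (sp (n : RR)) x)
  rw [mk_eq] at h
  obtain ⟨r, hr⟩ := h
  exact ⟨r, by rw [← hr]; ring⟩

lemma Per.out {n : ℕ} {f : RR → ℂ} (hf : Per n f) (x : RR) :
    f (Ideal.Quotient.mk (sp (n : RR)) x).out = f x := by
  refine hf _ _ ?_
  rw [← Ideal.Quotient.mk_eq_mk_iff_sub_mem, Ideal.Quotient.mk_out]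

lemma Per.add {n : ℕ} {f : RR → ℂ} (hf : Per n f) (x r : RR) : f (x + n * r) = f x := by
  refine hf _ _ ?_
  rw [add_sub_cancel_left, Ideal.mem_span_singleton']
  exact ⟨r, by ring⟩

lemma per_of {n : ℕ} {f : RR → ℂ} (h : ∀ x r : RR, f (x + n * r) = f x) : Per n f := by
  intro y y' hyy
  rw [Ideal.mem_span_singleton'] at hyy
  obtain ⟨r, hr⟩ := hyy
  have : y = y' + n * r := by linear_combination -hr
  rw [this, h]

/-- the Chinese remainder map -/
noncomputable def crtE (M : ℕ) [NeZero M] (hM : Odd M) : RM M × RM 2 ≃ RM (2 * M) :=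
  Equiv.ofBijective (fun p => Ideal.Quotient.mk (sp ((2 * M : ℕ) : RR))
    (2 * p.1.out + M * p.2.out)) (by
    obtain ⟨k, hk⟩ := hM
    have hkR : (M : RR) = 2 * k + 1 := by rw [hk]; push_cast; ring
    constructor
    · rintro ⟨a, s⟩ ⟨a', s'⟩ h
      simp only at h
      rw [mk_eq] at h
      obtain ⟨r, hr⟩ := h
      push_cast at hr
      have h1 : s = s' := by
        rw [← Ideal.Quotient.mk_out s, ← Ideal.Quotient.mk_out s', mk_eq]
        refine ⟨M * r - (a.out - a'.out) - k * (s.out - s'.out), ?_⟩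
        push_cast
        linear_combination hr - (s.out - s'.out) * hkR
      subst h1
      have h2 : a = a' := by
        rw [← Ideal.Quotient.mk_out a, ← Ideal.Quotient.mk_out a', mk_eq]
        refine ⟨(k + 1) * (2 * r) - (a.out - a'.out), ?_⟩
        linear_combination (k + 1 : RR) * hr + (a.out - a'.out) * hkR
      rw [h2]
    · intro q
      obtain ⟨z, rfl⟩ := Ideal.Quotient.mk_surjective q
      obtain ⟨u, hu⟩ := out_eq M ((k + 1) * z)
      obtain ⟨v, hv⟩ := out_eq 2 z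
      refine ⟨(Ideal.Quotient.mk _ ((k + 1) * z), Ideal.Quotient.mk _ z), ?_⟩
      simp only
      rw [hu, hv, mk_eq]
      refine ⟨z + u + v, ?_⟩
      push_cast
      linear_combination -z * hkR)

lemma crt (M : ℕ) [NeZero M] (hM : Odd M) {f : RR → ℂ} (hf : Per (2 * M) f) :
    ∑ q : RM (2 * M), f q.out = ∑ a : RM M, ∑ s : RM 2, f (2 * a.out + M * s.out) := by
  rw [← Finset.sum_product', Finset.univ_product_univ]
  refine (Fintype.sum_equiv (crtE M hM) _ _ fun p => ?_).symm
  exact (hf.out _).symm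

lemma sp2_norm {z : RR} (h : ∃ r : RR, z = 2 * r) (h0 : z ≠ 0) : 4 ≤ Complex.normSq (z : ℂ) := by
  obtain ⟨r, rfl⟩ := h
  have hr : r ≠ 0 := by
    rintro rfl
    exact h0 (mul_zero _)
  have := one_le_normSq hr
  have h2 : ((2 * r : RR) : ℂ) = 2 * (r : ℂ) := rfl
  rw [h2, Complex.normSq_mul]
  have h3 : Complex.normSq 2 = 4 := by
    rw [Complex.normSq_ofNat]
    norm_num
  rw [h3]
  linarith

lemma ne2 {x y : RR} (h0 : x ≠ y) (h : Complex.normSq ((x : ℂ) - y) < 4) :
    Ideal.Quotient.mk (sp ((2 : ℕ) : RR)) x ≠ Ideal.Quotient.mk (sp ((2 : ℕ) : RR)) y := by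
  intro h1
  rw [mk_eq] at h1
  obtain ⟨r, hr⟩ := h1
  have h2 := sp2_norm (z := x - y) ⟨r, by rw [hr]; push_cast; ring⟩ (sub_ne_zero.2 h0)
  push_cast at h2
  linarith

lemma nsq (a b : ℝ) : Complex.normSq ((a : ℂ) + b * w) = a ^ 2 - a * b + b ^ 2 := normSq_lin a b

lemma sum2 {f : RR → ℂ} (hf : Per 2 f) :
    ∑ s : RM 2, f s.out = f 0 + f 1 + f wR + f (wR * wR) := by
  classical
  have h0 : ((0 : RR) : ℂ) = 0 := rfl
  have h1 : ((1 : RR) : ℂ) = 1 := rfl
  have hw : ((wR : RR) : ℂ) = w := rfl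
  have hw2 : ((wR * wR : RR) : ℂ) = -1 - w := by
    push_cast
    rw [hw]
    exact w_sq
  have k01 : Complex.normSq (((0 : RR) : ℂ) - (1 : RR)) = 1 := by
    rw [h0, h1]
    simp
  have k0w : Complex.normSq (((0 : RR) : ℂ) - wR) = 1 := by
    have := nsq 0 (-1)
    rw [h0, hw]
    push_cast at this
    rw [show (0 : ℂ) - w = 0 + -1 * w by ring, this]
    norm_num
  have k0v : Complex.normSq (((0 : RR) : ℂ) - (wR * wR : RR)) = 1 := by
    have := nsq 1 1
    rw [h0, hw2]
    push_cast at this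
    rw [show (0 : ℂ) - (-1 - w) = 1 + 1 * w by ring, this]
    norm_num
  have k1w : Complex.normSq (((1 : RR) : ℂ) - wR) = 3 := by
    have := nsq 1 (-1)
    rw [h1, hw]
    push_cast at this
    rw [show (1 : ℂ) - w = 1 + -1 * w by ring, this]
    norm_num
  have k1v : Complex.normSq (((1 : RR) : ℂ) - (wR * wR : RR)) = 3 := by
    have := nsq 2 1
    rw [h1, hw2]
    push_cast at this
    rw [show (1 : ℂ) - (-1 - w) = 2 + 1 * w by ring, this]
    norm_num
  have kwv : Complex.normSq (((wR : RR) : ℂ) - (wR * wR : RR)) = 3 := by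
    have := nsq 1 2
    rw [hw, hw2]
    push_cast at this
    rw [show w - (-1 - w) = 1 + 2 * w by ring, this]
    norm_num
  have hne : ∀ {x y : RR}, Complex.normSq ((x : ℂ) - y) ≠ 0 → x ≠ y := by
    intro x y h hxy
    rw [hxy, sub_self, map_zero] at h
    exact h rfl
  have n01 := ne2 (hne (by rw [k01]; norm_num)) (by rw [k01]; norm_num : _ < (4 : ℝ))
  have n0w := ne2 (hne (by rw [k0w]; norm_num)) (by rw [k0w]; norm_num : _ < (4 : ℝ))
  have n0v := ne2 (hne (by rw [k0v]; norm_num)) (by rw [k0v]; norm_num : _ < (4 : ℝ))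
  have n1w := ne2 (hne (by rw [k1w]; norm_num)) (by rw [k1w]; norm_num : _ < (4 : ℝ))
  have n1v := ne2 (hne (by rw [k1v]; norm_num)) (by rw [k1v]; norm_num : _ < (4 : ℝ))
  have nwv := ne2 (hne (by rw [kwv]; norm_num)) (by rw [kwv]; norm_num : _ < (4 : ℝ))
  set π := Ideal.Quotient.mk (sp ((2 : ℕ) : RR)) with hπ
  have huniv : (Finset.univ : Finset (RM 2)) = {π 0, π 1, π wR, π (wR * wR)} := by
    ext q
    simp only [Finset.mem_univ, true_iff, Finset.mem_insert, Finset.mem_singleton]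
    obtain ⟨z, rfl⟩ := Ideal.Quotient.mk_surjective q
    obtain ⟨a, b, hab⟩ := (mem_RR z).1 z.2
    have hz : z = (a : RR) + (b : RR) * wR := Subtype.ext (by
      push_cast
      rw [hw]
      exact hab)
    rcases Int.even_or_odd' a with ⟨m, hm | hm⟩ <;> rcases Int.even_or_odd' b with ⟨n, hn | hn⟩
    · left
      rw [hπ, mk_eq]
      refine ⟨m + n * wR, ?_⟩
      rw [hz, hm, hn]
      push_cast
      ring
    · right; right; left
      rw [hπ, mk_eq]
      refine ⟨m + n * wR, ?_⟩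
      rw [hz, hm, hn]
      push_cast
      ring
    · right; left
      rw [hπ, mk_eq]
      refine ⟨m + n * wR, ?_⟩
      rw [hz, hm, hn]
      push_cast
      ring
    · right; right; right
      rw [hπ, mk_eq]
      refine ⟨m + 1 + (n + 1) * wR, ?_⟩
      rw [hz, hm, hn, wR_sq]
      push_cast
      ring
  rw [huniv, Finset.sum_insert, Finset.sum_insert, Finset.sum_insert, Finset.sum_singleton,
    hf.out, hf.out, hf.out, hf.out]
  · ring
  · simpa using nwv
  · simp only [Finset.mem_insert, Finset.mem_singleton, not_or]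
    exact ⟨n1w, n1v⟩
  · simp only [Finset.mem_insert, Finset.mem_singleton, not_or]
    exact ⟨n01, n0w, n0v⟩

end Pool.Agent.Y688
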