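import Pool.Agent.Y688.G1
import Pool.Agent.TH936.CM.Lat
import Pool.Agent.W287.HK.Basic

/-!
# Gaussian sums of periodic functions of mean zero
-/

set_option autoImplicit false

open Complex Filter Topology

namespace Pool.Agent.Y688

open Pool.Agent.W192.HK Pool.Agent.TH936.CM

/-- Eisenstein integers modulo `M` -/
abbrev RM (M : ℕ) := RR ⧸ sp (M : RR)

lemma sp_ne_bot (M : ℕ) [NeZero M] : sp (M : RR) ≠ ⊥ := by
  rw [Ne, Ideal.span_singleton_eq_bot]
  intro h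
  have h1 := congrArg Subtype.val h
  push_cast at h1
  exact NeZero.ne M (by exact_mod_cast h1)

instance (M : ℕ) [NeZero M] : Finite (RM M) :=
  (Pool.Agent.W287.HK.h_basic RR w qr).1 _ (sp_ne_bot M)

noncomputable instance (M : ℕ) [NeZero M] : Fintype (RM M) := Fintype.ofFinite _

/-- periodic functions -/
def Per (M : ℕ) (b : RR → ℂ) : Prop := ∀ y y' : RR, y - y' ∈ sp (M : RR) → b y = b y'

lemma gt_mul (j : ℕ) (δ : ℝ) (M : ℕ) (z : ℂ) :
    gt j δ (M * z) = (M : ℂ) ^ j * gt j (δ * M ^ 2) z := by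
  unfold gt
  rw [map_mul, map_natCast, mul_pow, Complex.normSq_mul, Complex.normSq_natCast, mul_assoc]
  congr 4
  ring

lemma summ_gt (j : ℕ) {δ : ℝ} (hδ : 0 < δ) (u : ℂ) :
    Summable (fun y : RR => gt j δ ((y : ℂ) - u)) := by
  have := (qp j (-u) hδ).1
  exact this.congr fun y => by rw [sub_eq_add_neg]

lemma summ_bgt {b : RR → ℂ} {K : ℝ} (hb : ∀ y, ‖b y‖ ≤ K) (j : ℕ) {δ : ℝ} (hδ : 0 < δ) (u : ℂ) :
    Summable (fun y : RR => b y * gt j δ ((y : ℂ) - u)) := by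
  refine Summable.of_norm_bounded ((summ_gt j hδ u).norm.mul_left K) fun y => ?_
  rw [norm_mul]
  exact mul_le_mul_of_nonneg_right (hb y) (norm_nonneg _)

theorem per_sum (M : ℕ) [NeZero M] {b : RR → ℂ} (hp : Per M b) {K : ℝ} (hb : ∀ y, ‖b y‖ ≤ K)
    (j : ℕ) {δ : ℝ} (hδ : 0 < δ) (u : ℂ) :
    ∑' y : RR, b y * gt j δ ((y : ℂ) - u) = ∑ q : RM M, b q.out * ((M : ℂ) ^ j *
      gsum j (δ * M ^ 2) (((q.out : RR) - u) / M)) := by
  have hM : 0 < M := Nat.pos_of_ne_zero (NeZero.ne M)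
  have hMC : (M : ℂ) ≠ 0 := by exact_mod_cast hM.ne'
  rw [tsum_prt M hM _ (summ_bgt hb j hδ u)]
  refine Finset.sum_congr rfl fun q _ => ?_
  unfold gsum
  rw [← tsum_mul_left, ← tsum_mul_left]
  refine tsum_congr fun β => ?_
  have e1 : b (q.out + M * β) = b q.out := by
    refine hp _ _ ?_
    rw [add_sub_cancel_left, Ideal.mem_span_singleton']
    exact ⟨β, by ring⟩
  have e2 : ((q.out + M * β : RR) : ℂ) - u = M * ((β : ℂ) + ((q.out : RR) - u) / M) := by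
    push_cast
    field_simp
    ring
  rw [e1, e2, gt_mul]

theorem per_bound (M : ℕ) [NeZero M] (j : ℕ) {δm : ℝ} (hδm : 0 < δm) (K : ℝ) (hK : 0 ≤ K) :
    ∃ C c : ℝ, 0 < C ∧ 0 < c ∧ ∀ b : RR → ℂ, Per M b → (∀ y, ‖b y‖ ≤ K) →
      (∑ q : RM M, b q.out = 0) → ∀ δ : ℝ, 0 < δ → δ ≤ δm → ∀ u : ℂ,
      ‖∑' y : RR, b y * gt j δ ((y : ℂ) - u)‖ ≤ C * Real.exp (-(c / δ)) := by
  have hM : 0 < M := Nat.pos_of_ne_zero (NeZero.ne M)
  have hMR : (0 : ℝ) < M := by exact_mod_cast hM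
  obtain ⟨C, c, hC, hc, h⟩ := gsum_bound j (δm := δm * M ^ 2) (by positivity)
  refine ⟨Fintype.card (RM M) * ((K + 1) * (M ^ j * C)), c / M ^ 2, ?_, by positivity, ?_⟩
  · have : 0 < Fintype.card (RM M) := Fintype.card_pos
    positivity
  intro b hp hb h0 δ hδ hδm' u
  rw [per_sum M hp hb j hδ u]
  set mn : ℂ := if j = 0 then ((Real.pi / (w.im * (δ * M ^ 2)) : ℝ) : ℂ) else 0 with hmn
  have e1 : ∑ q : RM M, b q.out * ((M : ℂ) ^ j * gsum j (δ * M ^ 2) (((q.out : RR) - u) / M)) =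
      ∑ q : RM M, b q.out * ((M : ℂ) ^ j * (gsum j (δ * M ^ 2) (((q.out : RR) - u) / M) - mn)) := by
    have e2 : ∑ q : RM M, b q.out * ((M : ℂ) ^ j * mn) = 0 := by
      rw [← Finset.sum_mul, h0, zero_mul]
    rw [← sub_zero (∑ q : RM M, b q.out * ((M : ℂ) ^ j *
      gsum j (δ * M ^ 2) (((q.out : RR) - u) / M))), ← e2, ← Finset.sum_sub_distrib]
    refine Finset.sum_congr rfl fun q _ => ?_
    ring
  rw [e1]
  refine (norm_sum_le _ _).trans ?_
  have h1 : ∀ q : RM M, ‖b q.out * ((M : ℂ) ^ j * (gsum j (δ * M ^ 2)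
      (((q.out : RR) - u) / M) - mn))‖ ≤ (K + 1) * (M ^ j * C) * Real.exp (-(c / M ^ 2 / δ)) := by
    intro q
    rw [norm_mul, norm_mul, norm_pow, Complex.norm_natCast]
    have h2 := h (δ * M ^ 2) (by positivity) (by gcongr) (((q.out : RR) - u) / M)
    have h3 : c / (δ * M ^ 2) = c / M ^ 2 / δ := by field_simp
    rw [h3] at h2
    have h4 := hb q.out
    calc ‖b q.out‖ * (M ^ j * ‖gsum j (δ * M ^ 2) (((q.out : RR) - u) / M) - mn‖)
        ≤ (K + 1) * (M ^ j * (C * Real.exp (-(c / M ^ 2 / δ)))) := by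
          gcongr
          linarith
      _ = _ := by ring
  refine (Finset.sum_le_sum fun q _ => h1 q).trans ?_
  rw [Finset.sum_const, Finset.card_univ, nsmul_eq_mul]
  exact le_of_eq (by ring)

end Pool.Agent.Y688
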