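import Pool.Agent.Y688.G19

/-!
# The value of the product series
-/

set_option autoImplicit false

open Complex Filter Topology MeasureTheory Set
open scoped PeriodPair

namespace Pool.Agent.Y688

open Pool.Agent.W192.HK Pool.Agent.TH936.CM HF H667R3

variable {L : PeriodPair} {Ω : ℂ}

lemma pterm_eq (cf : RR → RR → ℂ) (δ : ℝ) (x y : RR) :
    pterm cf δ x y = cf x y * (fd δ x * fd δ y) := by
  unfold pterm fd
  rw [mul_add, neg_add, Real.exp_add]
  push_cast
  ring

lemma summ_fd1 {δ : ℝ} (hδ : 0 < δ) : Summable (fun x : RR => ‖fd δ (x : ℂ)‖) := by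
  have h := (summ_fd (mkL_isLat qr one_ne_zero) 0 hδ).norm
  refine h.congr fun β => ?_
  rw [zero_add, one_mul]

/-- the double sum as a finite sum -/
lemma psum (hL : IsLat L RR Ω) (n : ℕ) [NeZero n] {K : ℝ} {cf : RR → RR → ℂ} (hcf : Cb n K cf)
    (hx : ∀ y, Per n (fun x => cf x y)) {δ : ℝ} (hδ : 0 < δ) :
    ∑' p : RR × RR, pterm cf δ p.1 p.2 = (Ω / n) ^ 2 * ∑ q : RM n, ∑ q' : RM n,
      cf q.out q'.out * (EE RR Ω (δ * n ^ 2 / Complex.normSq Ω) (Ω * q.out / n) *
        EE RR Ω (δ * n ^ 2 / Complex.normSq Ω) (Ω * q'.out / n)) := by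
  have hn : 0 < n := Nat.pos_of_ne_zero (NeZero.ne n)
  have hK : 0 ≤ K := (norm_nonneg _).trans (hcf.bd 0 0)
  have hs1 := summ_fd1 hδ
  have hprod : Summable (fun p : RR × RR => ‖fd δ (p.1 : ℂ)‖ * ‖fd δ (p.2 : ℂ)‖) :=
    hs1.mul_of_nonneg hs1 (fun _ => norm_nonneg _) (fun _ => norm_nonneg _)
  have hsum : Summable (fun p : RR × RR => pterm cf δ p.1 p.2) := by
    refine Summable.of_norm_bounded (hprod.mul_left K) fun p => ?_
    rw [pterm_eq, norm_mul, norm_mul]
    gcongr
    exact hcf.bd _ _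
  have hcx : ∀ y : RR, Summable (fun x : RR => cf x y * fd δ (x : ℂ)) := by
    intro y
    refine Summable.of_norm_bounded (hs1.mul_left K) fun x => ?_
    rw [norm_mul]
    gcongr
    exact hcf.bd _ _
  have hcy : ∀ x : RR, Summable (fun y : RR => cf x y * fd δ (y : ℂ)) := by
    intro x
    refine Summable.of_norm_bounded (hs1.mul_left K) fun y => ?_
    rw [norm_mul]
    gcongr
    exact hcf.bd _ _
  have h1 : ∑' p : RR × RR, pterm cf δ p.1 p.2 = ∑' y : RR, ∑' x : RR, pterm cf δ x y := by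
    rw [← (Equiv.prodComm RR RR).tsum_eq (fun p : RR × RR => pterm cf δ p.1 p.2)]
    have h2 : Summable (fun p : RR × RR => pterm cf δ p.2 p.1) :=
      ((Equiv.prodComm RR RR).summable_iff (f := fun p : RR × RR => pterm cf δ p.1 p.2)).2 hsum
    exact h2.tsum_prod
  rw [h1]
  set E : RR → ℂ := fun q => EE RR Ω (δ * n ^ 2 / Complex.normSq Ω) (Ω * q / n) with hE
  have hse : ∀ c : RR → ℂ, Per n c → Summable (fun α : RR => c α * fd δ (α : ℂ)) →
      ∑' α : RR, c α * fd δ (α : ℂ) = (Ω / n) * ∑ q : RM n, c q.out * E q.out :=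
    fun c h2 h3 => sum_EE hL n hn c h2 h3
  clear_value E
  have h3 : ∀ y : RR, ∑' x : RR, pterm cf δ x y = ∑ q : RM n, (Ω / n) *
      E q.out * (cf q.out y * fd δ (y : ℂ)) := by
    intro y
    have h4 : ∀ x : RR, pterm cf δ x y = (cf x y * fd δ (x : ℂ)) * fd δ (y : ℂ) := by
      intro x
      rw [pterm_eq]
      ring
    rw [tsum_congr h4, tsum_mul_right, hse (fun x => cf x y) (hx y) (hcx y), Finset.mul_sum,
      Finset.sum_mul]
    refine Finset.sum_congr rfl fun q _ => ?_
    ring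
  have h5 : ∑' y : RR, ∑' x : RR, pterm cf δ x y =
      ∑ q : RM n, ∑' y : RR, (Ω / n) * E q.out * (cf q.out y * fd δ (y : ℂ)) := by
    rw [tsum_congr h3]
    exact Summable.tsum_finsetSum (fun q _ => (hcy q.out).mul_left _)
  rw [h5, Finset.mul_sum]
  refine Finset.sum_congr rfl fun q _ => ?_
  rw [tsum_mul_left, hse (fun y => cf q.out y) (hcf.per q.out) (hcy q.out), Finset.mul_sum,
    Finset.mul_sum, Finset.mul_sum]
  refine Finset.sum_congr rfl fun q' _ => ?_
  have e1 : ∀ q : RM n, EE RR Ω (δ * n ^ 2 / Complex.normSq Ω) (Ω * q.out / n) = E q.out :=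
    fun q => by rw [hE]
  rw [e1, e1]
  ring

/-- congruence modulo `2` -/
noncomputable def ind (x y : RR) : ℂ := by
  classical
  exact if Ideal.Quotient.mk (sp ((2 : ℕ) : RR)) x = Ideal.Quotient.mk (sp ((2 : ℕ) : RR)) y
    then 1 else 0

lemma ind_congr {x y x' y' : RR} (h : (Ideal.Quotient.mk (sp ((2 : ℕ) : RR)) x =
    Ideal.Quotient.mk (sp ((2 : ℕ) : RR)) y) ↔ (Ideal.Quotient.mk (sp ((2 : ℕ) : RR)) x' =
    Ideal.Quotient.mk (sp ((2 : ℕ) : RR)) y')) : ind x y = ind x' y' := by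
  unfold ind
  by_cases h0 : Ideal.Quotient.mk (sp ((2 : ℕ) : RR)) x = Ideal.Quotient.mk (sp ((2 : ℕ) : RR)) y
  · rw [if_pos h0, if_pos (h.1 h0)]
  · rw [if_neg h0, if_neg (fun h1 => h0 (h.2 h1))]

lemma coe2 : ((2 : RR) : ℂ) = 2 := rfl

/-- `F = c (1 - 4 · 1_𝔩)` -/
noncomputable def sm (e : RR) (c : RR → RR → ℂ) (x y : RR) : ℂ := c x y * (1 - 4 * ind y (e * x))

lemma sm_shift {M : ℕ} (hM : Odd M) (e : RR) {c : RR → RR → ℂ} (hcy : ∀ x, Per M (c x))
    (hcx : ∀ y, Per M (fun x => c x y)) (a b s s' : RR) :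
    sm e c (2 * a + M * s) (2 * b + M * s') = c (2 * a) (2 * b) * (1 - 4 * ind s' (e * s)) := by
  unfold sm
  have h1 : c (2 * a + M * s) (2 * b + M * s') = c (2 * a) (2 * b) := by
    rw [(hcy _).add, (hcx (2 * b)).add]
  obtain ⟨k, hk⟩ := hM
  have hkR : (M : RR) = 2 * k + 1 := by rw [hk]; push_cast; ring
  have h2 : (Ideal.Quotient.mk (sp ((2 : ℕ) : RR)) (2 * b + M * s') =
      Ideal.Quotient.mk (sp ((2 : ℕ) : RR)) (e * (2 * a + M * s))) ↔
      (Ideal.Quotient.mk (sp ((2 : ℕ) : RR)) s' = Ideal.Quotient.mk (sp ((2 : ℕ) : RR)) (e * s)) := by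
    rw [mk_eq, mk_eq]
    constructor
    · rintro ⟨r, hr⟩
      refine ⟨r - (b - e * a) - k * (s' - e * s), ?_⟩
      push_cast at hr ⊢
      linear_combination hr - (s' - e * s) * hkR
    · rintro ⟨r, hr⟩
      refine ⟨(b - e * a) + M * r, ?_⟩
      push_cast at hr ⊢
      linear_combination (M : RR) * hr
  rw [h1, ind_congr h2]

lemma sm_per {M : ℕ} (e : RR) {c : RR → RR → ℂ} (hcy : ∀ x, Per M (c x))
    (hcx : ∀ y, Per M (fun x => c x y)) :
    (∀ x, Per (2 * M) (sm e c x)) ∧ (∀ y, Per (2 * M) (fun x => sm e c x y)) := by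
  constructor
  · intro x
    refine per_of fun y r => ?_
    unfold sm
    have h1 : c x (y + (2 * M : ℕ) * r) = c x y := by
      have : y + ((2 * M : ℕ) : RR) * r = y + M * (2 * r) := by push_cast; ring
      rw [this, (hcy x).add]
    have h2 : (Ideal.Quotient.mk (sp ((2 : ℕ) : RR)) (y + (2 * M : ℕ) * r)) =
        (Ideal.Quotient.mk (sp ((2 : ℕ) : RR)) y) := by
      rw [mk_eq]
      refine ⟨M * r, ?_⟩
      push_cast
      ring
    rw [h1, ind_congr (x := y + (2 * M : ℕ) * r) (y := e * x) (x' := y) (y' := e * x) (by rw [h2])]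
  · intro y
    refine per_of fun x r => ?_
    unfold sm
    have h1 : c (x + (2 * M : ℕ) * r) y = c x y := by
      have : x + ((2 * M : ℕ) : RR) * r = x + M * (2 * r) := by push_cast; ring
      rw [this]
      exact (hcx y).add _ _
    have h2 : (Ideal.Quotient.mk (sp ((2 : ℕ) : RR)) (e * (x + (2 * M : ℕ) * r))) =
        (Ideal.Quotient.mk (sp ((2 : ℕ) : RR)) (e * x)) := by
      rw [mk_eq]
      refine ⟨e * (M * r), ?_⟩
      push_cast
      ring
    rw [h1, ind_congr (x := y) (y := e * (x + (2 * M : ℕ) * r)) (x' := y) (y' := e * x) (by rw [h2])]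

/-- the double sum over the residue classes modulo `2` -/
lemma sum22 (e : RR) {X Y : RR → ℂ} (hX : Per 2 X) (hY : Per 2 Y) :
    ∑ s : RM 2, ∑ s' : RM 2, (1 - 4 * ind s'.out (e * s.out)) * (X s.out * Y s'.out) =
    (X 0 + X 1 + X wR + X (wR * wR)) * (Y 0 + Y 1 + Y wR + Y (wR * wR)) -
      4 * (X 0 * Y 0 + X 1 * Y e + X wR * Y (e * wR) + X (wR * wR) * Y (e * (wR * wR))) := by
  classical
  have h1 : ∀ s : RM 2, ∑ s' : RM 2, (1 - 4 * ind s'.out (e * s.out)) * (X s.out * Y s'.out) =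
      X s.out * (Y 0 + Y 1 + Y wR + Y (wR * wR)) - 4 * (X s.out * Y (e * s.out)) := by
    intro s
    have h2 : ∀ s' : RM 2, (1 - 4 * ind s'.out (e * s.out)) * (X s.out * Y s'.out) =
      X s.out * Y s'.out - 4 * (if s' = Ideal.Quotient.mk (sp ((2 : ℕ) : RR)) (e * s.out) then
        X s.out * Y (e * s.out) else 0) := by
      intro s'
      unfold ind
      rw [Ideal.Quotient.mk_out]
      split_ifs with h
      · rw [h, hY.out]
        ring
      · ring
    rw [Finset.sum_congr rfl fun s' _ => h2 s', Finset.sum_sub_distrib, ← Finset.mul_sum,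
      ← Finset.mul_sum, sum2 hY, Finset.sum_ite_eq' Finset.univ]
    simp
  rw [Finset.sum_congr rfl fun s _ => h1 s, Finset.sum_sub_distrib, ← Finset.sum_mul,
    ← Finset.mul_sum, sum2 hX]
  have hXY : Per 2 (fun z => X z * Y (e * z)) := by
    refine per_of fun z r => ?_
    have : e * (z + ((2 : ℕ) : RR) * r) = e * z + ((2 : ℕ) : RR) * (e * r) := by ring
    rw [hX.add, this, hY.add]
  have h3 := sum2 hXY
  rw [h3, mul_zero, mul_one]

/-- the difference of the Eisenstein series at `w + T` and `w` -/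
noncomputable def dE (Ω : ℂ) (M : ℕ) (δ : ℝ) (a s : RR) : ℂ :=
  EE RR Ω δ (Ω * a / M + Ω * s / 2) - EE RR Ω δ (Ω * a / M)

/-- the limit of the difference -/
noncomputable def lE (L : PeriodPair) (Ω : ℂ) (M : ℕ) (a s : RR) : ℂ :=
  2 * (℘[L] (Ω * a / M) ^ 2 + ℘[L] (Ω * a / M) * (s * tau L Ω) + (s * tau L Ω) ^ 2) /
    ℘'[L] (Ω * a / M)

lemma odd_mem (hL : IsLat L RR Ω) {M : ℕ} (hM : Odd M) {a r : RR}
    (h : 2 * (Ω * a / M) = Ω * r) : ∃ b : RR, a = M * b := by
  obtain ⟨k, hk⟩ := hM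
  have hM0 : (M : ℂ) ≠ 0 := by
    rw [hk]
    exact_mod_cast (by omega : 2 * k + 1 ≠ 0)
  have h1 : (2 : ℂ) * a = M * r := by
    have h2 : Ω * (2 * a) = Ω * (M * r) := by
      field_simp at h
      linear_combination h
    exact mul_left_cancel₀ hL.ne h2
  have h3 : (2 : RR) * a = M * r := Subtype.ext (by push_cast; exact h1)
  have hkR : (M : RR) = 2 * k + 1 := by rw [hk]; push_cast; ring
  refine ⟨(k + 1) * r - a, ?_⟩
  linear_combination (k + 1 : RR) * h3 + a * hkR

theorem dE_lim (h : HL L Ω) {M : ℕ} (hM : Odd M) (a : RR) {s : RR}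
    (hs : s = 1 ∨ s = wR ∨ s = wR * wR) :
    Tendsto (fun δ : ℝ => dE Ω M δ a s) (𝓝[>] 0) (𝓝 (lE L Ω M a s)) := by
  have hL := h.toIsLat
  have hM0 : (M : ℂ) ≠ 0 := by
    obtain ⟨k, hk⟩ := hM
    rw [hk]
    exact_mod_cast (by omega : 2 * k + 1 ≠ 0)
  have hT : Ω * s / 2 ∉ L.lattice := by
    rcases hs with rfl | rfl | rfl
    · exact half_notMem hL
    · exact half_w_notMem hL
    · have := half_w2_notMem hL
      push_cast
      exact this
  have hpT : ℘[L] (Ω * s / 2) = s * tau L Ω := by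
    rcases hs with rfl | rfl | rfl
    · push_cast
      rw [one_mul]
      rfl
    · exact wp_half_w hL
    · have := wp_half_w2 hL
      push_cast
      exact this
  have hs3 : (s : ℂ) ^ 3 = 1 := by
    have hw := w_cube
    rcases hs with rfl | rfl | rfl
    · push_cast
      norm_num
    · exact hw
    · push_cast
      rw [wR_coe]
      linear_combination (w ^ 3 + 1) * hw
  have h2T : 2 * (Ω * s / 2) ∈ L.lattice := by
    have := hL.mem_mul s
    have e : 2 * (Ω * s / 2) = Ω * (s : ℂ) := by ring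
    rw [e]
    exact this
  by_cases ha : ∃ b : RR, a = M * b
  · obtain ⟨b, rfl⟩ := ha
    have e0 : Ω * ((M * b : RR) : ℂ) / M = Ω * b := by
      push_cast
      field_simp
    have hl : lE L Ω M (M * b) s = 0 := by
      unfold lE
      rw [e0, L.derivWeierstrassP_coe ⟨_, hL.mem_mul b⟩, div_zero]
    have hd : ∀ δ : ℝ, dE Ω M δ (M * b) s = 0 := by
      intro δ
      unfold dE
      rw [e0]
      have hodd : ∀ z : ℂ, EE RR Ω δ (-z) = -EE RR Ω δ z := by
        intro z
        unfold EE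
        rw [← (Equiv.neg RR).tsum_eq, ← tsum_neg]
        refine tsum_congr fun β => ?_
        rw [← fd_neg]
        congr 1
        rw [Equiv.neg_apply]
        push_cast
        ring
      have hz : ∀ z : ℂ, 2 * z ∈ L.lattice → EE RR Ω δ z = 0 := by
        intro z hz
        have h1 : EE RR Ω δ z = EE RR Ω δ (-z) := EE_per hL δ (by
          have : z - -z = 2 * z := by ring
          rw [this]
          exact hz)
        rw [hodd] at h1
        have h2 : (2 : ℂ) * EE RR Ω δ z = 0 := by linear_combination h1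
        simpa using h2
      rw [hz, hz, sub_zero]
      · have := hL.mem_mul (2 * b)
        push_cast at this
        have e : 2 * (Ω * (b : ℂ)) = Ω * (2 * b) := by ring
        rw [e]
        exact this
      · have := add_mem (hL.mem_mul (2 * b)) h2T
        push_cast at this
        have e : 2 * (Ω * (b : ℂ) + Ω * s / 2) = Ω * (2 * b) + 2 * (Ω * s / 2) := by ring
        rw [e]
        exact this
    simp only [hd, hl]
    exact tendsto_const_nhds
  · have hw : Ω * a / M ∉ L.lattice := by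
      intro h1
      obtain ⟨r, hr⟩ := (hL.mem _).1 h1
      exact ha (odd_mem hL hM (r := 2 * r) (by rw [hr]; push_cast; rw [coe2]; ring))
    have h2w : 2 * (Ω * a / M) ∉ L.lattice := by
      intro h1
      obtain ⟨r, hr⟩ := (hL.mem _).1 h1
      exact ha (odd_mem hL hM hr)
    have hp : Ω * a / M + Ω * s / 2 ∉ L.lattice := by
      intro h1
      apply h2w
      have := sub_mem (add_mem h1 h1) h2T
      have e : 2 * (Ω * a / M) = Ω * a / M + Ω * s / 2 + (Ω * a / M + Ω * s / 2) - 2 * (Ω * s / 2) := by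
        ring
      rw [e]
      exact this
    have hm : Ω * a / M - Ω * s / 2 ∉ L.lattice := by
      intro h1
      apply hp
      have := add_mem h1 h2T
      have e : Ω * a / M + Ω * s / 2 = Ω * a / M - Ω * s / 2 + 2 * (Ω * s / 2) := by ring
      rw [e]
      exact this
    have h3 := lim_Dd hL hw hT hp hm
    have h4 := h3.const_mul (1 / 2 : ℂ)
    have h5 : (1 / 2 : ℂ) * Dd L (Ω * a / M) (Ω * s / 2) = lE L Ω M a s := by
      unfold Dd lE
      rw [hpT]
      set x := ℘[L] (Ω * a / M) with hx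
      set p := ℘'[L] (Ω * a / M) with hp'
      have hp0 : p ≠ 0 := wp'_ne_zero L h2w
      have hcurve : p ^ 2 = 4 * x ^ 3 + 1 := h.curve hw
      have htau := h.tau3
      have hfac : p ^ 2 = 4 * ((x - s * tau L Ω) * (x ^ 2 + x * (s * tau L Ω) + (s * tau L Ω) ^ 2)) := by
        rw [hcurve]
        linear_combination htau + (4 * tau L Ω ^ 3) * hs3
      have hne : x - s * tau L Ω ≠ 0 := by
        intro h0
        rw [h0] at hfac
        have : p ^ 2 = 0 := by rw [hfac]; ring
        exact hp0 (pow_eq_zero_iff (by norm_num) |>.mp this)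
      field_simp
      linear_combination hfac
    rw [h5] at h4
    refine h4.congr fun δ => ?_
    unfold dE
    have h6 : EE RR Ω δ (Ω * a / M - Ω * s / 2) = EE RR Ω δ (Ω * a / M + Ω * s / 2) :=
      EE_per hL δ (by
        have e : Ω * a / M - Ω * s / 2 - (Ω * a / M + Ω * s / 2) = -(2 * (Ω * s / 2)) := by ring
        rw [e]
        exact neg_mem h2T)
    rw [h6]
    ring

end Pool.Agent.Y688
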