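import Pool.Agent.Y688.G20

/-!
# The value of the product series, II
-/

set_option autoImplicit false

open Complex Filter Topology MeasureTheory Set
open scoped PeriodPair

namespace Pool.Agent.Y688

open Pool.Agent.W192.HK Pool.Agent.TH936.CM HF H667R3

variable {L : PeriodPair} {Ω : ℂ}

/-- the bracket of the differences -/
noncomputable def br (e : RR) (d d' : RR → ℂ) : ℂ :=
  (d 1 + d wR + d (wR * wR)) * (d' 1 + d' wR + d' (wR * wR)) -
    4 * (d 1 * d' e + d wR * d' (e * wR) + d (wR * wR) * d' (e * (wR * wR)))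

/-- a residue class of primitive third roots of unity modulo `2` -/
def Ee (e e' : RR) : Prop := (e = wR ∧ e' = wR * wR) ∨ (e = wR * wR ∧ e' = wR)

/-- the kernel -/
noncomputable def kk (L : PeriodPair) (Ω : ℂ) (M : ℕ) (e e' a b : RR) : ℂ :=
  (℘[L] (Ω * a / M) ^ 2 * ℘[L] (Ω * b / M) ^ 2 - e' * ℘[L] (Ω * a / M) - e * ℘[L] (Ω * b / M)) /
    (℘'[L] (Ω * a / M) * ℘'[L] (Ω * b / M))

lemma lE_one (M : ℕ) (a : RR) : lE L Ω M a 1 = 2 * (℘[L] (Ω * a / M) ^ 2 +
    ℘[L] (Ω * a / M) * tau L Ω + tau L Ω ^ 2) / ℘'[L] (Ω * a / M) := by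
  unfold lE
  push_cast
  rw [one_mul]

lemma lE_w (M : ℕ) (a : RR) : lE L Ω M a wR = 2 * (℘[L] (Ω * a / M) ^ 2 +
    w * (℘[L] (Ω * a / M) * tau L Ω) + (-1 - w) * tau L Ω ^ 2) / ℘'[L] (Ω * a / M) := by
  unfold lE
  congr 2
  rw [wR_coe]
  linear_combination (tau L Ω ^ 2) * w_sq

lemma lE_w2 (M : ℕ) (a : RR) : lE L Ω M a (wR * wR) = 2 * (℘[L] (Ω * a / M) ^ 2 +
    (-1 - w) * (℘[L] (Ω * a / M) * tau L Ω) + w * tau L Ω ^ 2) / ℘'[L] (Ω * a / M) := by
  unfold lE
  congr 2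
  push_cast
  rw [wR_coe]
  have h4 : (w * w) * (w * w) = w := by linear_combination w * w3
  linear_combination (℘[L] (Ω * a / M) * tau L Ω) * w_sq + (tau L Ω ^ 2) * h4

lemma br_lE (h : HL L Ω) (M : ℕ) {e e' : RR} (he : Ee e e') (a b : RR) :
    br e (lE L Ω M a) (lE L Ω M b) = -12 * kk L Ω M e e' a b := by
  have ht := h.tau3
  unfold br kk
  set x := ℘[L] (Ω * a / M) with hx
  set y := ℘[L] (Ω * b / M) with hy
  set p := ℘'[L] (Ω * a / M) with hp
  set q := ℘'[L] (Ω * b / M) with hq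
  set τ := tau L Ω with hτ
  rcases he with ⟨rfl, rfl⟩ | ⟨rfl, rfl⟩
  · rw [wR3, lE_one, lE_one, lE_w, lE_w, lE_w2, lE_w2, ← hx, ← hy, ← hp, ← hq, ← hτ]
    push_cast
    rw [wR_coe, w_sq]
    simp only [div_eq_mul_inv, mul_inv]
    linear_combination (-16 * (-(x * τ * (y * τ)) + x * τ * τ ^ 2 + τ ^ 2 * (y * τ) - τ ^ 2 * τ ^ 2) *
      p⁻¹ * q⁻¹) * w_sq + (-12 * ((-1 - w) * x + w * y) * p⁻¹ * q⁻¹) * ht
  · have e1 : (wR * wR) * wR = 1 := by rw [← wR3]; ring
    have e2 : (wR * wR) * (wR * wR) = wR := by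
      have := wR3
      linear_combination wR * this
    rw [e1, e2, lE_one, lE_one, lE_w, lE_w, lE_w2, lE_w2, ← hx, ← hy, ← hp, ← hq, ← hτ]
    push_cast
    rw [wR_coe, w_sq]
    simp only [div_eq_mul_inv, mul_inv]
    linear_combination (-16 * (-(x * τ * (y * τ)) + x * τ * τ ^ 2 + τ ^ 2 * (y * τ) - τ ^ 2 * τ ^ 2) *
      p⁻¹ * q⁻¹) * w_sq + (-12 * (w * x + (-1 - w) * y) * p⁻¹ * q⁻¹) * ht

lemma br_lim (h : HL L Ω) {M : ℕ} (hM : Odd M) {e e' : RR} (he : Ee e e') (a b : RR) :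
    Tendsto (fun δ : ℝ => br e (dE Ω M δ a) (dE Ω M δ b)) (𝓝[>] 0)
      (𝓝 (-12 * kk L Ω M e e' a b)) := by
  rw [← br_lE h M he]
  have e1 : (wR * wR) * wR = 1 := by rw [← wR3]; ring
  have e2 : (wR * wR) * (wR * wR) = wR := by
    have := wR3
    linear_combination wR * this
  have l1 := fun a => dE_lim h hM a (s := 1) (Or.inl rfl)
  have lw := fun a => dE_lim h hM a (s := wR) (Or.inr (Or.inl rfl))
  have lv := fun a => dE_lim h hM a (s := wR * wR) (Or.inr (Or.inr rfl))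
  unfold br
  rcases he with ⟨rfl, rfl⟩ | ⟨rfl, rfl⟩
  · rw [wR3]
    exact ((((l1 a).add (lw a)).add (lv a)).mul (((l1 b).add (lw b)).add (lv b))).sub
      (((((l1 a).mul (lw b)).add ((lw a).mul (lv b))).add ((lv a).mul (l1 b))).const_mul 4)
  · rw [e1, e2]
    exact ((((l1 a).add (lw a)).add (lv a)).mul (((l1 b).add (lw b)).add (lv b))).sub
      (((((l1 a).mul (lv b)).add ((lw a).mul (l1 b))).add ((lv a).mul (lw b))).const_mul 4)

/-- the finite sum for positive `δ` -/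
lemma P_fin (hL : IsLat L RR Ω) {M : ℕ} [NeZero M] (hM : Odd M) {e e' : RR} (he : Ee e e') {K : ℝ}
    {c : RR → RR → ℂ} (hb : ∀ x y, ‖c x y‖ ≤ K) (hcy : ∀ x, Per M (c x))
    (hcx : ∀ y, Per M (fun x => c x y)) {δ : ℝ} (hδ : 0 < δ) :
    ∑' p : RR × RR, pterm (sm e c) δ p.1 p.2 = (Ω / (2 * M)) ^ 2 * ∑ a : RM M, ∑ b : RM M,
      c (2 * a.out) (2 * b.out) * br e (dE Ω M (δ * (2 * M) ^ 2 / Complex.normSq Ω) a.out)
        (dE Ω M (δ * (2 * M) ^ 2 / Complex.normSq Ω) b.out) := by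
  have hM0 : (M : ℂ) ≠ 0 := by exact_mod_cast NeZero.ne M
  obtain ⟨py, px⟩ := sm_per e hcy hcx
  have hcb : Cb (2 * M) (K * 5) (sm e c) := by
    refine ⟨fun x y => ?_, py⟩
    unfold sm
    rw [norm_mul]
    have h1 : ‖(1 : ℂ) - 4 * ind y (e * x)‖ ≤ 5 := by
      unfold ind
      split_ifs
      · norm_num
      · norm_num
    have hK : 0 ≤ K := (norm_nonneg _).trans (hb 0 0)
    gcongr
    exact hb x y
  have h0 := psum hL (2 * M) hcb px hδ
  push_cast at h0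
  rw [h0]
  congr 1
  set δ' : ℝ := δ * (2 * M) ^ 2 / Complex.normSq Ω with hδ'
  set E : RR → ℂ := fun z => EE RR Ω δ' (Ω * z / (2 * M)) with hE
  have hEper : Per (2 * M) E := by
    refine per_of fun z r => ?_
    simp only [hE]
    rw [← EE_add δ' (Ω * z / (2 * M)) r]
    congr 1
    push_cast
    rw [coe2]
    field_simp
  have h1 : ∑ q : RM (2 * M), ∑ q' : RM (2 * M), sm e c q.out q'.out * (E q.out * E q'.out) =
      ∑ a : RM M, ∑ s : RM 2, ∑ q' : RM (2 * M), sm e c (2 * a.out + M * s.out) q'.out *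
        (E (2 * a.out + M * s.out) * E q'.out) := by
    refine crt M hM (f := fun z => ∑ q' : RM (2 * M), sm e c z q'.out * (E z * E q'.out)) ?_
    refine per_of fun z r => ?_
    refine Finset.sum_congr rfl fun q' _ => ?_
    rw [(px q'.out).add, hEper.add]
  have h2 : ∀ z : RR, ∑ q' : RM (2 * M), sm e c z q'.out * (E z * E q'.out) =
      ∑ b : RM M, ∑ s' : RM 2, sm e c z (2 * b.out + M * s'.out) *
        (E z * E (2 * b.out + M * s'.out)) := by
    intro z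
    refine crt M hM (f := fun z' => sm e c z z' * (E z * E z')) ?_
    refine per_of fun z' r => ?_
    rw [(py z).add, hEper.add]
  have h3 : ∀ a z : RR, E (2 * a + M * z) = EE RR Ω δ' (Ω * a / M + Ω * z / 2) := by
    intro a z
    simp only [hE]
    congr 1
    push_cast
    rw [coe2]
    field_simp
  have hXper : ∀ a : RR, Per 2 (fun z => E (2 * a + M * z)) := by
    intro a
    refine per_of fun z r => ?_
    have e1 : 2 * a + M * (z + ((2 : ℕ) : RR) * r) = 2 * a + M * z + ((2 * M : ℕ) : RR) * r := by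
      push_cast
      ring
    rw [e1, hEper.add]
  have h4 : ∀ a s : RR, E (2 * a + M * s) = E (2 * a + M * 0) + dE Ω M δ' a s := by
    intro a s
    rw [h3, h3]
    unfold dE
    have : Ω * ((0 : RR) : ℂ) / 2 = 0 := by
      push_cast
      simp
    rw [this, add_zero]
    ring
  have h5 : ∀ a b : RR, ∑ s : RM 2, ∑ s' : RM 2, sm e c (2 * a + M * s.out) (2 * b + M * s'.out) *
      (E (2 * a + M * s.out) * E (2 * b + M * s'.out)) =
      c (2 * a) (2 * b) * br e (dE Ω M δ' a) (dE Ω M δ' b) := by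
    intro a b
    have h6 : ∑ s : RM 2, ∑ s' : RM 2, sm e c (2 * a + M * s.out) (2 * b + M * s'.out) *
      (E (2 * a + M * s.out) * E (2 * b + M * s'.out)) = c (2 * a) (2 * b) *
        ∑ s : RM 2, ∑ s' : RM 2, (1 - 4 * ind s'.out (e * s.out)) *
          (E (2 * a + M * s.out) * E (2 * b + M * s'.out)) := by
      rw [Finset.mul_sum]
      refine Finset.sum_congr rfl fun s _ => ?_
      rw [Finset.mul_sum]
      refine Finset.sum_congr rfl fun s' _ => ?_
      rw [sm_shift hM e hcy hcx]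
      ring
    rw [h6, sum22 e (hXper a) (hXper b)]
    congr 1
    have e1 : (wR * wR) * wR = 1 := by rw [← wR3]; ring
    have e2 : (wR * wR) * (wR * wR) = wR := by
      have := wR3
      linear_combination wR * this
    unfold br
    rcases he with ⟨rfl, rfl⟩ | ⟨rfl, rfl⟩
    · rw [wR3, h4 a 1, h4 b 1, h4 a wR, h4 b wR, h4 a (wR * wR), h4 b (wR * wR)]
      ring
    · rw [e1, e2, h4 a 1, h4 b 1, h4 a wR, h4 b wR, h4 a (wR * wR), h4 b (wR * wR)]
      ring
  have h7 : ∑ q : RM (2 * M), ∑ q' : RM (2 * M), sm e c q.out q'.out *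
      (EE RR Ω δ' (Ω * q.out / (2 * M)) * EE RR Ω δ' (Ω * q'.out / (2 * M))) =
      ∑ q : RM (2 * M), ∑ q' : RM (2 * M), sm e c q.out q'.out * (E q.out * E q'.out) := rfl
  rw [h7, h1]
  refine Finset.sum_congr rfl fun a _ => ?_
  rw [Finset.sum_congr rfl fun s _ => h2 (2 * a.out + M * s.out), Finset.sum_comm]
  exact Finset.sum_congr rfl fun b _ => h5 a.out b.out

theorem P_lim (h : HL L Ω) {M : ℕ} [NeZero M] (hM : Odd M) {e e' : RR} (he : Ee e e') {K : ℝ}
    {c : RR → RR → ℂ} (hb : ∀ x y, ‖c x y‖ ≤ K) (hcy : ∀ x, Per M (c x))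
    (hcx : ∀ y, Per M (fun x => c x y)) :
    Tendsto (fun δ : ℝ => ∑' p : RR × RR, pterm (sm e c) δ p.1 p.2) (𝓝[>] 0)
      (𝓝 (-3 * (Ω / M) ^ 2 * ∑ a : RM M, ∑ b : RM M, c (2 * a.out) (2 * b.out) *
        kk L Ω M e e' a.out b.out)) := by
  have hM0 : (M : ℝ) ≠ 0 := by exact_mod_cast NeZero.ne M
  have hn : 0 < Complex.normSq Ω := Complex.normSq_pos.2 h.ne
  have hlim : Tendsto (fun δ : ℝ => δ * (2 * M) ^ 2 / Complex.normSq Ω) (𝓝[>] 0) (𝓝[>] 0) := by
    rw [tendsto_nhdsWithin_iff]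
    constructor
    · have h1 : Continuous (fun δ : ℝ => δ * (2 * M) ^ 2 / Complex.normSq Ω) := by fun_prop
      have h2 := (h1.tendsto 0).mono_left (nhdsWithin_le_nhds (s := Set.Ioi 0))
      simpa using h2
    · filter_upwards [self_mem_nhdsWithin] with δ (hδ : 0 < δ)
      show 0 < δ * (2 * M) ^ 2 / Complex.normSq Ω
      positivity
  have h1 : Tendsto (fun δ : ℝ => (Ω / (2 * M)) ^ 2 * ∑ a : RM M, ∑ b : RM M,
      c (2 * a.out) (2 * b.out) * br e (dE Ω M (δ * (2 * M) ^ 2 / Complex.normSq Ω) a.out)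
        (dE Ω M (δ * (2 * M) ^ 2 / Complex.normSq Ω) b.out)) (𝓝[>] 0)
      (𝓝 ((Ω / (2 * M)) ^ 2 * ∑ a : RM M, ∑ b : RM M, c (2 * a.out) (2 * b.out) *
        (-12 * kk L Ω M e e' a.out b.out))) := by
    refine Tendsto.const_mul _ (tendsto_finset_sum _ fun a _ => tendsto_finset_sum _ fun b _ => ?_)
    exact ((br_lim h hM he a.out b.out).comp hlim).const_mul _
  have h2 : (Ω / (2 * M)) ^ 2 * ∑ a : RM M, ∑ b : RM M, c (2 * a.out) (2 * b.out) *
        (-12 * kk L Ω M e e' a.out b.out) = -3 * (Ω / M) ^ 2 * ∑ a : RM M, ∑ b : RM M,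
          c (2 * a.out) (2 * b.out) * kk L Ω M e e' a.out b.out := by
    have e1 : ∀ a b : RM M, c (2 * a.out) (2 * b.out) * (-12 * kk L Ω M e e' a.out b.out) =
        -12 * (c (2 * a.out) (2 * b.out) * kk L Ω M e e' a.out b.out) := by
      intro a b
      ring
    simp only [e1, ← Finset.mul_sum]
    have hMc : (M : ℂ) ≠ 0 := by exact_mod_cast NeZero.ne M
    field_simp
    ring
  rw [h2] at h1
  refine h1.congr' ?_
  filter_upwards [self_mem_nhdsWithin] with δ (hδ : 0 < δ)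
  rw [P_fin h.toIsLat hM he hb hcy hcx hδ]

end Pool.Agent.Y688
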