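import Pool.Agent.Y688.G21

/-!
# The kernel formula for the value at `s = 1`
-/

set_option autoImplicit false

open Complex Filter Topology MeasureTheory Set
open scoped PeriodPair

namespace Pool.Agent.Y688

open Pool.Agent.W192.HK Pool.Agent.TH936.CM HF H667R3

variable {L : PeriodPair} {Ω : ℂ}

/-- multiplication by `2` modulo an odd number -/
noncomputable def mul2E (M : ℕ) [NeZero M] (hM : Odd M) : RM M ≃ RM M :=
  Equiv.ofBijective (fun q => Ideal.Quotient.mk (sp (M : RR)) (2 * q.out)) (by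
    obtain ⟨k, hk⟩ := hM
    have hkR : (M : RR) = 2 * k + 1 := by rw [hk]; push_cast; ring
    constructor
    · intro a a' h
      simp only at h
      rw [mk_eq] at h
      obtain ⟨r, hr⟩ := h
      rw [← Ideal.Quotient.mk_out a, ← Ideal.Quotient.mk_out a', mk_eq]
      refine ⟨(k + 1) * r - (a.out - a'.out), ?_⟩
      linear_combination (k + 1 : RR) * hr + (a.out - a'.out) * hkR
    · intro q
      obtain ⟨z, rfl⟩ := Ideal.Quotient.mk_surjective q
      obtain ⟨u, hu⟩ := out_eq M ((k + 1) * z)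
      refine ⟨Ideal.Quotient.mk _ ((k + 1) * z), ?_⟩
      simp only
      rw [hu, mk_eq]
      refine ⟨z + 2 * u, ?_⟩
      linear_combination -z * hkR)

lemma sum_two (M : ℕ) [NeZero M] (hM : Odd M) {f : RR → ℂ} (hf : Per M f) :
    ∑ q : RM M, f q.out = ∑ q : RM M, f (2 * q.out) := by
  refine (Fintype.sum_equiv (mul2E M hM) _ _ fun p => ?_).symm
  exact (hf.out _).symm

lemma wp_per (hL : IsLat L RR Ω) (M : ℕ) [NeZero M] : Per M (fun z => ℘[L] (Ω * z / M)) := by
  have hM0 : (M : ℂ) ≠ 0 := by exact_mod_cast NeZero.ne M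
  refine per_of fun z r => ?_
  have e : Ω * ((z + (M : RR) * r : RR) : ℂ) / M = Ω * z / M + Ω * r := by
    push_cast
    field_simp
  rw [e]
  exact L.weierstrassP_add_coe _ ⟨_, hL.mem_mul r⟩

lemma dup_all (h : HL L Ω) {M : ℕ} (hM : Odd M) (b : RR) :
    ℘[L] (Ω * ((2 * b : RR) : ℂ) / M) - ℘[L] (Ω * b / M) =
      -3 * (℘[L] (Ω * b / M) * (℘[L] (Ω * b / M) ^ 3 + 1) / ℘'[L] (Ω * b / M) ^ 2) := by
  have hL := h.toIsLat
  have hM0 : (M : ℂ) ≠ 0 := by
    obtain ⟨k, hk⟩ := hM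
    rw [hk]
    exact_mod_cast (by omega : 2 * k + 1 ≠ 0)
  have e : Ω * ((2 * b : RR) : ℂ) / M = 2 * (Ω * b / M) := by
    push_cast
    rw [coe2]
    ring
  rw [e]
  by_cases hb : 2 * (Ω * b / M) ∈ L.lattice
  · obtain ⟨r, hr⟩ := (hL.mem _).1 hb
    obtain ⟨d, rfl⟩ := odd_mem hL hM hr
    have e0 : Ω * ((M * d : RR) : ℂ) / M = Ω * d := by
      push_cast
      field_simp
    have e1 : 2 * (Ω * (d : ℂ)) = Ω * ((2 * d : RR) : ℂ) := by
      push_cast
      rw [coe2]
      ring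
    rw [e0, e1, L.weierstrassP_coe ⟨_, hL.mem_mul (2 * d)⟩, L.weierstrassP_coe ⟨_, hL.mem_mul d⟩]
    simp
  · exact h.dup hb

theorem S2_lim (h : HL L Ω) {M : ℕ} [NeZero M] (hM : Odd M) (e : RR) {K : ℝ}
    {c : RR → RR → ℂ} (hb : ∀ x y, ‖c x y‖ ≤ K) (hcy : ∀ x, Per M (c x))
    (h0 : ∑ q : RM M, c 0 q.out = 0) :
    Tendsto (fun ε : ℝ => ∑' y : RR, sm e c 0 y * ff ε y) (𝓝[>] 0)
      (𝓝 (-3 * (Ω / M) ^ 2 * ∑ q : RM M, c 0 (2 * q.out) *
        (℘[L] (Ω * q.out / M) * (℘[L] (Ω * q.out / M) ^ 3 + 1) / ℘'[L] (Ω * q.out / M) ^ 2))) := by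
  have hL := h.toIsLat
  have hM0 : (M : ℂ) ≠ 0 := by exact_mod_cast NeZero.ne M
  set b : RR → ℂ := c 0 with hbdef
  have hp : Per M b := hcy 0
  have hp2 : Per M (fun y => b (2 * y)) := by
    refine per_of fun y r => ?_
    have : 2 * (y + (M : RR) * r) = 2 * y + M * (2 * r) := by ring
    rw [this, hp.add]
  have h02 : ∑ q : RM M, b (2 * q.out) = 0 := by rw [← sum_two M hM hp]; exact h0
  have l1 := s2_lim hL M hp (fun y => hb 0 y) h0
  have l2 := s2_lim hL M hp2 (fun y => hb 0 (2 * y)) h02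
  have hlim : Tendsto (fun ε : ℝ => ε * 4) (𝓝[>] 0) (𝓝[>] 0) := by
    rw [tendsto_nhdsWithin_iff]
    constructor
    · have h1 : Continuous (fun ε : ℝ => ε * 4) := by fun_prop
      have h2 := (h1.tendsto 0).mono_left (nhdsWithin_le_nhds (s := Set.Ioi 0))
      simpa using h2
    · filter_upwards [self_mem_nhdsWithin] with ε (hε : 0 < ε)
      show 0 < ε * 4
      positivity
  have l3 := l1.sub (l2.comp hlim)
  have hval : (Ω / M) ^ 2 * ∑ q : RM M, b q.out * ℘[L] (Ω * (q.out : RR) / M) -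
      (Ω / M) ^ 2 * ∑ q : RM M, b (2 * q.out) * ℘[L] (Ω * (q.out : RR) / M) =
      -3 * (Ω / M) ^ 2 * ∑ q : RM M, b (2 * q.out) *
        (℘[L] (Ω * q.out / M) * (℘[L] (Ω * q.out / M) ^ 3 + 1) / ℘'[L] (Ω * q.out / M) ^ 2) := by
    have hper : Per M (fun z => b z * ℘[L] (Ω * z / M)) := by
      intro y y' hy
      have a1 := hp y y' hy
      have a2 := wp_per hL M y y' hy
      simp only at a2
      simp only
      rw [a1, a2]
    have h3 := sum_two M hM hper
    rw [h3, ← mul_sub, ← Finset.sum_sub_distrib, mul_comm (-3 : ℂ), mul_assoc, Finset.mul_sum _ _ (-3 : ℂ)]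
    congr 1
    refine Finset.sum_congr rfl fun q _ => ?_
    have := dup_all h hM q.out
    linear_combination b (2 * q.out) * this
  rw [hval] at l3
  refine l3.congr' ?_
  filter_upwards [self_mem_nhdsWithin] with ε (hε : 0 < ε)
  have hK : 0 ≤ K := (norm_nonneg _).trans (hb 0 0)
  have hsf : ∀ ε : ℝ, 0 < ε → Summable (fun y : RR => ‖ff ε (y : ℂ)‖) := by
    intro ε hε
    have := (summ_ff hε 0).norm
    refine this.congr fun y => ?_
    rw [zero_add]
  have hs1 : Summable (fun y : RR => b y * ff ε y) :=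
    Summable.of_norm_bounded ((hsf ε hε).mul_left K) fun y => by
      rw [norm_mul]
      gcongr
      exact hb 0 y
  have hs2 : Summable (fun y : RR => b y * ind y 0 * ff ε y) :=
    Summable.of_norm_bounded ((hsf ε hε).mul_left K) fun y => by
      rw [norm_mul, norm_mul]
      have h5 : ‖ind y 0‖ ≤ 1 := by
        unfold ind
        split_ifs <;> simp
      have h6 := hb 0 y
      calc ‖b y‖ * ‖ind y 0‖ * ‖ff ε (y : ℂ)‖ ≤ K * 1 * ‖ff ε (y : ℂ)‖ := by gcongr
        _ = _ := by ring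
  have h7 : ∑' y : RR, b y * ind y 0 * ff ε y = ∑' y : RR, b (2 * y) * ff ε ((2 * y : RR) : ℂ) := by
    have hinj : Function.Injective (fun y : RR => 2 * y) := by
      intro x y hxy
      have h2 : (2 : RR) ≠ 0 := by
        intro h
        have := congrArg Subtype.val h
        rw [coe2] at this
        norm_num at this
      exact mul_left_cancel₀ h2 hxy
    have h8 := hinj.tsum_eq (f := fun y : RR => b y * ind y 0 * ff ε y) (by
      intro y hy
      have h9 : ind y 0 ≠ 0 := by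
        intro h10
        apply hy
        simp only [h10]
        ring
      unfold ind at h9
      by_cases h11 : Ideal.Quotient.mk (sp ((2 : ℕ) : RR)) y = Ideal.Quotient.mk (sp ((2 : ℕ) : RR)) 0
      · rw [mk_eq] at h11
        obtain ⟨r, hr⟩ := h11
        refine ⟨r, ?_⟩
        simp only
        rw [sub_zero] at hr
        rw [hr]
        push_cast
        ring
      · rw [if_neg h11] at h9
        exact absurd rfl h9)
    rw [← h8]
    refine tsum_congr fun y => ?_
    have h12 : ind (2 * y) 0 = 1 := by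
      unfold ind
      rw [if_pos]
      rw [mk_eq]
      exact ⟨y, by push_cast; ring⟩
    rw [h12, mul_one]
  have h13 : ∑' y : RR, b (2 * y) * ff ε ((2 * y : RR) : ℂ) =
      4⁻¹ * ∑' y : RR, b (2 * y) * ff (ε * 4) y := by
    rw [← tsum_mul_left]
    refine tsum_congr fun y => ?_
    have h14 : ff ε ((2 * y : RR) : ℂ) = 4⁻¹ * ff (ε * 4) y := by
      have e1 : ((2 * y : RR) : ℂ) = 2 * (y : ℂ) := rfl
      rw [e1, ff_mul]
      have e2 : Complex.normSq 2 = 4 := by
        rw [Complex.normSq_ofNat]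
        norm_num
      rw [e2]
      norm_num
    rw [h14]
    ring
  have h15 : ∀ y : RR, sm e c 0 y * ff ε y = b y * ff ε y - 4 * (b y * ind y 0 * ff ε y) := by
    intro y
    unfold sm
    rw [mul_zero]
    ring
  rw [tsum_congr h15, hs1.tsum_sub (hs2.mul_left 4), tsum_mul_left, h7, h13]
  simp only [Function.comp_apply]
  ring

lemma ind_sum (z : RR) : ∑ s : RM 2, ind s.out z = 1 := by
  classical
  have h1 : ∀ s : RM 2, ind s.out z = if s = Ideal.Quotient.mk (sp ((2 : ℕ) : RR)) z then 1 else 0 := by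
    intro s
    unfold ind
    rw [Ideal.Quotient.mk_out]
  rw [Finset.sum_congr rfl fun s _ => h1 s, Finset.sum_ite_eq' Finset.univ]
  simp

lemma card2 : ∑ _s : RM 2, (1 : ℂ) = 4 := by
  have h := sum2 (f := fun _ => (1 : ℂ)) (per_of fun _ _ => rfl)
  rw [h]
  norm_num

lemma sm_mz {M : ℕ} [NeZero M] (hM : Odd M) (e : RR) {c : RR → RR → ℂ} (hcy : ∀ x, Per M (c x))
    (hcx : ∀ y, Per M (fun x => c x y)) : Mz (2 * M) (sm e c) := by
  intro x
  rw [crt M hM ((sm_per e hcy hcx).1 x)]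
  refine Finset.sum_eq_zero fun b _ => ?_
  have h1 : ∀ s : RM 2, sm e c x (2 * b.out + M * s.out) = c x (2 * b.out) *
      (1 - 4 * ind s.out (e * x)) := by
    intro s
    unfold sm
    rw [(hcy x).add]
    congr 3
    refine ind_congr ?_
    obtain ⟨k, hk⟩ := hM
    have hkR : (M : RR) = 2 * k + 1 := by rw [hk]; push_cast; ring
    rw [mk_eq, mk_eq]
    constructor
    · rintro ⟨r, hr⟩
      refine ⟨r - b.out - k * s.out, ?_⟩
      push_cast at hr ⊢
      linear_combination hr - s.out * hkR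
    · rintro ⟨r, hr⟩
      refine ⟨r + b.out + k * s.out, ?_⟩
      push_cast at hr ⊢
      linear_combination hr + s.out * hkR
  rw [Finset.sum_congr rfl fun s _ => h1 s, ← Finset.mul_sum, Finset.sum_sub_distrib, ← Finset.mul_sum,
    ind_sum, card2]
  ring

/-- **The kernel formula.** -/
theorem kernel (h : HL L Ω) {M : ℕ} [NeZero M] (hM : Odd M) {e e' : RR} (he : Ee e e') {K : ℝ}
    {c : RR → RR → ℂ} (hb : ∀ x y, ‖c x y‖ ≤ K) (hcy : ∀ x, Per M (c x))
    (hcx : ∀ y, Per M (fun x => c x y)) (h00 : c 0 0 = 0) (h0 : ∑ q : RM M, c 0 q.out = 0)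
    {t : RR} (hi : Inv t (sm e c)) {e1 e2 : ℂ} (hax : Ax e1 e2 t) {T0 : ℝ} (hT0 : 0 < T0) :
    (e1 - e2) * II (sm e c) e1 e2 (T0 * Complex.normSq e2 ^ 2) T0 1 = 3 * (Ω / M) ^ 2 *
      (∑ a : RM M, ∑ b : RM M, c (2 * a.out) (2 * b.out) * kk L Ω M e e' a.out b.out -
        t * ∑ q : RM M, c 0 (2 * q.out) * (℘[L] (Ω * q.out / M) * (℘[L] (Ω * q.out / M) ^ 3 + 1) /
          ℘'[L] (Ω * q.out / M) ^ 2)) := by
  obtain ⟨py, px⟩ := sm_per e hcy hcx
  have hcf : Cf (2 * M) (K * 5) (sm e c) := by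
    refine ⟨⟨fun x y => ?_, py⟩, ?_⟩
    · unfold sm
      rw [norm_mul]
      have h1 : ‖(1 : ℂ) - 4 * ind y (e * x)‖ ≤ 5 := by
        unfold ind
        split_ifs
        · norm_num
        · norm_num
      have hK : 0 ≤ K := (norm_nonneg _).trans (hb 0 0)
      gcongr
      exact hb x y
    · unfold sm
      rw [h00, zero_mul]
  have k1 := key1 hcf (sm_mz hM e hcy hcx) hi hax hT0 (S2_lim h hM e hb hcy h0)
  have k2 := P_lim h hM he hb hcy hcx
  have k3 := tendsto_nhds_unique k1 k2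
  linear_combination -k3

end Pool.Agent.Y688
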