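import Pool.Agent.Y688.G2
import Pool.Agent.TH936.CM.Jal

/-!
# Hermitian forms and the decay of theta sums
-/

set_option autoImplicit false

open Complex Filter Topology

namespace Pool.Agent.Y688

open Pool.Agent.W192.HK Pool.Agent.TH936.CM

/-- Hermitian forms in two variables -/
structure HF where
  A : ℝ
  B : ℂ
  C : ℝ

namespace HF

/-- the value of the form -/
noncomputable def q (H : HF) (x y : ℂ) : ℝ :=
  H.A * Complex.normSq y - 2 * (H.B * x * (starRingEnd ℂ) y).re + H.C * Complex.normSq x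

/-- the derivative with respect to `y` -/
noncomputable def ny (H : HF) (x y : ℂ) : ℂ :=
  H.A * (starRingEnd ℂ) y - (starRingEnd ℂ) H.B * (starRingEnd ℂ) x

/-- the derivative with respect to `x` -/
noncomputable def nx (H : HF) (x y : ℂ) : ℂ :=
  H.C * (starRingEnd ℂ) x - H.B * (starRingEnd ℂ) y

lemma euler (H : HF) (x y : ℂ) : (H.q x y : ℂ) = x * H.nx x y + y * H.ny x y := by
  have h1 : (((H.B * x * (starRingEnd ℂ) y).re : ℝ) : ℂ) * 2 =
      H.B * x * (starRingEnd ℂ) y + (starRingEnd ℂ) (H.B * x * (starRingEnd ℂ) y) := by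
    rw [Complex.add_conj]
    push_cast
    ring
  rw [map_mul, map_mul, Complex.conj_conj] at h1
  unfold q nx ny
  push_cast
  rw [Complex.normSq_eq_conj_mul_self, Complex.normSq_eq_conj_mul_self]
  linear_combination -h1

lemma decomp (H : HF) (hA : 0 < H.A) (x y : ℂ) :
    H.q x y = H.A * Complex.normSq (y - H.B / H.A * x) +
      (H.C - Complex.normSq H.B / H.A) * Complex.normSq x := by
  unfold q
  rw [Complex.normSq_sub, Complex.normSq_mul, Complex.normSq_div, Complex.normSq_ofReal, map_mul,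
    map_div₀, Complex.conj_ofReal]
  have h1 : (y * ((starRingEnd ℂ) H.B / H.A * (starRingEnd ℂ) x)).re =
      (H.B * x * (starRingEnd ℂ) y).re / H.A := by
    have e : y * ((starRingEnd ℂ) H.B / H.A * (starRingEnd ℂ) x) =
        (starRingEnd ℂ) (H.B * x * (starRingEnd ℂ) y) / (H.A : ℂ) := by
      rw [map_mul, map_mul, Complex.conj_conj]
      ring
    rw [e, Complex.div_ofReal_re, Complex.conj_re]
  rw [h1]
  field_simp
  ring

/-- bounded positive forms -/
structure Ok (κ Λ : ℝ) (H : HF) : Prop where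
  low : ∀ x y : ℂ, κ * (Complex.normSq x + Complex.normSq y) ≤ H.q x y
  a : |H.A| ≤ Λ
  b : ‖H.B‖ ≤ Λ
  c : |H.C| ≤ Λ

variable {κ Λ : ℝ} {H : HF}

lemma Ok.kA (h : Ok κ Λ H) : κ ≤ H.A := by
  have := h.low 0 1
  unfold q at this
  simpa using this

lemma Ok.kq (h : Ok κ Λ H) (hκ : 0 < κ) : κ ≤ H.C - Complex.normSq H.B / H.A := by
  have hA : 0 < H.A := lt_of_lt_of_le hκ h.kA
  have h1 := h.low 1 (H.B / H.A)
  rw [H.decomp hA, mul_one, sub_self, Complex.normSq_zero, mul_zero, zero_add, Complex.normSq_one,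
    mul_one] at h1
  have h2 := Complex.normSq_nonneg (H.B / H.A)
  nlinarith

end HF

lemma per_bound' (M : ℕ) [NeZero M] {δm : ℝ} (hδm : 0 < δm) (K : ℝ) (hK : 0 ≤ K) (J : ℕ) :
    ∃ C c : ℝ, 0 < C ∧ 0 < c ∧ ∀ j ≤ J, ∀ b : RR → ℂ, Per M b → (∀ y, ‖b y‖ ≤ K) →
      (∑ q : RM M, b q.out = 0) → ∀ δ : ℝ, 0 < δ → δ ≤ δm → ∀ u : ℂ,
      ‖∑' y : RR, b y * gt j δ ((y : ℂ) - u)‖ ≤ C * Real.exp (-(c / δ)) := by
  induction J with
  | zero =>
    obtain ⟨C, c, hC, hc, h⟩ := per_bound M 0 hδm K hK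
    refine ⟨C, c, hC, hc, fun j hj => ?_⟩
    obtain rfl : j = 0 := by omega
    exact h
  | succ J ih =>
    obtain ⟨C1, c1, hC1, hc1, h1⟩ := ih
    obtain ⟨C2, c2, hC2, hc2, h2⟩ := per_bound M (J + 1) hδm K hK
    refine ⟨max C1 C2, min c1 c2, lt_max_of_lt_left hC1, lt_min hc1 hc2, ?_⟩
    intro j hj b hp hb h0 δ hδ hδm' u
    rcases Nat.lt_or_ge J j with hjJ | hjJ
    · obtain rfl : j = J + 1 := by omega
      refine (h2 b hp hb h0 δ hδ hδm' u).trans ?_
      have : min c1 c2 / δ ≤ c2 / δ := by gcongr; exact min_le_right _ _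
      have h4 : 0 < max C1 C2 := lt_max_of_lt_left hC1
      gcongr
      exact le_max_right _ _
    · refine (h1 j hjJ b hp hb h0 δ hδ hδm' u).trans ?_
      have : min c1 c2 / δ ≤ c1 / δ := by gcongr; exact min_le_left _ _
      have h4 : 0 < max C1 C2 := lt_max_of_lt_left hC1
      gcongr
      exact le_max_left _ _

/-- the coefficient functions: bounded, periodic in the second variable -/
structure Cb (M : ℕ) (K : ℝ) (c : RR → RR → ℂ) : Prop where
  bd : ∀ x y, ‖c x y‖ ≤ K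
  per : ∀ x, Per M (c x)

/-- the coefficient functions that vanish at zero -/
structure Cf (M : ℕ) (K : ℝ) (c : RR → RR → ℂ) : Prop extends Cb M K c where
  zero : c 0 0 = 0

/-- mean zero in the second variable -/
def Mz (M : ℕ) [NeZero M] (c : RR → RR → ℂ) : Prop := ∀ x, ∑ q : RM M, c x q.out = 0

/-- the summand of the theta sums -/
noncomputable def tt (c : RR → RR → ℂ) (ξ : RR → ℂ) (j : ℕ) (δ : ℝ) (H : HF) (x y : RR) : ℂ :=
  c x y * ξ x * (starRingEnd ℂ) (y : ℂ) ^ j * (Real.exp (-(δ * H.q x y)) : ℂ)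

lemma expand (H : HF) (hA : 0 < H.A) (j : ℕ) (δ : ℝ) (x y : ℂ) :
    (starRingEnd ℂ) y ^ j * (Real.exp (-(δ * H.q x y)) : ℂ) =
    (Real.exp (-(δ * ((H.C - Complex.normSq H.B / H.A) * Complex.normSq x))) : ℂ) *
      ∑ i ∈ Finset.range (j + 1), ((j.choose i : ℂ) * (starRingEnd ℂ) (H.B / H.A * x) ^ (j - i)) *
        gt i (δ * H.A) (y - H.B / H.A * x) := by
  have h1 : (starRingEnd ℂ) y = (starRingEnd ℂ) (y - H.B / H.A * x) +
      (starRingEnd ℂ) (H.B / H.A * x) := by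
    rw [← map_add]
    congr 1
    ring
  conv_lhs => rw [h1, add_pow, H.decomp hA]
  have h2 : -(δ * (H.A * Complex.normSq (y - H.B / H.A * x) +
      (H.C - Complex.normSq H.B / H.A) * Complex.normSq x)) =
      -(δ * ((H.C - Complex.normSq H.B / H.A) * Complex.normSq x)) +
      -(δ * H.A * Complex.normSq (y - H.B / H.A * x)) := by ring
  rw [h2, Real.exp_add, Finset.sum_mul, Finset.mul_sum]
  refine Finset.sum_congr rfl fun i _ => ?_
  unfold gt
  push_cast
  ring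

theorem inner_bound (M : ℕ) [NeZero M] {κ Λ K : ℝ} (hκ : 0 < κ) (hK : 0 ≤ K) (j : ℕ) :
    ∃ C c : ℝ, 0 < C ∧ 0 < c ∧ ∀ cf : RR → RR → ℂ, Cb M K cf → Mz M cf → ∀ H : HF, H.Ok κ Λ →
      ∀ δ : ℝ, 0 < δ → δ ≤ 1 → ∀ x : RR,
      Summable (fun y : RR => cf x y * ((starRingEnd ℂ) (y : ℂ) ^ j *
        (Real.exp (-(δ * H.q x y)) : ℂ))) ∧
      ‖∑' y : RR, cf x y * ((starRingEnd ℂ) (y : ℂ) ^ j * (Real.exp (-(δ * H.q x y)) : ℂ))‖ ≤
        C * (1 + ‖(x : ℂ)‖) ^ j * Real.exp (-(δ * κ * Complex.normSq (x : ℂ))) *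
          Real.exp (-(c / δ)) := by
  by_cases hΛ : Λ ≤ 0
  · refine ⟨1, 1, one_pos, one_pos, ?_⟩
    intro cf _ _ H hH
    have h1 := hH.kA
    have h2 := hH.a
    have h3 := le_abs_self H.A
    linarith
  rw [not_le] at hΛ
  obtain ⟨C, c, hC, hc, h⟩ := per_bound' M (δm := Λ) hΛ K hK j
  refine ⟨2 ^ j * (1 + Λ / κ) ^ j * C, c / Λ, by positivity, by positivity, ?_⟩
  intro cf hcf hmz H hH δ hδ hδ1 x
  have hA : 0 < H.A := lt_of_lt_of_le hκ hH.kA
  have hAΛ : H.A ≤ Λ := (le_abs_self _).trans hH.a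
  set z : ℂ := H.B / H.A * x with hz
  have e1 : ∀ y : RR, cf x y * ((starRingEnd ℂ) (y : ℂ) ^ j * (Real.exp (-(δ * H.q x y)) : ℂ)) =
      (Real.exp (-(δ * ((H.C - Complex.normSq H.B / H.A) * Complex.normSq x))) : ℂ) *
      ∑ i ∈ Finset.range (j + 1), ((j.choose i : ℂ) * (starRingEnd ℂ) z ^ (j - i)) *
        (cf x y * gt i (δ * H.A) (y - z)) := by
    intro y
    rw [expand H hA, mul_left_comm, Finset.mul_sum]
    congr 1
    refine Finset.sum_congr rfl fun i _ => ?_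
    ring
  have hs : ∀ i, Summable (fun y : RR => ((j.choose i : ℂ) * (starRingEnd ℂ) z ^ (j - i)) *
        (cf x y * gt i (δ * H.A) (y - z))) := fun i =>
    (summ_bgt (hcf.bd x) i (by positivity) z).mul_left _
  constructor
  · refine Summable.congr ?_ fun y => (e1 y).symm
    exact (summable_sum fun i _ => hs i).mul_left _
  rw [tsum_congr e1, tsum_mul_left, Summable.tsum_finsetSum fun i _ => hs i, norm_mul,
    Complex.norm_real, Real.norm_eq_abs, Real.abs_exp]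
  have hzn : ‖(starRingEnd ℂ) z‖ ≤ Λ / κ * ‖(x : ℂ)‖ := by
    rw [RCLike.norm_conj, hz, norm_mul, norm_div, Complex.norm_real, Real.norm_eq_abs,
      abs_of_pos hA]
    have h1 := hH.b
    have h2 := hH.kA
    gcongr
  have hsum : ‖∑ i ∈ Finset.range (j + 1), ∑' y : RR, ((j.choose i : ℂ) *
      (starRingEnd ℂ) z ^ (j - i)) * (cf x y * gt i (δ * H.A) (y - z))‖ ≤
      2 ^ j * ((1 + Λ / κ) ^ j * (1 + ‖(x : ℂ)‖) ^ j * (C * Real.exp (-(c / Λ / δ)))) := by
    refine (norm_sum_le _ _).trans ?_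
    have h2 : ∀ i ∈ Finset.range (j + 1), ‖∑' y : RR, ((j.choose i : ℂ) *
        (starRingEnd ℂ) z ^ (j - i)) * (cf x y * gt i (δ * H.A) (y - z))‖ ≤
        (j.choose i : ℝ) * ((1 + Λ / κ) ^ j * (1 + ‖(x : ℂ)‖) ^ j *
          (C * Real.exp (-(c / Λ / δ)))) := by
      intro i hi
      rw [tsum_mul_left, norm_mul, norm_mul, Complex.norm_natCast, norm_pow, mul_assoc]
      refine mul_le_mul_of_nonneg_left ?_ (Nat.cast_nonneg _)
      have h3 := h i (by rw [Finset.mem_range] at hi; omega) (cf x) (hcf.per x) (hcf.bd x) (hmz x)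
        (δ * H.A) (by positivity) (by nlinarith) z
      have h4 : c / Λ / δ ≤ c / (δ * H.A) := by
        rw [div_div]
        exact div_le_div_of_nonneg_left hc.le (by positivity) (by nlinarith)
      have h5 : ‖(starRingEnd ℂ) z‖ ^ (j - i) ≤ (1 + Λ / κ) ^ j * (1 + ‖(x : ℂ)‖) ^ j := by
        rw [← mul_pow]
        have hx := norm_nonneg (x : ℂ)
        have hΛκ : 0 ≤ Λ / κ := by positivity
        have h6 : ‖(starRingEnd ℂ) z‖ ≤ (1 + Λ / κ) * (1 + ‖(x : ℂ)‖) := by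
          refine hzn.trans ?_
          nlinarith
        have h7 : 1 ≤ (1 + Λ / κ) * (1 + ‖(x : ℂ)‖) := by nlinarith [mul_nonneg hΛκ hx]
        exact (pow_le_pow_left₀ (norm_nonneg _) h6 _).trans (pow_le_pow_right₀ h7 (Nat.sub_le _ _))
      refine mul_le_mul h5 (h3.trans ?_) (norm_nonneg _) (by positivity)
      gcongr
    refine (Finset.sum_le_sum h2).trans ?_
    rw [← Finset.sum_mul]
    have h8 : ∑ i ∈ Finset.range (j + 1), (j.choose i : ℝ) = 2 ^ j := by
      exact_mod_cast Nat.sum_range_choose j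
    rw [h8]
  have hq := hH.kq hκ
  have hx := Complex.normSq_nonneg (x : ℂ)
  calc Real.exp (-(δ * ((H.C - Complex.normSq H.B / H.A) * Complex.normSq x))) *
      ‖∑ i ∈ Finset.range (j + 1), ∑' y : RR, ((j.choose i : ℂ) *
      (starRingEnd ℂ) z ^ (j - i)) * (cf x y * gt i (δ * H.A) (y - z))‖
      ≤ Real.exp (-(δ * κ * Complex.normSq (x : ℂ))) * (2 ^ j * ((1 + Λ / κ) ^ j *
        (1 + ‖(x : ℂ)‖) ^ j * (C * Real.exp (-(c / Λ / δ))))) := by
        refine mul_le_mul ?_ hsum (norm_nonneg _) (Real.exp_pos _).le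
        rw [Real.exp_le_exp, neg_le_neg_iff, mul_assoc]
        gcongr
    _ = _ := by ring

end Pool.Agent.Y688
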