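import Pool.Agent.Y688.G3

/-!
# Decay of theta sums over pairs
-/

set_option autoImplicit false

open Complex Filter Topology

namespace Pool.Agent.Y688

open Pool.Agent.W192.HK Pool.Agent.TH936.CM

lemma summable_inv_cube : Summable (fun x : RR => (‖(x : ℂ)‖ ^ 3)⁻¹) := by
  have h := summ3 (mkL_isLat qr one_ne_zero) 0
  refine h.congr fun β => ?_
  rw [zero_add, one_mul]

lemma summable_poly_gauss (a : ℕ) {ε : ℝ} (hε : 0 < ε) :
    Summable (fun x : RR => (1 + ‖(x : ℂ)‖) ^ a * Real.exp (-(ε * Complex.normSq (x : ℂ)))) := by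
  have h := ((summable_gauss 0 hε).add (summable_gauss a hε)).mul_left (2 ^ (a - 1))
  refine Summable.of_nonneg_of_le (fun x => by positivity) (fun x => ?_) h
  have h1 := add_pow_le (zero_le_one' ℝ) (norm_nonneg (x : ℂ)) a
  calc (1 + ‖(x : ℂ)‖) ^ a * Real.exp (-(ε * Complex.normSq (x : ℂ)))
      ≤ (2 ^ (a - 1) * (1 ^ a + ‖(x : ℂ)‖ ^ a)) * Real.exp (-(ε * Complex.normSq (x : ℂ))) := by
        gcongr
    _ = _ := by rw [one_pow, pow_zero]; ring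

theorem gauss_growth (n : ℕ) {κ : ℝ} (hκ : 0 < κ) : ∃ C : ℝ, 0 < C ∧ ∃ m : ℕ, ∀ δ : ℝ, 0 < δ →
    δ ≤ 1 → ∑' x : RR, (1 + ‖(x : ℂ)‖) ^ n * Real.exp (-(δ * κ * Complex.normSq (x : ℂ))) ≤
      C * (1 / δ) ^ m := by
  classical
  set m : ℕ := n + 3 with hm
  set D : ℝ := m.factorial * (1 / κ) ^ m * 2 ^ n with hD
  have hD0 : 0 < D := by
    have : (0 : ℝ) < m.factorial := by exact_mod_cast m.factorial_pos
    positivity
  have hs1 : Summable (fun x : RR => D * (‖(x : ℂ)‖ ^ 3)⁻¹ + if x = 0 then (1 : ℝ) else 0) :=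
    (summable_inv_cube.mul_left D).add (summable_of_finite_support
      ((Set.finite_singleton (0 : RR)).subset fun x hx => by
        simp only [Function.mem_support, ne_eq, ite_eq_right_iff, one_ne_zero, imp_false,
          not_not] at hx
        exact hx))
  set S : ℝ := ∑' x : RR, (D * (‖(x : ℂ)‖ ^ 3)⁻¹ + if x = 0 then (1 : ℝ) else 0) with hS
  have hS0 : 0 ≤ S := tsum_nonneg fun x => by
    have : (0 : ℝ) ≤ if x = 0 then (1 : ℝ) else 0 := by split_ifs <;> norm_num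
    positivity
  refine ⟨S + 1, by positivity, m, fun δ hδ hδ1 => ?_⟩
  have hδm : 1 ≤ (1 / δ) ^ m := one_le_pow₀ (by rw [le_div_iff₀ hδ]; linarith)
  have hterm : ∀ x : RR, (1 + ‖(x : ℂ)‖) ^ n * Real.exp (-(δ * κ * Complex.normSq (x : ℂ))) ≤
      (1 / δ) ^ m * (D * (‖(x : ℂ)‖ ^ 3)⁻¹ + if x = 0 then (1 : ℝ) else 0) := by
    intro x
    by_cases hx : x = 0
    · subst hx
      have hz : ((0 : RR) : ℂ) = 0 := rfl
      rw [hz]
      simpa using hδm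
    · rw [if_neg hx, add_zero]
      have h1 := one_le_norm hx
      have h1' : 0 < ‖(x : ℂ)‖ := by linarith
      have h2 := pow_exp_le m (a := δ * κ) (x := Complex.normSq (x : ℂ)) (by positivity)
        (Complex.normSq_nonneg _)
      have h3 : Complex.normSq (x : ℂ) ^ m = ‖(x : ℂ)‖ ^ (n + 3) * ‖(x : ℂ)‖ ^ m := by
        rw [Complex.normSq_eq_norm_sq, ← pow_mul, ← pow_add]
        congr 1
        omega
      have h4 : Real.exp (-(δ * κ * Complex.normSq (x : ℂ))) ≤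
          m.factorial * (1 / (δ * κ)) ^ m * (Complex.normSq (x : ℂ) ^ m)⁻¹ := by
        rw [Real.exp_neg, ← div_eq_mul_inv, le_div_iff₀ (by rw [h3]; positivity),
          inv_mul_le_iff₀ (Real.exp_pos _)]
        linarith
      have h5 : (1 + ‖(x : ℂ)‖) ^ n ≤ (2 * ‖(x : ℂ)‖) ^ n := by
        gcongr
        linarith
      calc (1 + ‖(x : ℂ)‖) ^ n * Real.exp (-(δ * κ * Complex.normSq (x : ℂ)))
          ≤ (2 * ‖(x : ℂ)‖) ^ n * (m.factorial * (1 / (δ * κ)) ^ m *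
            (Complex.normSq (x : ℂ) ^ m)⁻¹) := by gcongr
        _ = (1 / δ) ^ m * (D * (‖(x : ℂ)‖ ^ 3)⁻¹) * (‖(x : ℂ)‖ ^ m)⁻¹ := by
          rw [h3, hD, mul_pow]
          have e1 : (1 / (δ * κ)) ^ m = (1 / δ) ^ m * (1 / κ) ^ m := by
            rw [← mul_pow]
            congr 1
            field_simp
          rw [e1]
          field_simp
          ring
        _ ≤ (1 / δ) ^ m * (D * (‖(x : ℂ)‖ ^ 3)⁻¹) * 1 := by
          gcongr
          exact inv_le_one_of_one_le₀ (one_le_pow₀ h1)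
        _ = _ := mul_one _
  have hsum := summable_poly_gauss n (ε := δ * κ) (by positivity)
  calc ∑' x : RR, (1 + ‖(x : ℂ)‖) ^ n * Real.exp (-(δ * κ * Complex.normSq (x : ℂ)))
      ≤ ∑' x : RR, (1 / δ) ^ m * (D * (‖(x : ℂ)‖ ^ 3)⁻¹ + if x = 0 then (1 : ℝ) else 0) :=
        hsum.tsum_le_tsum hterm (hs1.mul_left _)
    _ = (1 / δ) ^ m * S := by rw [tsum_mul_left]
    _ ≤ (S + 1) * (1 / δ) ^ m := by nlinarith

lemma tt_norm {κ Λ K : ℝ} {M : ℕ} {cf : RR → RR → ℂ} (hcf : Cb M K cf) {H : HF} (hH : H.Ok κ Λ)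
    {ξ : RR → ℂ} {a : ℕ} (hξ : ∀ x : RR, ‖ξ x‖ ≤ (1 + ‖(x : ℂ)‖) ^ a) (j : ℕ) {δ : ℝ} (hδ : 0 < δ)
    (x y : RR) : ‖tt cf ξ j δ H x y‖ ≤
      K * (((1 + ‖(x : ℂ)‖) ^ a * Real.exp (-(δ * κ * Complex.normSq (x : ℂ)))) *
        ((1 + ‖(y : ℂ)‖) ^ j * Real.exp (-(δ * κ * Complex.normSq (y : ℂ))))) := by
  unfold tt
  rw [norm_mul, norm_mul, norm_mul, norm_pow, RCLike.norm_conj, Complex.norm_real,
    Real.norm_eq_abs, Real.abs_exp]
  have h1 := hcf.bd x y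
  have h2 := hξ x
  have h3 : Real.exp (-(δ * H.q x y)) ≤ Real.exp (-(δ * κ * Complex.normSq (x : ℂ))) *
      Real.exp (-(δ * κ * Complex.normSq (y : ℂ))) := by
    rw [← Real.exp_add, Real.exp_le_exp]
    have := mul_le_mul_of_nonneg_left (hH.low x y) hδ.le
    linarith
  have h4 : ‖(y : ℂ)‖ ^ j ≤ (1 + ‖(y : ℂ)‖) ^ j := by gcongr; linarith
  have hK : 0 ≤ K := (norm_nonneg _).trans h1
  calc ‖cf x y‖ * ‖ξ x‖ * ‖(y : ℂ)‖ ^ j * Real.exp (-(δ * H.q x y))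
      ≤ K * (1 + ‖(x : ℂ)‖) ^ a * (1 + ‖(y : ℂ)‖) ^ j *
        (Real.exp (-(δ * κ * Complex.normSq (x : ℂ))) *
      Real.exp (-(δ * κ * Complex.normSq (y : ℂ)))) := by gcongr
    _ = _ := by ring

lemma summ_dom (a j : ℕ) {ε : ℝ} (hε : 0 < ε) : Summable (fun p : RR × RR =>
    ((1 + ‖(p.1 : ℂ)‖) ^ a * Real.exp (-(ε * Complex.normSq (p.1 : ℂ)))) *
        ((1 + ‖(p.2 : ℂ)‖) ^ j * Real.exp (-(ε * Complex.normSq (p.2 : ℂ))))) :=
  (summable_poly_gauss a hε).mul_of_nonneg (summable_poly_gauss j hε)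
    (fun x => by positivity) (fun x => by positivity)

lemma tt_summable {κ Λ K : ℝ} (hκ : 0 < κ) {M : ℕ} {cf : RR → RR → ℂ} (hcf : Cb M K cf) {H : HF}
    (hH : H.Ok κ Λ) {ξ : RR → ℂ} {a : ℕ} (hξ : ∀ x : RR, ‖ξ x‖ ≤ (1 + ‖(x : ℂ)‖) ^ a) (j : ℕ)
    {δ : ℝ} (hδ : 0 < δ) : Summable (fun p : RR × RR => tt cf ξ j δ H p.1 p.2) :=
  Summable.of_norm_bounded ((summ_dom a j (ε := δ * κ) (by positivity)).mul_left K)
    fun p => tt_norm hcf hH hξ j hδ p.1 p.2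

theorem dbl_small (M : ℕ) [NeZero M] {κ Λ K : ℝ} (hκ : 0 < κ) (hK : 0 ≤ K) (a j : ℕ) :
    ∃ C c : ℝ, 0 < C ∧ 0 < c ∧ ∀ cf : RR → RR → ℂ, Cb M K cf → Mz M cf → ∀ H : HF, H.Ok κ Λ →
      ∀ ξ : RR → ℂ, (∀ x : RR, ‖ξ x‖ ≤ (1 + ‖(x : ℂ)‖) ^ a) → ∀ δ : ℝ, 0 < δ → δ ≤ 1 →
      ‖∑' p : RR × RR, tt cf ξ j δ H p.1 p.2‖ ≤ C * Real.exp (-(c / δ)) := by
  obtain ⟨C1, c1, hC1, hc1, h1⟩ := inner_bound M (Λ := Λ) hκ hK j
  obtain ⟨C2, hC2, m, h2⟩ := gauss_growth (a + j) hκ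
  refine ⟨C1 * C2 * (m.factorial * (1 / (c1 / 2)) ^ m), c1 / 2, by positivity, by positivity, ?_⟩
  intro cf hcf hmz H hH ξ hξ δ hδ hδ1
  have hs := tt_summable hκ hcf hH hξ j hδ
  rw [hs.tsum_prod' (fun x => hs.prod_factor x)]
  have e1 : ∀ x : RR, ∑' y : RR, tt cf ξ j δ H x y = ξ x * ∑' y : RR, cf x y *
      ((starRingEnd ℂ) (y : ℂ) ^ j * (Real.exp (-(δ * H.q x y)) : ℂ)) := by
    intro x
    rw [← tsum_mul_left]
    refine tsum_congr fun y => ?_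
    unfold tt
    ring
  have h3 : ∀ x : RR, ‖∑' y : RR, tt cf ξ j δ H x y‖ ≤ (C1 * Real.exp (-(c1 / δ))) *
      ((1 + ‖(x : ℂ)‖) ^ (a + j) * Real.exp (-(δ * κ * Complex.normSq (x : ℂ)))) := by
    intro x
    rw [e1, norm_mul]
    have h4 := (h1 cf hcf hmz H hH δ hδ hδ1 x).2
    calc _ ≤ (1 + ‖(x : ℂ)‖) ^ a * (C1 * (1 + ‖(x : ℂ)‖) ^ j *
          Real.exp (-(δ * κ * Complex.normSq (x : ℂ))) * Real.exp (-(c1 / δ))) := by
          gcongr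
          exact hξ x
      _ = _ := by rw [pow_add]; ring
  refine (tsum_of_norm_bounded (((summable_poly_gauss (a + j) (ε := δ * κ)
    (by positivity)).mul_left (C1 * Real.exp (-(c1 / δ)))).hasSum) h3).trans ?_
  rw [tsum_mul_left]
  have h5 := pow_exp_le m (a := c1 / 2) (x := 1 / δ) (by positivity) (by positivity)
  have h6 : Real.exp (-(c1 / δ)) * Real.exp (c1 / 2 * (1 / δ)) = Real.exp (-(c1 / 2 / δ)) := by
    rw [← Real.exp_add]
    congr 1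
    field_simp
    ring
  calc C1 * Real.exp (-(c1 / δ)) * ∑' x : RR, (1 + ‖(x : ℂ)‖) ^ (a + j) *
        Real.exp (-(δ * κ * Complex.normSq (x : ℂ)))
      ≤ C1 * Real.exp (-(c1 / δ)) * (C2 * (m.factorial * (1 / (c1 / 2)) ^ m *
        Real.exp (c1 / 2 * (1 / δ)))) := by
        refine mul_le_mul_of_nonneg_left ((h2 δ hδ hδ1).trans ?_) (by positivity)
        gcongr
    _ = C1 * C2 * (m.factorial * (1 / (c1 / 2)) ^ m) *
        (Real.exp (-(c1 / δ)) * Real.exp (c1 / 2 * (1 / δ))) := by ring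
    _ = _ := by rw [h6]

theorem dbl_large {κ Λ K : ℝ} (hκ : 0 < κ) (hK : 0 ≤ K) (a j : ℕ) :
    ∃ C c : ℝ, 0 < C ∧ 0 < c ∧ ∀ (M : ℕ) (cf : RR → RR → ℂ), Cb M K cf → ∀ H : HF, H.Ok κ Λ →
      ∀ ξ : RR → ℂ, (∀ x : RR, ‖ξ x‖ ≤ (1 + ‖(x : ℂ)‖) ^ a) →
      (cf 0 0 = 0 ∨ ξ 0 = 0 ∨ j ≠ 0) → ∀ δ : ℝ, 1 ≤ δ →
      ‖∑' p : RR × RR, tt cf ξ j δ H p.1 p.2‖ ≤ C * Real.exp (-(c * δ)) := by
  have hs := (summ_dom a j (ε := κ / 2) (by positivity)).mul_left K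
  set S : ℝ := ∑' p : RR × RR, K * (((1 + ‖(p.1 : ℂ)‖) ^ a *
      Real.exp (-(κ / 2 * Complex.normSq (p.1 : ℂ)))) *
        ((1 + ‖(p.2 : ℂ)‖) ^ j * Real.exp (-(κ / 2 * Complex.normSq (p.2 : ℂ))))) with hS
  have hS0 : 0 ≤ S := tsum_nonneg fun p => by positivity
  refine ⟨S + 1, κ / 2, by positivity, by positivity, ?_⟩
  intro M cf hcf H hH ξ hξ hz0 δ hδ
  have hδ0 : 0 < δ := by linarith
  have h1 : ∀ p : RR × RR, ‖tt cf ξ j δ H p.1 p.2‖ ≤ Real.exp (-(κ / 2 * δ)) *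
      (K * (((1 + ‖(p.1 : ℂ)‖) ^ a * Real.exp (-(κ / 2 * Complex.normSq (p.1 : ℂ)))) *
        ((1 + ‖(p.2 : ℂ)‖) ^ j * Real.exp (-(κ / 2 * Complex.normSq (p.2 : ℂ)))))) := by
    rintro ⟨x, y⟩
    by_cases h0 : x = 0 ∧ y = 0
    · obtain ⟨rfl, rfl⟩ := h0
      have hzz : ((0 : RR) : ℂ) = 0 := rfl
      have htt : tt cf ξ j δ H 0 0 = 0 := by
        unfold tt
        rcases hz0 with h | h | h
        · rw [h]; ring
        · rw [h]; ring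
        · rw [hzz, map_zero, zero_pow h]; ring
      rw [htt, norm_zero]
      positivity
    · refine (tt_norm hcf hH hξ j hδ0 x y).trans ?_
      have h2 : 1 ≤ Complex.normSq (x : ℂ) + Complex.normSq (y : ℂ) := by
        by_cases hx : x = 0
        · have hy : y ≠ 0 := fun h => h0 ⟨hx, h⟩
          have := one_le_normSq hy
          have := Complex.normSq_nonneg (x : ℂ)
          linarith
        · have := one_le_normSq hx
          have := Complex.normSq_nonneg (y : ℂ)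
          linarith
      have h3 : Real.exp (-(δ * κ * Complex.normSq (x : ℂ))) *
          Real.exp (-(δ * κ * Complex.normSq (y : ℂ))) ≤ Real.exp (-(κ / 2 * δ)) *
          (Real.exp (-(κ / 2 * Complex.normSq (x : ℂ))) *
          Real.exp (-(κ / 2 * Complex.normSq (y : ℂ)))) := by
        rw [← Real.exp_add, ← Real.exp_add, ← Real.exp_add, Real.exp_le_exp]
        set s := Complex.normSq (x : ℂ) + Complex.normSq (y : ℂ) with hs'
        have e : -(δ * κ * Complex.normSq (x : ℂ)) + -(δ * κ * Complex.normSq (y : ℂ)) =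
          -(δ * κ * s) := by rw [hs']; ring
        have e' : -(κ / 2 * δ) + (-(κ / 2 * Complex.normSq (x : ℂ)) +
          -(κ / 2 * Complex.normSq (y : ℂ))) = -(κ / 2 * δ + κ / 2 * s) := by rw [hs']; ring
        rw [e, e', neg_le_neg_iff]
        have h5 : 0 ≤ (δ * s - δ) + (δ * s - s) := by nlinarith
        nlinarith
      calc K * (((1 + ‖(x : ℂ)‖) ^ a * Real.exp (-(δ * κ * Complex.normSq (x : ℂ)))) *
          ((1 + ‖(y : ℂ)‖) ^ j * Real.exp (-(δ * κ * Complex.normSq (y : ℂ)))))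
          = K * ((1 + ‖(x : ℂ)‖) ^ a * (1 + ‖(y : ℂ)‖) ^ j) *
            (Real.exp (-(δ * κ * Complex.normSq (x : ℂ))) *
              Real.exp (-(δ * κ * Complex.normSq (y : ℂ)))) := by ring
        _ ≤ K * ((1 + ‖(x : ℂ)‖) ^ a * (1 + ‖(y : ℂ)‖) ^ j) * (Real.exp (-(κ / 2 * δ)) *
          (Real.exp (-(κ / 2 * Complex.normSq (x : ℂ))) *
          Real.exp (-(κ / 2 * Complex.normSq (y : ℂ))))) := by gcongr
        _ = _ := by ring
  refine (tsum_of_norm_bounded (hs.mul_left _).hasSum h1).trans ?_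
  rw [tsum_mul_left]
  have := Real.exp_pos (-(κ / 2 * δ))
  nlinarith

/-- the main estimate -/
theorem dbl' (M : ℕ) [NeZero M] {κ Λ K : ℝ} (hκ : 0 < κ) (hK : 0 ≤ K) (a j : ℕ) :
    ∃ C c : ℝ, 0 < C ∧ 0 < c ∧ ∀ cf : RR → RR → ℂ, Cb M K cf → Mz M cf → ∀ H : HF, H.Ok κ Λ →
      ∀ ξ : RR → ℂ, (∀ x : RR, ‖ξ x‖ ≤ (1 + ‖(x : ℂ)‖) ^ a) →
      (cf 0 0 = 0 ∨ ξ 0 = 0 ∨ j ≠ 0) → ∀ δ : ℝ, 0 < δ →
      ‖∑' p : RR × RR, tt cf ξ j δ H p.1 p.2‖ ≤ C * Real.exp (-(c * (δ + 1 / δ))) := by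
  obtain ⟨C1, c1, hC1, hc1, h1⟩ := dbl_small M (Λ := Λ) hκ hK a j
  obtain ⟨C2, c2, hC2, hc2, h2⟩ := dbl_large (Λ := Λ) hκ hK a j
  refine ⟨max C1 C2, min c1 c2 / 2, lt_max_of_lt_left hC1, by
    have := lt_min hc1 hc2
    positivity, ?_⟩
  intro cf hcf hmz H hH ξ hξ hz0 δ hδ
  have hm := lt_min hc1 hc2
  have hM : 0 < max C1 C2 := lt_max_of_lt_left hC1
  rcases le_total δ 1 with h | h
  · refine (h1 cf hcf hmz H hH ξ hξ δ hδ h).trans ?_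
    refine mul_le_mul (le_max_left _ _) ?_ (Real.exp_pos _).le hM.le
    rw [Real.exp_le_exp, neg_le_neg_iff]
    have h3 : δ ≤ 1 / δ := by
      rw [le_div_iff₀ hδ]
      nlinarith
    have h4 : min c1 c2 ≤ c1 := min_le_left _ _
    have h5 : 0 < 1 / δ := by positivity
    calc min c1 c2 / 2 * (δ + 1 / δ) ≤ min c1 c2 / 2 * (1 / δ + 1 / δ) := by gcongr
      _ = min c1 c2 * (1 / δ) := by ring
      _ ≤ c1 * (1 / δ) := by gcongr
      _ = c1 / δ := by ring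
  · refine (h2 M cf hcf H hH ξ hξ hz0 δ h).trans ?_
    refine mul_le_mul (le_max_right _ _) ?_ (Real.exp_pos _).le hM.le
    rw [Real.exp_le_exp, neg_le_neg_iff]
    have h3 : 1 / δ ≤ δ := by
      rw [div_le_iff₀ hδ]
      nlinarith
    have h4 : min c1 c2 ≤ c2 := min_le_right _ _
    calc min c1 c2 / 2 * (δ + 1 / δ) ≤ min c1 c2 / 2 * (δ + δ) := by gcongr
      _ = min c1 c2 * δ := by ring
      _ ≤ c2 * δ := by gcongr

/-- the main estimate, functions vanishing at zero -/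
theorem dbl (M : ℕ) [NeZero M] {κ Λ K : ℝ} (hκ : 0 < κ) (hK : 0 ≤ K) (a j : ℕ) :
    ∃ C c : ℝ, 0 < C ∧ 0 < c ∧ ∀ cf : RR → RR → ℂ, Cf M K cf → Mz M cf → ∀ H : HF, H.Ok κ Λ →
      ∀ ξ : RR → ℂ, (∀ x : RR, ‖ξ x‖ ≤ (1 + ‖(x : ℂ)‖) ^ a) → ∀ δ : ℝ, 0 < δ →
      ‖∑' p : RR × RR, tt cf ξ j δ H p.1 p.2‖ ≤ C * Real.exp (-(c * (δ + 1 / δ))) := by
  obtain ⟨C, c, hC, hc, h⟩ := dbl' M (Λ := Λ) hκ hK a j
  exact ⟨C, c, hC, hc, fun cf hcf hmz H hH ξ hξ => h cf hcf.toCb hmz H hH ξ hξ (Or.inl hcf.zero)⟩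

end Pool.Agent.Y688
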