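import Pool.Agent.Y688.G4

/-!
# Lines in the space of forms
-/

set_option autoImplicit false

open Complex Filter Topology MeasureTheory

namespace Pool.Agent.Y688

open Pool.Agent.W192.HK Pool.Agent.TH936.CM

namespace HF

/-- the difference of two forms -/
def sub (H1 H0 : HF) : HF := ⟨H1.A - H0.A, H1.B - H0.B, H1.C - H0.C⟩

/-- the line through two forms -/
noncomputable def line (H0 H1 : HF) (τ : ℝ) : HF :=
  ⟨H0.A + τ * (H1.A - H0.A), H0.B + τ * (H1.B - H0.B), H0.C + τ * (H1.C - H0.C)⟩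

lemma line_q (H0 H1 : HF) (τ : ℝ) (x y : ℂ) :
    (line H0 H1 τ).q x y = H0.q x y + τ * (sub H1 H0).q x y := by
  unfold line sub q
  simp only [Complex.mul_re, Complex.add_re, Complex.sub_re, Complex.mul_im, Complex.add_im,
    Complex.sub_im, Complex.ofReal_re, Complex.ofReal_im]
  ring

lemma sub_q (H0 H1 : HF) (x y : ℂ) : (sub H1 H0).q x y = H1.q x y - H0.q x y := by
  unfold sub q
  simp only [Complex.mul_re, Complex.sub_re, Complex.mul_im, Complex.sub_im]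
  ring

lemma line_ny (H0 H1 : HF) (τ : ℝ) (x y : ℂ) :
    (line H0 H1 τ).ny x y = H0.ny x y + τ * (sub H1 H0).ny x y := by
  unfold line sub ny
  simp only [map_add, map_mul, map_sub, Complex.conj_ofReal]
  push_cast
  ring

lemma line_nx (H0 H1 : HF) (τ : ℝ) (x y : ℂ) :
    (line H0 H1 τ).nx x y = H0.nx x y + τ * (sub H1 H0).nx x y := by
  unfold line sub nx
  push_cast
  ring

/-- the numerator of the closed form -/
noncomputable def J (H H' : HF) (x y : ℂ) : ℂ := H.nx x y * H'.ny x y - H.ny x y * H'.nx x y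

lemma J_key (H H' : HF) (x y : ℂ) :
    H'.ny x y * H.q x y - H.ny x y * H'.q x y = x * J H H' x y := by
  rw [euler, euler]
  unfold J
  ring

variable {κ Λ : ℝ}

lemma Ok.line {H0 H1 : HF} (h0 : H0.Ok κ Λ) (h1 : H1.Ok κ Λ) {τ : ℝ} (hτ : τ ∈ Set.Icc (0 : ℝ) 1) :
    (HF.line H0 H1 τ).Ok κ Λ := by
  obtain ⟨t0, t1⟩ := hτ
  have hconv : ∀ a b : ℝ, |a| ≤ Λ → |b| ≤ Λ → |a + τ * (b - a)| ≤ Λ := by
    intro a b ha hb
    rw [abs_le] at ha hb ⊢
    constructor <;> nlinarith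
  refine ⟨fun x y => ?_, hconv _ _ h0.a h1.a, ?_, hconv _ _ h0.c h1.c⟩
  · rw [line_q, sub_q]
    have := h0.low x y
    have := h1.low x y
    nlinarith
  · have e : (HF.line H0 H1 τ).B = ((1 - τ : ℝ) : ℂ) * H0.B + (τ : ℂ) * H1.B := by
      unfold HF.line
      push_cast
      ring
    rw [e]
    refine (norm_add_le _ _).trans ?_
    rw [norm_mul, norm_mul, Complex.norm_real, Complex.norm_real, Real.norm_eq_abs,
      Real.norm_eq_abs, abs_of_nonneg t0, abs_of_nonneg (by linarith : (0 : ℝ) ≤ 1 - τ)]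
    have := h0.b
    have := h1.b
    nlinarith

lemma Ok.sub {H0 H1 : HF} (h0 : H0.Ok κ Λ) (h1 : H1.Ok κ Λ) :
    |(HF.sub H1 H0).A| ≤ 2 * Λ ∧ ‖(HF.sub H1 H0).B‖ ≤ 2 * Λ ∧ |(HF.sub H1 H0).C| ≤ 2 * Λ := by
  unfold HF.sub
  refine ⟨?_, ?_, ?_⟩
  · have := h0.a
    have := h1.a
    have := abs_sub H1.A H0.A
    simp only
    linarith
  · have := h0.b
    have := h1.b
    have := norm_sub_le H1.B H0.B
    simp only
    linarith
  · have := h0.c
    have := h1.c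
    have := abs_sub H1.C H0.C
    simp only
    linarith

lemma ny_le {H : HF} {Λ : ℝ} (ha : |H.A| ≤ Λ) (hb : ‖H.B‖ ≤ Λ) (x y : ℂ) :
    ‖H.ny x y‖ ≤ Λ * (‖x‖ + ‖y‖) := by
  unfold ny
  refine (norm_sub_le _ _).trans ?_
  rw [norm_mul, norm_mul, RCLike.norm_conj, RCLike.norm_conj, RCLike.norm_conj, Complex.norm_real,
    Real.norm_eq_abs]
  have := norm_nonneg x
  have := norm_nonneg y
  nlinarith

lemma nx_le {H : HF} {Λ : ℝ} (hc : |H.C| ≤ Λ) (hb : ‖H.B‖ ≤ Λ) (x y : ℂ) :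
    ‖H.nx x y‖ ≤ Λ * (‖x‖ + ‖y‖) := by
  unfold nx
  refine (norm_sub_le _ _).trans ?_
  rw [norm_mul, norm_mul, RCLike.norm_conj, RCLike.norm_conj, Complex.norm_real,
    Real.norm_eq_abs]
  have := norm_nonneg x
  have := norm_nonneg y
  nlinarith

end HF

open HF

/-- the function `(1 + s) exp (-s)` divided by `q ^ 2` -/
noncomputable def e2 (δ q : ℝ) : ℝ := (1 + δ * q) / q ^ 2 * Real.exp (-(δ * q))

/-- the summand of the potential -/
noncomputable def gterm (cf : RR → RR → ℂ) (δ : ℝ) (H : HF) (x y : RR) : ℂ :=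
  cf x y * ((x : ℂ)⁻¹ * (H.ny x y / (H.q x y : ℂ) * (Real.exp (-(δ * H.q x y)) : ℂ)))

noncomputable def vterm (cf : RR → RR → ℂ) (δ : ℝ) (H H' : HF) (x y : RR) : ℂ :=
  cf x y * (J H H' x y * (e2 δ (H.q x y) : ℂ))

noncomputable def rterm (cf : RR → RR → ℂ) (δ : ℝ) (H H' : HF) (x y : RR) : ℂ :=
  cf x y * ((x : ℂ)⁻¹ * (H'.ny x y * (Real.exp (-(δ * H.q x y)) : ℂ)))

open Classical in
noncomputable def xterm (cf : RR → RR → ℂ) (δ : ℝ) (H H' : HF) (x y : RR) : ℂ :=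
  if x = 0 then vterm cf δ H H' x y else 0

lemma gterm_deriv (cf : RR → RR → ℂ) (δ : ℝ) (H0 H1 : HF) (x y : RR) (τ : ℝ)
    (hq : (x ≠ 0 ∨ y ≠ 0) → 0 < (line H0 H1 τ).q x y) :
    HasDerivAt (fun τ : ℝ => gterm cf δ (line H0 H1 τ) x y)
      (vterm cf δ (line H0 H1 τ) (sub H1 H0) x y - xterm cf δ (line H0 H1 τ) (sub H1 H0) x y -
        δ * rterm cf δ (line H0 H1 τ) (sub H1 H0) x y) τ := by
  by_cases hx : x = 0
  · subst hx
    unfold xterm
    rw [if_pos rfl, sub_self]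
    unfold gterm rterm
    have hz : ((0 : RR) : ℂ)⁻¹ = 0 := by
      have : ((0 : RR) : ℂ) = 0 := rfl
      rw [this, inv_zero]
    simp only [hz, zero_mul, mul_zero, sub_zero]
    exact hasDerivAt_const _ _
  have hq' := hq (Or.inl hx)
  have hxC : (x : ℂ) ≠ 0 := fun h => hx (Subtype.ext h)
  have hqC : ((line H0 H1 τ).q x y : ℂ) ≠ 0 := by exact_mod_cast hq'.ne'
  unfold xterm
  rw [if_neg hx, sub_zero]
  have d1 : HasDerivAt (fun τ : ℝ => (line H0 H1 τ).ny x y) ((sub H1 H0).ny x y) τ := by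
    simp only [line_ny]
    have := ((Complex.ofRealCLM.hasDerivAt (x := τ)).mul_const ((sub H1 H0).ny x y)).const_add
      (H0.ny x y)
    simpa using this
  have d2r : HasDerivAt (fun τ : ℝ => (line H0 H1 τ).q x y) ((sub H1 H0).q x y) τ := by
    simp only [line_q]
    have := ((hasDerivAt_id τ).mul_const ((sub H1 H0).q x y)).const_add (H0.q x y)
    simpa using this
  have d2 : HasDerivAt (fun τ : ℝ => ((line H0 H1 τ).q x y : ℂ)) ((sub H1 H0).q x y : ℂ) τ :=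
    d2r.ofReal_comp
  have d3 : HasDerivAt (fun τ : ℝ => (Real.exp (-(δ * (line H0 H1 τ).q x y)) : ℂ))
      ((Real.exp (-(δ * (line H0 H1 τ).q x y)) * (-(δ * (sub H1 H0).q x y)) : ℝ) : ℂ) τ :=
    (((d2r.const_mul δ).neg).exp).ofReal_comp
  have d4 := ((d1.div d2 hqC).mul d3).const_mul (x : ℂ)⁻¹ |>.const_mul (cf x y)
  refine d4.congr_deriv ?_
  have hk := J_key (line H0 H1 τ) (sub H1 H0) x y
  unfold vterm rterm e2
  simp only [Pi.div_apply]
  push_cast
  have e : (sub H1 H0).ny x y * ((line H0 H1 τ).q x y : ℂ) -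
      (line H0 H1 τ).ny x y * ((sub H1 H0).q x y : ℂ) =
      x * J (line H0 H1 τ) (sub H1 H0) x y := hk
  set E := cexp (-(↑δ * ↑((line H0 H1 τ).q x y)))
  set Q : ℂ := ((line H0 H1 τ).q x y : ℂ)
  set N := (line H0 H1 τ).ny (x : ℂ) (y : ℂ)
  set N' := (sub H1 H0).ny (x : ℂ) (y : ℂ)
  set Q' : ℂ := ((sub H1 H0).q x y : ℂ)
  set JJ := J (line H0 H1 τ) (sub H1 H0) (x : ℂ) (y : ℂ)
  have e' : N * Q' = N' * Q - x * JJ := by linear_combination -e
  have h1 : (N' * Q - N * Q') / Q ^ 2 * E + N / Q * (E * -(δ * Q')) =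
      ((x * JJ) * (1 / Q ^ 2 + δ / Q) - δ * N') * E := by
    have h2 : N / Q * (E * -(δ * Q')) = -(δ * (N * Q') / Q) * E := by ring
    rw [h2, e']
    field_simp
    ring
  rw [h1]
  field_simp

end Pool.Agent.Y688
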