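import Pool.Agent.Y688.G5

/-!
# Integration of the closed form along a line
-/

set_option autoImplicit false

open Complex Filter Topology MeasureTheory

namespace Pool.Agent.Y688

open Pool.Agent.W192.HK Pool.Agent.TH936.CM HF

instance : Countable RR := by
  have h : Function.Surjective (fun p : ℤ × ℤ => (⟨(p.1 : ℂ) + p.2 * w, ⟨p.1, p.2, rfl⟩⟩ : RR)) := by
    rintro ⟨z, a, b, h⟩
    exact ⟨(a, b), Subtype.ext h.symm⟩
  exact h.countable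

lemma swap01 {ι : Type*} [Countable ι] {F : ι → ℝ → ℂ} {u : ι → ℝ} (hu : Summable u)
    (hc : ∀ p, ContinuousOn (F p) (Set.Icc 0 1)) (hb : ∀ p, ∀ τ ∈ Set.Icc (0 : ℝ) 1, ‖F p τ‖ ≤ u p) :
    HasSum (fun p => ∫ τ in (0 : ℝ)..1, F p τ) (∫ τ in (0 : ℝ)..1, ∑' p, F p τ) := by
  have hsub : ∀ t, t ∈ Set.uIoc (0 : ℝ) 1 → t ∈ Set.Icc (0 : ℝ) 1 := by
    intro t ht
    rw [Set.uIoc_of_le zero_le_one] at ht
    exact ⟨ht.1.le, ht.2⟩
  refine intervalIntegral.hasSum_integral_of_dominated_convergence (fun p _ => u p) ?_ ?_ ?_ ?_ ?_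
  · intro p
    refine ((hc p).mono hsub).aestronglyMeasurable ?_
    rw [Set.uIoc_of_le zero_le_one]
    exact measurableSet_Ioc
  · intro p
    exact Eventually.of_forall fun t ht => hb p t (hsub t ht)
  · exact Eventually.of_forall fun _ _ => hu
  · exact intervalIntegrable_const
  · refine Eventually.of_forall fun t ht => ?_
    exact (Summable.of_norm_bounded hu fun p => hb p t (hsub t ht)).hasSum

/-- the dominating function -/
noncomputable def dom (ε : ℝ) (p : RR × RR) : ℝ :=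
  ((1 + ‖(p.1 : ℂ)‖) ^ 2 * Real.exp (-(ε * Complex.normSq (p.1 : ℂ)))) *
    ((1 + ‖(p.2 : ℂ)‖) ^ 2 * Real.exp (-(ε * Complex.normSq (p.2 : ℂ))))

lemma dom_nonneg (ε : ℝ) (p : RR × RR) : 0 ≤ dom ε p := by
  unfold dom
  positivity

lemma summ_dom2 {ε : ℝ} (hε : 0 < ε) : Summable (dom ε) := summ_dom 2 2 hε

lemma exp_dom {κ Λ : ℝ} {H : HF} (hH : H.Ok κ Λ) {δ : ℝ} (hδ : 0 < δ) (x y : RR) (n : ℕ)
    (hn : n ≤ 2) : (‖(x : ℂ)‖ + ‖(y : ℂ)‖) ^ n * Real.exp (-(δ * H.q x y)) ≤ dom (δ * κ) (x, y) := by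
  unfold dom
  have h3 : Real.exp (-(δ * H.q x y)) ≤ Real.exp (-(δ * κ * Complex.normSq (x : ℂ))) *
      Real.exp (-(δ * κ * Complex.normSq (y : ℂ))) := by
    rw [← Real.exp_add, Real.exp_le_exp]
    have := mul_le_mul_of_nonneg_left (hH.low x y) hδ.le
    linarith
  have hx := norm_nonneg (x : ℂ)
  have hy := norm_nonneg (y : ℂ)
  have h4 : (‖(x : ℂ)‖ + ‖(y : ℂ)‖) ^ n ≤ ((1 + ‖(x : ℂ)‖) * (1 + ‖(y : ℂ)‖)) ^ 2 := by
    have h5 : ‖(x : ℂ)‖ + ‖(y : ℂ)‖ ≤ (1 + ‖(x : ℂ)‖) * (1 + ‖(y : ℂ)‖) := by nlinarith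
    have h6 : 1 ≤ (1 + ‖(x : ℂ)‖) * (1 + ‖(y : ℂ)‖) := by nlinarith
    exact (pow_le_pow_left₀ (by positivity) h5 _).trans (pow_le_pow_right₀ h6 hn)
  calc _ ≤ ((1 + ‖(x : ℂ)‖) * (1 + ‖(y : ℂ)‖)) ^ 2 * (Real.exp (-(δ * κ *
        Complex.normSq (x : ℂ))) * Real.exp (-(δ * κ * Complex.normSq (y : ℂ)))) := by gcongr
    _ = _ := by rw [mul_pow]; ring

lemma Cf.eq_zero {M : ℕ} {K : ℝ} {cf : RR → RR → ℂ} (hcf : Cf M K cf) {x y : RR}
    (h : ¬ (x ≠ 0 ∨ y ≠ 0)) : cf x y = 0 := by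
  push Not at h
  rw [h.1, h.2, hcf.zero]

lemma q_low {κ Λ : ℝ} (hκ : 0 < κ) {H : HF} (hH : H.Ok κ Λ) {x y : RR} (h : x ≠ 0 ∨ y ≠ 0) :
    κ ≤ H.q x y := by
  have h1 := hH.low x y
  have h2 : 1 ≤ Complex.normSq (x : ℂ) + Complex.normSq (y : ℂ) := by
    rcases h with h | h
    · have := one_le_normSq h
      have := Complex.normSq_nonneg (y : ℂ)
      linarith
    · have := one_le_normSq h
      have := Complex.normSq_nonneg (x : ℂ)
      linarith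
  nlinarith

lemma norm_inv_le (x : RR) : ‖(x : ℂ)⁻¹‖ ≤ 1 := by
  by_cases hx : x = 0
  · subst hx
    have : ((0 : RR) : ℂ) = 0 := rfl
    rw [this, inv_zero, norm_zero]
    exact zero_le_one
  · rw [norm_inv]
    exact inv_le_one_of_one_le₀ (one_le_norm hx)

lemma vterm_le {κ Λ K : ℝ} (hκ : 0 < κ) {M : ℕ} {cf : RR → RR → ℂ} (hcf : Cf M K cf) {H H' : HF}
    (hH : H.Ok κ Λ) (hA' : |H'.A| ≤ 2 * Λ) (hB' : ‖H'.B‖ ≤ 2 * Λ) (hC' : |H'.C| ≤ 2 * Λ) {δ : ℝ}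
    (hδ : 0 < δ) (x y : RR) : ‖vterm cf δ H H' x y‖ ≤
      K * (4 * Λ ^ 2 * (1 / κ ^ 2 + δ / κ)) * dom (δ * κ) (x, y) := by
  unfold vterm
  have hK : 0 ≤ K := (norm_nonneg _).trans (hcf.bd 0 0)
  have hΛ : 0 ≤ Λ := (abs_nonneg _).trans hH.a
  by_cases h : x ≠ 0 ∨ y ≠ 0
  · have hq := q_low hκ hH h
    have hq0 : 0 < H.q x y := lt_of_lt_of_le hκ hq
    rw [norm_mul, norm_mul, Complex.norm_real, Real.norm_eq_abs]
    have h1 : |e2 δ (H.q x y)| ≤ (1 / κ ^ 2 + δ / κ) * Real.exp (-(δ * H.q x y)) := by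
      unfold e2
      rw [abs_of_nonneg (by positivity)]
      refine mul_le_mul_of_nonneg_right ?_ (Real.exp_pos _).le
      have e : (1 + δ * H.q x y) / H.q x y ^ 2 = 1 / H.q x y ^ 2 + δ / H.q x y := by
        field_simp
      rw [e]
      gcongr
    have h2 : ‖J H H' x y‖ ≤ 4 * Λ ^ 2 * (‖(x : ℂ)‖ + ‖(y : ℂ)‖) ^ 2 := by
      unfold J
      refine (norm_sub_le _ _).trans ?_
      rw [norm_mul, norm_mul]
      have b1 := nx_le hH.c hH.b x y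
      have b2 := ny_le hH.a hH.b x y
      have b3 := nx_le hC' hB' x y
      have b4 := ny_le hA' hB' x y
      have hs : 0 ≤ ‖(x : ℂ)‖ + ‖(y : ℂ)‖ := by positivity
      calc ‖H.nx x y‖ * ‖H'.ny x y‖ + ‖H.ny x y‖ * ‖H'.nx x y‖
          ≤ (Λ * (‖(x : ℂ)‖ + ‖(y : ℂ)‖)) * (2 * Λ * (‖(x : ℂ)‖ + ‖(y : ℂ)‖)) +
            (Λ * (‖(x : ℂ)‖ + ‖(y : ℂ)‖)) * (2 * Λ * (‖(x : ℂ)‖ + ‖(y : ℂ)‖)) := by
            gcongr
        _ = _ := by ring
    have h3 := exp_dom hH hδ x y 2 le_rfl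
    calc ‖cf x y‖ * (‖J H H' x y‖ * |e2 δ (H.q x y)|)
        ≤ K * (4 * Λ ^ 2 * (‖(x : ℂ)‖ + ‖(y : ℂ)‖) ^ 2 *
          ((1 / κ ^ 2 + δ / κ) * Real.exp (-(δ * H.q x y)))) := by
          gcongr
          exact hcf.bd x y
      _ = K * (4 * Λ ^ 2 * (1 / κ ^ 2 + δ / κ)) * ((‖(x : ℂ)‖ + ‖(y : ℂ)‖) ^ 2 *
          Real.exp (-(δ * H.q x y))) := by ring
      _ ≤ _ := by gcongr
  · rw [hcf.eq_zero h, zero_mul, norm_zero]
    have := dom_nonneg (δ * κ) (x, y)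
    positivity

lemma rterm_le {κ Λ K : ℝ} {M : ℕ} {cf : RR → RR → ℂ} (hcf : Cf M K cf) {H H' : HF}
    (hH : H.Ok κ Λ) (hA' : |H'.A| ≤ 2 * Λ) (hB' : ‖H'.B‖ ≤ 2 * Λ) {δ : ℝ}
    (hδ : 0 < δ) (x y : RR) : ‖rterm cf δ H H' x y‖ ≤ K * (2 * Λ) * dom (δ * κ) (x, y) := by
  unfold rterm
  have hK : 0 ≤ K := (norm_nonneg _).trans (hcf.bd 0 0)
  have hΛ : 0 ≤ Λ := (abs_nonneg _).trans hH.a
  rw [norm_mul, norm_mul, norm_mul, Complex.norm_real, Real.norm_eq_abs, Real.abs_exp]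
  have h1 := norm_inv_le x
  have h2 := ny_le hA' hB' (x : ℂ) y
  have h3 := exp_dom hH hδ x y 1 (by norm_num)
  rw [pow_one] at h3
  calc ‖cf x y‖ * (‖(x : ℂ)⁻¹‖ * (‖H'.ny x y‖ * Real.exp (-(δ * H.q x y))))
      ≤ K * (1 * (2 * Λ * (‖(x : ℂ)‖ + ‖(y : ℂ)‖) * Real.exp (-(δ * H.q x y)))) := by
        gcongr
        exact hcf.bd x y
    _ = K * (2 * Λ) * ((‖(x : ℂ)‖ + ‖(y : ℂ)‖) * Real.exp (-(δ * H.q x y))) := by ring
    _ ≤ _ := by gcongr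

lemma gterm_le {κ Λ K : ℝ} (hκ : 0 < κ) {M : ℕ} {cf : RR → RR → ℂ} (hcf : Cf M K cf) {H : HF}
    (hH : H.Ok κ Λ) {δ : ℝ} (hδ : 0 < δ) (x y : RR) :
    ‖gterm cf δ H x y‖ ≤ K * (Λ / κ) * dom (δ * κ) (x, y) := by
  unfold gterm
  have hK : 0 ≤ K := (norm_nonneg _).trans (hcf.bd 0 0)
  have hΛ : 0 ≤ Λ := (abs_nonneg _).trans hH.a
  by_cases h : x ≠ 0 ∨ y ≠ 0
  · have hq := q_low hκ hH h
    have hq0 : 0 < H.q x y := lt_of_lt_of_le hκ hq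
    rw [norm_mul, norm_mul, norm_mul, norm_div, Complex.norm_real, Real.norm_eq_abs,
      Complex.norm_real, Real.norm_eq_abs, Real.abs_exp, abs_of_pos hq0]
    have h1 := norm_inv_le x
    have h2 := ny_le hH.a hH.b (x : ℂ) y
    have h3 := exp_dom hH hδ x y 1 (by norm_num)
    rw [pow_one] at h3
    calc ‖cf x y‖ * (‖(x : ℂ)⁻¹‖ * (‖H.ny x y‖ / H.q x y * Real.exp (-(δ * H.q x y))))
        ≤ K * (1 * ((Λ * (‖(x : ℂ)‖ + ‖(y : ℂ)‖)) / κ * Real.exp (-(δ * H.q x y)))) := by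
          gcongr
          exact hcf.bd x y
      _ = K * (Λ / κ) * ((‖(x : ℂ)‖ + ‖(y : ℂ)‖) * Real.exp (-(δ * H.q x y))) := by ring
      _ ≤ _ := by gcongr
  · rw [hcf.eq_zero h, zero_mul, norm_zero]
    have := dom_nonneg (δ * κ) (x, y)
    positivity

lemma xterm_le (cf : RR → RR → ℂ) (δ : ℝ) (H H' : HF) (x y : RR) :
    ‖xterm cf δ H H' x y‖ ≤ ‖vterm cf δ H H' x y‖ := by
  unfold xterm
  split_ifs
  · exact le_rfl
  · rw [norm_zero]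
    exact norm_nonneg _

lemma cont_q (H0 H1 : HF) (x y : ℂ) : Continuous (fun τ : ℝ => (line H0 H1 τ).q x y) := by
  simp only [line_q]
  fun_prop

lemma cont_J (H0 H1 H' : HF) (x y : ℂ) : Continuous (fun τ : ℝ => J (line H0 H1 τ) H' x y) := by
  unfold J
  simp only [line_nx, line_ny]
  fun_prop

lemma cont_vterm {κ Λ K : ℝ} (hκ : 0 < κ) {M : ℕ} {cf : RR → RR → ℂ} (hcf : Cf M K cf)
    {H0 H1 : HF} (h0 : H0.Ok κ Λ) (h1 : H1.Ok κ Λ) (H' : HF) (δ : ℝ) (x y : RR) :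
    ContinuousOn (fun τ : ℝ => vterm cf δ (line H0 H1 τ) H' x y) (Set.Icc 0 1) := by
  by_cases h : x ≠ 0 ∨ y ≠ 0
  · unfold vterm e2
    have c1 := (cont_q H0 H1 x y)
    refine ContinuousOn.mul continuousOn_const (((cont_J H0 H1 H' x y).continuousOn).mul ?_)
    refine Complex.continuous_ofReal.comp_continuousOn ?_
    have c1' := c1.continuousOn (s := Set.Icc (0 : ℝ) 1)
    refine ContinuousOn.mul (ContinuousOn.div (continuousOn_const.add (continuousOn_const.mul c1'))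
      (c1'.pow 2) ?_) (Real.continuous_exp.comp_continuousOn ((continuousOn_const.mul c1').neg))
    intro τ hτ
    have := q_low hκ (h0.line h1 hτ) h
    have h2 : 0 < (line H0 H1 τ).q x y := lt_of_lt_of_le hκ this
    positivity
  · unfold vterm
    simp only [hcf.eq_zero h, zero_mul]
    exact continuousOn_const

lemma cont_xterm {κ Λ K : ℝ} (hκ : 0 < κ) {M : ℕ} {cf : RR → RR → ℂ} (hcf : Cf M K cf)
    {H0 H1 : HF} (h0 : H0.Ok κ Λ) (h1 : H1.Ok κ Λ) (H' : HF) (δ : ℝ) (x y : RR) :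
    ContinuousOn (fun τ : ℝ => xterm cf δ (line H0 H1 τ) H' x y) (Set.Icc 0 1) := by
  unfold xterm
  split_ifs
  · exact cont_vterm hκ hcf h0 h1 H' δ x y
  · exact continuousOn_const

lemma cont_rterm (cf : RR → RR → ℂ) (H0 H1 H' : HF) (δ : ℝ) (x y : RR) :
    ContinuousOn (fun τ : ℝ => rterm cf δ (line H0 H1 τ) H' x y) (Set.Icc 0 1) := by
  unfold rterm
  have c1 := (cont_q H0 H1 x y)
  have c2 : Continuous (fun τ : ℝ => (Real.exp (-(δ * (line H0 H1 τ).q x y)) : ℂ)) :=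
    Complex.continuous_ofReal.comp (by fun_prop)
  exact (continuous_const.mul (continuous_const.mul (continuous_const.mul c2))).continuousOn

/-- **Integration along a line.** -/
theorem P1 {κ Λ K : ℝ} (hκ : 0 < κ) {M : ℕ} {cf : RR → RR → ℂ} (hcf : Cf M K cf)
    {H0 H1 : HF} (h0 : H0.Ok κ Λ) (h1 : H1.Ok κ Λ) {δ : ℝ} (hδ : 0 < δ) :
    ∑' p : RR × RR, gterm cf δ H1 p.1 p.2 - ∑' p : RR × RR, gterm cf δ H0 p.1 p.2 =
      (∫ τ in (0 : ℝ)..1, ∑' p : RR × RR, vterm cf δ (line H0 H1 τ) (sub H1 H0) p.1 p.2) -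
      (∫ τ in (0 : ℝ)..1, ∑' p : RR × RR, xterm cf δ (line H0 H1 τ) (sub H1 H0) p.1 p.2) -
      δ * ∫ τ in (0 : ℝ)..1, ∑' p : RR × RR, rterm cf δ (line H0 H1 τ) (sub H1 H0) p.1 p.2 := by
  obtain ⟨sA, sB, sC⟩ := h0.sub h1
  have hd : Summable (dom (δ * κ)) := summ_dom2 (by positivity)
  have s1 := swap01 (F := fun (p : RR × RR) τ => vterm cf δ (line H0 H1 τ) (sub H1 H0) p.1 p.2)
    (hd.mul_left (K * (4 * Λ ^ 2 * (1 / κ ^ 2 + δ / κ))))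
    (fun p => cont_vterm hκ hcf h0 h1 _ δ p.1 p.2)
    (fun p τ hτ => vterm_le hκ hcf (h0.line h1 hτ) sA sB sC hδ p.1 p.2)
  have s2 := swap01 (F := fun (p : RR × RR) τ => xterm cf δ (line H0 H1 τ) (sub H1 H0) p.1 p.2)
    (hd.mul_left (K * (4 * Λ ^ 2 * (1 / κ ^ 2 + δ / κ))))
    (fun p => cont_xterm hκ hcf h0 h1 _ δ p.1 p.2)
    (fun p τ hτ => (xterm_le _ _ _ _ _ _).trans
      (vterm_le hκ hcf (h0.line h1 hτ) sA sB sC hδ p.1 p.2))
  have s3 := swap01 (F := fun (p : RR × RR) τ => rterm cf δ (line H0 H1 τ) (sub H1 H0) p.1 p.2)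
    (hd.mul_left (K * (2 * Λ)))
    (fun p => cont_rterm cf H0 H1 _ δ p.1 p.2)
    (fun p τ hτ => rterm_le hcf (h0.line h1 hτ) sA sB hδ p.1 p.2)
  have g1 : Summable (fun p : RR × RR => gterm cf δ H1 p.1 p.2) :=
    Summable.of_norm_bounded (hd.mul_left _) fun p => gterm_le hκ hcf h1 hδ p.1 p.2
  have g0 : Summable (fun p : RR × RR => gterm cf δ H0 p.1 p.2) :=
    Summable.of_norm_bounded (hd.mul_left _) fun p => gterm_le hκ hcf h0 hδ p.1 p.2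
  have hftc : ∀ p : RR × RR, gterm cf δ H1 p.1 p.2 - gterm cf δ H0 p.1 p.2 =
      (∫ τ in (0 : ℝ)..1, vterm cf δ (line H0 H1 τ) (sub H1 H0) p.1 p.2) -
      (∫ τ in (0 : ℝ)..1, xterm cf δ (line H0 H1 τ) (sub H1 H0) p.1 p.2) -
      δ * ∫ τ in (0 : ℝ)..1, rterm cf δ (line H0 H1 τ) (sub H1 H0) p.1 p.2 := by
    rintro ⟨x, y⟩
    simp only
    have hI : ∀ {f : ℝ → ℂ}, ContinuousOn f (Set.Icc 0 1) → IntervalIntegrable f volume 0 1 :=
      fun hf => ContinuousOn.intervalIntegrable (by rwa [Set.uIcc_of_le zero_le_one])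
    have i1 := hI (cont_vterm hκ hcf h0 h1 (sub H1 H0) δ x y)
    have i2 := hI (cont_xterm hκ hcf h0 h1 (sub H1 H0) δ x y)
    have i3 := hI (cont_rterm cf H0 H1 (sub H1 H0) δ x y)
    rw [← intervalIntegral.integral_sub i1 i2, ← intervalIntegral.integral_const_mul,
      ← intervalIntegral.integral_sub (i1.sub i2) (i3.const_mul _)]
    have e1 : line H0 H1 1 = H1 := by
      unfold line
      cases H1
      simp
    have e0 : line H0 H1 0 = H0 := by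
      unfold line
      cases H0
      simp
    rw [intervalIntegral.integral_eq_sub_of_hasDerivAt
      (f := fun τ : ℝ => gterm cf δ (line H0 H1 τ) x y)]
    · simp only [e1, e0]
    · intro τ hτ
      rw [Set.uIcc_of_le zero_le_one] at hτ
      exact gterm_deriv cf δ H0 H1 x y τ fun h =>
        lt_of_lt_of_le hκ (q_low hκ (h0.line h1 hτ) h)
    · exact (i1.sub i2).sub (i3.const_mul _)
  rw [← g1.tsum_sub g0, tsum_congr hftc]
  rw [(s1.summable.sub s2.summable).tsum_sub (s3.summable.mul_left _), s1.summable.tsum_sub s2.summable,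
    tsum_mul_left, s1.tsum_eq, s2.tsum_eq, s3.tsum_eq]

end Pool.Agent.Y688
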