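import Pool.Agent.Y688.G6

/-!
# The Weierstrass function as a regularized sum
-/

set_option autoImplicit false

open Complex Filter Topology
open scoped PeriodPair

namespace Pool.Agent.Y688

open Pool.Agent.W192.HK Pool.Agent.TH936.CM

/-- the function `(1 + s) exp (-s)` -/
noncomputable def hh (s : ℝ) : ℝ := (1 + s) * Real.exp (-s)

lemma hh_nonneg {s : ℝ} (hs : 0 ≤ s) : 0 ≤ hh s := by
  unfold hh
  positivity

lemma hh_le_one {s : ℝ} : hh s ≤ 1 := by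
  unfold hh
  have h := Real.add_one_le_exp s
  rw [Real.exp_neg, mul_inv_le_iff₀ (Real.exp_pos _)]
  linarith

lemma hh_deriv (s : ℝ) : HasDerivAt hh (-(s * Real.exp (-s))) s := by
  have h1 : HasDerivAt (fun s : ℝ => 1 + s) 1 s := by
    simpa using (hasDerivAt_id s).const_add 1
  have h2 : HasDerivAt (fun s : ℝ => Real.exp (-s)) (-Real.exp (-s)) s := by
    have := ((hasDerivAt_id s).neg).exp
    simpa using this
  refine (h1.mul h2).congr_deriv ?_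
  ring

lemma hh_lip {m s s' : ℝ} (hm : 0 < m) (h1 : m ≤ s) (h2 : m ≤ s') :
    |hh s - hh s'| ≤ |s - s'| / m := by
  have hS : Convex ℝ (Set.Ici m) := convex_Ici m
  have h3 := hS.norm_image_sub_le_of_norm_hasDerivWithin_le (f := hh)
    (f' := fun s => -(s * Real.exp (-s))) (C := 1 / m)
    (fun x _ => (hh_deriv x).hasDerivWithinAt) (fun x hx => by
      have hx' : m ≤ x := hx
      have hx0 : 0 < x := by linarith
      rw [norm_neg, Real.norm_eq_abs, abs_of_pos (by positivity), Real.exp_neg,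
        mul_inv_le_iff₀ (Real.exp_pos _)]
      have h4 := Real.quadratic_le_exp_of_nonneg hx0.le
      have h5 : x ^ 2 ≤ Real.exp x := by
        have h6 := Real.pow_div_factorial_le_exp (x := x) hx0.le 3
        have h7 : ((Nat.factorial 3 : ℕ) : ℝ) = 6 := by norm_num [Nat.factorial]
        rw [h7] at h6
        by_cases hx2 : x ≤ 6
        · by_cases hx3 : x ≤ 2
          · nlinarith
          · push Not at hx3
            have h8 := Real.pow_div_factorial_le_exp (x := x) hx0.le 4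
            have h9 := Real.pow_div_factorial_le_exp (x := x) hx0.le 2
            have hs := Real.sum_le_exp_of_nonneg hx0.le 5
            simp only [Finset.sum_range_succ, Finset.sum_range_zero, Nat.factorial] at hs
            norm_num at hs
            nlinarith [sq_nonneg (x - 2), sq_nonneg (x * (x - 2)), sq_nonneg (x - 3),
              mul_pos hx0 hx0, sq_nonneg (x ^ 2 - 3 * x)]
        · push Not at hx2
          nlinarith [mul_pos hx0 hx0]
      have : 1 / m * Real.exp x ≥ 1 / x * Real.exp x := by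
        gcongr
      have h10 : 1 / x * Real.exp x ≥ x := by
        rw [ge_iff_le, one_div, inv_mul_eq_div, le_div_iff₀ hx0]
        nlinarith
      linarith) h2 h1
  rw [Real.norm_eq_abs, Real.norm_eq_abs] at h3
  calc |hh s - hh s'| ≤ 1 / m * |s - s'| := h3
    _ = _ := by ring

/-- the regularized function `1 / u ^ 2` -/
noncomputable def ff (ε : ℝ) (u : ℂ) : ℂ := (u ^ 2)⁻¹ * (hh (ε * Complex.normSq u) : ℂ)

lemma ff_mul (ε : ℝ) (a u : ℂ) : ff ε (a * u) = (a ^ 2)⁻¹ * ff (ε * Complex.normSq a) u := by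
  unfold ff
  rw [mul_pow, mul_inv, Complex.normSq_mul, mul_assoc, mul_assoc ε]

lemma ff_norm_le {ε : ℝ} (hε : 0 ≤ ε) (u : ℂ) : ‖ff ε u‖ ≤ ‖(u ^ 2)⁻¹‖ := by
  unfold ff
  rw [norm_mul, Complex.norm_real, Real.norm_eq_abs,
    abs_of_nonneg (hh_nonneg (mul_nonneg hε (Complex.normSq_nonneg _)))]
  exact mul_le_of_le_one_right (norm_nonneg _) hh_le_one

lemma hh_cont : Continuous hh := by
  unfold hh
  fun_prop

lemma ff_tendsto (u : ℂ) : Tendsto (fun ε : ℝ => ff ε u) (𝓝[>] 0) (𝓝 ((u ^ 2)⁻¹)) := by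
  have h1 : Continuous (fun ε : ℝ => ff ε u) := by
    unfold ff
    have := hh_cont
    fun_prop
  have h2 := (h1.tendsto 0).mono_left (nhdsWithin_le_nhds (s := Set.Ioi 0))
  have h3 : ff 0 u = (u ^ 2)⁻¹ := by
    unfold ff hh
    simp
  rwa [h3] at h2

lemma ff_diff {ε : ℝ} (hε : 0 < ε) {z v : ℂ} (hv : v ≠ 0) (hz : 2 * ‖z‖ ≤ ‖v‖) :
    ‖ff ε (z + v) - ff ε v‖ ≤ 20 * ‖z‖ * (‖v‖ ^ 3)⁻¹ := by
  have hv0 : 0 < ‖v‖ := norm_pos_iff.2 hv
  have hz0 := norm_nonneg z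
  set u := z + v with hu
  have hu1 : ‖v‖ / 2 ≤ ‖u‖ := by
    have : ‖v‖ ≤ ‖u‖ + ‖z‖ := by
      have e : v = u - z := by rw [hu]; ring
      calc ‖v‖ = ‖u - z‖ := by rw [← e]
        _ ≤ _ := norm_sub_le _ _
    linarith
  have hu2 : ‖u‖ ≤ 3 / 2 * ‖v‖ := by
    have : ‖u‖ ≤ ‖z‖ + ‖v‖ := norm_add_le _ _
    linarith
  have hu0 : 0 < ‖u‖ := by linarith
  have hune : u ≠ 0 := norm_pos_iff.1 hu0
  have e1 : ff ε u - ff ε v = ((u ^ 2)⁻¹ - (v ^ 2)⁻¹) * (hh (ε * Complex.normSq u) : ℂ) +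
      (v ^ 2)⁻¹ * ((hh (ε * Complex.normSq u) - hh (ε * Complex.normSq v) : ℝ) : ℂ) := by
    unfold ff
    push_cast
    ring
  rw [e1]
  refine (norm_add_le _ _).trans ?_
  rw [norm_mul, norm_mul, Complex.norm_real, Complex.norm_real, Real.norm_eq_abs, Real.norm_eq_abs,
    abs_of_nonneg (hh_nonneg (mul_nonneg hε.le (Complex.normSq_nonneg _)))]
  have h1 : ‖(u ^ 2)⁻¹ - (v ^ 2)⁻¹‖ ≤ 10 * ‖z‖ * (‖v‖ ^ 3)⁻¹ := by
    have e2 : (u ^ 2)⁻¹ - (v ^ 2)⁻¹ = -(z * (v + u)) / (u ^ 2 * v ^ 2) := by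
      have : z = u - v := by rw [hu]; ring
      rw [this]
      field_simp
      ring
    rw [e2, norm_div, norm_neg, norm_mul, norm_mul, norm_pow, norm_pow, div_le_iff₀ (by positivity)]
    have h2 : ‖v + u‖ ≤ 5 / 2 * ‖v‖ := (norm_add_le _ _).trans (by linarith)
    have h3 : (‖v‖ / 2) ^ 2 ≤ ‖u‖ ^ 2 := by gcongr
    calc ‖z‖ * ‖v + u‖ ≤ ‖z‖ * (5 / 2 * ‖v‖) := by gcongr
      _ = 10 * ‖z‖ * (‖v‖ ^ 3)⁻¹ * ((‖v‖ / 2) ^ 2 * ‖v‖ ^ 2) := by field_simp; ring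
      _ ≤ _ := by gcongr
  have h4 : |hh (ε * Complex.normSq u) - hh (ε * Complex.normSq v)| ≤ 10 * ‖z‖ / ‖v‖ := by
    have h5 : ε * (‖v‖ ^ 2 / 4) ≤ ε * Complex.normSq u := by
      rw [Complex.normSq_eq_norm_sq]
      have : (‖v‖ / 2) ^ 2 ≤ ‖u‖ ^ 2 := by gcongr
      have e : ‖v‖ ^ 2 / 4 = (‖v‖ / 2) ^ 2 := by ring
      rw [e]
      gcongr
    have h6 : ε * (‖v‖ ^ 2 / 4) ≤ ε * Complex.normSq v := by
      rw [Complex.normSq_eq_norm_sq]
      have : ‖v‖ ^ 2 / 4 ≤ ‖v‖ ^ 2 := by nlinarith [sq_nonneg ‖v‖]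
      gcongr
    refine (hh_lip (by positivity) h5 h6).trans ?_
    rw [div_le_iff₀ (by positivity), ← mul_sub, abs_mul, abs_of_pos hε, Complex.normSq_eq_norm_sq,
      Complex.normSq_eq_norm_sq]
    have h7 : |‖u‖ ^ 2 - ‖v‖ ^ 2| ≤ ‖z‖ * (5 / 2 * ‖v‖) := by
      rw [sq_sub_sq, mul_comm, abs_mul]
      have h8 : |‖u‖ - ‖v‖| ≤ ‖z‖ := by
        refine (abs_norm_sub_norm_le u v).trans ?_
        rw [hu, add_sub_cancel_right]
      have h9 : |‖u‖ + ‖v‖| ≤ 5 / 2 * ‖v‖ := by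
        rw [abs_of_pos (by positivity)]
        linarith
      gcongr
    calc ε * |‖u‖ ^ 2 - ‖v‖ ^ 2| ≤ ε * (‖z‖ * (5 / 2 * ‖v‖)) := by gcongr
      _ = 10 * ‖z‖ / ‖v‖ * (ε * (‖v‖ ^ 2 / 4)) := by field_simp; ring
  have hnn : 0 ≤ hh (ε * Complex.normSq u) :=
    hh_nonneg (mul_nonneg hε.le (Complex.normSq_nonneg _))
  calc ‖(u ^ 2)⁻¹ - (v ^ 2)⁻¹‖ * hh (ε * Complex.normSq u) +
        ‖(v ^ 2)⁻¹‖ * |hh (ε * Complex.normSq u) - hh (ε * Complex.normSq v)|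
      ≤ 10 * ‖z‖ * (‖v‖ ^ 3)⁻¹ * 1 + ‖(v ^ 2)⁻¹‖ * (10 * ‖z‖ / ‖v‖) := by
        gcongr
        exact hh_le_one
    _ = _ := by
        rw [norm_inv, norm_pow]
        field_simp
        ring

variable {L : PeriodPair} {Ω : ℂ}

theorem lim_wp (hL : IsLat L RR Ω) (z : ℂ) :
    Tendsto (fun ε : ℝ => ∑' β : RR, (ff ε (z + Ω * β) - ff ε (Ω * β))) (𝓝[>] 0)
      (𝓝 (℘[L] z)) := by
  classical
  have hΩ := hL.ne
  have hval : ℘[L] z = ∑' β : RR, (((z + Ω * β) ^ 2)⁻¹ - ((Ω * β) ^ 2)⁻¹) := by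
    unfold PeriodPair.weierstrassP
    rw [← ((latE hL).trans (Equiv.neg _)).tsum_eq]
    refine tsum_congr fun β => ?_
    have e : ((((latE hL).trans (Equiv.neg _)) β : L.lattice) : ℂ) = -(Ω * β) := by
      rw [Equiv.trans_apply, Equiv.neg_apply, NegMemClass.coe_neg, latE_coe]
    rw [e, sub_neg_eq_add, neg_sq, one_div, one_div]
  rw [hval]
  set bnd : RR → ℝ := fun β => if 2 * ‖z‖ ≤ ‖Ω * (β : ℂ)‖ ∧ β ≠ 0 then
    20 * ‖z‖ * (‖Ω * (β : ℂ)‖ ^ 3)⁻¹ else ‖((z + Ω * β) ^ 2)⁻¹‖ + ‖((Ω * (β : ℂ)) ^ 2)⁻¹‖ with hbnd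
  have hs3 : Summable (fun β : RR => (‖Ω * (β : ℂ)‖ ^ 3)⁻¹) := by
    have := summ3 hL 0
    exact this.congr fun β => by rw [zero_add]
  have hfin : ∀ᶠ β : RR in cofinite, 2 * ‖z‖ ≤ ‖Ω * (β : ℂ)‖ ∧ β ≠ 0 := by
    have h0 : ∀ᶠ β : RR in cofinite, β ≠ 0 := by
      have : ({0} : Set RR)ᶜ ∈ (cofinite : Filter RR) := (Set.finite_singleton (0 : RR)).compl_mem_cofinite
      filter_upwards [this] with β hβ
      exact hβ
    have h1 := hs3.tendsto_cofinite_zero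
    have hB : 0 < (2 * ‖z‖ + 1) ^ 3 := by positivity
    have h2 := h1.eventually (gt_mem_nhds (inv_pos.2 hB))
    filter_upwards [h2, h0] with β hβ hβ0
    refine ⟨?_, hβ0⟩
    have hne : Ω * (β : ℂ) ≠ 0 := mul_ne_zero hΩ fun h => hβ0 (Subtype.ext h)
    have h3 : 0 < ‖Ω * (β : ℂ)‖ := norm_pos_iff.2 hne
    rw [inv_lt_inv₀ (by positivity) hB] at hβ
    have h5 := lt_of_pow_lt_pow_left₀ 3 h3.le hβ
    linarith
  have hb : Summable bnd := by
    refine (hs3.mul_left (20 * ‖z‖)).congr_cofinite ?_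
    filter_upwards [hfin] with β hβ
    simp only [hbnd]
    rw [if_pos hβ]
  refine tendsto_tsum_of_dominated_convergence (bound := bnd) hb ?_ ?_
  · intro β
    exact (ff_tendsto _).sub (ff_tendsto _)
  · filter_upwards [self_mem_nhdsWithin] with ε (hε : 0 < ε) β
    simp only [hbnd]
    split_ifs with h
    · exact ff_diff hε (mul_ne_zero hΩ fun h' => h.2 (Subtype.ext h')) h.1
    · exact (norm_sub_le _ _).trans (add_le_add (ff_norm_le hε.le _) (ff_norm_le hε.le _))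

lemma summ_ff {ε : ℝ} (hε : 0 < ε) (z : ℂ) : Summable (fun β : RR => ff ε (z + β)) := by
  -- for `‖u‖ ≥ 1` the term is bounded by a Gaussian
  have h2 : ∀ u : ℂ, 1 ≤ ‖u‖ → ‖ff ε u‖ ≤ 2 * ‖gt 0 (ε / 2) u‖ := by
    intro u hu
    unfold ff
    rw [norm_gt, pow_zero, one_mul, norm_mul, norm_inv, norm_pow, Complex.norm_real,
      Real.norm_eq_abs, abs_of_nonneg (hh_nonneg (mul_nonneg hε.le (Complex.normSq_nonneg _)))]
    have h3 : (‖u‖ ^ 2)⁻¹ ≤ 1 := inv_le_one_of_one_le₀ (one_le_pow₀ hu)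
    have hs : 0 ≤ ε * Complex.normSq u := mul_nonneg hε.le (Complex.normSq_nonneg _)
    have h4 : hh (ε * Complex.normSq u) ≤ 2 * Real.exp (-(ε / 2 * Complex.normSq u)) := by
      unfold hh
      set s := ε * Complex.normSq u with hs'
      have e : ε / 2 * Complex.normSq u = s / 2 := by rw [hs']; ring
      have e2 : Real.exp (-s) = Real.exp (-(s / 2)) * Real.exp (-(s / 2)) := by
        rw [← Real.exp_add]
        congr 1
        ring
      rw [e, e2, ← mul_assoc]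
      refine mul_le_mul_of_nonneg_right ?_ (Real.exp_pos _).le
      rw [Real.exp_neg, mul_inv_le_iff₀ (Real.exp_pos _)]
      have := Real.add_one_le_exp (s / 2)
      nlinarith
    have hnn : 0 ≤ hh (ε * Complex.normSq u) := hh_nonneg hs
    calc (‖u‖ ^ 2)⁻¹ * hh (ε * Complex.normSq u) ≤ 1 * (2 * Real.exp (-(ε / 2 * Complex.normSq u))) := by
          gcongr
      _ = _ := by ring
  have hg := ((qp 0 z (δ := ε / 2) (by positivity)).1.norm.mul_left 2)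
  -- all but finitely many `β` have `1 ≤ ‖β + z‖`
  have hfin : ∀ᶠ β : RR in cofinite, 1 ≤ ‖z + (β : ℂ)‖ := by
    have h3 := summable_inv_cube.tendsto_cofinite_zero
    have hB : 0 < (‖z‖ + 1) ^ 3 := by positivity
    have h4 := h3.eventually (gt_mem_nhds (inv_pos.2 hB))
    have h0 : ∀ᶠ β : RR in cofinite, β ≠ 0 := by
      have : ({0} : Set RR)ᶜ ∈ (cofinite : Filter RR) := (Set.finite_singleton (0 : RR)).compl_mem_cofinite
      filter_upwards [this] with β hβ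
      exact hβ
    filter_upwards [h4, h0] with β hβ hβ0
    have hne : (β : ℂ) ≠ 0 := fun h => hβ0 (Subtype.ext h)
    have h5 : 0 < ‖(β : ℂ)‖ := norm_pos_iff.2 hne
    rw [inv_lt_inv₀ (by positivity) hB] at hβ
    have h6 := lt_of_pow_lt_pow_left₀ 3 h5.le hβ
    have h7 : ‖(β : ℂ)‖ ≤ ‖z + (β : ℂ)‖ + ‖z‖ := by
      have e : (β : ℂ) = (z + β) - z := by ring
      calc ‖(β : ℂ)‖ = ‖(z + β) - z‖ := by rw [← e]
        _ ≤ _ := norm_sub_le _ _
    linarith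
  refine Summable.of_norm_bounded_eventually hg ?_
  filter_upwards [hfin] with β hβ
  have := h2 _ hβ
  rwa [add_comm z] at this ⊢

end Pool.Agent.Y688
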