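import Pool.Agent.Y688.G7

/-!
# The limit form of the integration along a line
-/

set_option autoImplicit false

open Complex Filter Topology MeasureTheory
open scoped PeriodPair

namespace Pool.Agent.Y688

open Pool.Agent.W192.HK Pool.Agent.TH936.CM HF

variable {L : PeriodPair} {Ω : ℂ}

theorem s2_lim (hL : IsLat L RR Ω) (M : ℕ) [NeZero M] {b : RR → ℂ} (hp : Per M b) {K : ℝ}
    (hb : ∀ y, ‖b y‖ ≤ K) (h0 : ∑ q : RM M, b q.out = 0) :
    Tendsto (fun ε : ℝ => ∑' y : RR, b y * ff ε y) (𝓝[>] 0)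
      (𝓝 ((Ω / M) ^ 2 * ∑ q : RM M, b q.out * ℘[L] (Ω * (q.out : RR) / M))) := by
  have hM : 0 < M := Nat.pos_of_ne_zero (NeZero.ne M)
  have hMC : (M : ℂ) ≠ 0 := by exact_mod_cast hM.ne'
  have hMR : (0 : ℝ) < M := by exact_mod_cast hM
  have hΩ := hL.ne
  have hn : 0 < Complex.normSq ((M : ℂ) / Ω) := Complex.normSq_pos.2 (div_ne_zero hMC hΩ)
  have hlim : Tendsto (fun ε : ℝ => ε * Complex.normSq ((M : ℂ) / Ω)) (𝓝[>] 0) (𝓝[>] 0) := by
    rw [tendsto_nhdsWithin_iff]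
    constructor
    · have h1 : Continuous (fun ε : ℝ => ε * Complex.normSq ((M : ℂ) / Ω)) := by fun_prop
      have h2 := (h1.tendsto 0).mono_left (nhdsWithin_le_nhds (s := Set.Ioi 0))
      simpa using h2
    · filter_upwards [self_mem_nhdsWithin] with ε (hε : 0 < ε)
      show 0 < ε * Complex.normSq ((M : ℂ) / Ω)
      positivity
  have h1 : Tendsto (fun ε : ℝ => (Ω / M) ^ 2 * ∑ q : RM M, b q.out *
      ∑' β : RR, (ff (ε * Complex.normSq ((M : ℂ) / Ω)) (Ω * (q.out : RR) / M + Ω * β) -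
        ff (ε * Complex.normSq ((M : ℂ) / Ω)) (Ω * β))) (𝓝[>] 0)
      (𝓝 ((Ω / M) ^ 2 * ∑ q : RM M, b q.out * ℘[L] (Ω * (q.out : RR) / M))) := by
    refine Tendsto.const_mul _ (tendsto_finsetSum _ fun q _ => Tendsto.const_mul _ ?_)
    exact (lim_wp hL _).comp hlim
  refine h1.congr' ?_
  filter_upwards [self_mem_nhdsWithin] with ε (hε : 0 < ε)
  have hs0 : Summable (fun y : RR => ff ε (y : ℂ)) := by
    have := summ_ff hε 0
    exact this.congr fun β => by rw [zero_add]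
  have hs : Summable (fun y : RR => b y * ff ε y) := by
    refine Summable.of_norm_bounded (hs0.norm.mul_left K) fun y => ?_
    rw [norm_mul]
    exact mul_le_mul_of_nonneg_right (hb y) (norm_nonneg _)
  set ε' := ε * Complex.normSq ((M : ℂ) / Ω) with hε'
  have hε'0 : 0 < ε' := by positivity
  have hsz : ∀ z : ℂ, Summable (fun β : RR => ff ε' (z + Ω * β)) := by
    intro z
    have h2 := (summ_ff (ε := ε' * Complex.normSq Ω) (mul_pos hε'0 (Complex.normSq_pos.2 hΩ))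
      (z / Ω)).mul_left ((Ω ^ 2)⁻¹)
    refine h2.congr fun β => ?_
    rw [← ff_mul]
    congr 1
    field_simp
  rw [tsum_prt M hM _ hs, Finset.mul_sum]
  have e1 : ∀ q : RM M, ∑' β : RR, b (q.out + M * β) * ff ε ((q.out + M * β : RR) : ℂ) =
      (Ω / M) ^ 2 * (b q.out * ∑' β : RR, ff ε' (Ω * (q.out : RR) / M + Ω * β)) := by
    intro q
    rw [← tsum_mul_left, ← tsum_mul_left]
    refine tsum_congr fun β => ?_
    have e1 : b (q.out + M * β) = b q.out := by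
      refine hp _ _ ?_
      rw [add_sub_cancel_left, Ideal.mem_span_singleton']
      exact ⟨β, by ring⟩
    have e2 : ((q.out + M * β : RR) : ℂ) = (M / Ω) * (Ω * (q.out : RR) / M + Ω * β) := by
      push_cast
      field_simp
    rw [e1, e2, ff_mul, ← hε']
    have e3 : (((M : ℂ) / Ω) ^ 2)⁻¹ = (Ω / M) ^ 2 := by
      rw [← inv_pow, inv_div]
    rw [e3]
    ring
  rw [Finset.sum_congr rfl fun q _ => e1 q, ← Finset.mul_sum]
  have e2 : ∑ q : RM M, b q.out * ∑' β : RR, ff ε' (Ω * β) = 0 := by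
    rw [← Finset.sum_mul, h0, zero_mul]
  have hsO : Summable (fun β : RR => ff ε' (Ω * β)) := by
    have := hsz 0
    exact this.congr fun β => by rw [zero_add]
  rw [← Finset.mul_sum]
  congr 1
  rw [← sub_zero (∑ q : RM M, b q.out * ∑' β : RR, ff ε' (Ω * (q.out : RR) / M + Ω * β)), ← e2,
    ← Finset.sum_sub_distrib]
  refine Finset.sum_congr rfl fun q _ => ?_
  rw [(hsz _).tsum_sub hsO]
  ring

lemma xterm_eq (cf : RR → RR → ℂ) (δ : ℝ) {H H' : HF} (hA : H.A ≠ 0) :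
    ∑' p : RR × RR, xterm cf δ H H' p.1 p.2 =
      ((H.A * H'.B - H.B * H'.A) / (H.A : ℂ) ^ 2) * ∑' y : RR, cf 0 y * ff (δ * H.A) y := by
  classical
  have hinj : Function.Injective (fun y : RR => ((0, y) : RR × RR)) := fun a b h =>
    (Prod.mk.inj h).2
  have hsupp : Function.support (fun p : RR × RR => xterm cf δ H H' p.1 p.2) ⊆
      Set.range (fun y : RR => ((0, y) : RR × RR)) := by
    rintro ⟨x, y⟩ h
    by_cases hx : x = 0
    · exact ⟨y, by rw [hx]⟩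
    · exfalso
      apply h
      unfold xterm
      simp only
      rw [if_neg hx]
  rw [← hinj.tsum_eq hsupp, ← tsum_mul_left]
  refine tsum_congr fun y => ?_
  have hz : ((0 : RR) : ℂ) = 0 := rfl
  have hAC : (H.A : ℂ) ≠ 0 := by exact_mod_cast hA
  unfold xterm vterm J nx ny q e2 ff hh
  simp only [if_true, hz, map_zero, mul_zero, zero_sub, sub_zero, zero_mul, Complex.zero_re,
    add_zero]
  by_cases hy : y = 0
  · subst hy
    simp only [hz, map_zero, mul_zero, neg_zero]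
    simp
  have hyC : (y : ℂ) ≠ 0 := fun h => hy (Subtype.ext h)
  have hyc : (starRingEnd ℂ) (y : ℂ) ≠ 0 := (map_ne_zero _).2 hyC
  have hn : ((Complex.normSq (y : ℂ) : ℝ) : ℂ) = (starRingEnd ℂ) (y : ℂ) * y :=
    Complex.normSq_eq_conj_mul_self
  have hassoc : δ * (H.A * Complex.normSq (y : ℂ)) = δ * H.A * Complex.normSq (y : ℂ) := by ring
  rw [hassoc]
  push_cast
  rw [hn]
  field_simp
  ring

theorem P1lim {κ Λ K : ℝ} (hκ : 0 < κ) {M : ℕ} [NeZero M] {cf : RR → RR → ℂ} (hcf : Cf M K cf)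
    (hmz : Mz M cf) {H0 H1 : HF} (h0 : H0.Ok κ Λ) (h1 : H1.Ok κ Λ) {S2 : ℂ}
    (hS2 : Tendsto (fun ε : ℝ => ∑' y : RR, cf 0 y * ff ε y) (𝓝[>] 0) (𝓝 S2)) :
    Tendsto (fun δ : ℝ => ∑' p : RR × RR, gterm cf δ H1 p.1 p.2 -
      ∑' p : RR × RR, gterm cf δ H0 p.1 p.2 -
      ∫ τ in (0 : ℝ)..1, ∑' p : RR × RR, vterm cf δ (line H0 H1 τ) (sub H1 H0) p.1 p.2)
      (𝓝[>] 0) (𝓝 (-(H1.B / H1.A - H0.B / H0.A) * S2)) := by
  have hK : 0 ≤ K := (norm_nonneg _).trans (hcf.bd 0 0)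
  have hΛ : 0 ≤ Λ := (abs_nonneg _).trans h0.a
  obtain ⟨sA, sB, sC⟩ := h0.sub h1
  have hApos : ∀ τ ∈ Set.Icc (0 : ℝ) 1, κ ≤ (line H0 H1 τ).A := fun τ hτ => (h0.line h1 hτ).kA
  -- the derivative of `z`
  set zd : ℝ → ℂ := fun τ => (((line H0 H1 τ).A : ℂ) * (sub H1 H0).B - (line H0 H1 τ).B *
    (sub H1 H0).A) / ((line H0 H1 τ).A : ℂ) ^ 2 with hzd
  have hlA : Continuous (fun τ : ℝ => ((line H0 H1 τ).A : ℂ)) := by
    unfold line
    fun_prop
  have hlB : Continuous (fun τ : ℝ => (line H0 H1 τ).B) := by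
    unfold line
    fun_prop
  have hAne : ∀ τ ∈ Set.Icc (0 : ℝ) 1, ((line H0 H1 τ).A : ℂ) ≠ 0 := by
    intro τ hτ h
    have h2 : (line H0 H1 τ).A = 0 := by exact_mod_cast h
    have := hApos τ hτ
    linarith
  have hzdc : ContinuousOn zd (Set.Icc 0 1) := by
    refine ContinuousOn.div (by fun_prop) (by fun_prop) fun τ hτ => pow_ne_zero 2 (hAne τ hτ)
  have hzdi : IntervalIntegrable zd volume 0 1 :=
    ContinuousOn.intervalIntegrable (by rwa [Set.uIcc_of_le zero_le_one])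
  have hzint : ∫ τ in (0 : ℝ)..1, zd τ = H1.B / H1.A - H0.B / H0.A := by
    rw [intervalIntegral.integral_eq_sub_of_hasDerivAt
      (f := fun τ : ℝ => (line H0 H1 τ).B / ((line H0 H1 τ).A : ℂ))]
    · unfold line
      simp
    · intro τ hτ
      rw [Set.uIcc_of_le zero_le_one] at hτ
      have dA : HasDerivAt (fun τ : ℝ => ((line H0 H1 τ).A : ℂ)) ((sub H1 H0).A : ℂ) τ := by
        have hr : HasDerivAt (fun τ : ℝ => (line H0 H1 τ).A) ((sub H1 H0).A) τ := by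
          unfold line sub
          have := ((hasDerivAt_id τ).mul_const (H1.A - H0.A)).const_add H0.A
          simpa using this
        exact hr.ofReal_comp
      have dB : HasDerivAt (fun τ : ℝ => (line H0 H1 τ).B) ((sub H1 H0).B) τ := by
        unfold line sub
        have := ((Complex.ofRealCLM.hasDerivAt (x := τ)).mul_const (H1.B - H0.B)).const_add H0.B
        simpa using this
      refine (dB.div dA (hAne τ hτ)).congr_deriv ?_
      simp only [hzd]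
      ring
    · exact hzdi
  have hzdle : ∀ τ ∈ Set.Icc (0 : ℝ) 1, ‖zd τ‖ ≤ 4 * Λ ^ 2 / κ ^ 2 := by
    intro τ hτ
    have hl := h0.line h1 hτ
    have hk := hApos τ hτ
    simp only [hzd]
    rw [norm_div, norm_pow, Complex.norm_real, Real.norm_eq_abs,
      abs_of_pos (lt_of_lt_of_le hκ hk)]
    have h2 : ‖((line H0 H1 τ).A : ℂ) * (sub H1 H0).B - (line H0 H1 τ).B * (sub H1 H0).A‖ ≤
        4 * Λ ^ 2 := by
      refine (norm_sub_le _ _).trans ?_
      rw [norm_mul, norm_mul, Complex.norm_real, Complex.norm_real, Real.norm_eq_abs,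
        Real.norm_eq_abs]
      have := hl.a
      have := hl.b
      calc |(line H0 H1 τ).A| * ‖(sub H1 H0).B‖ + ‖(line H0 H1 τ).B‖ * |(sub H1 H0).A|
          ≤ Λ * (2 * Λ) + Λ * (2 * Λ) := by gcongr
        _ = _ := by ring
    gcongr
  -- the first part
  have hX : Tendsto (fun δ : ℝ => ∫ τ in (0 : ℝ)..1, ∑' p : RR × RR,
      xterm cf δ (line H0 H1 τ) (sub H1 H0) p.1 p.2) (𝓝[>] 0)
      (𝓝 ((H1.B / H1.A - H0.B / H0.A) * S2)) := by
    rw [Metric.tendsto_nhds]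
    intro η hη
    set D : ℝ := 4 * Λ ^ 2 / κ ^ 2 + 1 with hD
    have hD0 : 0 < D := by positivity
    rw [Metric.tendsto_nhds] at hS2
    have hS2' := hS2 (η / (2 * D)) (by positivity)
    obtain ⟨e0, he0, hS3⟩ := (mem_nhdsGT_iff_exists_Ioo_subset' (u' := (1 : ℝ)) (by norm_num)).1 hS2'
    have he0' : (0 : ℝ) < e0 := he0
    have hev : ∀ᶠ δ : ℝ in 𝓝[>] 0, δ < e0 / (Λ + 1) := by
      refine (gt_mem_nhds ?_).filter_mono nhdsWithin_le_nhds
      positivity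
    filter_upwards [self_mem_nhdsWithin, hev] with δ (hδ : 0 < δ) hδ2
    rw [← hzint, ← intervalIntegral.integral_mul_const, dist_eq_norm]
    have hcx : ContinuousOn (fun τ : ℝ => ∑' p : RR × RR, xterm cf δ (line H0 H1 τ) (sub H1 H0)
        p.1 p.2) (Set.Icc 0 1) := by
      refine continuousOn_tsum (fun p => cont_xterm hκ hcf h0 h1 (sub H1 H0) δ p.1 p.2)
        ((summ_dom2 (ε := δ * κ) (by positivity)).mul_left (K * (4 * Λ ^ 2 * (1 / κ ^ 2 + δ / κ))))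
        fun p τ hτ => (xterm_le _ _ _ _ _ _).trans
          (vterm_le hκ hcf (h0.line h1 hτ) sA sB sC hδ p.1 p.2)
    have hcxi : IntervalIntegrable (fun τ : ℝ => ∑' p : RR × RR, xterm cf δ (line H0 H1 τ)
        (sub H1 H0) p.1 p.2) volume 0 1 :=
      ContinuousOn.intervalIntegrable (by rwa [Set.uIcc_of_le zero_le_one])
    rw [← intervalIntegral.integral_sub hcxi (hzdi.mul_const _)]
    have hbd : ∀ τ ∈ Set.uIoc (0 : ℝ) 1, ‖(∑' p : RR × RR, xterm cf δ (line H0 H1 τ) (sub H1 H0)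
        p.1 p.2) - zd τ * S2‖ ≤ D * (η / (2 * D)) := by
      intro τ hτ
      rw [Set.uIoc_of_le zero_le_one] at hτ
      have hτ' : τ ∈ Set.Icc (0 : ℝ) 1 := ⟨hτ.1.le, hτ.2⟩
      have hk := hApos τ hτ'
      have hl := (h0.line h1 hτ').a
      have hA0 : 0 < (line H0 H1 τ).A := lt_of_lt_of_le hκ hk
      rw [xterm_eq cf δ hA0.ne']
      have e : (((line H0 H1 τ).A : ℂ) * (sub H1 H0).B - (line H0 H1 τ).B * (sub H1 H0).A) /
          ((line H0 H1 τ).A : ℂ) ^ 2 = zd τ := rfl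
      rw [e, ← mul_sub, norm_mul]
      have hin : δ * (line H0 H1 τ).A ∈ Set.Ioo (0 : ℝ) e0 := by
        refine ⟨by positivity, ?_⟩
        have h3 : (line H0 H1 τ).A ≤ Λ := (le_abs_self _).trans hl
        rw [lt_div_iff₀ (by positivity)] at hδ2
        calc δ * (line H0 H1 τ).A ≤ δ * (Λ + 1) := by gcongr; linarith
          _ < e0 := hδ2
      have h4 := hS3 hin
      have h5 : dist (∑' y : RR, cf 0 y * ff (δ * (line H0 H1 τ).A) y) S2 < η / (2 * D) := h4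
      rw [dist_eq_norm] at h5
      have h6 := hzdle τ hτ'
      have h7 : ‖zd τ‖ ≤ D := by rw [hD]; linarith
      gcongr
    have h8 := intervalIntegral.norm_integral_le_of_norm_le_const hbd
    have e9 : D * (η / (2 * D)) * |(1 : ℝ) - 0| = η / 2 := by
      rw [sub_zero, abs_one, mul_one]
      field_simp
    rw [e9] at h8
    linarith
  -- the second part
  obtain ⟨C1, c1, hC1, hc1, d1⟩ := dbl M (Λ := Λ) hκ hK 0 1
  obtain ⟨C2, c2, hC2, hc2, d2⟩ := dbl M (Λ := Λ) hκ hK 0 0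
  have hR : ∀ δ : ℝ, 0 < δ → ∀ τ ∈ Set.Icc (0 : ℝ) 1, ‖∑' p : RR × RR,
      rterm cf δ (line H0 H1 τ) (sub H1 H0) p.1 p.2‖ ≤ 2 * Λ * (C1 + C2) := by
    intro δ hδ τ hτ
    have hl := h0.line h1 hτ
    set ξ1 : RR → ℂ := fun x => (x : ℂ)⁻¹ with hξ1
    set ξ2 : RR → ℂ := fun x => (x : ℂ)⁻¹ * (starRingEnd ℂ) (x : ℂ) with hξ2
    have b1 : ∀ x : RR, ‖ξ1 x‖ ≤ (1 + ‖(x : ℂ)‖) ^ 0 := fun x => by
      rw [pow_zero]
      exact norm_inv_le x
    have b2 : ∀ x : RR, ‖ξ2 x‖ ≤ (1 + ‖(x : ℂ)‖) ^ 0 := fun x => by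
      rw [pow_zero, hξ2]
      simp only
      rw [norm_mul, RCLike.norm_conj, norm_inv]
      by_cases hx : ‖(x : ℂ)‖ = 0
      · rw [hx]; simp
      · rw [inv_mul_cancel₀ hx]
    have e : ∀ p : RR × RR, rterm cf δ (line H0 H1 τ) (sub H1 H0) p.1 p.2 =
        ((sub H1 H0).A : ℂ) * tt cf ξ1 1 δ (line H0 H1 τ) p.1 p.2 -
        (starRingEnd ℂ) (sub H1 H0).B * tt cf ξ2 0 δ (line H0 H1 τ) p.1 p.2 := by
      rintro ⟨x, y⟩
      unfold rterm tt ny
      simp only [hξ1, hξ2]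
      ring
    have s1 := tt_summable hκ hcf.toCb hl b1 1 hδ
    have s2 := tt_summable hκ hcf.toCb hl b2 0 hδ
    rw [tsum_congr e, (s1.mul_left _).tsum_sub (s2.mul_left _), tsum_mul_left, tsum_mul_left]
    refine (norm_sub_le _ _).trans ?_
    rw [norm_mul, norm_mul, RCLike.norm_conj, Complex.norm_real, Real.norm_eq_abs]
    have k1 := d1 cf hcf hmz _ hl ξ1 b1 δ hδ
    have k2 := d2 cf hcf hmz _ hl ξ2 b2 δ hδ
    have k3 : Real.exp (-(c1 * (δ + 1 / δ))) ≤ 1 := by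
      rw [Real.exp_le_one_iff]
      have : 0 < c1 * (δ + 1 / δ) := by positivity
      linarith
    have k4 : Real.exp (-(c2 * (δ + 1 / δ))) ≤ 1 := by
      rw [Real.exp_le_one_iff]
      have : 0 < c2 * (δ + 1 / δ) := by positivity
      linarith
    have k1' : ‖∑' p : RR × RR, tt cf ξ1 1 δ (line H0 H1 τ) p.1 p.2‖ ≤ C1 :=
      k1.trans (mul_le_of_le_one_right hC1.le k3)
    have k2' : ‖∑' p : RR × RR, tt cf ξ2 0 δ (line H0 H1 τ) p.1 p.2‖ ≤ C2 :=
      k2.trans (mul_le_of_le_one_right hC2.le k4)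
    calc |(sub H1 H0).A| * ‖∑' p : RR × RR, tt cf ξ1 1 δ (line H0 H1 τ) p.1 p.2‖ +
        ‖(sub H1 H0).B‖ * ‖∑' p : RR × RR, tt cf ξ2 0 δ (line H0 H1 τ) p.1 p.2‖
        ≤ 2 * Λ * C1 + 2 * Λ * C2 := by gcongr
      _ = _ := by ring
  have hR2 : Tendsto (fun δ : ℝ => (δ : ℂ) * ∫ τ in (0 : ℝ)..1, ∑' p : RR × RR,
      rterm cf δ (line H0 H1 τ) (sub H1 H0) p.1 p.2) (𝓝[>] 0) (𝓝 0) := by
    have hz : Tendsto (fun δ : ℝ => δ * (2 * Λ * (C1 + C2))) (𝓝[>] 0) (𝓝 0) := by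
      have h6 : Continuous (fun δ : ℝ => δ * (2 * Λ * (C1 + C2))) := by fun_prop
      have h7 := (h6.tendsto 0).mono_left (nhdsWithin_le_nhds (s := Set.Ioi 0))
      simpa using h7
    refine squeeze_zero_norm' ?_ hz
    filter_upwards [self_mem_nhdsWithin] with δ (hδ : 0 < δ)
    rw [norm_mul, Complex.norm_real, Real.norm_eq_abs, abs_of_pos hδ]
    refine mul_le_mul_of_nonneg_left ?_ hδ.le
    have h8 := intervalIntegral.norm_integral_le_of_norm_le_const (a := (0 : ℝ)) (b := 1)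
      (f := fun τ : ℝ => ∑' p : RR × RR, rterm cf δ (line H0 H1 τ) (sub H1 H0) p.1 p.2)
      (C := 2 * Λ * (C1 + C2)) (fun τ hτ => by
        rw [Set.uIoc_of_le zero_le_one] at hτ
        exact hR δ hδ τ ⟨hτ.1.le, hτ.2⟩)
    rwa [sub_zero, abs_one, mul_one] at h8
  have hfin := (hX.add hR2).neg
  rw [add_zero] at hfin
  have e10 : -((H1.B / H1.A - H0.B / H0.A) * S2) = -(H1.B / H1.A - H0.B / H0.A) * S2 := by ring
  rw [e10] at hfin
  refine hfin.congr' ?_
  filter_upwards [self_mem_nhdsWithin] with δ (hδ : 0 < δ)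
  rw [P1 hκ hcf h0 h1 hδ]
  ring

end Pool.Agent.Y688
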