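import Pool.Agent.Y688.G8

/-!
# The cocycle relation
-/

set_option autoImplicit false

open Complex Filter Topology MeasureTheory

namespace Pool.Agent.Y688

open Pool.Agent.W192.HK Pool.Agent.TH936.CM HF

namespace HF

/-- positive definite forms -/
def Pos (H : HF) : Prop := 0 < H.A ∧ Complex.normSq H.B < H.A * H.C

lemma Ok.mono {κ κ' Λ Λ' : ℝ} {H : HF} (h : H.Ok κ Λ) (hκ : κ' ≤ κ) (hΛ : Λ ≤ Λ') : H.Ok κ' Λ' := by
  refine ⟨fun x y => ?_, h.a.trans hΛ, h.b.trans hΛ, h.c.trans hΛ⟩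
  refine le_trans ?_ (h.low x y)
  have := Complex.normSq_nonneg x
  have := Complex.normSq_nonneg y
  gcongr

lemma Pos.ok {H : HF} (h : H.Pos) : ∃ κ Λ : ℝ, 0 < κ ∧ H.Ok κ Λ := by
  obtain ⟨hA, hd⟩ := h
  set z := H.B / H.A with hz
  set q0 := H.C - Complex.normSq H.B / H.A with hq0
  have hq0p : 0 < q0 := by
    rw [hq0, sub_pos, div_lt_iff₀ hA]
    linarith
  set N := Complex.normSq z with hN
  have hN0 : 0 ≤ N := Complex.normSq_nonneg _
  -- `κ (1 + 2 N) ≤ q0` and `2 κ ≤ A`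
  set κ := min (q0 / (1 + 2 * N)) (H.A / 2) with hκ
  have hκ0 : 0 < κ := lt_min (by positivity) (by positivity)
  have hκ1 : κ * (1 + 2 * N) ≤ q0 := by
    have := min_le_left (q0 / (1 + 2 * N)) (H.A / 2)
    rw [← hκ, le_div_iff₀ (by positivity)] at this
    exact this
  have hκ2 : 2 * κ ≤ H.A := by
    have := min_le_right (q0 / (1 + 2 * N)) (H.A / 2)
    rw [← hκ] at this
    linarith
  refine ⟨κ, max (max |H.A| ‖H.B‖) |H.C|, hκ0, fun x y => ?_, ?_, ?_, le_max_right _ _⟩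
  · rw [H.decomp hA]
    have h1 : Complex.normSq y ≤ 2 * Complex.normSq (y - z * x) + 2 * (N * Complex.normSq x) := by
      have e : y = (y - z * x) + z * x := by ring
      have h2 : ‖y‖ ≤ ‖y - z * x‖ + ‖z * x‖ := by
        conv_lhs => rw [e]
        exact norm_add_le _ _
      rw [hN, ← Complex.normSq_mul, Complex.normSq_eq_norm_sq, Complex.normSq_eq_norm_sq,
        Complex.normSq_eq_norm_sq]
      nlinarith [norm_nonneg y, norm_nonneg (y - z * x), norm_nonneg (z * x),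
        sq_nonneg (‖y - z * x‖ - ‖z * x‖)]
    have h3 := Complex.normSq_nonneg x
    have h4 := Complex.normSq_nonneg (y - z * x)
    calc κ * (Complex.normSq x + Complex.normSq y)
        ≤ κ * (Complex.normSq x + (2 * Complex.normSq (y - z * x) + 2 * (N * Complex.normSq x))) := by
          gcongr
      _ = 2 * κ * Complex.normSq (y - z * x) + κ * (1 + 2 * N) * Complex.normSq x := by ring
      _ ≤ _ := by gcongr
  · exact (le_max_left _ _).trans (le_max_left _ _)
  · exact (le_max_right _ _).trans (le_max_left _ _)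

/-- the action of `(x, y) ↦ (y, t y - x)` on forms -/
noncomputable def gF (t : ℂ) (H : HF) : HF :=
  ⟨H.C, H.C * t - (starRingEnd ℂ) H.B, H.A - 2 * (H.B * t).re + H.C * Complex.normSq t⟩

/-- multiples of a form -/
noncomputable def sc (c : ℝ) (H : HF) : HF := ⟨c * H.A, c * H.B, c * H.C⟩

lemma gF_ny (t : ℂ) (H : HF) (x y : ℂ) : (gF t H).ny y (t * y - x) = -H.nx x y := by
  unfold gF ny nx
  simp only [map_sub, map_mul, Complex.conj_ofReal, Complex.conj_conj]
  ring

lemma gF_nx (t : ℂ) (H : HF) (x y : ℂ) :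
    (gF t H).nx y (t * y - x) = H.ny x y + t * H.nx x y := by
  have h1 : (((H.B * t).re : ℝ) : ℂ) * 2 = H.B * t + (starRingEnd ℂ) (H.B * t) := by
    rw [Complex.add_conj]
    push_cast
    ring
  rw [map_mul] at h1
  unfold gF ny nx
  simp only [map_sub, map_mul]
  push_cast
  rw [Complex.normSq_eq_conj_mul_self]
  linear_combination (-(starRingEnd ℂ) y) * h1

lemma gF_q (t : ℂ) (H : HF) (x y : ℂ) : (gF t H).q y (t * y - x) = H.q x y := by
  have h : (((gF t H).q y (t * y - x) : ℝ) : ℂ) = (H.q x y : ℂ) := by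
    rw [euler, euler, gF_ny, gF_nx]
    ring
  exact_mod_cast h

lemma gF_J (t : ℂ) (H H' : HF) (x y : ℂ) :
    J (gF t H) (gF t H') y (t * y - x) = J H H' x y := by
  unfold J
  rw [gF_nx, gF_nx, gF_ny, gF_ny]
  ring

lemma gF_sub (t : ℂ) (H0 H1 : HF) : sub (gF t H1) (gF t H0) = gF t (sub H1 H0) := by
  unfold sub gF
  simp only [HF.mk.injEq]
  refine ⟨trivial, ?_, ?_⟩
  · push_cast
    rw [map_sub]
    ring
  · rw [sub_mul, Complex.sub_re]
    ring

lemma gF_line (t : ℂ) (H0 H1 : HF) (τ : ℝ) :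
    line (gF t H0) (gF t H1) τ = gF t (line H0 H1 τ) := by
  unfold line gF
  simp only [HF.mk.injEq]
  refine ⟨trivial, ?_, ?_⟩
  · push_cast
    rw [map_add, map_mul, map_sub, Complex.conj_ofReal]
    ring
  · have : ((H0.B + τ * (H1.B - H0.B)) * t).re = (H0.B * t).re + τ * ((H1.B * t).re - (H0.B * t).re) := by
      have e : (H0.B + τ * (H1.B - H0.B)) * t = H0.B * t + τ * (H1.B * t - H0.B * t) := by ring
      rw [e, Complex.add_re, Complex.re_ofReal_mul, Complex.sub_re]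
    rw [this]
    ring

lemma gF_pos {t : ℂ} {H : HF} (h : H.Pos) : (gF t H).Pos := by
  obtain ⟨hA, hd⟩ := h
  have hC : 0 < H.C := by
    have := Complex.normSq_nonneg H.B
    by_contra hc
    push Not at hc
    nlinarith
  refine ⟨hC, ?_⟩
  have e : Complex.normSq (H.C * t - (starRingEnd ℂ) H.B) =
      H.C ^ 2 * Complex.normSq t - 2 * H.C * (H.B * t).re + Complex.normSq H.B := by
    rw [Complex.normSq_sub, Complex.normSq_mul, Complex.normSq_ofReal, Complex.normSq_conj,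
      Complex.conj_conj, mul_assoc (H.C : ℂ), Complex.re_ofReal_mul, mul_comm t H.B]
    ring
  show Complex.normSq (H.C * t - (starRingEnd ℂ) H.B) <
    H.C * (H.A - 2 * (H.B * t).re + H.C * Complex.normSq t)
  rw [e]
  nlinarith

lemma J_line_sc (c : ℝ) (H : HF) (τ : ℝ) (x y : ℂ) :
    J (line H (sc c H) τ) (sub (sc c H) H) x y = 0 := by
  unfold J line sub sc nx ny
  simp only [map_add, map_mul, map_sub, Complex.conj_ofReal]
  push_cast
  ring

end HF

/-- the map `(x, y) ↦ (y, t y - x)` -/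
noncomputable def gE (t : RR) : RR × RR ≃ RR × RR where
  toFun p := (p.2, t * p.2 - p.1)
  invFun p := (t * p.1 - p.2, p.1)
  left_inv p := by simp
  right_inv p := by simp

/-- invariant functions -/
def Inv (t : RR) (cf : RR → RR → ℂ) : Prop := ∀ x y, cf y (t * y - x) = cf x y

lemma gE_coe (t : RR) (x y : RR) : ((t * y - x : RR) : ℂ) = (t : ℂ) * y - x := by push_cast; rfl

lemma vsum_inv {t : RR} {cf : RR → RR → ℂ} (hi : Inv t cf) (δ : ℝ) (H H' : HF) :
    ∑' p : RR × RR, vterm cf δ (gF t H) (gF t H') p.1 p.2 =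
      ∑' p : RR × RR, vterm cf δ H H' p.1 p.2 := by
  rw [← (gE t).tsum_eq (fun p : RR × RR => vterm cf δ (gF t H) (gF t H') p.1 p.2)]
  refine tsum_congr fun p => ?_
  show vterm cf δ (gF t H) (gF t H') p.2 (t * p.2 - p.1) = _
  unfold vterm
  rw [hi, gE_coe, gF_J, gF_q]

/-- the standard form -/
noncomputable def stF : HF := ⟨1, 0, 1⟩

lemma stF_pos : stF.Pos := by
  unfold HF.Pos stF
  simp

/-- the product sum -/
noncomputable def pterm (cf : RR → RR → ℂ) (δ : ℝ) (x y : RR) : ℂ :=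
  cf x y * ((x : ℂ)⁻¹ * (y : ℂ)⁻¹ *
    (Real.exp (-(δ * (Complex.normSq (x : ℂ) + Complex.normSq (y : ℂ)))) : ℂ))

lemma gdiff {κ Λ K : ℝ} (hκ : 0 < κ) {M : ℕ} {cf : RR → RR → ℂ} (hcf : Cf M K cf) {t : RR}
    (hi : Inv t cf) (h0 : stF.Ok κ Λ) (h1 : (gF t stF).Ok κ Λ) {δ : ℝ} (hδ : 0 < δ) :
    ∑' p : RR × RR, gterm cf δ (gF t stF) p.1 p.2 - ∑' p : RR × RR, gterm cf δ stF p.1 p.2 =
      -∑' p : RR × RR, pterm cf δ p.1 p.2 := by
  have hd : Summable (dom (δ * κ)) := summ_dom2 (by positivity)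
  have g1 : Summable (fun p : RR × RR => gterm cf δ (gF t stF) p.1 p.2) :=
    Summable.of_norm_bounded (hd.mul_left _) fun p => gterm_le hκ hcf h1 hδ p.1 p.2
  have g0 : Summable (fun p : RR × RR => gterm cf δ stF p.1 p.2) :=
    Summable.of_norm_bounded (hd.mul_left _) fun p => gterm_le hκ hcf h0 hδ p.1 p.2
  have g1' : Summable (fun p : RR × RR => gterm cf δ (gF t stF) p.2 (t * p.2 - p.1)) :=
    (gE t).summable_iff.2 g1
  rw [← (gE t).tsum_eq (fun p : RR × RR => gterm cf δ (gF t stF) p.1 p.2)]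
  have e0 : ∑' p : RR × RR, gterm cf δ (gF t stF) ((gE t) p).1 ((gE t) p).2 =
      ∑' p : RR × RR, gterm cf δ (gF t stF) p.2 (t * p.2 - p.1) := rfl
  rw [e0, ← g1'.tsum_sub g0, ← tsum_neg]
  refine tsum_congr fun p => ?_
  obtain ⟨x, y⟩ := p
  simp only
  unfold gterm pterm
  rw [hi, gE_coe, gF_ny, gF_q]
  have hq : stF.q (x : ℂ) (y : ℂ) = Complex.normSq (x : ℂ) + Complex.normSq (y : ℂ) := by
    unfold stF HF.q
    simp only [zero_mul, Complex.zero_re, mul_zero, sub_zero, one_mul]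
    ring
  have hnx : stF.nx (x : ℂ) (y : ℂ) = (starRingEnd ℂ) (x : ℂ) := by
    unfold stF HF.nx
    simp
  have hny : stF.ny (x : ℂ) (y : ℂ) = (starRingEnd ℂ) (y : ℂ) := by
    unfold stF HF.ny
    simp
  rw [hq, hnx, hny]
  by_cases hx : x = 0
  · subst hx
    simp
  by_cases hy : y = 0
  · subst hy
    simp
  have hxC : (x : ℂ) ≠ 0 := fun h => hx (Subtype.ext h)
  have hyC : (y : ℂ) ≠ 0 := fun h => hy (Subtype.ext h)
  have hsum : ((Complex.normSq (x : ℂ) + Complex.normSq (y : ℂ) : ℝ) : ℂ) =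
      (starRingEnd ℂ) (x : ℂ) * x + (starRingEnd ℂ) (y : ℂ) * y := by
    push_cast
    rw [Complex.normSq_eq_conj_mul_self, Complex.normSq_eq_conj_mul_self]
  have hne : ((Complex.normSq (x : ℂ) + Complex.normSq (y : ℂ) : ℝ) : ℂ) ≠ 0 := by
    have h1 := one_le_normSq hx
    have h2 := Complex.normSq_nonneg (y : ℂ)
    have : Complex.normSq (x : ℂ) + Complex.normSq (y : ℂ) ≠ 0 := by linarith
    exact_mod_cast this
  set S : ℂ := ((Complex.normSq (x : ℂ) + Complex.normSq (y : ℂ) : ℝ) : ℂ) with hS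
  set E : ℂ := (Real.exp (-(δ * (Complex.normSq (x : ℂ) + Complex.normSq (y : ℂ)))) : ℂ)
  field_simp
  rw [hsum]
  ring

/-- the roots of `z ^ 2 - t z + 1` -/
structure Ax (e1 e2 : ℂ) (t : RR) : Prop where
  add : e1 + e2 = t
  mul : e1 * e2 = 1
  big : 1 < ‖e1‖

/-- the forms on the axis -/
noncomputable def axT (e1 e2 : ℂ) (T : ℝ) : HF :=
  ⟨1 + T, e1 + T * e2, Complex.normSq e1 + T * Complex.normSq e2⟩

lemma axT_q (e1 e2 : ℂ) (T : ℝ) (x y : ℂ) :
    (axT e1 e2 T).q x y = Complex.normSq (y - e1 * x) + T * Complex.normSq (y - e2 * x) := by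
  unfold axT HF.q
  have h1 : ∀ e : ℂ, Complex.normSq (y - e * x) = Complex.normSq y -
      2 * (e * x * (starRingEnd ℂ) y).re + Complex.normSq e * Complex.normSq x := by
    intro e
    rw [Complex.normSq_sub, Complex.normSq_mul]
    have : (y * (starRingEnd ℂ) (e * x)).re = (e * x * (starRingEnd ℂ) y).re := by
      rw [← Complex.conj_re (y * _), map_mul, Complex.conj_conj, mul_comm]
    rw [this]
    ring
  rw [h1, h1]
  have h2 : ((e1 + T * e2) * x * (starRingEnd ℂ) y).re = (e1 * x * (starRingEnd ℂ) y).re +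
      T * (e2 * x * (starRingEnd ℂ) y).re := by
    have e : (e1 + T * e2) * x * (starRingEnd ℂ) y = e1 * x * (starRingEnd ℂ) y +
      T * (e2 * x * (starRingEnd ℂ) y) := by ring
    rw [e, Complex.add_re, Complex.re_ofReal_mul]
  simp only
  rw [h2]
  ring

lemma axT_pos {e1 e2 : ℂ} (h : e1 ≠ e2) {T : ℝ} (hT : 0 < T) : (axT e1 e2 T).Pos := by
  refine ⟨by unfold axT; simp only; linarith, ?_⟩
  unfold axT
  simp only
  have e : (1 + T) * (Complex.normSq e1 + T * Complex.normSq e2) -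
      Complex.normSq (e1 + T * e2) = T * Complex.normSq (e1 - e2) := by
    simp only [Complex.normSq_apply, Complex.add_re, Complex.add_im, Complex.sub_re,
      Complex.sub_im, Complex.mul_re, Complex.mul_im, Complex.ofReal_re, Complex.ofReal_im]
    ring
  have h1 : 0 < Complex.normSq (e1 - e2) := Complex.normSq_pos.2 (sub_ne_zero.2 h)
  have h2 : 0 < T * Complex.normSq (e1 - e2) := by positivity
  linarith

lemma axT_line (e1 e2 : ℂ) (T0 T1 τ : ℝ) :
    line (axT e1 e2 T0) (axT e1 e2 T1) τ = axT e1 e2 (T0 + τ * (T1 - T0)) := by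
  unfold line axT
  simp only [HF.mk.injEq]
  refine ⟨by ring, by push_cast; ring, by ring⟩

lemma axT_g {e1 e2 : ℂ} {t : RR} (h : Ax e1 e2 t) (T : ℝ) :
    gF t (axT e1 e2 T) = sc (Complex.normSq e1) (axT e1 e2 (T * Complex.normSq e2 ^ 2)) := by
  have hn : Complex.normSq e1 * Complex.normSq e2 = 1 := by
    rw [← Complex.normSq_mul, h.mul, Complex.normSq_one]
  have hnC : (Complex.normSq e1 : ℂ) * Complex.normSq e2 = 1 := by exact_mod_cast hn
  have ht := h.add
  have h1 := h.mul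
  have c1 : (Complex.normSq e1 : ℂ) = (starRingEnd ℂ) e1 * e1 := Complex.normSq_eq_conj_mul_self
  have c2 : (Complex.normSq e2 : ℂ) = (starRingEnd ℂ) e2 * e2 := Complex.normSq_eq_conj_mul_self
  have h2 : (starRingEnd ℂ) e1 * (starRingEnd ℂ) e2 = 1 := by rw [← map_mul, h1, map_one]
  unfold gF sc axT
  simp only [HF.mk.injEq]
  refine ⟨?_, ?_, ?_⟩
  · have e : Complex.normSq e1 * (1 + T * Complex.normSq e2 ^ 2) = Complex.normSq e1 +
      T * (Complex.normSq e1 * Complex.normSq e2) * Complex.normSq e2 := by ring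
    rw [e, hn, mul_one]
  · rw [← ht]
    push_cast
    rw [map_add, map_mul, Complex.conj_ofReal]
    have e : (Complex.normSq e1 : ℂ) * (e1 + T * (Complex.normSq e2 : ℂ) ^ 2 * e2) =
      (Complex.normSq e1 : ℂ) * e1 + T * ((Complex.normSq e1 : ℂ) * Complex.normSq e2) *
        (Complex.normSq e2 : ℂ) * e2 := by ring
    rw [e, hnC, c1, c2]
    linear_combination ((starRingEnd ℂ) e1 + T * (starRingEnd ℂ) e2) * h1
  · have hC : (((1 + T) - 2 * ((e1 + T * e2) * (t : ℂ)).re + (Complex.normSq e1 +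
        T * Complex.normSq e2) * Complex.normSq (t : ℂ) : ℝ) : ℂ) =
        ((Complex.normSq e1 * (Complex.normSq e1 + T * Complex.normSq e2 ^ 2 *
          Complex.normSq e2) : ℝ) : ℂ) := by
      have h3 : ((((e1 + T * e2) * (t : ℂ)).re : ℝ) : ℂ) * 2 = (e1 + T * e2) * t +
          (starRingEnd ℂ) ((e1 + T * e2) * t) := by
        rw [Complex.add_conj]
        push_cast
        ring
      rw [← ht, map_mul, map_add, map_mul, Complex.conj_ofReal, map_add] at h3
      rw [← ht]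
      push_cast
      have e5 : (Complex.normSq e1 : ℂ) * ((Complex.normSq e1 : ℂ) +
        T * (Complex.normSq e2 : ℂ) ^ 2 * Complex.normSq e2) = (Complex.normSq e1 : ℂ) ^ 2 +
        T * ((Complex.normSq e1 : ℂ) * Complex.normSq e2) * (Complex.normSq e2 : ℂ) ^ 2 := by ring
      rw [e5, hnC, Complex.normSq_eq_conj_mul_self (z := e1 + e2), map_add, c1, c2]
      set a := (starRingEnd ℂ) e1
      set b := (starRingEnd ℂ) e2
      linear_combination (-1 : ℂ) * h3 + (a ^ 2 + T * b ^ 2) * h1 +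
        ((e1 ^ 2 + T * e2 ^ 2) + (1 + T) * (e1 * e2 - 1)) * h2
    exact_mod_cast hC

end Pool.Agent.Y688
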