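import Pool.Agent.Y688.L4
import Pool.Agent.Y688.EP
import Pool.Agent.Y688.B2

/-!
# The L-functions and their Euler products
-/

set_option autoImplicit false
set_option linter.unusedSectionVars false

open Complex NumberField IsDedekindDomain Filter Topology
open scoped PeriodPair

namespace Pool.Agent.Y688

open Pool.Agent.W192.HK Pool.Agent.TH936.CM H667R3

variable {A : Type*} [CommRing A] [IsDomain A] [IsPrincipalIdealRing A]
variable {D : FD A E1 E2} {M : ℕ} {χ : A → ℂ}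

/-- the normalized L-function -/
noncomputable def FD.AL (D : FD A E1 E2) (χ : A → ℂ) (s : ℂ) : ℂ :=
  (D.J : ℂ)⁻¹ * ((Complex.Gamma s)⁻¹ ^ 2 * FD.LI (D.co χ) s)

lemma AL_entire (h : Ch D M χ) : Differentiable ℂ (D.AL χ) := by
  have := h.ne
  obtain ⟨py, px⟩ := h.co_per
  unfold FD.AL
  refine Differentiable.const_mul ?_ _
  exact (Complex.differentiable_one_div_Gamma.pow 2).mul (LI_entire h.co_bd py px h.co_w)

lemma AL_one (D : FD A E1 E2) (χ : A → ℂ) (h : FD.LI (D.co χ) 1 ≠ 0) : D.AL χ 1 ≠ 0 := by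
  unfold FD.AL
  rw [Complex.Gamma_one]
  have := D.J_pos
  have h1 : (D.J : ℂ) ≠ 0 := by exact_mod_cast this.ne'
  exact mul_ne_zero (inv_ne_zero h1) (mul_ne_zero (by norm_num) h)

/-- the function on ideals -/
noncomputable def FD.gI (D : FD A E1 E2) (χ : A → ℂ) (s : ℂ) (I : Ideal A) : ℂ :=
  D.Fs χ s (gen I)

lemma Fs_zero (D : FD A E1 E2) (χ : A → ℂ) (s : ℂ) : D.Fs χ s 0 = 0 := by
  unfold FD.Fs
  rw [D.nn_zero, ups_lam (dvd_zero _)]
  ring

lemma gI_mul (h : Ch D M χ) (s : ℂ) (I J : Ideal A) : D.gI χ s (I * J) = D.gI χ s I * D.gI χ s J := by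
  unfold FD.gI
  obtain ⟨u, hu⟩ := gen_assoc (I := I * J) (α := gen I * gen J) (by
    rw [← Ideal.span_singleton_mul_span_singleton, gen_span, gen_span])
  rw [hu, h.Fs_mul, h.Fs_unit, one_mul, h.Fs_mul]

lemma gI_top (h : Ch D M χ) (s : ℂ) : D.gI χ s ⊤ = 1 := by
  unfold FD.gI
  obtain ⟨u, hu⟩ := gen_assoc (I := (⊤ : Ideal A)) (α := 1) (by
    rw [Ideal.span_singleton_one])
  rw [hu, mul_one, h.Fs_unit]

lemma gI_sum (h : Ch D M χ) {s : ℂ} (hs : 3 / 2 < s.re) :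
    HasSum (fun I : NI A => D.gI χ s I.1) (D.AL χ s) := by
  have h1 := h.L_sum hs
  have hG : Complex.Gamma s ≠ 0 := Complex.Gamma_ne_zero_of_re_pos (by linarith)
  have hJ : (D.J : ℂ) ≠ 0 := by exact_mod_cast D.J_pos.ne'
  have h2 := h1.mul_left ((D.J : ℂ)⁻¹ * (Complex.Gamma s)⁻¹ ^ 2)
  unfold FD.AL
  rw [← mul_assoc]
  refine h2.congr_fun fun I => ?_
  unfold FD.gI
  field_simp

lemma gI_norm (h : Ch D M χ) {s : ℂ} (hs : 3 / 2 < s.re) :
    Summable (fun I : NI A => ‖D.gI χ s I.1‖) :=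
  (gI_sum h hs).summable.norm

/-- the conjugate -/
noncomputable def cjf (χ : A → ℂ) (α : A) : ℂ := (starRingEnd ℂ) (χ α)

lemma Ch.conj (h : Ch D M χ) : Ch D M (cjf χ) where
  mul α β := by
    unfold cjf
    rw [h.mul, map_mul]
  unit u := by
    unfold cjf
    rw [h.unit, map_one]
  per α γ := by
    unfold cjf
    rw [h.per]
  bd α := by
    unfold cjf
    rw [RCLike.norm_conj]
    exact h.bd α
  three := h.three
  odd := h.odd

/-- the complete L-function -/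
noncomputable def FD.Lam (D : FD A E1 E2) (χ : A → ℂ) (s : ℂ) : ℂ :=
  D.AL χ s * (starRingEnd ℂ) (D.AL (cjf χ) ((starRingEnd ℂ) s))

lemma Lam_entire (h : Ch D M χ) : Differentiable ℂ (D.Lam χ) := by
  unfold FD.Lam
  refine (AL_entire h).mul ?_
  intro s
  have h1 := (AL_entire h.conj ((starRingEnd ℂ) s)).conj_conj
  rw [Complex.conj_conj] at h1
  exact h1

lemma Lam_one (D : FD A E1 E2) (χ : A → ℂ) (h : FD.LI (D.co χ) 1 ≠ 0)
    (h' : FD.LI (D.co (cjf χ)) 1 ≠ 0) : D.Lam χ 1 ≠ 0 := by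
  unfold FD.Lam
  rw [map_one]
  refine mul_ne_zero (AL_one D χ h) ?_
  rw [Ne, map_eq_zero]
  exact AL_one D (cjf χ) h'

lemma Fs_conj (D : FD A E1 E2) (χ : A → ℂ) (s : ℂ) (α : A) :
    (starRingEnd ℂ) (D.Fs (cjf χ) ((starRingEnd ℂ) s) α) =
      χ α * (starRingEnd ℂ) (ups (D.nn α)) * (D.nn α : ℂ) * (D.N α : ℂ) ^ (-s) := by
  unfold FD.Fs cjf
  rw [map_mul, map_mul, map_mul, Complex.conj_conj, Complex.conj_conj]
  have h1 : (starRingEnd ℂ) ((D.N α : ℂ) ^ (-(starRingEnd ℂ) s)) = (D.N α : ℂ) ^ (-s) := by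
    have h2 := Complex.cpow_conj (D.N α : ℂ) (-s) (by
      rw [Complex.arg_ofReal_of_nonneg (D.N_nonneg α)]
      exact Real.pi_pos.ne)
    rw [Complex.conj_ofReal, map_neg] at h2
    rw [h2, Complex.conj_conj]
  rw [h1]

/-- the local polynomial -/
noncomputable def FD.lf (D : FD A E1 E2) (χ : A → ℂ) (s : ℂ) (α : A) : ℂ :=
  (1 - D.Fs χ s α) * (1 - (starRingEnd ℂ) (D.Fs (cjf χ) ((starRingEnd ℂ) s) α))

/-- **The Euler product.** -/
theorem Lam_prod (h : Ch D M χ) {s : ℂ} (hs : 3 / 2 < s.re) :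
    HasProd (fun v : HeightOneSpectrum A => (D.lf χ s (gen v.asIdeal))⁻¹) (D.Lam χ s) := by
  have h1 := euler (gI_mul h s) (gI_top h s) (gI_norm h hs)
  rw [(gI_sum h hs).tsum_eq] at h1
  have hs' : 3 / 2 < ((starRingEnd ℂ) s).re := by rwa [Complex.conj_re]
  have h2 := euler (gI_mul h.conj ((starRingEnd ℂ) s)) (gI_top h.conj ((starRingEnd ℂ) s))
    (gI_norm h.conj hs')
  rw [(gI_sum h.conj hs').tsum_eq] at h2
  have h3 := h2.map (starRingEnd ℂ) Complex.continuous_conj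
  have h4 := h1.mul h3
  unfold FD.Lam
  refine h4.congr_fun fun v => ?_
  simp only [Function.comp_apply]
  unfold FD.lf FD.gI
  rw [map_inv₀, map_sub, map_one, mul_inv]

end Pool.Agent.Y688
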