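import Pool.Agent.Y688.H1

/-!
# Local factors over the quartic field; good primes
-/

set_option autoImplicit false
set_option linter.unusedSectionVars false
set_option linter.style.haveILetI false

open Complex NumberField IsDedekindDomain Filter Topology
open scoped PeriodPair

namespace Pool.Agent.Y688

open Pool.Agent.W192.HK Pool.Agent.TH936.CM H667R3

section gen

variable {A : Type*} [CommRing A]

lemma nr_lam : nr lam = 3 := by
  have h3 : ((nr lam : ℕ) : ℝ) = (3 : ℕ) := by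
    rw [← nr_spec, lam_I, Complex.normSq_mul, Complex.normSq_I, one_mul, Complex.normSq_ofReal,
      Real.mul_self_sqrt (by norm_num)]
    norm_num
  exact_mod_cast h3

lemma lam_dvd_nn (D : FD A E1 E2) {π : A} (h : π ∣ 3) (hN : D.N π ≠ 1) : lam ∣ D.nn π := by
  obtain ⟨γ, hγ⟩ := h
  have h1 : D.nn (3 : A) = lam ^ 4 := by
    have e : (3 : A) = D.sc ((3 : ℕ) : RR) := by rw [sc_nat]; norm_num
    rw [e, D.nn_sc]
    push_cast
    linear_combination (3 - lam * lam) * lam_sq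
  have h2 : D.nn π ∣ lam ^ 4 := ⟨D.nn γ, by rw [← h1, hγ, D.nn_mul]⟩
  have hp : Prime lam := prime_of_nr (by rw [nr_lam]; exact Nat.prime_three)
  obtain ⟨i, hi, hi'⟩ := (dvd_prime_pow hp 4).1 h2
  rcases Nat.eq_zero_or_pos i with h0 | h0
  · exfalso
    apply hN
    rw [h0, pow_zero, associated_one_iff_isUnit] at hi'
    rw [D.N_nn, nr_spec, nr_unit.2 hi']
    norm_num
  · exact (dvd_pow_self lam h0.ne').trans hi'.symm.dvd

variable {K : Type*} [Field K] [Fintype K]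
variable {Γ : Type*} [LinearOrderedCommGroupWithZero Γ] {v : Valuation ℂ Γ}

/-- good primes -/
theorem good (h2 : v 2 < 1) (D : FD A E1 E2) {π : A} (f : A →+* K)
    (hker : RingHom.ker f = Ideal.span {π}) (hcard : (Fintype.card K : ℝ) = D.N π)
    (h3 : (3 : K) ≠ 0) (hnc : ∀ x : K, x ^ 3 ≠ 2) :
    v (1 - ups (D.nn π) / (D.nn π : ℂ)) = 1 := by
  obtain ⟨u, r, hu, hcount⟩ := local_count D f hker hcard h3
  set ψ : RR := D.nn π * ((u⁻¹ : RRˣ) : RR) with hψ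
  have hnr : nr (D.nn π) = Fintype.card K := by
    have h1 : ((nr (D.nn π) : ℕ) : ℝ) = (Fintype.card K : ℕ) := by
      rw [hcard, D.N_nn, nr_spec]
    exact_mod_cast h1
  have hψn : nr ψ = Fintype.card K := by
    rw [hψ, nr_mul, nr_unit.2 (u⁻¹).isUnit, mul_one, hnr]
  have heven := NP_even hnc
  -- the field has odd characteristic
  have hodd : Odd (Fintype.card K) := by
    rw [← Nat.not_even_iff_odd]
    intro he
    have hc : (2 : K) ≠ 0 := by
      intro h0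
      apply hnc 0
      rw [h0]
      norm_num
    have h4 : (Fintype.card K) % 2 = 1 := FiniteField.odd_card_of_char_ne_two (by
      intro h5
      apply hc
      have := ringChar.Nat.cast_ringChar (R := K)
      rw [h5] at this
      exact_mod_cast this)
    rw [Nat.even_iff] at he
    omega
  have hmul : (ψ : ℂ) * (starRingEnd ℂ) (ψ : ℂ) = (Fintype.card K : ℕ) := by
    rw [Complex.mul_conj, nr_spec, hψn]
    norm_cast
  have hprod : ((ψ : ℂ) - 1) * ((cj ψ - 1 : RR) : ℂ) = ((NP K + 1 : ℕ) : ℂ) := by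
    push_cast
    rw [cj_coe]
    linear_combination hmul - hcount
  have hN : v (((NP K + 1 : ℕ) : ℤ) : ℂ) = 1 := v_odd h2 (by
    have := heven.add_one
    exact_mod_cast this)
  have hv1 : v ((ψ : ℂ) - 1) = 1 := by
    have h5 : v ((ψ : ℂ) - 1) * v ((cj ψ - 1 : RR) : ℂ) = 1 := by
      rw [← map_mul, hprod]
      exact_mod_cast hN
    have h6 : v ((ψ : ℂ) - 1) ≤ 1 := v_RR (ψ - 1)
    have h7 : v ((cj ψ - 1 : RR) : ℂ) ≤ 1 := v_RR _
    refine le_antisymm h6 ?_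
    calc (1 : Γ) = v ((ψ : ℂ) - 1) * v ((cj ψ - 1 : RR) : ℂ) := h5.symm
      _ ≤ v ((ψ : ℂ) - 1) * 1 := by gcongr
      _ = _ := mul_one _
  have hvψ : v (ψ : ℂ) = 1 := by
    have h5 : v (ψ : ℂ) * v ((cj ψ : RR) : ℂ) = 1 := by
      rw [← map_mul, cj_coe, hmul]
      have := v_odd h2 (n := (Fintype.card K : ℤ)) (by exact_mod_cast hodd)
      exact_mod_cast this
    have h6 : v (ψ : ℂ) ≤ 1 := v_RR ψ
    have h7 : v ((cj ψ : RR) : ℂ) ≤ 1 := v_RR _
    refine le_antisymm h6 ?_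
    calc (1 : Γ) = v (ψ : ℂ) * v ((cj ψ : RR) : ℂ) := h5.symm
      _ ≤ v (ψ : ℂ) * 1 := by gcongr
      _ = _ := mul_one _
  have hψ0 : (ψ : ℂ) ≠ 0 := by
    intro h
    rw [h, map_zero] at hvψ
    exact zero_ne_one hvψ
  have hu0 : ((u : RR) : ℂ) ≠ 0 := by
    intro h
    exact u.ne_zero (Subtype.ext h)
  have e : (1 : ℂ) - ups (D.nn π) / (D.nn π : ℂ) = ((ψ : ℂ) - 1) / ψ := by
    have h8 : ups (D.nn π) = (u : RR) := by rw [hu, ups_unit]
    have h9 : (D.nn π : ℂ) = ψ * (u : RR) := by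
      rw [hψ]
      have h10 : ((u⁻¹ : RRˣ) : RR) * (u : RR) = 1 := u.inv_mul
      have h11 := congrArg Subtype.val h10
      push_cast at h11 ⊢
      linear_combination -(D.nn π : ℂ) * h11
    rw [h8, h9]
    field_simp
  rw [e, map_div₀, hv1, hvψ, div_one]

end gen

/-! ### the local factors -/

variable {F : Type*} [Field F] [NumberField F] {a b : F} {τ1 τ2 : F →+* ℂ}

/-- the number of points of `y² + y = x³` over the residue field -/
noncomputable def npv (v : HeightOneSpectrum (𝓞 F)) : ℕ :=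
  Nat.card {p : (𝓞 F ⧸ v.asIdeal) × (𝓞 F ⧸ v.asIdeal) // p.2 ^ 2 + p.2 = p.1 ^ 3}

/-- the norm -/
noncomputable def nmv (v : HeightOneSpectrum (𝓞 F)) : ℕ := Ideal.absNorm v.asIdeal

lemma card_quot (v : HeightOneSpectrum (𝓞 F)) [Fintype (𝓞 F ⧸ v.asIdeal)] :
    Fintype.card (𝓞 F ⧸ v.asIdeal) = nmv v := by
  unfold nmv
  rw [Ideal.absNorm_apply, Submodule.cardQuot_apply, Nat.card_eq_fintype_card]

lemma two_le_nmv (v : HeightOneSpectrum (𝓞 F)) : 2 ≤ nmv v := by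
  have hfin : Finite (𝓞 F ⧸ v.asIdeal) := Ideal.finiteQuotientOfFreeOfNeBot v.asIdeal v.ne_bot
  letI : Fintype (𝓞 F ⧸ v.asIdeal) := Fintype.ofFinite _
  have hn : Nontrivial (𝓞 F ⧸ v.asIdeal) := Ideal.Quotient.nontrivial_iff.2 v.isPrime.ne_top
  rw [← card_quot]
  exact Fintype.one_lt_card

lemma nmv_N (h : Em a b τ1 τ2) {v : HeightOneSpectrum (𝓞 F)} {π : 𝓞 F}
    (hπ : Ideal.span {π} = v.asIdeal) : ((nmv v : ℕ) : ℝ) = h.D.N π := by
  unfold nmv
  rw [← hπ, h.absNorm]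

/-- the local factor at the primes over `3` -/
theorem lf_three (h : Em a b τ1 τ2) (χ : 𝓞 F → ℂ) (s : ℂ) {v : HeightOneSpectrum (𝓞 F)} {π : 𝓞 F}
    (hπ : Ideal.span {π} = v.asIdeal) (h3 : (3 : 𝓞 F) ∈ v.asIdeal) : h.D.lf χ s π = 1 := by
  rw [← hπ, Ideal.mem_span_singleton] at h3
  have h1 : lam ∣ h.D.nn π := by
    refine lam_dvd_nn h.D h3 ?_
    rw [← nmv_N h hπ]
    have := two_le_nmv v
    intro h4
    have h5 : nmv v = 1 := by exact_mod_cast h4
    omega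
  have hpid : IsPrincipalIdealRing (𝓞 F) := h.D.pid
  unfold FD.lf
  rw [Fs_conj]
  unfold FD.Fs
  rw [ups_lam h1]
  simp

/-- the local factor at the other primes -/
theorem lf_good (h : Em a b τ1 τ2) (χ : 𝓞 F → ℂ) (s : ℂ) {v : HeightOneSpectrum (𝓞 F)} {π : 𝓞 F}
    (hπ : Ideal.span {π} = v.asIdeal) (h3 : (3 : 𝓞 F) ∉ v.asIdeal) : h.D.lf χ s π =
    1 - (((nmv v : ℤ) - npv v : ℤ) : ℂ) * χ π * (nmv v : ℂ) ^ (-s) +
      χ π ^ 2 * (nmv v : ℂ) ^ (1 - 2 * s) := by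
  have hmax : v.asIdeal.IsMaximal := v.isMaximal
  letI : Field (𝓞 F ⧸ v.asIdeal) := Ideal.Quotient.field v.asIdeal
  have hfin : Finite (𝓞 F ⧸ v.asIdeal) := Ideal.finiteQuotientOfFreeOfNeBot v.asIdeal v.ne_bot
  letI : Fintype (𝓞 F ⧸ v.asIdeal) := Fintype.ofFinite _
  have h3' : (3 : 𝓞 F ⧸ v.asIdeal) ≠ 0 := by
    intro h0
    apply h3
    rw [← Ideal.Quotient.eq_zero_iff_mem, map_ofNat]
    exact h0
  obtain ⟨u, r, hu, hcount⟩ := local_count h.D (π := π) (Ideal.Quotient.mk v.asIdeal)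
    (by rw [Ideal.mk_ker, hπ]) (by rw [card_quot, nmv_N h hπ]) h3'
  rw [card_quot] at hcount
  have hnp : NP (𝓞 F ⧸ v.asIdeal) = npv v := rfl
  rw [hnp] at hcount
  set ψ : RR := h.D.nn π * ((u⁻¹ : RRˣ) : RR) with hψ
  have hN : (h.D.N π : ℂ) = (nmv v : ℂ) := by
    rw [← nmv_N h hπ]
    norm_cast
  have hup : ups (h.D.nn π) = (u : RR) := by rw [hu, ups_unit]
  have huu : ((u : RR) : ℂ) * (starRingEnd ℂ) ((u : RR) : ℂ) = 1 := by
    rw [Complex.mul_conj, unit_norm]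
    norm_num
  have hui : (((u⁻¹ : RRˣ) : RR) : ℂ) = (starRingEnd ℂ) ((u : RR) : ℂ) := by
    have h1 : ((u⁻¹ : RRˣ) : RR) * (u : RR) = 1 := u.inv_mul
    have h2 := congrArg Subtype.val h1
    push_cast at h2
    linear_combination (-(((u⁻¹ : RRˣ) : RR) : ℂ)) * huu + (starRingEnd ℂ) ((u : RR) : ℂ) * h2
  have hψc : (ψ : ℂ) = (h.D.nn π : ℂ) * (starRingEnd ℂ) ((u : RR) : ℂ) := by
    rw [hψ]
    push_cast
    rw [hui]
  have hψc' : (starRingEnd ℂ) (ψ : ℂ) = (starRingEnd ℂ) (h.D.nn π : ℂ) * (u : RR) := by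
    rw [hψc, map_mul, Complex.conj_conj]
  have hnn : (h.D.nn π : ℂ) * (starRingEnd ℂ) (h.D.nn π : ℂ) = (nmv v : ℂ) := by
    rw [Complex.mul_conj, ← h.D.N_nn, hN]
  have hq0 : (nmv v : ℂ) ≠ 0 := by
    have := two_le_nmv v
    exact_mod_cast (by omega : nmv v ≠ 0)
  have hpow : (nmv v : ℂ) ^ (1 - 2 * s) = (nmv v : ℂ) * ((nmv v : ℂ) ^ (-s) * (nmv v : ℂ) ^ (-s)) := by
    rw [← Complex.cpow_add _ _ hq0]
    have : (1 - 2 * s : ℂ) = 1 + (-s + -s) := by ring
    rw [this, Complex.cpow_add _ _ hq0, Complex.cpow_one]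
  have hpid : IsPrincipalIdealRing (𝓞 F) := h.D.pid
  unfold FD.lf
  rw [Fs_conj]
  unfold FD.Fs
  rw [hup, hN, hpow]
  have ha : (((nmv v : ℤ) - npv v : ℤ) : ℂ) = (ψ : ℂ) + (starRingEnd ℂ) (ψ : ℂ) := by
    push_cast
    linear_combination -hcount
  rw [ha, hψc', hψc]
  linear_combination (χ π ^ 2 * ((nmv v : ℂ) ^ (-s)) ^ 2) * hnn +
    (χ π ^ 2 * ((nmv v : ℂ) ^ (-s)) ^ 2 * ((h.D.nn π : ℂ) * (starRingEnd ℂ) (h.D.nn π : ℂ))) * huu

/-! ### characters -/

/-- characters modulo `m` of `2`-power order -/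
structure RC (m : 𝓞 F) (χ : 𝓞 F → ℂ) : Prop where
  mul : ∀ α β, χ (α * β) = χ α * χ β
  unit : ∀ u : (𝓞 F)ˣ, χ u = 1
  cong : ∀ α β, m ∣ α - β → χ α = χ β
  zero : ∀ α, ¬ IsCoprime α m → χ α = 0
  pow : ∀ α, IsCoprime α m → ∃ n : ℕ, χ α ^ 2 ^ n = 1

/-- the condition on the modulus -/
def Gd (m : 𝓞 F) : Prop := m ≠ 0 ∧ ∀ v : HeightOneSpectrum (𝓞 F), m ∈ v.asIdeal →
  (3 : 𝓞 F) ∈ v.asIdeal ∨ ∀ α : 𝓞 F, α ^ 3 - 2 ∉ v.asIdeal

lemma Gd.odd {m : 𝓞 F} (h : Gd m) : ∃ n : ℕ, Odd n ∧ m ∣ (n : 𝓞 F) := by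
  have hm : Ideal.span {m} ≠ ⊥ := by
    rw [Ne, Ideal.span_singleton_eq_bot]
    exact h.1
  refine ⟨Ideal.absNorm (Ideal.span {m}), ?_, ?_⟩
  · rw [← Nat.not_even_iff_odd]
    intro he
    have hfin : Finite (𝓞 F ⧸ Ideal.span {m}) := Ideal.finiteQuotientOfFreeOfNeBot _ hm
    letI : Fintype (𝓞 F ⧸ Ideal.span {m}) := Fintype.ofFinite _
    have : Fact (Nat.Prime 2) := ⟨Nat.prime_two⟩
    have hc : 2 ∣ Fintype.card (Multiplicative (𝓞 F ⧸ Ideal.span {m})) := by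
      rw [Fintype.card_multiplicative]
      rw [Ideal.absNorm_apply, Submodule.cardQuot_apply, Nat.card_eq_fintype_card] at he
      exact he.two_dvd
    obtain ⟨x, hx⟩ := exists_prime_orderOf_dvd_card 2 hc
    obtain ⟨α, hα⟩ := Ideal.Quotient.mk_surjective (Multiplicative.toAdd x)
    have h2 : (2 : 𝓞 F) * α ∈ Ideal.span {m} := by
      rw [← Ideal.Quotient.eq_zero_iff_mem, map_mul, hα]
      have h3 : x ^ 2 = 1 := by rw [← hx, pow_orderOf_eq_one]
      have h4 := congrArg Multiplicative.toAdd h3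
      rw [toAdd_pow, toAdd_one, nsmul_eq_mul] at h4
      rw [map_ofNat]
      exact_mod_cast h4
    have h5 : α ∉ Ideal.span {m} := by
      intro h6
      rw [← Ideal.Quotient.eq_zero_iff_mem, hα] at h6
      have : x = 1 := h6
      rw [this, orderOf_one] at hx
      norm_num at hx
    let I : Ideal (𝓞 F) := Submodule.colon (Ideal.span {m}) {α}
    have hI : I ≠ ⊤ := by
      intro h6
      apply h5
      have h7 : (1 : 𝓞 F) ∈ I := by rw [h6]; trivial
      rw [Submodule.mem_colon_singleton] at h7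
      simpa using h7
    obtain ⟨P, hP, hIP⟩ := Ideal.exists_le_maximal I hI
    have hmP : m ∈ P := hIP (by
      show m ∈ Submodule.colon (Ideal.span {m}) {α}
      rw [Submodule.mem_colon_singleton, smul_eq_mul]
      exact Ideal.mul_mem_right _ _ (Ideal.mem_span_singleton_self m))
    have h2P : (2 : 𝓞 F) ∈ P := hIP (by
      show (2 : 𝓞 F) ∈ Submodule.colon (Ideal.span {m}) {α}
      rw [Submodule.mem_colon_singleton, smul_eq_mul]
      exact h2)
    have hPb : P ≠ ⊥ := by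
      rintro rfl
      exact h.1 (Ideal.mem_bot.1 hmP)
    rcases h.2 ⟨P, hP.isPrime, hPb⟩ hmP with h6 | h6
    · apply hP.isPrime.ne_top
      rw [Ideal.eq_top_iff_one]
      have : (1 : 𝓞 F) = 3 - 2 := by norm_num
      rw [this]
      exact P.sub_mem h6 h2P
    · apply h6 0
      have : (0 : 𝓞 F) ^ 3 - 2 = -2 := by norm_num
      rw [this]
      exact P.neg_mem h2P
  · rw [← Ideal.mem_span_singleton]
    exact Ideal.absNorm_mem _

lemma RC.ch (h : Em a b τ1 τ2) {m : 𝓞 F} {χ : 𝓞 F → ℂ} (hχ : RC m χ) {n : ℕ} (hn : Odd n)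
    (hmn : m ∣ (n : 𝓞 F)) : Ch h.D (3 * n) χ where
  mul := hχ.mul
  unit := hχ.unit
  per α γ := by
    refine hχ.cong _ _ ?_
    obtain ⟨c, hc⟩ := hmn
    refine ⟨3 * c * γ, ?_⟩
    push_cast
    rw [hc]
    ring
  bd α := by
    by_cases hα : IsCoprime α m
    · obtain ⟨k, hk⟩ := hχ.pow α hα
      exact (Complex.norm_eq_one_of_pow_eq_one hk (by positivity)).le
    · rw [hχ.zero α hα, norm_zero]
      exact zero_le_one
  three := dvd_mul_right 3 n
  odd := by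
    rw [Nat.odd_mul]
    exact ⟨by decide, hn⟩

lemma RC.conj {m : 𝓞 F} {χ : 𝓞 F → ℂ} (hχ : RC m χ) : RC m (cjf χ) where
  mul α β := by
    unfold cjf
    rw [hχ.mul, map_mul]
  unit u := by
    unfold cjf
    rw [hχ.unit, map_one]
  cong α β hαβ := by
    unfold cjf
    rw [hχ.cong α β hαβ]
  zero α hα := by
    unfold cjf
    rw [hχ.zero α hα, map_zero]
  pow α hα := by
    obtain ⟨n, hn⟩ := hχ.pow α hα
    refine ⟨n, ?_⟩
    unfold cjf
    rw [← map_pow, hn, map_one]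

theorem RC.nonvan (h : Em a b τ1 τ2) {m : 𝓞 F} {χ : 𝓞 F → ℂ} (hχ : RC m χ) (hm : Gd m) {n : ℕ}
    (hn : Odd n) (hmn : m ∣ (n : 𝓞 F)) : FD.LI (h.D.co χ) 1 ≠ 0 := by
  obtain ⟨O, hO⟩ := exists_place2
  obtain ⟨L, Ω, hL⟩ := exists_HL
  have hpid : IsPrincipalIdealRing (𝓞 F) := h.D.pid
  have hv2 : O.valuation 2 ≠ 0 := by
    rw [Ne, map_eq_zero]
    norm_num
  refine Pool.Agent.Y688.nonvan hL hO hv2 (v_base hL hO h.D) (hχ.ch h hn hmn) hm.1 ?_ hχ.pow
    hχ.zero ?_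
  · push_cast
    exact hmn.mul_left 3
  · intro q hq hqm
    have hq0 := hq.ne_zero
    have hqP : (Ideal.span {q}).IsPrime := (Ideal.span_singleton_prime hq0).2 hq
    let v : HeightOneSpectrum (𝓞 F) := ⟨Ideal.span {q}, hqP, by
      rw [Ne, Ideal.span_singleton_eq_bot]; exact hq0⟩
    have hπ : Ideal.span {q} = v.asIdeal := rfl
    have hmv : m ∈ v.asIdeal := by
      rw [← hπ, Ideal.mem_span_singleton]
      exact hqm
    have hmax : v.asIdeal.IsMaximal := v.isMaximal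
    letI : Field (𝓞 F ⧸ v.asIdeal) := Ideal.Quotient.field v.asIdeal
    have hfin : Finite (𝓞 F ⧸ v.asIdeal) := Ideal.finiteQuotientOfFreeOfNeBot v.asIdeal v.ne_bot
    letI : Fintype (𝓞 F ⧸ v.asIdeal) := Fintype.ofFinite _
    by_cases h3 : (3 : 𝓞 F) ∈ v.asIdeal
    · have h1 : lam ∣ h.D.nn q := by
        refine lam_dvd_nn h.D ?_ ?_
        · rw [← Ideal.mem_span_singleton]
          exact h3
        · rw [← nmv_N h hπ]
          have := two_le_nmv v
          intro h4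
          have h5 : nmv v = 1 := by exact_mod_cast h4
          omega
      rw [ups_lam h1, zero_div, sub_zero, map_one]
    · have hnc := (hm.2 v hmv).resolve_left h3
      have h3' : (3 : 𝓞 F ⧸ v.asIdeal) ≠ 0 := by
        intro h0
        apply h3
        rw [← Ideal.Quotient.eq_zero_iff_mem, map_ofNat]
        exact h0
      refine good hO h.D (Ideal.Quotient.mk v.asIdeal) (by rw [Ideal.mk_ker, hπ])
        (by rw [card_quot, nmv_N h hπ]) h3' ?_
      intro x hx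
      obtain ⟨α, rfl⟩ := Ideal.Quotient.mk_surjective x
      apply hnc α
      rw [← Ideal.Quotient.eq_zero_iff_mem, map_sub, map_pow, hx, map_ofNat, sub_self]

end Pool.Agent.Y688
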