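import Pool.Agent.Y688.U1

/-!
# Points of `y² + y = x³` over finite fields
-/

set_option autoImplicit false

open Complex

namespace Pool.Agent.Y688

section K

variable {K : Type*} [Field K] [Fintype K]

/-- cubes in a finite field -/
theorem cube_iff (M : ℕ) (hM : 3 * M + 1 = Fintype.card K)
    {t : K} (ht : t ≠ 0) : (∃ z : K, z ^ 3 = t) ↔ t ^ M = 1 := by
  have hM0 : 0 < M := by
    rcases Nat.eq_zero_or_pos M with h | h
    · subst h
      have := Fintype.one_lt_card (α := K)
      omega
    · exact h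
  constructor
  · rintro ⟨z, rfl⟩
    have hz : z ≠ 0 := by
      rintro rfl
      exact ht (by simp)
    rw [← pow_mul]
    have h := FiniteField.pow_card_sub_one_eq_one z hz
    have h2 : Fintype.card K - 1 = 3 * M := by omega
    rwa [h2] at h
  · intro h
    obtain ⟨g, hg⟩ := IsCyclic.exists_generator (α := Kˣ)
    obtain ⟨k, hk⟩ := (Submonoid.mem_powers_iff _ _).1
      ((mem_powers_iff_mem_zpowers).2 (hg (Units.mk0 t ht)))
    have horder : orderOf g = 3 * M := by
      rw [orderOf_eq_card_of_forall_mem_zpowers hg, Nat.card_units, Nat.card_eq_fintype_card]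
      omega
    have h1 : g ^ (k * M) = 1 := by
      rw [pow_mul, hk]
      apply Units.ext
      simpa using h
    have h2 : 3 * M ∣ k * M := by
      rw [← horder]
      exact orderOf_dvd_of_pow_eq_one h1
    have h3 : 3 ∣ k := Nat.dvd_of_mul_dvd_mul_right hM0 h2
    obtain ⟨j, rfl⟩ := h3
    refine ⟨(g ^ j : Kˣ), ?_⟩
    rw [← Units.val_pow_eq_pow_val, ← pow_mul, mul_comm j 3, hk]
    rfl

/-- the number of cube roots -/
noncomputable def cr (t : K) : ℕ := by
  classical
  exact (Finset.univ.filter (fun x : K => x ^ 3 = t)).card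

lemma cr_zero : cr (0 : K) = 1 := by
  classical
  unfold cr
  rw [Finset.card_eq_one]
  refine ⟨0, ?_⟩
  ext x
  simp

lemma cr_none {t : K} (h : ¬ ∃ z : K, z ^ 3 = t) : cr t = 0 := by
  classical
  unfold cr
  rw [Finset.card_eq_zero]
  ext x
  simp only [Finset.mem_filter, Finset.mem_univ, true_and, Finset.notMem_empty, iff_false]
  exact fun hx => h ⟨x, hx⟩

lemma exists_u (M : ℕ) (hM : 3 * M + 1 = Fintype.card K) : ∃ u : K, u ^ 2 + u + 1 = 0 ∧ u ≠ 1 ∧
    u ≠ 0 := by
  classical
  have h3 : (3 : ℕ) ∣ Fintype.card Kˣ := by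
    rw [Fintype.card_units]
    exact ⟨M, by omega⟩
  have : Fact (Nat.Prime 3) := ⟨Nat.prime_three⟩
  obtain ⟨u, hu⟩ := exists_prime_orderOf_dvd_card 3 h3
  have h1 : (u : K) ^ 3 = 1 := by
    rw [← Units.val_pow_eq_pow_val, ← hu, pow_orderOf_eq_one]
    rfl
  have h2 : (u : K) ≠ 1 := by
    intro h
    have : u = 1 := Units.ext h
    rw [this, orderOf_one] at hu
    norm_num at hu
  refine ⟨u, ?_, h2, u.ne_zero⟩
  have h4 : ((u : K) - 1) * ((u : K) ^ 2 + u + 1) = 0 := by linear_combination h1
  exact (mul_eq_zero.1 h4).resolve_left (sub_ne_zero.2 h2)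

lemma cr_cube (M : ℕ) (hM : 3 * M + 1 = Fintype.card K) {z : K} (hz : z ≠ 0) : cr (z ^ 3) = 3 := by
  classical
  obtain ⟨u, hu, hu1, hu0⟩ := exists_u M hM
  unfold cr
  rw [Finset.card_eq_three]
  refine ⟨z, u * z, u ^ 2 * z, ?_, ?_, ?_, ?_⟩
  · intro h
    apply hu1
    have : (u - 1) * z = 0 := by linear_combination -h
    exact sub_eq_zero.1 ((mul_eq_zero.1 this).resolve_right hz)
  · intro h
    have h1 : (u ^ 2 - 1) * z = 0 := by linear_combination -h
    have h2 : u ^ 2 = 1 := sub_eq_zero.1 ((mul_eq_zero.1 h1).resolve_right hz)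
    apply hu1
    have h3 : u ^ 3 = 1 := by linear_combination (u - 1) * hu
    linear_combination h3 - u * h2
  · intro h
    have h1 : u * ((u - 1) * z) = 0 := by linear_combination -h
    have h2 := ((mul_eq_zero.1 ((mul_eq_zero.1 h1).resolve_left hu0))).resolve_right hz
    exact hu1 (sub_eq_zero.1 h2)
  · ext x
    simp only [Finset.mem_filter, Finset.mem_univ, true_and, Finset.mem_insert,
      Finset.mem_singleton]
    have key : x ^ 3 - z ^ 3 = (x - z) * ((x - u * z) * (x - u ^ 2 * z)) := by
      linear_combination (-(u * x * z ^ 2) + x ^ 2 * z + u * z ^ 3 - z ^ 3) * hu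
    constructor
    · intro h
      rw [h, sub_self] at key
      rcases mul_eq_zero.1 key.symm with h | h
      · exact Or.inl (sub_eq_zero.1 h)
      · rcases mul_eq_zero.1 h with h | h
        · exact Or.inr (Or.inl (sub_eq_zero.1 h))
        · exact Or.inr (Or.inr (sub_eq_zero.1 h))
    · intro h
      rw [← sub_eq_zero, key]
      rcases h with h | h | h
      · rw [h]; ring
      · rw [h]; ring
      · rw [h]; ring

/-- the count inside the field -/
lemma cr_field (M : ℕ) (hM : 3 * M + 1 = Fintype.card K) (t : K) :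
    ((cr t : ℕ) : K) = 1 + t ^ M + (t ^ M) ^ 2 := by
  have hM0 : M ≠ 0 := by
    rintro rfl
    have := Fintype.one_lt_card (α := K)
    omega
  by_cases ht : t = 0
  · subst ht
    rw [cr_zero, zero_pow hM0]
    simp
  · by_cases h : ∃ z : K, z ^ 3 = t
    · have h1 := (cube_iff M hM ht).1 h
      obtain ⟨z, rfl⟩ := h
      have hz : z ≠ 0 := by
        rintro rfl
        exact ht (by simp)
      rw [cr_cube M hM hz, h1]
      norm_num
    · have h1 : t ^ M ≠ 1 := fun h2 => h ((cube_iff M hM ht).2 h2)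
      have h2 : (t ^ M) ^ 3 = 1 := by
        rw [← pow_mul, mul_comm]
        have h3 := FiniteField.pow_card_sub_one_eq_one t ht
        have h4 : Fintype.card K - 1 = 3 * M := by omega
        rwa [h4] at h3
      rw [cr_none h]
      have h4 : (t ^ M - 1) * (1 + t ^ M + (t ^ M) ^ 2) = 0 := by linear_combination h2
      rw [(mul_eq_zero.1 h4).resolve_left (sub_ne_zero.2 h1)]
      simp

/-- the count by characters -/
lemma cr_char (M : ℕ) (hM : 3 * M + 1 = Fintype.card K) {θ : MulChar K ℂ} (hθ : orderOf θ = 3)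
    (t : K) : ((cr t : ℕ) : ℂ) = 1 + θ t + θ t ^ 2 := by
  have h3 : θ ^ 3 = 1 := by
    rw [← hθ]
    exact pow_orderOf_eq_one θ
  have hpow : ∀ x : K, x ≠ 0 → θ x ^ 3 = 1 := by
    intro x hx
    rw [← MulChar.pow_apply' θ (by norm_num), h3, MulChar.one_apply (isUnit_iff_ne_zero.2 hx)]
  by_cases ht : t = 0
  · subst ht
    rw [cr_zero, MulChar.map_zero]
    simp
  · by_cases h : ∃ z : K, z ^ 3 = t
    · obtain ⟨z, rfl⟩ := h
      have hz : z ≠ 0 := by
        rintro rfl
        exact ht (by simp)
      rw [cr_cube M hM hz, map_pow, hpow z hz]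
      norm_num
    · have h1 : θ t ≠ 1 := by
        intro h1
        apply h
        obtain ⟨g, hg⟩ := IsCyclic.exists_generator (α := Kˣ)
        obtain ⟨k, hk⟩ := (Submonoid.mem_powers_iff _ _).1
          ((mem_powers_iff_mem_zpowers).2 (hg (Units.mk0 t ht)))
        have hk' : ((g : K)) ^ k = t := by
          rw [← Units.val_pow_eq_pow_val, hk]
          rfl
        by_cases hk3 : 3 ∣ k
        · obtain ⟨j, rfl⟩ := hk3
          exact ⟨(g : K) ^ j, by rw [← pow_mul, mul_comm, hk']⟩
        · exfalso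
          have h5 : θ (g : K) ^ k = 1 := by rw [← map_pow, hk', h1]
          have h6 : θ (g : K) ^ 3 = 1 := hpow _ g.ne_zero
          have h7 : θ (g : K) = 1 := by
            have h8 : orderOf (θ (g : K)) ∣ Nat.gcd 3 k :=
              Nat.dvd_gcd (orderOf_dvd_of_pow_eq_one h6) (orderOf_dvd_of_pow_eq_one h5)
            have h9 : Nat.gcd 3 k = 1 := (Nat.Prime.coprime_iff_not_dvd Nat.prime_three).2 hk3
            rw [h9, Nat.dvd_one, orderOf_eq_one_iff] at h8
            exact h8
          have h10 : θ = 1 := by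
            rw [MulChar.eq_one_iff]
            intro a
            obtain ⟨m, hm⟩ := (Submonoid.mem_powers_iff _ _).1
              ((mem_powers_iff_mem_zpowers).2 (hg a))
            rw [← hm, Units.val_pow_eq_pow_val, map_pow, h7, one_pow]
          rw [h10, orderOf_one] at hθ
          norm_num at hθ
      rw [cr_none h]
      have h2 := hpow t ht
      have h4 : (θ t - 1) * (1 + θ t + θ t ^ 2) = 0 := by linear_combination h2
      rw [(mul_eq_zero.1 h4).resolve_left (sub_ne_zero.2 h1)]
      simp

end K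

end Pool.Agent.Y688
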