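import Pool.Agent.Y688.L1

/-!
# Points of `y² + y = x³` over finite fields, II
-/

set_option autoImplicit false

open Complex

namespace Pool.Agent.Y688

section K

variable {K : Type*} [Field K] [Fintype K]

/-- the number of points of `y² + y = x³` over a finite field -/
noncomputable def NP (K : Type*) [Field K] : ℕ :=
  Nat.card {p : K × K // p.2 ^ 2 + p.2 = p.1 ^ 3}

lemma NP_eq : NP K = ∑ y : K, cr (y ^ 2 + y) := by
  classical
  unfold NP cr
  rw [Nat.card_eq_fintype_card, Fintype.card_subtype]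
  rw [Finset.card_eq_sum_card_fiberwise (f := fun p : K × K => p.2) (t := Finset.univ)
    (fun _ _ => Finset.mem_coe.2 (Finset.mem_univ _))]
  refine Finset.sum_congr rfl fun y _ => ?_
  refine Finset.card_bij (fun p _ => p.1) ?_ ?_ ?_
  · intro p hp
    simp only [Finset.mem_filter, Finset.mem_univ, true_and] at hp ⊢
    rw [← hp.1, hp.2]
  · intro p hp q hq h
    simp only [Finset.mem_filter, Finset.mem_univ, true_and] at hp hq
    exact Prod.ext h (hp.2.trans hq.2.symm)
  · intro x hx
    simp only [Finset.mem_filter, Finset.mem_univ, true_and] at hx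
    refine ⟨(x, y), ?_, rfl⟩
    simp [hx]

/-- reduction of the number of points -/
theorem NP_field (M : ℕ) (hM : 3 * M + 1 = Fintype.card K) :
    ((NP K : ℕ) : K) = -((2 * M).choose M : ℕ) := by
  classical
  have hM0 : 0 < M := by
    rcases Nat.eq_zero_or_pos M with h | h
    · subst h
      have := Fintype.one_lt_card (α := K)
      omega
    · exact h
  have h1 : ((NP K : ℕ) : K) = ∑ y : K, (1 + (y ^ 2 + y) ^ M + (y ^ 2 + y) ^ (2 * M)) := by
    rw [NP_eq, Nat.cast_sum]
    refine Finset.sum_congr rfl fun y _ => ?_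
    rw [cr_field M hM, ← pow_mul, mul_comm M 2]
  have hcard : Fintype.card K - 1 = 3 * M := by omega
  have hlow : ∀ i : ℕ, i < 3 * M → ∑ y : K, y ^ i = 0 := by
    intro i hi
    exact FiniteField.sum_pow_lt_card_sub_one K i (by rw [hcard]; exact hi)
  have hexp : ∀ n : ℕ, ∑ y : K, (y ^ 2 + y) ^ n =
      ∑ i ∈ Finset.range (n + 1), (n.choose i : K) * ∑ y : K, y ^ (n + i) := by
    intro n
    have : ∀ y : K, (y ^ 2 + y) ^ n =
        ∑ i ∈ Finset.range (n + 1), (n.choose i : K) * y ^ (n + i) := by
      intro y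
      have e : y ^ 2 + y = y * (y + 1) := by ring
      rw [e, mul_pow, add_pow, Finset.mul_sum]
      refine Finset.sum_congr rfl fun i _ => ?_
      rw [one_pow, mul_one, pow_add]
      ring
    simp_rw [this]
    rw [Finset.sum_comm]
    refine Finset.sum_congr rfl fun i _ => ?_
    rw [Finset.mul_sum]
  rw [h1, Finset.sum_add_distrib, Finset.sum_add_distrib]
  have s0 : ∑ _y : K, (1 : K) = 0 := by
    have := hlow 0 (by omega)
    simp at this ⊢
  have s1 : ∑ y : K, (y ^ 2 + y) ^ M = 0 := by
    rw [hexp]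
    refine Finset.sum_eq_zero fun i hi => ?_
    rw [Finset.mem_range] at hi
    rw [hlow (M + i) (by omega), mul_zero]
  have s2 : ∑ y : K, (y ^ 2 + y) ^ (2 * M) = -((2 * M).choose M : ℕ) := by
    rw [hexp, Finset.sum_eq_single M]
    · have : ∑ y : K, y ^ (2 * M + M) = -1 := by
        have e : 2 * M + M = Fintype.card K - 1 := by omega
        rw [e]
        have h2 : ∀ y : K, y ^ (Fintype.card K - 1) = 1 - (if y = 0 then 1 else 0) := by
          intro y
          by_cases hy : y = 0
          · rw [if_pos hy, hy, zero_pow (by omega), sub_self]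
          · rw [if_neg hy, FiniteField.pow_card_sub_one_eq_one y hy, sub_zero]
        simp_rw [h2]
        rw [Finset.sum_sub_distrib, s0]
        simp
      rw [this]
      ring
    · intro i hi hne
      rw [Finset.mem_range] at hi
      rcases lt_or_gt_of_ne hne with h | h
      · rw [hlow (2 * M + i) (by omega), mul_zero]
      · have h3 : ∑ y : K, y ^ (2 * M + i) = ∑ y : K, y ^ (i - M) := by
          refine Finset.sum_congr rfl fun y _ => ?_
          by_cases hy : y = 0
          · rw [hy, zero_pow (by omega), zero_pow (by omega)]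
          · have e : 2 * M + i = (Fintype.card K - 1) + (i - M) := by omega
            rw [e, pow_add, FiniteField.pow_card_sub_one_eq_one y hy, one_mul]
        rw [h3, hlow (i - M) (by omega), mul_zero]
    · intro h
      exfalso
      apply h
      rw [Finset.mem_range]
      omega
  rw [s0, s1, s2]
  ring

lemma w_prim : IsPrimitiveRoot w 3 := by
  have h1 : w ^ 3 = 1 := by
    have := w3
    linear_combination this
  have h2 : w ≠ 1 := by
    intro h
    have := congrArg Complex.re h
    rw [w_re] at this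
    norm_num at this
  have : Fact (Nat.Prime 3) := ⟨Nat.prime_three⟩
  have h3 : orderOf w = 3 := orderOf_eq_prime h1 h2
  rw [← h3]
  exact IsPrimitiveRoot.orderOf w

/-- the number of points by Jacobi sums -/
theorem NP_jac (M : ℕ) (hM : 3 * M + 1 = Fintype.card K) : ∃ J : RR,
    ((NP K : ℕ) : ℂ) = Fintype.card K - (J + (starRingEnd ℂ) (J : ℂ)) ∧
    Complex.normSq (J : ℂ) = Fintype.card K ∧ ∃ r : RR, J = 1 + 3 * r := by
  classical
  have hdvd : 3 ∣ Fintype.card K - 1 := ⟨M, by omega⟩
  obtain ⟨θ, hθ⟩ := MulChar.exists_mulChar_orderOf K hdvd w_prim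
  have h3 : θ ^ 3 = 1 := by
    rw [← hθ]
    exact pow_orderOf_eq_one θ
  have hne : θ ≠ 1 := by
    intro h
    rw [h, orderOf_one] at hθ
    norm_num at hθ
  have hne2 : θ * θ ≠ 1 := by
    intro h
    apply hne
    have : θ ^ 3 = θ * θ * θ := by
      rw [pow_succ, pow_two]
    rw [h3, h, one_mul] at this
    exact this.symm
  have hconj : ∀ t : K, (starRingEnd ℂ) (θ t) = θ t ^ 2 := by
    intro t
    by_cases ht : t = 0
    · rw [ht, MulChar.map_zero]
      simp
    · have h4 : θ t ^ 3 = 1 := by
        rw [← MulChar.pow_apply' θ (by norm_num), h3, MulChar.one_apply (isUnit_iff_ne_zero.2 ht)]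
      have h5 : ‖θ t‖ = 1 := Complex.norm_eq_one_of_pow_eq_one h4 (by norm_num)
      have h6 : θ t * (starRingEnd ℂ) (θ t) = 1 := by
        rw [Complex.mul_conj, Complex.normSq_eq_norm_sq, h5]
        norm_num
      linear_combination θ t ^ 2 * h6 - (starRingEnd ℂ) (θ t) * h4
  have hneg : θ (-1) = 1 := by
    have h4 : (-1 : K) = (-1) ^ 3 := by norm_num
    rw [h4, map_pow, ← MulChar.pow_apply' θ (by norm_num), h3,
      MulChar.one_apply (isUnit_iff_ne_zero.2 (by norm_num))]
  obtain ⟨z, hz, hJ⟩ := exists_jacobiSum_eq_neg_one_add (χ := θ) (ψ := θ) (by norm_num) h3 h3 hdvd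
    w_prim
  -- the Jacobi sum as a sum over the curve
  have hsum : ∑ y : K, θ (y ^ 2 + y) = jacobiSum θ θ := by
    unfold jacobiSum
    refine Fintype.sum_equiv (Equiv.neg K) _ _ fun y => ?_
    rw [Equiv.neg_apply, ← map_mul]
    have e : -y * (1 - -y) = (-1) * (y ^ 2 + y) := by ring
    rw [e, map_mul, hneg, one_mul]
  have hsum2 : ∑ y : K, θ (y ^ 2 + y) ^ 2 = (starRingEnd ℂ) (jacobiSum θ θ) := by
    rw [← hsum, map_sum]
    refine Finset.sum_congr rfl fun y _ => ?_
    rw [hconj]
  have hcount : ((NP K : ℕ) : ℂ) = Fintype.card K + (jacobiSum θ θ +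
      (starRingEnd ℂ) (jacobiSum θ θ)) := by
    rw [NP_eq, Nat.cast_sum]
    simp_rw [cr_char M hM hθ]
    rw [Finset.sum_add_distrib, Finset.sum_add_distrib, hsum, hsum2]
    simp
    ring
  have hinv : jacobiSum θ⁻¹ θ⁻¹ = (starRingEnd ℂ) (jacobiSum θ θ) := by
    have h5 : θ⁻¹ = θ ^ 2 := by
      rw [inv_eq_iff_mul_eq_one, ← pow_succ']
      exact h3
    rw [h5]
    unfold jacobiSum
    rw [map_sum]
    refine Finset.sum_congr rfl fun y _ => ?_
    rw [MulChar.pow_apply' θ (by norm_num), MulChar.pow_apply' θ (by norm_num), map_mul, hconj,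
      hconj]
  have hnorm := jacobiSum_mul_jacobiSum_inv (F := K) (F' := ℂ) (by
    rw [CharP.ringChar_zero_iff_CharZero ℂ |>.2 inferInstance]
    exact (CharP.char_ne_zero_of_finite K (ringChar K)).symm) hne hne hne2
  rw [hinv] at hnorm
  have hzR : z ∈ RR := by
    have : Algebra.adjoin ℤ {w} ≤ subalgebraOfSubring RR := by
      rw [Algebra.adjoin_le_iff, Set.singleton_subset_iff]
      exact wR.2
    exact this hz
  have e : ((1 + 3 * (wR * ⟨z, hzR⟩) : RR) : ℂ) = -jacobiSum θ θ := by
    rw [hJ]
    have hw := w_sq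
    push_cast
    rw [wR_coe]
    have : ((3 : RR) : ℂ) = 3 := rfl
    rw [this]
    linear_combination z * hw
  refine ⟨1 + 3 * (wR * ⟨z, hzR⟩), ?_, ?_, _, rfl⟩
  · rw [e, hcount, map_neg]
    ring
  · rw [e, Complex.normSq_neg]
    have h6 := Complex.mul_conj (jacobiSum θ θ)
    rw [hnorm] at h6
    exact_mod_cast h6.symm

end K

end Pool.Agent.Y688
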