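import Pool.Agent.Y688.L2
import Pool.Agent.Y688.F5
import Pool.Agent.Y688.A4

/-!
# Local counts: parity and unique factorization
-/

set_option autoImplicit false

open Complex

namespace Pool.Agent.Y688

section K

variable {K : Type*} [Field K] [Fintype K]

/-- if `2` is not a cube, the number of affine points is even -/
theorem NP_even (h : ∀ x : K, x ^ 3 ≠ 2) : Even (NP K) := by
  classical
  have h2 : (2 : K) ≠ 0 := by
    intro h0
    apply h 0
    rw [h0]
    norm_num
  let S := {p : K × K // p.2 ^ 2 + p.2 = p.1 ^ 3}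
  let σ : Equiv.Perm S :=
    { toFun := fun p => ⟨(p.1.1, -1 - p.1.2), by
        have := p.2
        show (-1 - p.1.2) ^ 2 + (-1 - p.1.2) = p.1.1 ^ 3
        rw [← this]
        ring⟩
      invFun := fun p => ⟨(p.1.1, -1 - p.1.2), by
        have := p.2
        show (-1 - p.1.2) ^ 2 + (-1 - p.1.2) = p.1.1 ^ 3
        rw [← this]
        ring⟩
      left_inv := fun p => by
        apply Subtype.ext
        apply Prod.ext
        · rfl
        · simp
      right_inv := fun p => by
        apply Subtype.ext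
        apply Prod.ext
        · rfl
        · simp }
  have hσ : σ ^ 2 = 1 := by
    ext1 p
    rw [pow_two]
    exact σ.left_inv p
  have h1 := Equiv.Perm.two_dvd_card_support hσ
  have h3 : σ.support = Finset.univ := by
    ext p
    simp only [Equiv.Perm.mem_support, Finset.mem_univ, iff_true]
    intro hp
    have e1 : -1 - p.1.2 = p.1.2 := congrArg (fun q : S => q.1.2) hp
    have e2 := p.2
    apply h (-2 * p.1.1)
    linear_combination 8 * e2 + (4 * p.1.2 + 2) * e1
  rw [h3, Finset.card_univ] at h1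
  unfold NP
  rw [Nat.card_eq_fintype_card]
  exact even_iff_two_dvd.2 h1

end K

/-! ### factorization in `ℤ[ω]` -/

lemma unit_of_nsq {x : RR} (h : Complex.normSq (x : ℂ) = 1) : IsUnit x := by
  obtain ⟨a, b, hab⟩ := (mem_RR x).1 x.2
  have hc : (starRingEnd ℂ) (x : ℂ) ∈ RR := by
    rw [hab, map_add, map_mul, conj_w]
    simp only [map_intCast]
    exact ⟨a - b, -b, by push_cast; ring⟩
  refine isUnit_of_dvd_one ⟨⟨_, hc⟩, ?_⟩
  apply Subtype.ext
  push_cast
  rw [Complex.mul_conj, h]
  norm_num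

/-- conjugation -/
noncomputable def cj (x : RR) : RR := ⟨(starRingEnd ℂ) (x : ℂ), by
  obtain ⟨a, b, hab⟩ := (mem_RR x).1 x.2
  rw [hab, map_add, map_mul, conj_w]
  simp only [map_intCast]
  exact ⟨a - b, -b, by push_cast; ring⟩⟩

lemma cj_coe (x : RR) : ((cj x : RR) : ℂ) = (starRingEnd ℂ) (x : ℂ) := rfl

lemma cj_mul (x y : RR) : cj (x * y) = cj x * cj y := Subtype.ext (by
  push_cast
  rw [cj_coe, cj_coe, cj_coe]
  push_cast
  rw [map_mul])

lemma cj_cj (x : RR) : cj (cj x) = x := Subtype.ext (by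
  rw [cj_coe, cj_coe, Complex.conj_conj])

lemma cj_dvd {x y : RR} : cj x ∣ cj y ↔ x ∣ y := by
  constructor
  · rintro ⟨z, hz⟩
    refine ⟨cj z, ?_⟩
    rw [← cj_cj y, hz, cj_mul, cj_cj]
  · rintro ⟨z, rfl⟩
    exact ⟨cj z, cj_mul x z⟩

/-- the natural norm -/
noncomputable def nr (x : RR) : ℕ := (normSq_RR x).choose

lemma nr_spec (x : RR) : Complex.normSq (x : ℂ) = nr x := (normSq_RR x).choose_spec

lemma nr_mul (x y : RR) : nr (x * y) = nr x * nr y := by
  have h : ((nr (x * y) : ℕ) : ℝ) = (nr x * nr y : ℕ) := by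
    push_cast
    rw [← nr_spec, ← nr_spec, ← nr_spec, ← Complex.normSq_mul]
    rfl
  exact_mod_cast h

lemma nr_cj (x : RR) : nr (cj x) = nr x := by
  have h : ((nr (cj x) : ℕ) : ℝ) = (nr x : ℕ) := by
    rw [← nr_spec, ← nr_spec, cj_coe, Complex.normSq_conj]
  exact_mod_cast h

lemma nr_unit {x : RR} : nr x = 1 ↔ IsUnit x := by
  constructor
  · intro h
    apply unit_of_nsq
    rw [nr_spec, h]
    norm_num
  · rintro ⟨u, rfl⟩
    have := unit_norm u
    rw [nr_spec] at this
    exact_mod_cast this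

lemma nr_zero {x : RR} : nr x = 0 ↔ x = 0 := by
  have h := nr_spec x
  constructor
  · intro h0
    rw [h0, Nat.cast_zero, Complex.normSq_eq_zero] at h
    exact Subtype.ext h
  · rintro rfl
    have : Complex.normSq (((0 : RR)) : ℂ) = 0 := by
      rw [Complex.normSq_eq_zero]
      rfl
    rw [this] at h
    exact_mod_cast h.symm

lemma mul_cj (x : RR) : x * cj x = (nr x : RR) := Subtype.ext (by
  push_cast
  rw [cj_coe, Complex.mul_conj, nr_spec]
  norm_cast)

lemma nr_nat (n : ℕ) : nr (n : RR) = n ^ 2 := by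
  have h : ((nr (n : RR) : ℕ) : ℝ) = (n ^ 2 : ℕ) := by
    rw [← nr_spec]
    have : ((n : RR) : ℂ) = (n : ℂ) := by push_cast; rfl
    rw [this, Complex.normSq_natCast]
    push_cast
    ring
  exact_mod_cast h

lemma nr_dvd {x y : RR} (h : x ∣ y) : nr x ∣ nr y := by
  obtain ⟨z, rfl⟩ := h
  rw [nr_mul]
  exact dvd_mul_right _ _

/-- an element dividing an element of the same norm is associated -/
lemma assoc_of_dvd {x y : RR} (hx : x ≠ 0) (h : x ∣ y) (hn : nr x = nr y) : Associated x y := by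
  obtain ⟨z, rfl⟩ := h
  rw [nr_mul] at hn
  have h0 : nr x ≠ 0 := fun h => hx (nr_zero.1 h)
  have h1 : nr z = 1 := by
    have : nr x * 1 = nr x * nr z := by rw [mul_one]; exact hn
    exact (mul_left_cancel₀ h0 this).symm
  obtain ⟨u, hu⟩ := nr_unit.1 h1
  exact ⟨u, by rw [hu]⟩

/-- prime norm implies prime -/
lemma prime_of_nr {x : RR} (h : (nr x).Prime) : Prime x := by
  rw [← irreducible_iff_prime]
  refine ⟨fun hu => ?_, fun a b hab => ?_⟩
  · rw [nr_unit.2 hu] at h
    exact Nat.not_prime_one h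
  · rw [hab, nr_mul, Nat.prime_mul_iff] at h
    rcases h with ⟨-, h⟩ | ⟨-, h⟩
    · exact Or.inr (nr_unit.1 h)
    · exact Or.inl (nr_unit.1 h)

/-- if two elements are `1` modulo `3` and associated, they are equal -/
lemma eq_of_assoc {x y : RR} (h : Associated x y) (hx : ∃ r : RR, x = 1 + 3 * r)
    (hy : ∃ r : RR, y = 1 + 3 * r) : x = y := by
  obtain ⟨u, hu⟩ := h
  obtain ⟨r, hr⟩ := hx
  obtain ⟨s, hs⟩ := hy
  have h1 : u = 1 := by
    refine unit_uniq (r := s - r * u) ?_
    rw [Units.val_one]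
    rw [hr, hs] at hu
    linear_combination hu
  rw [← hu, h1, Units.val_one, mul_one]

lemma norm_mod (x : RR) : nr x % 3 ≠ 2 := by
  obtain ⟨a, b, hab⟩ := (mem_RR x).1 x.2
  have h := nr_spec x
  rw [hab] at h
  have h2 := normSq_lin a b
  push_cast at h2
  rw [h2] at h
  have h3 : a ^ 2 - a * b + b ^ 2 = (nr x : ℤ) := by exact_mod_cast h
  have ha : a % 3 = 0 ∨ a % 3 = 1 ∨ a % 3 = 2 := by omega
  have hb : b % 3 = 0 ∨ b % 3 = 1 ∨ b % 3 = 2 := by omega
  have h4 : (a ^ 2 - a * b + b ^ 2) % 3 ≠ 2 := by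
    rw [Int.add_emod, Int.sub_emod, pow_two, pow_two, Int.mul_emod, Int.mul_emod a b, Int.mul_emod b b]
    rcases ha with h | h | h <;> rcases hb with h' | h' | h' <;> rw [h, h'] <;> decide
  rw [h3] at h4
  omega

/-- `p ≡ 2 mod 3` is prime -/
lemma prime_inert {p : ℕ} (hp : p.Prime) (h : p % 3 = 2) : Prime (p : RR) := by
  rw [← irreducible_iff_prime]
  refine ⟨fun hu => ?_, fun a b hab => ?_⟩
  · have := nr_unit.2 hu
    rw [nr_nat] at this
    have h2 := hp.two_le
    nlinarith
  · have h1 : nr a * nr b = p ^ 2 := by rw [← nr_mul, ← hab, nr_nat]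
    have h2 : nr a ∣ p ^ 2 := ⟨nr b, h1.symm⟩
    rw [Nat.dvd_prime_pow hp] at h2
    obtain ⟨k, hk, hk'⟩ := h2
    interval_cases k
    · exact Or.inl (nr_unit.1 (by rw [hk', pow_zero]))
    · exfalso
      have := norm_mod a
      rw [hk', pow_one] at this
      exact this h
    · right
      rw [← nr_unit]
      rw [hk'] at h1
      have hpos : 0 < p ^ 2 := by positivity [hp.pos]
      nlinarith

/-- elements of the same norm, a power of an inert prime -/
lemma assoc_inert {p : ℕ} (hp : p.Prime) (h : p % 3 = 2) {x y : RR} {m : ℕ} (hx : nr x = p ^ m)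
    (hy : nr y = p ^ m) : Associated x y := by
  have hpr := prime_inert hp h
  have key : ∀ z : RR, nr z = p ^ m → ∃ i : ℕ, 2 * i = m ∧ Associated z ((p : RR) ^ i) := by
    intro z hz
    have h1 : z ∣ (p : RR) ^ m := by
      have := mul_cj z
      rw [hz] at this
      push_cast at this
      exact ⟨cj z, this.symm⟩
    obtain ⟨i, hi, hi'⟩ := (dvd_prime_pow hpr m).1 h1
    refine ⟨i, ?_, hi'⟩
    have h2 : nr z = nr ((p : RR) ^ i) := by
      obtain ⟨u, hu⟩ := hi'
      rw [← hu, nr_mul, nr_unit.2 u.isUnit, mul_one]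
    have h3 : nr ((p : RR) ^ i) = p ^ (2 * i) := by
      have : (p : RR) ^ i = ((p ^ i : ℕ) : RR) := by push_cast; rfl
      rw [this, nr_nat]
      ring
    rw [hz, h3] at h2
    exact (Nat.pow_right_injective hp.two_le h2).symm
  obtain ⟨i, hi, hx'⟩ := key x hx
  obtain ⟨j, hj, hy'⟩ := key y hy
  have : i = j := by omega
  subst this
  exact hx'.trans hy'.symm

/-- elements of prime norm -/
lemma assoc_prime {p : ℕ} (hp : p.Prime) {x y : RR} (hx : nr x = p) (hy : nr y = p) :
    Associated x y ∨ Associated x (cj y) := by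
  have hxp : Prime x := prime_of_nr (by rw [hx]; exact hp)
  have h1 : x ∣ y * cj y := by
    rw [mul_cj, hy, ← hx, ← mul_cj]
    exact dvd_mul_right _ _
  rcases hxp.dvd_or_dvd h1 with h | h
  · exact Or.inl (assoc_of_dvd hxp.ne_zero h (by rw [hx, hy]))
  · exact Or.inr (assoc_of_dvd hxp.ne_zero h (by rw [hx, nr_cj, hy]))

/-- elements of norm `p²` which are not divisible by `p` -/
lemma assoc_sq {p : ℕ} (hp : p.Prime) {x t : RR} (ht : nr t = p) (hx : nr x = p ^ 2)
    (hnx : ¬ (p : RR) ∣ x) : Associated x (t * t) ∨ Associated x (cj t * cj t) := by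
  have key : ∀ t : RR, nr t = p → t ∣ x → Associated x (t * t) := by
    intro t ht h
    obtain ⟨z, rfl⟩ := h
    have hz : nr z = p := by
      rw [nr_mul, ht, pow_two] at hx
      exact mul_left_cancel₀ hp.ne_zero hx
    rcases assoc_prime hp hz ht with h1 | h1
    · exact h1.mul_left t
    · exfalso
      apply hnx
      rw [← ht, ← mul_cj]
      exact mul_dvd_mul_left t h1.symm.dvd
  have htp : Prime t := prime_of_nr (by rw [ht]; exact hp)
  have h1 : t ∣ x * cj x := by
    rw [mul_cj, hx]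
    have : (p : RR) = t * cj t := by rw [mul_cj, ht]
    push_cast
    rw [this]
    exact ((dvd_mul_right _ _).pow (by norm_num) : t ∣ (t * cj t) ^ 2)
  rcases htp.dvd_or_dvd h1 with h | h
  · exact Or.inl (key t ht h)
  · right
    refine key (cj t) (by rw [nr_cj, ht]) ?_
    rw [← cj_dvd, cj_cj]
    exact h

end Pool.Agent.Y688
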