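import Pool.Agent.Y688.L3

/-!
# Local counts
-/

set_option autoImplicit false

open Complex

namespace Pool.Agent.Y688

lemma not_dvd_choose {p m M : ℕ} (hp : p.Prime) (hm : p = 3 * m + 1) (hM : 3 * M + 1 = p ^ 2) :
    ¬ p ∣ (2 * M).choose M := by
  have : Fact p.Prime := ⟨hp⟩
  have hMm : M = p * m + m := by
    have : 3 * M + 1 = 3 * (p * m + m) + 1 := by
      rw [hM, hm]
      ring
    omega
  have hm0 : 0 < p := hp.pos
  have h1 := Choose.choose_modEq_choose_mod_mul_choose_div_nat (n := 2 * M) (k := M) (p := p)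
  have e1 : M % p = m := by
    rw [hMm, Nat.mul_add_mod]
    exact Nat.mod_eq_of_lt (by omega)
  have e2 : M / p = m := by
    rw [hMm, Nat.mul_add_div hm0, Nat.div_eq_of_lt (by omega), add_zero]
  have e0 : 2 * M = p * (2 * m) + 2 * m := by
    rw [hMm]
    ring
  have e3 : (2 * M) % p = 2 * m := by
    rw [e0, Nat.mul_add_mod]
    exact Nat.mod_eq_of_lt (by omega)
  have e4 : (2 * M) / p = 2 * m := by
    rw [e0, Nat.mul_add_div hm0, Nat.div_eq_of_lt (by omega), add_zero]
  rw [e1, e2, e3, e4] at h1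
  intro hdvd
  have h2 : p ∣ (2 * m).choose m * (2 * m).choose m := by
    rw [← Nat.modEq_zero_iff_dvd] at hdvd ⊢
    exact h1.symm.trans hdvd
  have h3 : p ∣ (2 * m).choose m := by
    rcases (Nat.Prime.dvd_mul hp).1 h2 with h | h <;> exact h
  have h4 : p ∣ (2 * m).factorial := by
    have h5 : (2 * m).choose m * (m.factorial * (2 * m - m).factorial) = (2 * m).factorial := by
      rw [← mul_assoc]
      exact Nat.choose_mul_factorial_mul_factorial (by omega)
    rw [← h5]
    exact h3.mul_right _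
  rw [hp.dvd_factorial] at h4
  omega

variable {A : Type*} [CommRing A] {K : Type*} [Field K] [Fintype K]

lemma sc_zero (D : FD A E1 E2) : D.sc 0 = 0 := by
  apply D.i2
  rw [D.sc2, map_zero]
  rfl

lemma sc_nat (D : FD A E1 E2) (n : ℕ) : D.sc (n : RR) = (n : A) := by
  apply D.i2
  rw [D.sc2, map_natCast]
  push_cast
  rfl

lemma sc_add (D : FD A E1 E2) (x y : RR) : D.sc (x + y) = D.sc x + D.sc y := by
  apply D.i2
  rw [map_add, D.sc2, D.sc2, D.sc2]
  rfl

/-- the trace of Frobenius -/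
theorem local_count (D : FD A E1 E2) {π : A} (f : A →+* K)
    (hker : RingHom.ker f = Ideal.span {π}) (hcard : (Fintype.card K : ℝ) = D.N π)
    (h3 : (3 : K) ≠ 0) : ∃ u : RRˣ, ∃ r : RR, D.nn π = u + 3 * r ∧
      ((NP K : ℕ) : ℂ) = Fintype.card K - ((D.nn π * ((u⁻¹ : RRˣ) : RR) : RR) +
        (starRingEnd ℂ) ((D.nn π * ((u⁻¹ : RRˣ) : RR) : RR) : ℂ)) := by
  classical
  set q := Fintype.card K with hq
  have hnr : nr (D.nn π) = q := by
    have h1 : ((nr (D.nn π) : ℕ) : ℝ) = (q : ℕ) := by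
      rw [hcard, D.N_nn, nr_spec]
    exact_mod_cast h1
  set p := ringChar K with hp_def
  have hchar : CharP K p := ringChar.charP K
  obtain ⟨n, hp, hpn⟩ := FiniteField.card K p
  have hpn' : q = p ^ (n : ℕ) := hpn
  have hn1 : 1 ≤ (n : ℕ) := n.pos
  have hp3 : p ≠ 3 := by
    intro h
    apply h3
    have : ((3 : ℕ) : K) = 0 := by
      rw [CharP.cast_eq_zero_iff K p, h]
    exact_mod_cast this
  -- `3 ∣ q - 1`
  have hmul : D.sc wR * D.sc wR = -1 - D.sc wR := by
    have e : wR * wR + (1 + wR) = 0 := by linear_combination wR_sq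
    have e2 := congrArg D.sc e
    rw [sc_add, sc_add, D.sc_mul, D.sc_one, sc_zero] at e2
    linear_combination e2
  obtain ⟨M, hM⟩ : ∃ M : ℕ, 3 * M + 1 = q := by
    have h0 : f (D.sc wR) * f (D.sc wR) = -1 - f (D.sc wR) := by
      rw [← map_mul, hmul, map_sub, map_neg, map_one]
    set ω := f (D.sc wR)
    have hω3 : ω * (ω * ω) = 1 := by linear_combination (ω - 1) * h0
    let ωu : Kˣ := ⟨ω, ω * ω, hω3, by rw [mul_comm]; exact hω3⟩
    have hne : ωu ≠ 1 := by
      intro h
      have h1 : ω = 1 := congrArg Units.val h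
      rw [h1] at h0
      apply h3
      linear_combination h0
    have : Fact (Nat.Prime 3) := ⟨Nat.prime_three⟩
    have h4 : ωu ^ 3 = 1 := by
      apply Units.ext
      rw [Units.val_pow_eq_pow_val, Units.val_one]
      show ω ^ 3 = 1
      linear_combination hω3
    have h5 := orderOf_eq_prime h4 hne
    have h6 : orderOf ωu ∣ Fintype.card Kˣ := orderOf_dvd_card
    rw [h5, Fintype.card_units] at h6
    obtain ⟨M, hM⟩ := h6
    exact ⟨M, by have := Fintype.one_lt_card (α := K); omega⟩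
  -- the unit
  have hlam : ¬ lam ∣ D.nn π := by
    intro h
    have h1 := nr_dvd h
    have h2 : nr lam = 3 := by
      have h3 : ((nr lam : ℕ) : ℝ) = (3 : ℕ) := by
        rw [← nr_spec, lam_I, Complex.normSq_mul, Complex.normSq_I, one_mul, Complex.normSq_ofReal,
          Real.mul_self_sqrt (by norm_num)]
        norm_num
      exact_mod_cast h3
    rw [h2, hnr] at h1
    omega
  obtain ⟨u, r, hu⟩ := (three_cases (D.nn π)).resolve_left hlam
  refine ⟨u, r, hu, ?_⟩
  set ψ : RR := D.nn π * ((u⁻¹ : RRˣ) : RR) with hψ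
  have hψass : Associated (D.nn π) ψ := ⟨u⁻¹, rfl⟩
  have hψ1 : ∃ r : RR, ψ = 1 + 3 * r := by
    refine ⟨r * ((u⁻¹ : RRˣ) : RR), ?_⟩
    have : (u : RR) * ((u⁻¹ : RRˣ) : RR) = 1 := u.mul_inv
    rw [hψ, hu]
    linear_combination this
  have hψn : nr ψ = q := by
    rw [hψ, nr_mul, nr_unit.2 (u⁻¹).isUnit, mul_one, hnr]
  have hcj1 : ∀ {x : RR}, (∃ r : RR, x = 1 + 3 * r) → ∃ r : RR, cj x = 1 + 3 * r := by
    rintro x ⟨r, rfl⟩
    refine ⟨cj r, Subtype.ext ?_⟩
    rw [cj_coe]
    push_cast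
    rw [map_add, map_mul, map_one, cj_coe]
    have : ((3 : RR) : ℂ) = 3 := rfl
    rw [this, map_ofNat]
  obtain ⟨J, hJ, hJn, hJ1⟩ := NP_jac M hM
  have hJq : nr J = q := by
    rw [nr_spec] at hJn
    exact_mod_cast hJn
  -- it suffices to identify `J`
  have suff : (Associated J ψ ∨ Associated J (cj ψ)) → ((NP K : ℕ) : ℂ) = q - ((ψ : ℂ) +
        (starRingEnd ℂ) (ψ : ℂ)) := by
    rintro (h | h)
    · rw [← eq_of_assoc h hJ1 hψ1]
      exact hJ
    · rw [hJ, eq_of_assoc h hJ1 (hcj1 hψ1), cj_coe, Complex.conj_conj]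
      ring
  apply suff
  have hpm : p % 3 = 0 ∨ p % 3 = 1 ∨ p % 3 = 2 := by omega
  rcases hpm with h | h | h
  · exfalso
    have : 3 ∣ p := Nat.dvd_of_mod_eq_zero h
    exact hp3 ((Nat.prime_dvd_prime_iff_eq Nat.prime_three hp).1 this).symm
  · -- split primes
    obtain ⟨m, hm⟩ : ∃ m, p = 3 * m + 1 := ⟨p / 3, by omega⟩
    have : Fact p.Prime := ⟨hp⟩
    obtain ⟨t, -, htn, ht1⟩ := NP_jac (K := ZMod p) m (by rw [ZMod.card]; omega)
    have htp : nr t = p := by
      rw [nr_spec, ZMod.card] at htn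
      exact_mod_cast htn
    have hpf : f (D.sc t) * f (D.sc (cj t)) = 0 := by
      rw [← map_mul, ← D.sc_mul, mul_cj, htp, sc_nat, map_natCast, CharP.cast_eq_zero_iff K p]
    obtain ⟨t', ht', hft⟩ : ∃ t' : RR, (t' = t ∨ t' = cj t) ∧ f (D.sc t') = 0 := by
      rcases mul_eq_zero.1 hpf with h1 | h1
      · exact ⟨t, Or.inl rfl, h1⟩
      · exact ⟨cj t, Or.inr rfl, h1⟩
    have ht'n : nr t' = p := by
      rcases ht' with h1 | h1
      · rw [h1, htp]
      · rw [h1, nr_cj, htp]
    have hmem : D.sc t' ∈ Ideal.span {π} := by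
      rw [← hker, RingHom.mem_ker, hft]
    obtain ⟨γ, hγ⟩ := Ideal.mem_span_singleton.1 hmem
    have hnn : t' * t' = D.nn π * D.nn γ := by
      rw [← D.nn_sc, hγ, D.nn_mul]
    have hnrr : p * p = q * nr (D.nn γ) := by
      have := congrArg nr hnn
      rwa [nr_mul, nr_mul, ht'n, hnr] at this
    have hn2 : (n : ℕ) = 1 ∨ (n : ℕ) = 2 := by
      have h1 : p ^ (n : ℕ) ∣ p ^ 2 := ⟨nr (D.nn γ), by rw [← hpn', ← hnrr, pow_two]⟩
      have h2 := (Nat.pow_dvd_pow_iff_le_right hp.one_lt).1 h1
      omega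
    rcases hn2 with h1 | h1
    · rw [h1, pow_one] at hpn'
      exact assoc_prime hp (by rw [hJq, hpn']) (by rw [hψn, hpn'])
    · rw [h1] at hpn'
      have hγ1 : nr (D.nn γ) = 1 := by
        rw [hpn', pow_two] at hnrr
        have : p * p * 1 = p * p * nr (D.nn γ) := by rw [mul_one]; exact hnrr
        exact (mul_left_cancel₀ (mul_ne_zero hp.ne_zero hp.ne_zero) this).symm
      obtain ⟨g, hg⟩ := nr_unit.1 hγ1
      have hψt : Associated ψ (t' * t') := by
        refine hψass.symm.trans ⟨g, ?_⟩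
        rw [hg, hnn]
      have hnp : ¬ (p : RR) ∣ J := by
        intro hdvd
        have h2 : nr (p : RR) = nr J := by rw [nr_nat, hJq, hpn']
        have h3 : (p : RR) = J := by
          refine eq_of_assoc (assoc_of_dvd ?_ hdvd h2) ⟨m, ?_⟩ hJ1
          · exact_mod_cast hp.ne_zero
          · rw [hm]
            push_cast
            ring
        have h4 : ((NP K : ℕ) : ℂ) = ((p ^ 2 - 2 * p : ℤ) : ℂ) := by
          have e : ((p : RR) : ℂ) = (p : ℂ) := by push_cast; rfl
          rw [hJ, ← h3, ← hq, hpn', e, map_natCast]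
          push_cast
          ring
        have h5 : ((NP K : ℕ) : ℤ) = p ^ 2 - 2 * p := by exact_mod_cast h4
        have h6 : (((NP K : ℕ) : ℤ) : K) = 0 := by
          rw [h5]
          push_cast
          rw [(CharP.cast_eq_zero_iff K p p).2 dvd_rfl]
          ring
        have h7 := NP_field M hM
        rw [Int.cast_natCast] at h6
        rw [h6] at h7
        have h8 : (((2 * M).choose M : ℕ) : K) = 0 := by linear_combination h7
        rw [CharP.cast_eq_zero_iff K p] at h8
        exact not_dvd_choose hp hm (by rw [hM, hpn']) h8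
      rcases assoc_sq hp htp (by rw [hJq, hpn']) hnp with h2 | h2
      · rcases ht' with h3 | h3
        · left
          rw [h3] at hψt
          exact h2.trans hψt.symm
        · right
          rw [h3] at hψt
          refine h2.trans ?_
          obtain ⟨z, hz⟩ := hψt
          refine Associated.symm ?_
          refine associated_of_dvd_dvd ?_ ?_
          · rw [← cj_cj t, ← cj_mul, cj_dvd]
            exact ⟨z, hz.symm⟩
          · rw [← cj_cj t, ← cj_mul, cj_dvd]
            exact (Associated.symm ⟨z, hz⟩).dvd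
      · rcases ht' with h3 | h3
        · right
          rw [h3] at hψt
          refine h2.trans ?_
          obtain ⟨z, hz⟩ := hψt
          refine associated_of_dvd_dvd ?_ ?_
          · rw [← cj_mul, cj_dvd]
            exact (Associated.symm ⟨z, hz⟩).dvd
          · rw [← cj_mul, cj_dvd]
            exact Associated.dvd ⟨z, hz⟩
        · left
          rw [h3] at hψt
          exact h2.trans hψt.symm
  · left
    exact assoc_inert hp h (m := n) (by rw [hJq, hpn']) (by rw [hψn, hpn'])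

end Pool.Agent.Y688
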