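import Pool.Agent.Y688.V2

/-!
# The character modulo `3`
-/

set_option autoImplicit false

open Complex Filter Topology
open scoped PeriodPair

namespace Pool.Agent.Y688

open Pool.Agent.W192.HK Pool.Agent.TH936.CM H667R3

/-- `√-3` -/
noncomputable def lam : RR := 1 + 2 * wR

lemma lam_coe : ((lam : RR) : ℂ) = 1 + 2 * w := by
  unfold lam
  push_cast
  rw [coe2, wR_coe]

lemma lam_sq : lam * lam = -3 := by
  unfold lam
  linear_combination 4 * wR_sq

lemma unit_norm (u : RRˣ) : Complex.normSq ((u : RR) : ℂ) = 1 := by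
  have h1 := one_le_normSq u.ne_zero
  have h2 := one_le_normSq u⁻¹.ne_zero
  have h3 : Complex.normSq ((u : RR) : ℂ) * Complex.normSq (((u⁻¹ : RRˣ) : RR) : ℂ) = 1 := by
    rw [← Complex.normSq_mul]
    have h4 : ((u : RR) : ℂ) * (((u⁻¹ : RRˣ) : RR) : ℂ) = 1 := by
      have := u.mul_inv
      have := congrArg Subtype.val this
      exact this
    rw [h4, map_one]
  nlinarith

lemma unit_norm' (u : RRˣ) : ‖((u : RR) : ℂ)‖ = 1 := by
  have h := unit_norm u
  rw [Complex.normSq_eq_norm_sq] at h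
  have := norm_nonneg ((u : RR) : ℂ)
  nlinarith

lemma unit_uniq {u u' : RRˣ} {r : RR} (h : (u : RR) - u' = 3 * r) : u = u' := by
  by_contra hne
  have hr : r ≠ 0 := by
    rintro rfl
    rw [mul_zero, sub_eq_zero] at h
    exact hne (Units.ext h)
  have h1 := one_le_norm hr
  have h2 : ‖((u : RR) : ℂ) - ((u' : RR) : ℂ)‖ = ‖((3 : RR) : ℂ)‖ * ‖(r : ℂ)‖ := by
    rw [← norm_mul]
    exact congrArg (fun z : RR => ‖(z : ℂ)‖) h
  have h3 : ‖((3 : RR) : ℂ)‖ = 3 := by
    have : ((3 : RR) : ℂ) = 3 := rfl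
    rw [this]
    norm_num
  rw [h3] at h2
  have h4 := norm_sub_le ((u : RR) : ℂ) ((u' : RR) : ℂ)
  rw [unit_norm', unit_norm'] at h4
  linarith

/-- the unit modulo `3` -/
noncomputable def ups (n : RR) : ℂ := by
  classical
  exact if h : ∃ u : RRˣ, ∃ r : RR, n = u + 3 * r then ((h.choose : RR) : ℂ) else 0

lemma ups_unit (u : RRˣ) (r : RR) : ups (u + 3 * r) = (u : RR) := by
  have h : ∃ u' : RRˣ, ∃ r' : RR, (u : RR) + 3 * r = u' + 3 * r' := ⟨u, r, rfl⟩
  unfold ups
  rw [dif_pos h]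
  obtain ⟨r', hr'⟩ := h.choose_spec
  have : h.choose = u := by
    refine unit_uniq (r := r - r') ?_
    linear_combination -hr'
  rw [this]

lemma lam_dvd_three : lam ∣ (3 : RR) := ⟨-lam, by linear_combination lam_sq⟩

lemma not_unit_lam : ¬ IsUnit lam := by
  intro h
  obtain ⟨u, hu⟩ := h
  have h1 := unit_norm u
  rw [hu, lam_coe] at h1
  have := nsq 1 2
  push_cast at this
  rw [this] at h1
  norm_num at h1

lemma ups_lam {n : RR} (h : lam ∣ n) : ups n = 0 := by
  unfold ups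
  rw [dif_neg]
  rintro ⟨u, r, hr⟩
  have h1 : lam ∣ (u : RR) := by
    have : (u : RR) = n - 3 * r := by rw [hr]; ring
    rw [this]
    exact dvd_sub h (lam_dvd_three.mul_right r)
  exact not_unit_lam (isUnit_of_dvd_unit h1 u.isUnit)

/-- `ω` as a unit -/
noncomputable def wU : RRˣ := ⟨wR, wR * wR, wR3, by rw [mul_comm]; exact wR3⟩

lemma wU_coe : ((wU : RRˣ) : RR) = wR := rfl

/-- residue classes modulo `3` -/
lemma three_cases (n : RR) : lam ∣ n ∨ ∃ u : RRˣ, ∃ r : RR, n = u + 3 * r := by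
  obtain ⟨a, b, hab⟩ := (mem_RR n).1 n.2
  have hn : n = (a : RR) + (b : RR) * wR := Subtype.ext (by
    push_cast
    rw [wR_coe]
    exact hab)
  have ha : a = 3 * (a / 3) + a % 3 := by omega
  have hb : b = 3 * (b / 3) + b % 3 := by omega
  have haR : (a : RR) = 3 * ((a / 3 : ℤ) : RR) + ((a % 3 : ℤ) : RR) := by
    conv_lhs => rw [ha]
    push_cast
    ring
  have hbR : (b : RR) = 3 * ((b / 3 : ℤ) : RR) + ((b % 3 : ℤ) : RR) := by
    conv_lhs => rw [hb]
    push_cast
    ring
  have ha3 : a % 3 = 0 ∨ a % 3 = 1 ∨ a % 3 = 2 := by omega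
  have hb3 : b % 3 = 0 ∨ b % 3 = 1 ∨ b % 3 = 2 := by omega
  set x : RR := ((a / 3 : ℤ) : RR) with hx
  set y : RR := ((b / 3 : ℤ) : RR) with hy
  rw [hn, haR, hbR]
  rcases ha3 with h1 | h1 | h1 <;> rcases hb3 with h2 | h2 | h2 <;> rw [h1, h2] <;> push_cast
  · left
    obtain ⟨c, hc⟩ := lam_dvd_three
    exact ⟨c * (x + y * wR), by linear_combination (x + y * wR) * hc⟩
  · right
    exact ⟨wU, x + y * wR, by rw [wU_coe]; ring⟩
  · right
    exact ⟨-wU, x + y * wR + wR, by rw [Units.val_neg, wU_coe]; ring⟩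
  · right
    exact ⟨1, x + y * wR, by rw [Units.val_one]; ring⟩
  · right
    exact ⟨-(wU * wU), x + y * wR, by
      rw [Units.val_neg, Units.val_mul, wU_coe]
      linear_combination wR_sq⟩
  · left
    obtain ⟨c, hc⟩ := lam_dvd_three
    refine ⟨c * (x + y * wR) + 1, ?_⟩
    have : lam = 1 + 2 * wR := rfl
    linear_combination (x + y * wR) * hc - this
  · right
    exact ⟨-1, x + y * wR + 1, by rw [Units.val_neg, Units.val_one]; ring⟩
  · left
    obtain ⟨c, hc⟩ := lam_dvd_three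
    refine ⟨c * (x + y * wR) - 1 + c * (1 + wR), ?_⟩
    have : lam = 1 + 2 * wR := rfl
    linear_combination (x + y * wR) * hc + this + (1 + wR) * hc
  · right
    exact ⟨wU * wU, x + y * wR + 1 + wR, by
      rw [Units.val_mul, wU_coe]
      linear_combination -wR_sq⟩

lemma ups_mul (m n : RR) : ups (m * n) = ups m * ups n := by
  rcases three_cases m with hm | ⟨u, r, hm⟩
  · rw [ups_lam hm, ups_lam (hm.mul_right n), zero_mul]
  · rcases three_cases n with hn | ⟨u', r', hn⟩
    · rw [ups_lam hn, ups_lam (hn.mul_left m), mul_zero]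
    · have h1 : m * n = ((u * u' : RRˣ) : RR) + 3 * (u * r' + r * u' + 3 * (r * r')) := by
        rw [hm, hn]
        push_cast
        ring
      rw [h1, ups_unit, hm, hn, ups_unit, ups_unit]
      push_cast
      ring

lemma ups_per (n r : RR) : ups (n + 3 * r) = ups n := by
  rcases three_cases n with hn | ⟨u, r', hn⟩
  · rw [ups_lam hn, ups_lam (dvd_add hn (lam_dvd_three.mul_right r))]
  · have : n + 3 * r = u + 3 * (r + r') := by rw [hn]; ring
    rw [this, ups_unit, hn, ups_unit]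

lemma ups_u (u : RRˣ) : ups u = (u : RR) := by
  have := ups_unit u 0
  rwa [mul_zero, add_zero] at this

lemma ups_one : ups 1 = 1 := by
  have := ups_u 1
  rw [Units.val_one] at this
  rw [this]
  rfl

lemma ups_norm (n : RR) : ‖ups n‖ ≤ 1 := by
  rcases three_cases n with hn | ⟨u, r, hn⟩
  · rw [ups_lam hn, norm_zero]
    exact zero_le_one
  · rw [hn, ups_unit, unit_norm']

/-- `υ` of a number prime to `3` is a unit of the ring -/
lemma ups_cases (n : RR) : ups n = 0 ∨ ∃ u : RRˣ, ups n = (u : RR) ∧ ∃ r : RR, n = u + 3 * r := by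
  rcases three_cases n with hn | ⟨u, r, hn⟩
  · exact Or.inl (ups_lam hn)
  · exact Or.inr ⟨u, by rw [hn, ups_unit], r, hn⟩

end Pool.Agent.Y688
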