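import Pool.Agent.Y688.G22

/-!
# Places over `2`
-/

set_option autoImplicit false

open Complex Filter Topology
open scoped PeriodPair

namespace Pool.Agent.Y688

open Pool.Agent.W192.HK Pool.Agent.TH936.CM H667R3

theorem exists_place2 : ∃ O : ValuationSubring ℂ, O.valuation 2 < 1 := by
  let A : Subring ℂ := (Int.castRingHom ℂ).range
  have hpA : (2 : ℂ) ∈ A := ⟨(2 : ℤ), by simp⟩
  let I : Ideal A := Ideal.span {⟨(2 : ℂ), hpA⟩}
  have hI : I ≠ ⊤ := by
    intro h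
    have h1 : (1 : A) ∈ I := by rw [h]; trivial
    obtain ⟨⟨_, n, rfl⟩, hn⟩ := Ideal.mem_span_singleton'.mp h1
    have h2 := congrArg Subtype.val hn
    have h3 : (n : ℂ) * (2 : ℂ) = 1 := h2
    have h4 : n * (2 : ℤ) = 1 := by exact_mod_cast h3
    omega
  obtain ⟨B, -, hB⟩ := I.image_subset_nonunits_valuationSubring hI
  refine ⟨B, ?_⟩
  rw [← ValuationSubring.mem_nonunits_iff]
  exact hB ⟨_, Ideal.subset_span rfl, rfl⟩

variable {Γ : Type*} [LinearOrderedCommGroupWithZero Γ] {v : Valuation ℂ Γ}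

lemma v_nat (n : ℕ) : v (n : ℂ) ≤ 1 := by
  induction n with
  | zero => simp
  | succ n ih =>
    push_cast
    exact (v.map_add _ _).trans (max_le ih (by simp))

lemma v_int (n : ℤ) : v (n : ℂ) ≤ 1 := by
  obtain ⟨m, rfl | rfl⟩ := n.eq_nat_or_neg
  · exact_mod_cast v_nat m
  · push_cast
    rw [v.map_neg]
    exact v_nat m

lemma v_odd (h2 : v 2 < 1) {n : ℤ} (hn : Odd n) : v (n : ℂ) = 1 := by
  obtain ⟨k, rfl⟩ := hn
  push_cast
  rw [add_comm]
  refine v.map_one_add_of_lt ?_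
  rw [map_mul]
  calc v 2 * v (k : ℂ) ≤ v 2 * 1 := by
        gcongr
        exact v_int k
    _ < 1 := by rwa [mul_one]

lemma v_root {ζ : ℂ} {n : ℕ} (hn : n ≠ 0) (h : ζ ^ n = 1) : v ζ = 1 := by
  have h1 : v ζ ^ n = 1 := by rw [← map_pow, h, map_one]
  rcases lt_trichotomy (v ζ) 1 with h2 | h2 | h2
  · exact absurd h1 (pow_lt_one₀ zero_le h2 hn).ne
  · exact h2
  · exact absurd h1 (one_lt_pow₀ h2 hn).ne'

lemma v_sub_one (h2 : v 2 < 1) (k : ℕ) : ∀ {ζ : ℂ}, ζ ^ 2 ^ k = 1 → v (ζ - 1) < 1 := by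
  induction k with
  | zero =>
    intro ζ h
    rw [pow_zero, pow_one] at h
    rw [h]
    simp
  | succ k ih =>
    intro ζ h
    have h3 : (ζ ^ 2) ^ 2 ^ k = 1 := by
      rw [← pow_mul, ← h]
      congr 1
      ring
    have h4 := ih h3
    by_contra h5
    push Not at h5
    have h6 : v 2 < v (ζ - 1) := lt_of_lt_of_le h2 h5
    have h7 : v (ζ - 1 + 2) = v (ζ - 1) := v.map_add_eq_of_lt_left h6
    have h8 : ζ ^ 2 - 1 = (ζ - 1) * (ζ - 1 + 2) := by ring
    rw [h8, map_mul, h7] at h4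
    have h9 : 1 ≤ v (ζ - 1) * v (ζ - 1) := by
      calc (1 : Γ) = 1 * 1 := (one_mul 1).symm
        _ ≤ v (ζ - 1) * v (ζ - 1) := mul_le_mul' h5 h5
    exact absurd h4 (not_lt.2 h9)

/-- elements of `ℤ[ω]` are integral -/
lemma v_RR (r : RR) : v (r : ℂ) ≤ 1 := by
  obtain ⟨a, b, h⟩ := (mem_RR r).1 r.2
  rw [h]
  have hw : v w = 1 := v_root (n := 3) (by norm_num) w_cube
  refine (v.map_add _ _).trans (max_le (v_int a) ?_)
  rw [map_mul, hw, mul_one]
  exact v_int b

/-- an involution trick: sums of invariant functions are divisible by `2` -/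
lemma v_invol {ι : Type*} [Fintype ι] (σ : ι → ι) (hσ : ∀ i, σ (σ i) = i) (f : ι → ℂ)
    (hf : ∀ i, f (σ i) = f i) (h0 : ∀ i, σ i = i → f i = 0) (hv2 : v 2 ≠ 0)
    (hv : ∀ i, v (f i) < 1) : v (∑ i, f i) < v 2 := by
  let H : AddSubgroup ℂ :=
    { carrier := {z | v z < v 2}
      add_mem' := fun ha hb => v.map_add_lt ha hb
      zero_mem' := by
        show v 0 < v 2
        rw [map_zero]
        exact zero_lt_iff.2 hv2
      neg_mem' := fun ha => by
        show v (-_) < v 2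
        rw [v.map_neg]
        exact ha }
  have h1 : ∑ i, (QuotientAddGroup.mk (f i) : ℂ ⧸ H) = 0 := by
    refine Finset.sum_involution (fun i _ => σ i) ?_ ?_ ?_ ?_
    · intro i _
      rw [hf, ← QuotientAddGroup.mk_add, QuotientAddGroup.eq_zero_iff]
      show v (f i + f i) < v 2
      rw [← two_mul, map_mul]
      calc v 2 * v (f i) < v 2 * 1 := by
            exact mul_lt_mul_of_pos_left (hv i) (zero_lt_iff.2 hv2)
        _ = v 2 := mul_one _
    · intro i _ hne he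
      apply hne
      rw [h0 i he]
      rfl
    · intro i _
      exact Finset.mem_univ _
    · intro i _
      exact hσ i
  have h2 : (QuotientAddGroup.mk (∑ i, f i) : ℂ ⧸ H) = 0 := by
    have : (QuotientAddGroup.mk (∑ i, f i) : ℂ ⧸ H) = QuotientAddGroup.mk' H (∑ i, f i) := rfl
    rw [this, map_sum]
    exact h1
  rw [QuotientAddGroup.eq_zero_iff] at h2
  exact h2

/-! ### torsion points -/

variable {L : PeriodPair} {Ω : ℂ}

lemma odd_pow (h : HL L Ω) {N : ℕ} (hN : Odd N) {z : ℂ} (hNz : (N : ℂ) * z ∈ L.lattice)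
    (hz : z ∉ L.lattice) (k : ℕ) : (2 : ℂ) ^ k * z ∉ L.lattice := by
  intro hk
  apply hz
  have hcop : IsCoprime ((2 : ℤ) ^ k) (N : ℤ) := by
    refine IsCoprime.pow_left ?_
    rw [Int.isCoprime_iff_gcd_eq_one]
    have : Nat.Coprime 2 N := (Nat.coprime_two_left).2 hN
    exact_mod_cast this
  obtain ⟨a, b, hab⟩ := hcop
  have h1 : z = (a : ℤ) • ((2 : ℂ) ^ k * z) + (b : ℤ) • ((N : ℂ) * z) := by
    rw [zsmul_eq_mul, zsmul_eq_mul]
    have h2 : (a : ℂ) * 2 ^ k + b * N = 1 := by exact_mod_cast hab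
    linear_combination -z * h2
  rw [h1]
  exact add_mem (zsmul_mem hk a) (zsmul_mem hNz b)

theorem v_wp (h : HL L Ω) (h2 : v 2 < 1) {N : ℕ} (hN : Odd N) {z : ℂ}
    (hNz : (N : ℂ) * z ∈ L.lattice) (hz : z ∉ L.lattice) : v (℘[L] z) ≤ 1 := by
  by_contra hc
  push Not at hc
  have v4 : v 4 < 1 := by
    have : (4 : ℂ) = 2 * 2 := by norm_num
    rw [this, map_mul]
    exact mul_lt_one_of_nonneg_of_lt_one_left zero_le h2 h2.le
  -- the step
  have step : ∀ u : ℂ, 2 * u ∉ L.lattice → 1 < v (℘[L] u) → v (℘[L] u) < v (℘[L] (2 * u)) := by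
    intro u hu hx
    have hu0 := two_mul_notMem_of L hu
    have hp := wp'_ne_zero L hu
    have hcv := h.curve hu0
    have hd : ℘[L] (2 * u) * (4 * ℘[L] u ^ 3 + 1) = ℘[L] u * (℘[L] u ^ 3 - 2) := by
      have h3 := h.dup hu
      rw [← hcv]
      have hp2 : ℘'[L] u ^ 2 ≠ 0 := pow_ne_zero 2 hp
      have h4 : ℘[L] (2 * u) = ℘[L] u + -3 * (℘[L] u * (℘[L] u ^ 3 + 1) / ℘'[L] u ^ 2) := by
        linear_combination h3
      rw [h4, add_mul, mul_assoc (-3 : ℂ), div_mul_cancel₀ _ hp2, hcv]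
      ring
    set x := ℘[L] u with hx'
    have hx3 : 1 < v x ^ 3 := one_lt_pow₀ hx (by norm_num)
    have e1 : v (x ^ 3 - 2) = v x ^ 3 := by
      rw [v.map_sub_eq_of_lt_left (by rw [map_pow]; exact h2.trans hx3), map_pow]
    have e2 : v (4 * x ^ 3 + 1) < v x ^ 3 := by
      refine v.map_add_lt ?_ (by rwa [map_one])
      rw [map_mul, map_pow]
      calc v 4 * v x ^ 3 < 1 * v x ^ 3 := mul_lt_mul_of_pos_right v4 (zero_lt_one.trans hx3)
        _ = _ := one_mul _
    have e3 := congrArg v hd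
    rw [map_mul, map_mul, e1] at e3
    by_contra h5
    push Not at h5
    have hx0 : 0 < v x := zero_lt_one.trans hx
    have h6 : v (℘[L] (2 * u)) * v (4 * x ^ 3 + 1) < v x * v x ^ 3 := by
      calc v (℘[L] (2 * u)) * v (4 * x ^ 3 + 1) ≤ v x * v (4 * x ^ 3 + 1) := by gcongr
        _ < v x * v x ^ 3 := mul_lt_mul_of_pos_left e2 hx0
    exact absurd e3 h6.ne
  have hodd := odd_pow h hN hNz hz
  have hall : ∀ k : ℕ, 1 < v (℘[L] ((2 : ℂ) ^ k * z)) ∧
      (0 < k → v (℘[L] z) < v (℘[L] ((2 : ℂ) ^ k * z))) := by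
    intro k
    induction k with
    | zero =>
      rw [pow_zero, one_mul]
      exact ⟨hc, fun h => absurd h (lt_irrefl 0)⟩
    | succ k ih =>
      have e : (2 : ℂ) ^ (k + 1) * z = 2 * (2 ^ k * z) := by ring
      have h3 := step (2 ^ k * z) (by rw [← e]; exact hodd (k + 1)) ih.1
      rw [← e] at h3
      refine ⟨ih.1.trans h3, fun _ => ?_⟩
      rcases Nat.eq_zero_or_pos k with hk | hk
      · subst hk
        rw [pow_zero, one_mul] at h3
        exact h3
      · exact (ih.2 hk).trans h3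
  -- periodicity
  have hN0 : 0 < N := hN.pos
  have hφ : 0 < N.totient := Nat.totient_pos.2 hN0
  have h7 := (hall N.totient).2 hφ
  have h8 : ℘[L] ((2 : ℂ) ^ N.totient * z) = ℘[L] z := by
    have h9 : (2 ^ N.totient : ℕ) ≡ 1 [MOD N] := Nat.ModEq.pow_totient ((Nat.coprime_two_left).2 hN)
    have h10 : N ∣ 2 ^ N.totient - 1 := (Nat.modEq_iff_dvd' (Nat.one_le_two_pow)).1 h9.symm
    obtain ⟨m, hm⟩ := h10
    have h11 : (2 : ℂ) ^ N.totient = 1 + N * m := by
      have : 2 ^ N.totient = 1 + N * m := by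
        have := Nat.one_le_two_pow (n := N.totient)
        omega
      exact_mod_cast this
    have h12 : (2 : ℂ) ^ N.totient * z = z + (m : ℤ) • ((N : ℂ) * z) := by
      rw [h11, zsmul_eq_mul]
      push_cast
      ring
    rw [h12]
    exact L.weierstrassP_add_coe z ⟨_, zsmul_mem hNz (m : ℤ)⟩
  rw [h8] at h7
  exact lt_irrefl _ h7

theorem v_wp' (h : HL L Ω) (h2 : v 2 < 1) {N : ℕ} (hN : Odd N) {z : ℂ}
    (hNz : (N : ℂ) * z ∈ L.lattice) (hz : z ∉ L.lattice) : v (℘'[L] z) = 1 := by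
  have h3 := v_wp h h2 hN hNz hz
  have h4 := h.curve hz
  have v4 : v 4 < 1 := by
    have : (4 : ℂ) = 2 * 2 := by norm_num
    rw [this, map_mul]
    exact mul_lt_one_of_nonneg_of_lt_one_left zero_le h2 h2.le
  have h5 : v (℘'[L] z ^ 2) = 1 := by
    rw [h4, add_comm]
    refine v.map_one_add_of_lt ?_
    rw [map_mul, map_pow]
    calc v 4 * v (℘[L] z) ^ 3 ≤ v 4 * 1 := by
          gcongr
          exact pow_le_one₀ zero_le h3
      _ < 1 := by rwa [mul_one]
  rw [map_pow] at h5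
  rcases lt_trichotomy (v (℘'[L] z)) 1 with h6 | h6 | h6
  · exact absurd h5 (pow_lt_one₀ zero_le h6 two_ne_zero).ne
  · exact h6
  · exact absurd h5 (one_lt_pow₀ h6 two_ne_zero).ne'

end Pool.Agent.Y688
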