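import Pool.Agent.Y688.V1

/-!
# The `2`-adic size of the kernel sum
-/

set_option autoImplicit false

open Complex Filter Topology
open scoped PeriodPair

namespace Pool.Agent.Y688

open Pool.Agent.W192.HK Pool.Agent.TH936.CM H667R3

variable {Γ : Type*} [LinearOrderedCommGroupWithZero Γ] {v : Valuation ℂ Γ}
variable {L : PeriodPair} {Ω : ℂ}

/-- the second kernel -/
noncomputable def k2 (L : PeriodPair) (Ω : ℂ) (M : ℕ) (b : RR) : ℂ :=
  ℘[L] (Ω * b / M) * (℘[L] (Ω * b / M) ^ 3 + 1) / ℘'[L] (Ω * b / M) ^ 2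

/-- the kernel sum -/
noncomputable def Sm (L : PeriodPair) (Ω : ℂ) (M : ℕ) [NeZero M] (e e' t : RR) (c : RR → RR → ℂ) :
    ℂ :=
  ∑ a : RM M, ∑ b : RM M, c (2 * a.out) (2 * b.out) * kk L Ω M e e' a.out b.out -
    t * ∑ q : RM M, c 0 (2 * q.out) * k2 L Ω M q.out

lemma wp'_per (hL : IsLat L RR Ω) (M : ℕ) [NeZero M] : Per M (fun z => ℘'[L] (Ω * z / M)) := by
  have hM0 : (M : ℂ) ≠ 0 := by exact_mod_cast NeZero.ne M
  refine per_of fun z r => ?_
  have e : Ω * ((z + (M : RR) * r : RR) : ℂ) / M = Ω * z / M + Ω * r := by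
    push_cast
    field_simp
  rw [e]
  exact L.derivWeierstrassP_add_coe _ ⟨_, hL.mem_mul r⟩

lemma kk_per (hL : IsLat L RR Ω) (M : ℕ) [NeZero M] (e e' : RR) :
    (∀ x, Per M (fun y => kk L Ω M e e' x y)) ∧ (∀ y, Per M (fun x => kk L Ω M e e' x y)) := by
  have h1 := wp_per hL M
  have h2 := wp'_per hL M
  constructor
  · intro x y y' h
    have a1 := h1 y y' h
    have a2 := h2 y y' h
    simp only at a1 a2
    unfold kk
    simp only
    rw [a1, a2]
  · intro y x x' h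
    have a1 := h1 x x' h
    have a2 := h2 x x' h
    simp only at a1 a2
    unfold kk
    simp only
    rw [a1, a2]

lemma k2_per (hL : IsLat L RR Ω) (M : ℕ) [NeZero M] : Per M (k2 L Ω M) := by
  intro y y' h
  have a1 := wp_per hL M y y' h
  have a2 := wp'_per hL M y y' h
  simp only at a1 a2
  unfold k2
  rw [a1, a2]

lemma neg_arg (Ω : ℂ) (M : ℕ) (a : RR) : Ω * ((-a : RR) : ℂ) / M = -(Ω * a / M) := by
  push_cast
  ring

lemma kk_neg (M : ℕ) (e e' a b : RR) : kk L Ω M e e' (-a) (-b) = kk L Ω M e e' a b := by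
  unfold kk
  rw [neg_arg, neg_arg, L.weierstrassP_neg, L.weierstrassP_neg, L.derivWeierstrassP_neg,
    L.derivWeierstrassP_neg, neg_mul_neg]

lemma k2_neg (M : ℕ) (b : RR) : k2 L Ω M (-b) = k2 L Ω M b := by
  unfold k2
  rw [neg_arg, L.weierstrassP_neg, L.derivWeierstrassP_neg, neg_sq]

lemma Per.neg_out {M : ℕ} {f : RR → ℂ} (hf : Per M f) (q : RM M) : f (-q).out = f (-q.out) := by
  refine hf _ _ ?_
  rw [← Ideal.Quotient.mk_eq_mk_iff_sub_mem, Ideal.Quotient.mk_out, map_neg, Ideal.Quotient.mk_out]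

lemma tors_mem (hL : IsLat L RR Ω) {M : ℕ} [NeZero M] (a : RR) :
    (M : ℂ) * (Ω * a / M) ∈ L.lattice := by
  have hM0 : (M : ℂ) ≠ 0 := by exact_mod_cast NeZero.ne M
  have : (M : ℂ) * (Ω * a / M) = Ω * a := by field_simp
  rw [this]
  exact hL.mem_mul a

lemma mem_of_neg {M : ℕ} (hM : Odd M) {q : RM M} (h : -q = q) : q = 0 := by
  obtain ⟨k, hk⟩ := hM
  have hkR : (M : RR) = 2 * k + 1 := by rw [hk]; push_cast; ring
  have h0 : Ideal.Quotient.mk (sp (M : RR)) (M : RR) = 0 := by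
    rw [Ideal.Quotient.eq_zero_iff_mem]
    exact Ideal.mem_span_singleton_self _
  have h0' : (Ideal.Quotient.mk (sp (M : RR)) 2) * (Ideal.Quotient.mk (sp (M : RR)) (k : RR)) + 1 = 0 := by
    rw [← h0, ← map_one (Ideal.Quotient.mk (sp (M : RR))), ← map_mul, ← map_add]
    congr 1
    exact hkR.symm
  have h1 : q = ((Ideal.Quotient.mk (sp (M : RR)) 2) * (Ideal.Quotient.mk (sp (M : RR)) (k : RR)) + 1) * q := by
    have h2 : (Ideal.Quotient.mk (sp (M : RR)) 2) * q = 0 := by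
      have : (Ideal.Quotient.mk (sp (M : RR)) 2) = 2 := map_ofNat _ 2
      rw [this]
      linear_combination -h
    linear_combination -(Ideal.Quotient.mk (sp (M : RR)) (k : RR)) * h2
  rw [h1, h0', zero_mul]

lemma kk_zero (hL : IsLat L RR Ω) (M : ℕ) [NeZero M] (e e' : RR) {a b : RR}
    (h : Ω * a / M ∈ L.lattice ∨ Ω * b / M ∈ L.lattice) : kk L Ω M e e' a b = 0 := by
  unfold kk
  rcases h with h | h
  · rw [L.derivWeierstrassP_coe ⟨_, h⟩, zero_mul, div_zero]
  · rw [L.derivWeierstrassP_coe ⟨_, h⟩, mul_zero, div_zero]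

lemma k2_zero (M : ℕ) {b : RR} (h : Ω * b / M ∈ L.lattice) : k2 L Ω M b = 0 := by
  unfold k2
  rw [L.derivWeierstrassP_coe ⟨_, h⟩]
  simp

lemma out_zero_mem (hL : IsLat L RR Ω) (M : ℕ) [NeZero M] :
    Ω * ((0 : RM M).out : RR) / M ∈ L.lattice := by
  have h := Ideal.Quotient.mk_out (0 : RM M)
  rw [Ideal.Quotient.eq_zero_iff_mem, Ideal.mem_span_singleton'] at h
  obtain ⟨r, hr⟩ := h
  have hM0 : (M : ℂ) ≠ 0 := by exact_mod_cast NeZero.ne M
  rw [← hr]
  have : Ω * ((r * (M : RR) : RR) : ℂ) / M = Ω * r := by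
    push_cast
    field_simp
  rw [this]
  exact hL.mem_mul r

lemma kk_val (h : HL L Ω) (h2 : v 2 < 1) {M : ℕ} [NeZero M] (hM : Odd M) (e e' a b : RR) :
    v (kk L Ω M e e' a b) ≤ 1 := by
  by_cases ha : Ω * a / M ∈ L.lattice
  · rw [kk_zero h.toIsLat M e e' (Or.inl ha), map_zero]
    exact zero_le_one
  by_cases hb : Ω * b / M ∈ L.lattice
  · rw [kk_zero h.toIsLat M e e' (Or.inr hb), map_zero]
    exact zero_le_one
  unfold kk
  have x1 := v_wp h h2 hM (tors_mem h.toIsLat a) ha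
  have x2 := v_wp h h2 hM (tors_mem h.toIsLat b) hb
  have y1 := v_wp' h h2 hM (tors_mem h.toIsLat a) ha
  have y2 := v_wp' h h2 hM (tors_mem h.toIsLat b) hb
  rw [map_div₀, map_mul, y1, y2, one_mul, div_one]
  have mul1 : ∀ {p q : ℂ}, v p ≤ 1 → v q ≤ 1 → v (p * q) ≤ 1 := by
    intro p q hp hq
    rw [map_mul]
    exact mul_le_one' hp hq
  refine (v.map_sub _ _).trans (max_le ((v.map_sub _ _).trans (max_le ?_ ?_)) ?_)
  · rw [pow_two, pow_two]
    exact mul1 (mul1 x1 x1) (mul1 x2 x2)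
  · exact mul1 (v_RR _) x1
  · exact mul1 (v_RR _) x2

lemma k2_val (h : HL L Ω) (h2 : v 2 < 1) {M : ℕ} [NeZero M] (hM : Odd M) (b : RR) :
    v (k2 L Ω M b) ≤ 1 := by
  by_cases hb : Ω * b / M ∈ L.lattice
  · rw [k2_zero M hb, map_zero]
    exact zero_le_one
  unfold k2
  have x2 := v_wp h h2 hM (tors_mem h.toIsLat b) hb
  have y2 := v_wp' h h2 hM (tors_mem h.toIsLat b) hb
  rw [map_div₀, map_pow, y2, one_pow, div_one, map_mul]
  refine mul_le_one' x2 ((v.map_add _ _).trans (max_le ?_ (by rw [map_one])))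
  rw [map_pow]
  exact pow_le_one₀ zero_le x2

theorem Sm_small (h : HL L Ω) (h2 : v 2 < 1) (hv2 : v 2 ≠ 0) {M : ℕ} [NeZero M] (hM : Odd M)
    (e e' t : RR) {d : RR → RR → ℂ} (hcy : ∀ x, Per M (d x)) (hcx : ∀ y, Per M (fun x => d x y))
    (hneg : ∀ x y, d (-x) (-y) = d x y) (hd : ∀ x y, v (d x y) < 1) :
    v (Sm L Ω M e e' t d) < v 2 := by
  unfold Sm
  obtain ⟨ky, kx⟩ := kk_per h.toIsLat M e e'
  refine v.map_sub_lt ?_ ?_
  · rw [← Finset.sum_product', Finset.univ_product_univ]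
    refine v_invol (fun p : RM M × RM M => (-p.1, -p.2)) (fun p => by simp) _ ?_ ?_ hv2 ?_
    · rintro ⟨a, b⟩
      simp only
      have p1 : Per M (fun x => d (2 * x) (2 * (-b).out) * kk L Ω M e e' x (-b).out) := by
        refine per_of fun x r => ?_
        have e1 : 2 * (x + (M : RR) * r) = 2 * x + M * (2 * r) := by ring
        rw [e1, (hcx _).add, (kx _).add]
      have p2 : Per M (fun y => d (2 * (-a.out)) (2 * y) * kk L Ω M e e' (-a.out) y) := by
        refine per_of fun y r => ?_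
        have e1 : 2 * (y + (M : RR) * r) = 2 * y + M * (2 * r) := by ring
        rw [e1, (hcy _).add, (ky _).add]
      rw [p1.neg_out a, p2.neg_out b, kk_neg, mul_neg, mul_neg, hneg]
    · rintro ⟨a, b⟩ hab
      have h3 : a = 0 := mem_of_neg hM (congrArg Prod.fst hab)
      simp only
      rw [h3, kk_zero h.toIsLat M e e' (Or.inl (out_zero_mem h.toIsLat M)), mul_zero]
    · rintro ⟨a, b⟩
      simp only
      rw [map_mul]
      calc _ ≤ v (d (2 * a.out) (2 * b.out)) * 1 := by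
            gcongr
            exact kk_val h h2 hM _ _ _ _
        _ < 1 := by rw [mul_one]; exact hd _ _
  · rw [map_mul]
    have h4 : v (∑ q : RM M, d 0 (2 * q.out) * k2 L Ω M q.out) < v 2 := by
      refine v_invol (fun q : RM M => -q) (fun q => by simp) _ ?_ ?_ hv2 ?_
      · intro q
        have p2 : Per M (fun y => d 0 (2 * y) * k2 L Ω M y) := by
          refine per_of fun y r => ?_
          have e1 : 2 * (y + (M : RR) * r) = 2 * y + M * (2 * r) := by ring
          rw [e1, (hcy _).add, (k2_per h.toIsLat M).add]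
        rw [p2.neg_out q, k2_neg, mul_neg]
        have := hneg 0 (2 * q.out)
        rw [neg_zero] at this
        rw [this]
      · intro q hq
        rw [mem_of_neg hM hq, k2_zero M (out_zero_mem h.toIsLat M), mul_zero]
      · intro q
        rw [map_mul]
        calc _ ≤ v (d 0 (2 * q.out)) * 1 := by
              gcongr
              exact k2_val h h2 hM _
          _ < 1 := by rw [mul_one]; exact hd _ _
    calc v (t : ℂ) * v (∑ q : RM M, d 0 (2 * q.out) * k2 L Ω M q.out)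
        ≤ 1 * v (∑ q : RM M, d 0 (2 * q.out) * k2 L Ω M q.out) := by
          gcongr
          exact v_RR t
      _ < v 2 := by rwa [one_mul]

lemma Sm_sub (M : ℕ) [NeZero M] (e e' t : RR) (c d : RR → RR → ℂ) :
    Sm L Ω M e e' t (fun x y => c x y - d x y) = Sm L Ω M e e' t c - Sm L Ω M e e' t d := by
  unfold Sm
  have h1 : ∑ a : RM M, ∑ b : RM M, (c (2 * a.out) (2 * b.out) - d (2 * a.out) (2 * b.out)) *
      kk L Ω M e e' a.out b.out =
      ∑ a : RM M, ∑ b : RM M, c (2 * a.out) (2 * b.out) * kk L Ω M e e' a.out b.out -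
      ∑ a : RM M, ∑ b : RM M, d (2 * a.out) (2 * b.out) * kk L Ω M e e' a.out b.out := by
    rw [← Finset.sum_sub_distrib]
    refine Finset.sum_congr rfl fun a _ => ?_
    rw [← Finset.sum_sub_distrib]
    refine Finset.sum_congr rfl fun b _ => ?_
    ring
  have h2 : ∑ q : RM M, (c 0 (2 * q.out) - d 0 (2 * q.out)) * k2 L Ω M q.out =
      ∑ q : RM M, c 0 (2 * q.out) * k2 L Ω M q.out - ∑ q : RM M, d 0 (2 * q.out) * k2 L Ω M q.out := by
    rw [← Finset.sum_sub_distrib]
    refine Finset.sum_congr rfl fun b _ => ?_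
    ring
  rw [h1, h2]
  ring

/-- a congruence modulo the maximal ideal preserves the size of the kernel sum -/
theorem Sm_cong (h : HL L Ω) (h2 : v 2 < 1) (hv2 : v 2 ≠ 0) {M : ℕ} [NeZero M] (hM : Odd M)
    (e e' t : RR) {c d : RR → RR → ℂ} (hcy : ∀ x, Per M (c x)) (hcx : ∀ y, Per M (fun x => c x y))
    (hdy : ∀ x, Per M (d x)) (hdx : ∀ y, Per M (fun x => d x y))
    (hneg : ∀ x y, c (-x) (-y) = c x y) (hneg' : ∀ x y, d (-x) (-y) = d x y)
    (hd : ∀ x y, v (c x y - d x y) < 1) (hval : v (Sm L Ω M e e' t d) = v 2) :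
    Sm L Ω M e e' t c ≠ 0 := by
  have h3 := Sm_small (L := L) (Ω := Ω) h h2 hv2 hM e e' t (d := fun x y => c x y - d x y)
    (fun x => per_of fun y r => by rw [(hcy x).add, (hdy x).add])
    (fun y => per_of fun x r => by
      have a1 := (hcx y).add x r
      have a2 := (hdx y).add x r
      rw [a1, a2])
    (fun x y => by rw [hneg, hneg']) hd
  rw [Sm_sub] at h3
  intro h0
  rw [h0, zero_sub, v.map_neg, hval] at h3
  exact lt_irrefl _ h3

end Pool.Agent.Y688
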